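import Pool.Agent.Lib.MP_9dbb0e_al.Defs

/-!
# JOB A1: alternating products, homomorphisms from Artin groups

PROOFS. `alt_zero`, `alt_one`: unfold. `alt_succ`: `List.range_succ`, `List.map_append`, `List.prod_append`. `alt_succ'`: `List.range_succ_eq_map`, the parity of `k + 1`. `alt_map`: `map_list_prod`, `List.map_map`. `alt_comm_of_commute`: by the general formula, or: if `a, b` commute both sides are `a ^ ⌈n/2⌉ b ^ ⌊n/2⌋`; for `n = 2`:
`alt a b 2 = a * b`.
`braid`: `PresentedGroup.mk` of the relation `r` is `1` (`PresentedGroup.one_of_mem`), `map_mul`, `map_inv`, `map_list_prod`; `mul_inv_eq_one`.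
`exists_lift`: `PresentedGroup.toGroup` (every relation is mapped to `1`: `FreeGroup.lift f r = alt .. * (alt ..)⁻¹`). `art_ext`: `PresentedGroup.ext`.
`alt_eq_of_dvd`: `m ∣ n`, `alt a b m = alt b a m` implies `alt a b n = alt b a n`: `alt a b (m + r) = alt a b m * (if Even m then alt a b r else alt b a r)` (induction on `r`), then induction on the quotient.
-/

set_option autoImplicit false

namespace Pool.Agent.Lib.MP_9dbb0e_al

theorem alt_zero {G : Type*} [Monoid G] (a b : G) : alt a b 0 = 1 := by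
  simp [alt]

theorem alt_two {G : Type*} [Monoid G] (a b : G) : alt a b 2 = a * b := by
  simp [alt, List.range_succ]

theorem alt_succ {G : Type*} [Monoid G] (a b : G) (n : ℕ) :
    alt a b (n + 1) = alt a b n * (if Even n then a else b) := by
  simp [alt, List.range_succ]

theorem alt_succ' {G : Type*} [Monoid G] (a b : G) (n : ℕ) :
    alt a b (n + 1) = a * alt b a n := by
  induction n with
  | zero =>
    rw [alt_succ, alt_zero, alt_zero]
    simp
  | succ n ih =>
    rw [alt_succ, ih, alt_succ b a n, mul_assoc]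
    by_cases hn : Even n
    · have h1 : ¬ Even (n + 1) := by rw [Nat.even_add_one]; exact fun h => h hn
      rw [if_pos hn, if_neg h1]
    · have h1 : Even (n + 1) := Nat.even_add_one.mpr hn
      rw [if_neg hn, if_pos h1]

theorem alt_map {G H : Type*} [Monoid G] [Monoid H] (f : G →* H) (a b : G) (n : ℕ) :
    f (alt a b n) = alt (f a) (f b) n := by
  induction n with
  | zero => rw [alt_zero, alt_zero, map_one]
  | succ n ih =>
    rw [alt_succ, alt_succ, map_mul, ih]
    by_cases hn : Even n
    · rw [if_pos hn, if_pos hn]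
    · rw [if_neg hn, if_neg hn]

variable {B : Type} (M : CoxeterMatrix B)

theorem braid (i j : B) (hij : i ≠ j) (h : M.M i j ≠ 0) :
    alt (σ M i) (σ M j) (M.M i j) = alt (σ M j) (σ M i) (M.M i j) := by
  have h1 : PresentedGroup.mk (rels M) (alt (FreeGroup.of i) (FreeGroup.of j) (M.M i j))
      = PresentedGroup.mk (rels M) (alt (FreeGroup.of j) (FreeGroup.of i) (M.M i j)) :=
    PresentedGroup.mk_eq_mk_of_mul_inv_mem ⟨i, j, hij, h, rfl⟩
  rw [alt_map, alt_map] at h1
  exact h1

theorem exists_lift {G : Type*} [Group G] (f : B → G)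
    (hf : ∀ i j, i ≠ j → M.M i j ≠ 0 → alt (f i) (f j) (M.M i j) = alt (f j) (f i) (M.M i j)) :
    ∃ F : Art M →* G, ∀ i, F (σ M i) = f i := by
  have h : ∀ r ∈ rels M, FreeGroup.lift f r = 1 := by
    rintro r ⟨i, j, hij, h0, rfl⟩
    have h2 := hf i j hij h0
    have e1 : FreeGroup.lift f (alt (FreeGroup.of i) (FreeGroup.of j) (M.M i j))
        = alt (f i) (f j) (M.M i j) := by
      rw [alt_map, FreeGroup.lift_apply_of, FreeGroup.lift_apply_of]
    have e2 : FreeGroup.lift f (alt (FreeGroup.of j) (FreeGroup.of i) (M.M i j))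
        = alt (f j) (f i) (M.M i j) := by
      rw [alt_map, FreeGroup.lift_apply_of, FreeGroup.lift_apply_of]
    show FreeGroup.lift f (alt (FreeGroup.of i) (FreeGroup.of j) (M.M i j) *
      (alt (FreeGroup.of j) (FreeGroup.of i) (M.M i j))⁻¹) = 1
    rw [map_mul, map_inv, e1, e2, h2, mul_inv_cancel]
  exact ⟨PresentedGroup.toGroup h, fun i => PresentedGroup.toGroup.of h⟩

theorem art_ext {G : Type*} [Group G] (F F' : Art M →* G) (h : ∀ i, F (σ M i) = F' (σ M i)) :
    F = F' :=
  PresentedGroup.ext h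

theorem exists_incl (p : B → Prop) :
    ∃ F : Art (sub M p) →* Art M, ∀ x, F (σ (sub M p) x) = σ M x.1 :=
  exists_lift (sub M p) (fun x => σ M x.1)
    (fun i j hij h0 => braid M i.1 j.1 (fun h => hij (Subtype.ext h)) h0)

theorem exists_incl' (p q : B → Prop) (hpq : ∀ i, p i → q i) :
    ∃ F : Art (sub M p) →* Art (sub M q), ∀ x : {i // p i},
      F (σ (sub M p) x) = σ (sub M q) ⟨x.1, hpq x.1 x.2⟩ :=
  exists_lift (sub M p) (fun x => σ (sub M q) ⟨x.1, hpq x.1 x.2⟩)
    (fun i j hij h0 => braid (sub M q) ⟨i.1, hpq i.1 i.2⟩ ⟨j.1, hpq j.1 j.2⟩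
      (fun h => hij (by
        have h' := congrArg Subtype.val h
        exact Subtype.ext h')) h0)

end Pool.Agent.Lib.MP_9dbb0e_al
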