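import Pool.Agent.Lib.MP_9dbb0e_al.W5c

/-!
# JOB W6: the theorem of van der Lek: parabolic subgroups of Artin groups

PROOF. `cs = M.toCoxeterSystem`. `exists_lift M (stp cs p) braid_stp` gives `Ψ : Art M →* Equiv.Perm (St cs p)`. Let `e : {v // MinR cs p v} = ⟨1, minR_one cs p⟩`. CLAIM: `Ψ (F a) (e, β) = (e, a * β)` for all `a : Art (sub M p)` and all `β`. The set of the `a` satisfying it is closed under products and inverses (`Equiv.Perm.mul_apply`;
for the inverse apply the claim for `a` to `a⁻¹ * β`), it contains the generators: `Ψ (F (σ x)) = stp cs p x.1`, `s x * 1 = 1 * s x`, `stp_loop`. The generators generate (`PresentedGroup.closure_range_of`, `Subgroup.closure_induction`). Now `F a = 1` gives `(e, a * 1) = (e, 1)`.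
`vdl'`: the composition of `F` with the inclusion `Art (sub M q) →* Art M` (`exists_incl`) is the inclusion of `sub M p` (`art_ext`), injective by `vdl`.
-/

set_option autoImplicit false

namespace Pool.Agent.Lib.MP_9dbb0e_al

theorem vdl {B : Type} (M : CoxeterMatrix B) (p : B → Prop) (F : Art (sub M p) →* Art M)
    (hF : ∀ x, F (σ (sub M p) x) = σ M x.1) : Function.Injective F := by
  classical
  let cs := M.toCoxeterSystem
  obtain ⟨Ψ, hΨ⟩ := exists_lift M (stp cs p) (braid_stp cs p)
  let e : {v : M.Group // MinR cs p v} := ⟨1, minR_one cs p⟩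
  have hgen : ∀ (x : {i // p i}) (β : Art (sub M p)),
      Ψ (F (σ (sub M p) x)) (e, β) = (e, σ (sub M p) x * β) := by
    intro x β
    rw [hF, hΨ]
    refine stp_loop cs p x.1 e β x ?_
    change cs.simple x.1 * 1 = 1 * cs.simple x.1
    rw [mul_one, one_mul]
  have hall : ∀ (a : Art (sub M p)) (β : Art (sub M p)), Ψ (F a) (e, β) = (e, a * β) := by
    intro a
    have ha : a ∈ Subgroup.closure (Set.range (PresentedGroup.of (rels := rels (sub M p)))) := by
      rw [PresentedGroup.closure_range_of]
      exact Subgroup.mem_top a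
    induction ha using Subgroup.closure_induction with
    | mem x hx =>
      obtain ⟨y, rfl⟩ := hx
      exact hgen y
    | one =>
      intro β
      rw [map_one, map_one, one_mul]
      rfl
    | mul a b _ _ iha ihb =>
      intro β
      rw [map_mul, map_mul, Equiv.Perm.mul_apply, ihb, iha, mul_assoc]
    | inv a _ iha =>
      intro β
      rw [map_inv, map_inv, Equiv.Perm.inv_eq_iff_eq, iha, mul_inv_cancel_left]
  rw [injective_iff_map_eq_one]
  intro a ha
  have h := hall a 1
  rw [ha, map_one, mul_one] at h
  exact (congrArg Prod.snd h).symm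

theorem vdl' {B : Type} (M : CoxeterMatrix B) (p q : B → Prop) (hpq : ∀ i, p i → q i)
    (F : Art (sub M p) →* Art (sub M q))
    (hF : ∀ x : {i // p i}, F (σ (sub M p) x) = σ (sub M q) ⟨x.1, hpq x.1 x.2⟩) :
    Function.Injective F := by
  obtain ⟨I, hI⟩ := exists_incl M q
  have h := vdl M p (I.comp F) (fun x => by
    rw [MonoidHom.comp_apply, hF, hI])
  rw [MonoidHom.coe_comp] at h
  exact h.of_comp

end Pool.Agent.Lib.MP_9dbb0e_al
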