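import Pool.Agent.Lib.MP_9dbb0e_al.G3
import Pool.Agent.Lib.MP_9dbb0e_al.W6

/-!
# JOB A2: one relation

PROOF. `classical`. Index type `Bool`. `q true = fun i => i ≠ s`, `q false = fun i => i ≠ t`, `r = fun i => i ≠ s ∧ i ≠ t`. `G b = Art (sub M (q b))`, `H = Art (sub M r)`, `φ b : H →* G b` from `exists_incl'`, injective by `vdl'`. `ι b : G b →* Art M` from `exists_incl`, injective by `vdl`, `κ : H →* Art M` the inclusion (`exists_incl`), `(ι b).comp (φ b) = κ` (`art_ext`).
`Φ = PushoutI.lift ι κ _ : PushoutI φ →* Art M`; `Φ.comp (base φ) = κ` is injective (`vdl`). `PA (G b)`, `PA H`: `PA_of_injective`. So `pushout_PA` gives `PA (PushoutI φ)`.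
`Art M' →* PushoutI φ`: `exists_lift M'` with `f i = of true (σ ⟨i, _⟩)` if `i ≠ s`, and `f s = of false (σ ⟨s, hst⟩)`. For `i ≠ s`, `i ≠ t` also `f i = of false (σ ⟨i, _⟩)` (both are `base φ (σ ⟨i, _⟩)`: `of_apply_eq_base`). Relations of `M'` for `i ≠ j`, `M' i j ≠ 0`: then `{i, j} ≠ {s, t}` and `M' i j = M i j`: if `i, j ≠ s`:
the relation holds in `G true` (`braid (sub M (q true))`, `alt_map`); otherwise one of them is `s` and the other one is `≠ t`, `≠ s`: the relation holds in `G false` (for `i, j` both `≠ t`). Back: `PushoutI φ →* Art M'`: `lift` of the homs `G b →* Art M'`, `H →* Art M'` (`exists_lift (sub M (q b))` with `f x = σ M' x.1`: `(sub M (q b)).M x y = M.M x y = M'.M x y`, because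
`x, y` are both `≠ s` or both `≠ t`; `braid M'`). The composition `Art M' → PushoutI φ → Art M'` is the identity (`art_ext`), so the first map is injective: `PA_of_injective`.
-/

set_option autoImplicit false

namespace Pool.Agent.Lib.MP_9dbb0e_al

open Monoid Monoid.PushoutI

private def a2q {B : Type} (s t : B) : Bool → B → Prop
  | true => fun i => i ≠ s
  | false => fun i => i ≠ t

private def a2r {B : Type} (s t : B) : B → Prop := fun i => i ≠ s ∧ i ≠ t

private theorem a2r_q {B : Type} (s t : B) (b : Bool) (i : B) (h : a2r s t i) : a2q s t b i := by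
  cases b
  · exact h.2
  · exact h.1

private theorem a2q_ne {B : Type} {s t : B} {b : Bool} {i j : B} (hi : a2q s t b i)
    (hj : a2q s t b j) : ¬ (i = s ∧ j = t) ∧ ¬ (i = t ∧ j = s) := by
  cases b
  · exact ⟨fun h => hj h.2, fun h => hi h.1⟩
  · exact ⟨fun h => hi h.1, fun h => hj h.2⟩

private theorem a2_alt {B : Type} (M : CoxeterMatrix B) (p : B → Prop) {K : Type*} [Group K]
    (f : Art (sub M p) →* K) (i j : B) (hi : p i) (hj : p j) (hij : i ≠ j) (h0 : M.M i j ≠ 0) :
    alt (f (σ (sub M p) ⟨i, hi⟩)) (f (σ (sub M p) ⟨j, hj⟩)) (M.M i j) =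
      alt (f (σ (sub M p) ⟨j, hj⟩)) (f (σ (sub M p) ⟨i, hi⟩)) (M.M i j) := by
  rw [← alt_map, ← alt_map]
  have h := braid (sub M p) ⟨i, hi⟩ ⟨j, hj⟩ (fun e => hij (congrArg Subtype.val e)) h0
  exact congrArg f h

theorem PA_step {B : Type} (M M' : CoxeterMatrix B) (s t : B) (hst : s ≠ t) (h0 : M'.M s t = 0)
    (h : ∀ i j, ¬ (i = s ∧ j = t) → ¬ (i = t ∧ j = s) → M'.M i j = M.M i j)
    (hPA : PA (Art M)) : PA (Art M') := by
  classical
  choose φ hφ using fun b : Bool => exists_incl' M (a2r s t) (a2q s t b) (a2r_q s t b)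
  choose ι hι using fun b : Bool => exists_incl M (a2q s t b)
  obtain ⟨κ, hκ⟩ := exists_incl M (a2r s t)
  have hφinj : ∀ b, Function.Injective (φ b) :=
    fun b => vdl' M (a2r s t) (a2q s t b) (a2r_q s t b) (φ b) (hφ b)
  have hιinj : ∀ b, Function.Injective (ι b) := fun b => vdl M (a2q s t b) (ι b) (hι b)
  have hκinj : Function.Injective κ := vdl M (a2r s t) κ hκ
  have hcomp : ∀ b, (ι b).comp (φ b) = κ := by
    intro b
    refine art_ext _ _ _ (fun x => ?_)
    rw [MonoidHom.comp_apply, hφ, hι, hκ]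
  let Φ : PushoutI φ →* Art M := PushoutI.lift ι κ hcomp
  have hΦ : Φ.comp (base φ) = κ := MonoidHom.ext fun x => lift_base ι κ hcomp x
  have hΦinj : Function.Injective (Φ.comp (base φ)) := by
    rw [hΦ]
    exact hκinj
  have hP : PA (PushoutI φ) := pushout_PA φ hφinj Φ hΦinj hPA
    (fun b => PA_of_injective (ι b) (hιinj b) hPA) (PA_of_injective κ hκinj hPA)
  -- the map to the amalgam
  let f : B → PushoutI φ := fun i =>
    if hi : i = s then of false (σ (sub M (a2q s t false)) ⟨i, fun e => hst (hi.symm.trans e)⟩)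
    else of true (σ (sub M (a2q s t true)) ⟨i, hi⟩)
  have hft : ∀ i (hi : a2q s t true i), f i = of true (σ (sub M (a2q s t true)) ⟨i, hi⟩) := by
    intro i hi
    have hi' : ¬ i = s := hi
    exact dif_neg hi'
  have hff : ∀ i (hi : a2q s t false i), f i = of false (σ (sub M (a2q s t false)) ⟨i, hi⟩) := by
    intro i hi
    by_cases his : i = s
    · exact dif_pos his
    · rw [hft i his]
      have e1 := hφ true ⟨i, ⟨his, hi⟩⟩
      have e2 := hφ false ⟨i, ⟨his, hi⟩⟩
      have e3 := of_apply_eq_base φ true (σ (sub M (a2r s t)) ⟨i, ⟨his, hi⟩⟩)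
      have e4 := of_apply_eq_base φ false (σ (sub M (a2r s t)) ⟨i, ⟨his, hi⟩⟩)
      rw [e1] at e3
      rw [e2] at e4
      exact e3.trans e4.symm
  have hfb : ∀ b i (hi : a2q s t b i), f i = of b (σ (sub M (a2q s t b)) ⟨i, hi⟩) := by
    intro b
    cases b
    · exact hff
    · exact hft
  have hts : M'.M t s = 0 := (M'.symmetric t s).trans h0
  have hrel : ∀ i j, i ≠ j → M'.M i j ≠ 0 →
      alt (f i) (f j) (M'.M i j) = alt (f j) (f i) (M'.M i j) := by
    intro i j hij hne
    have n1 : ¬ (i = s ∧ j = t) := by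
      rintro ⟨e1, e2⟩
      rw [e1, e2] at hne
      exact hne h0
    have n2 : ¬ (i = t ∧ j = s) := by
      rintro ⟨e1, e2⟩
      rw [e1, e2] at hne
      exact hne hts
    have hM := h i j n1 n2
    rw [hM] at hne ⊢
    have hb : ∃ b, a2q s t b i ∧ a2q s t b j := by
      by_cases hc : i = s ∨ j = s
      · refine ⟨false, ?_, ?_⟩
        · show i ≠ t
          intro e
          rcases hc with hc | hc
          · exact hst (hc.symm.trans e)
          · exact n2 ⟨e, hc⟩
        · show j ≠ t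
          intro e
          rcases hc with hc | hc
          · exact n1 ⟨hc, e⟩
          · exact hst (hc.symm.trans e)
      · refine ⟨true, ?_, ?_⟩
        · show i ≠ s
          exact fun e => hc (Or.inl e)
        · show j ≠ s
          exact fun e => hc (Or.inr e)
    obtain ⟨b, hi, hj⟩ := hb
    rw [hfb b i hi, hfb b j hj]
    exact a2_alt M (a2q s t b) (of (φ := φ) b) i j hi hj hij hne
  obtain ⟨A, hA⟩ := exists_lift M' f hrel
  -- the map back
  have hb1 : ∀ p : B → Prop, (∀ i j, p i → p j → ¬ (i = s ∧ j = t) ∧ ¬ (i = t ∧ j = s)) →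
      ∃ F : Art (sub M p) →* Art M', ∀ x : {i // p i}, F (σ (sub M p) x) = σ M' x.1 := by
    intro p hp
    refine exists_lift (sub M p) (fun x => σ M' x.1) ?_
    intro x y hxy hne
    have hM := h x.1 y.1 (hp x.1 y.1 x.2 y.2).1 (hp x.1 y.1 x.2 y.2).2
    have hne' : M'.M x.1 y.1 ≠ 0 := by
      rw [hM]
      exact hne
    have hbr := braid M' x.1 y.1 (fun e => hxy (Subtype.ext e)) hne'
    rw [hM] at hbr
    exact hbr
  choose β hβ using fun b : Bool => hb1 (a2q s t b) (fun i j hi hj => a2q_ne hi hj)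
  obtain ⟨κ', hκ'⟩ := hb1 (a2r s t) (fun i j hi _ => ⟨fun e => hi.1 e.1, fun e => hi.2 e.1⟩)
  have hcomp' : ∀ b, (β b).comp (φ b) = κ' := by
    intro b
    refine art_ext _ _ _ (fun x => ?_)
    rw [MonoidHom.comp_apply, hφ, hβ, hκ']
  let Ψ : PushoutI φ →* Art M' := PushoutI.lift β κ' hcomp'
  have hid : Ψ.comp A = MonoidHom.id (Art M') := by
    refine art_ext _ _ _ (fun i => ?_)
    rw [MonoidHom.comp_apply, hA]
    have hb : ∃ b, a2q s t b i := by
      by_cases hc : i = s
      · exact ⟨false, fun e => hst (hc.symm.trans e)⟩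
      · exact ⟨true, hc⟩
    obtain ⟨b, hi⟩ := hb
    rw [hfb b i hi]
    have e1 : Ψ (of b (σ (sub M (a2q s t b)) ⟨i, hi⟩)) = β b (σ (sub M (a2q s t b)) ⟨i, hi⟩) :=
      lift_of β κ' hcomp' _
    rw [e1, hβ]
    rfl
  have hAinj : Function.Injective A := by
    intro x y hxy
    have e1 : Ψ (A x) = Ψ (A y) := congrArg Ψ hxy
    have e2 : ∀ z, Ψ (A z) = z := fun z => DFunLike.congr_fun hid z
    rw [e2, e2] at e1
    exact e1
  exact PA_of_injective A hAinj hP

end Pool.Agent.Lib.MP_9dbb0e_al
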