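import Pool.Agent.Lib.MP_9dbb0e_al.A2

/-!
# JOB A3: deleting relations

PROOF. `classical`, `Fintype.ofFinite`. Strong induction on the number `N` of pairs `(i, j) : B × B` with `M'.M i j ≠ M.M i j`. If `N = 0`, `M' = M` (`CoxeterMatrix.ext`). Otherwise choose `(s, t)` with `M'.M s t ≠ M.M s t`; then `M'.M s t = 0`, `M.M s t ≠ 0`, `s ≠ t` (the diagonal entries are `1`). Let `M₁` be `M'` with the entries `(s, t)` and `(t, s)`
replaced by `M.M s t` (a Coxeter matrix: symmetric since `M`, `M'` are; the diagonal is unchanged; `M.M s t ≠ 1`). `M₁` satisfies `∀ i j, M₁ i j = M i j ∨ M₁ i j = 0` and differs from `M` in fewer pairs, so `PA (Art M₁)`. `PA_step M₁ M' s t`.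
-/

set_option autoImplicit false

namespace Pool.Agent.Lib.MP_9dbb0e_al

/-- the matrix `M'` with the entries `(s, t)` and `(t, s)` replaced by those of `M` -/
private noncomputable def a3Mat {B : Type} (M M' : CoxeterMatrix B) (s t : B) (hst : s ≠ t) :
    CoxeterMatrix B := by
  classical
  exact
  { M := fun i j => if (i = s ∧ j = t) ∨ (i = t ∧ j = s) then M.M s t else M'.M i j
    isSymm := by
      ext i j
      show (if (j = s ∧ i = t) ∨ (j = t ∧ i = s) then M.M s t else M'.M j i) =
        (if (i = s ∧ j = t) ∨ (i = t ∧ j = s) then M.M s t else M'.M i j)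
      by_cases h : (j = s ∧ i = t) ∨ (j = t ∧ i = s)
      · have h' : (i = s ∧ j = t) ∨ (i = t ∧ j = s) := by tauto
        rw [if_pos h, if_pos h']
      · have h' : ¬ ((i = s ∧ j = t) ∨ (i = t ∧ j = s)) := by tauto
        rw [if_neg h, if_neg h']
        exact M'.symmetric j i
    diagonal := by
      intro i
      show (if (i = s ∧ i = t) ∨ (i = t ∧ i = s) then M.M s t else M'.M i i) = 1
      have h : ¬ ((i = s ∧ i = t) ∨ (i = t ∧ i = s)) := by
        rintro (⟨h1, h2⟩ | ⟨h1, h2⟩)
        · exact hst (h1.symm.trans h2)
        · exact hst (h2.symm.trans h1)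
      rw [if_neg h]
      exact M'.diagonal i
    off_diagonal := by
      intro i j hij
      show (if (i = s ∧ j = t) ∨ (i = t ∧ j = s) then M.M s t else M'.M i j) ≠ 1
      by_cases h : (i = s ∧ j = t) ∨ (i = t ∧ j = s)
      · rw [if_pos h]
        exact M.off_diagonal s t hst
      · rw [if_neg h]
        exact M'.off_diagonal i j hij }

private theorem a3Mat_pos {B : Type} (M M' : CoxeterMatrix B) (s t : B) (hst : s ≠ t) (i j : B)
    (h : (i = s ∧ j = t) ∨ (i = t ∧ j = s)) : (a3Mat M M' s t hst).M i j = M.M s t := by
  unfold a3Mat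
  exact if_pos h

private theorem a3Mat_neg {B : Type} (M M' : CoxeterMatrix B) (s t : B) (hst : s ≠ t) (i j : B)
    (h : ¬ ((i = s ∧ j = t) ∨ (i = t ∧ j = s))) : (a3Mat M M' s t hst).M i j = M'.M i j := by
  unfold a3Mat
  exact if_neg h

theorem PA_mono {B : Type} [Finite B] (M M' : CoxeterMatrix B)
    (h : ∀ i j, M'.M i j = M.M i j ∨ M'.M i j = 0) (hPA : PA (Art M)) : PA (Art M') := by
  classical
  cases nonempty_fintype B
  have H : ∀ N : ℕ, ∀ M' : CoxeterMatrix B, (∀ i j, M'.M i j = M.M i j ∨ M'.M i j = 0) →
      (Finset.univ.filter fun p : B × B => M'.M p.1 p.2 ≠ M.M p.1 p.2).card = N → PA (Art M') := by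
    intro N
    induction N using Nat.strong_induction_on with
    | _ N ih =>
      intro M' h hN
      by_cases hE : ∀ i j, M'.M i j = M.M i j
      · have hM : M' = M := by
          apply CoxeterMatrix.ext
          funext i j
          exact hE i j
        rw [hM]
        exact hPA
      · push Not at hE
        obtain ⟨s, t, hne⟩ := hE
        have h0 : M'.M s t = 0 := by
          rcases h s t with h1 | h1
          · exact absurd h1 hne
          · exact h1
        have hst : s ≠ t := by
          intro e
          subst e
          exact hne ((M'.diagonal s).trans (M.diagonal s).symm)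
        have hsymM : M.M t s = M.M s t := M.symmetric t s
        refine PA_step (a3Mat M M' s t hst) M' s t hst h0 ?_ ?_
        · intro i j h1 h2
          rw [a3Mat_neg M M' s t hst i j (by tauto)]
        · refine ih _ ?_ (a3Mat M M' s t hst) ?_ rfl
          · rw [← hN]
            apply Finset.card_lt_card
            refine ⟨?_, ?_⟩
            · intro p hp
              rw [Finset.mem_filter] at hp ⊢
              refine ⟨Finset.mem_univ _, ?_⟩
              intro e
              apply hp.2
              by_cases hc : (p.1 = s ∧ p.2 = t) ∨ (p.1 = t ∧ p.2 = s)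
              · rw [a3Mat_pos M M' s t hst _ _ hc]
                rcases hc with ⟨e1, e2⟩ | ⟨e1, e2⟩
                · rw [e1, e2]
                · rw [e1, e2, hsymM]
              · rw [a3Mat_neg M M' s t hst _ _ hc]
                exact e
            · intro hsub
              have h3 : (s, t) ∈ (Finset.univ.filter fun p : B × B => M'.M p.1 p.2 ≠ M.M p.1 p.2) := by
                rw [Finset.mem_filter]
                exact ⟨Finset.mem_univ _, hne⟩
              have h4 := hsub h3
              rw [Finset.mem_filter] at h4
              exact h4.2 (a3Mat_pos M M' s t hst s t (Or.inl ⟨rfl, rfl⟩))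
          · intro i j
            by_cases hc : (i = s ∧ j = t) ∨ (i = t ∧ j = s)
            · left
              rw [a3Mat_pos M M' s t hst _ _ hc]
              rcases hc with ⟨e1, e2⟩ | ⟨e1, e2⟩
              · rw [e1, e2]
              · rw [e1, e2, hsymM]
            · rw [a3Mat_neg M M' s t hst _ _ hc]
              exact h i j
  exact H _ M' h rfl

end Pool.Agent.Lib.MP_9dbb0e_al
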