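import Pool.Agent.Lib.MP_9dbb0e_al.G3

/-!
# JOB Q: the formulation of the problem

`Q1 G`: the formulation of the problem (subgroup generated by `a ^ n`, `b ^ n` free or isomorphic to `ℤ ^ k`).
PROOFS.
`PA_free`: `FreeGroup X` satisfies `PA`. The amalgam `PushoutI φ` over the trivial group `H = Unit` with `G x = Multiplicative ℤ` for `x : X`, `φ x = 1`: `pushout_PA` with `Q = Unit`, `Φ = 1` (everything injective on `Unit`, `PA_comm`). `FreeGroup.lift (fun x => of x (Multiplicative.ofAdd 1)) : FreeGroup X →* PushoutI φ` has the left inverse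
`PushoutI.lift (fun x => zpowersHom _ (FreeGroup.of x)) 1 _` (`FreeGroup.ext_hom`), so it is injective: `PA_of_injective`.
`Q1_of_PA`: `n` from `PA` for `a, b`. If `FreeTwo (a ^ n) (b ^ n)`: `Subgroup.closure {a ^ n, b ^ n}` is the range of `FreeGroup.lift ![a ^ n, b ^ n]` (`FreeGroup.range_lift_eq_closure` or similar), which is isomorphic to `FreeGroup (Fin 2)` (`MonoidHom.ofInjective`): `IsFreeGroup.ofMulEquiv`. If `x = a ^ n`, `y = b ^ n` commute: the subgroup
`C = closure {x, y}` is commutative (`Subgroup.closureCommGroupOfComm`) and finitely generated; there is `e ≥ 1` such that the image `C ^ e` is torsion free (structure theorem for the finitely generated `Additive C`: `Module.finite`, torsion is finite, e.g. `e = ` the exponent (or the cardinality) of the torsion subgroup). `closure {x ^ e, y ^ e}` is the image of `C`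
under `c ↦ c ^ e`, torsion free (if `(c ^ e) ^ k = 1`, `k ≥ 1`, then `c` is a torsion element and `c ^ e = 1`), commutative and finitely generated, so isomorphic to `ℤ ^ k` (`Module.Free` over the PID `ℤ`, `Module.finBasis`, `AddCommGroup`): `n * e`.
`PA_of_Q1`: `n` from `Q1`. If `C = closure {a ^ n, b ^ n}` is free: `C ≃* FreeGroup X` (`IsFreeGroup.toFreeGroup`), `PA_free`, `PA_of_injective` gives `PA C`; apply it to `⟨a ^ n, _⟩`, `⟨b ^ n, _⟩`, and map to `G` (`Subgroup.subtype`, `FreeTwo.map`). If `C ≃* Multiplicative (Fin k → ℤ)`: `a ^ n` and `b ^ n` commute.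
-/

set_option autoImplicit false

namespace Pool.Agent.Lib.MP_9dbb0e_al

open Monoid Monoid.PushoutI

/-- the statement of the problem for the group `G` -/
def Q1 (G : Type) [Group G] : Prop :=
  ∀ a b : G, ∃ n : ℕ, 0 < n ∧
    (IsFreeGroup ↥(Subgroup.closure {a ^ n, b ^ n}) ∨
      ∃ k : ℕ, Nonempty (↥(Subgroup.closure {a ^ n, b ^ n}) ≃* Multiplicative (Fin k → ℤ)))

theorem PA_free (X : Type) : PA (FreeGroup X) := by
  have hU : PA Unit := PA_comm fun a b => Commute.all a b
  have h := pushout_PA (ι := X) (G := fun _ => Multiplicative ℤ) (H := Unit)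
    (fun _ => (1 : Unit →* Multiplicative ℤ))
    (fun _ => Function.injective_of_subsingleton _) (Q := Unit) 1
    (Function.injective_of_subsingleton _) hU (fun _ => PA_comm fun a b => Commute.all a b) hU
  let f : FreeGroup X →* PushoutI (fun _ : X => (1 : Unit →* Multiplicative ℤ)) :=
    FreeGroup.lift fun x => of x (Multiplicative.ofAdd (1 : ℤ))
  let g : PushoutI (fun _ : X => (1 : Unit →* Multiplicative ℤ)) →* FreeGroup X :=
    PushoutI.lift (fun x => zpowersHom _ (FreeGroup.of x)) 1 (by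
      intro x
      ext u
      simp)
  have hgf : ∀ y, g (f y) = y := by
    intro y
    have h1 : g.comp f = MonoidHom.id _ := by
      refine FreeGroup.ext_hom _ _ ?_
      intro x
      simp [f, g]
    exact DFunLike.congr_fun h1 y
  exact PA_of_injective f (Function.LeftInverse.injective hgf) h


/-- the homomorphism `(i, j) ↦ x ^ i * y ^ j` for commuting `x, y` -/
private noncomputable def qbHom {G : Type} [Group G] (x y : G) (hxy : Commute x y) :
    Multiplicative (ℤ × ℤ) →* G where
  toFun v := x ^ (Multiplicative.toAdd v).1 * y ^ (Multiplicative.toAdd v).2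
  map_one' := by
    simp
  map_mul' u v := by
    rw [toAdd_mul, Prod.fst_add, Prod.snd_add, zpow_add, zpow_add]
    have h := (hxy.zpow_zpow (Multiplicative.toAdd v).1 (Multiplicative.toAdd u).2).eq
    calc x ^ (Multiplicative.toAdd u).1 * x ^ (Multiplicative.toAdd v).1 *
          (y ^ (Multiplicative.toAdd u).2 * y ^ (Multiplicative.toAdd v).2)
        = x ^ (Multiplicative.toAdd u).1 * (x ^ (Multiplicative.toAdd v).1 *
          y ^ (Multiplicative.toAdd u).2) * y ^ (Multiplicative.toAdd v).2 := by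
          simp only [mul_assoc]
      _ = x ^ (Multiplicative.toAdd u).1 * (y ^ (Multiplicative.toAdd u).2 *
          x ^ (Multiplicative.toAdd v).1) * y ^ (Multiplicative.toAdd v).2 := by rw [h]
      _ = x ^ (Multiplicative.toAdd u).1 * y ^ (Multiplicative.toAdd u).2 *
          (x ^ (Multiplicative.toAdd v).1 * y ^ (Multiplicative.toAdd v).2) := by
          simp only [mul_assoc]

private theorem qb_exp {G : Type} [Group G] (x y : G) (hxy : Commute x y) :
    ∃ e : ℕ, 0 < e ∧ ∀ (v : Multiplicative (ℤ × ℤ)) (k : ℕ), 0 < k →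
      qbHom x y hxy v ^ k = 1 → qbHom x y hxy v ^ e = 1 := by
  let ψ := qbHom x y hxy
  let N : Submodule ℤ (ℤ × ℤ) :=
    { carrier := {v | ψ (Multiplicative.ofAdd v) = 1}
      add_mem' := by
        intro a b ha hb
        simp only [Set.mem_setOf_eq] at ha hb ⊢
        rw [ofAdd_add, map_mul, ha, hb, one_mul]
      zero_mem' := by
        simp only [Set.mem_setOf_eq]
        rw [ofAdd_zero, map_one]
      smul_mem' := by
        intro c a ha
        simp only [Set.mem_setOf_eq] at ha ⊢
        rw [ofAdd_zsmul, map_zpow, ha, one_zpow] }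
  obtain ⟨z, hz1, hz2⟩ := Submodule.annihilator_top_inter_nonZeroDivisors
    (Submodule.torsion_isTorsion (R := ℤ) (M := (ℤ × ℤ) ⧸ N))
  have hz0 : z ≠ 0 := nonZeroDivisors.ne_zero hz2
  refine ⟨z.natAbs, Int.natAbs_pos.2 hz0, fun v k hk hv => ?_⟩
  have h1 : (k : ℤ) • (Multiplicative.toAdd v) ∈ N := by
    change ψ (Multiplicative.ofAdd ((k : ℤ) • Multiplicative.toAdd v)) = 1
    rw [ofAdd_zsmul, map_zpow, zpow_natCast, ofAdd_toAdd]
    exact hv
  have h2 : N.mkQ (Multiplicative.toAdd v) ∈ Submodule.torsion ℤ ((ℤ × ℤ) ⧸ N) := by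
    rw [Submodule.mem_torsion_iff]
    refine ⟨⟨(k : ℤ), mem_nonZeroDivisors_of_ne_zero (by omega)⟩, ?_⟩
    change (k : ℤ) • N.mkQ (Multiplicative.toAdd v) = 0
    rw [← map_smul, Submodule.mkQ_apply, Submodule.Quotient.mk_eq_zero]
    exact h1
  have h3 := (Submodule.mem_annihilator.1 hz1) ⟨_, h2⟩ Submodule.mem_top
  have h4 : z • N.mkQ (Multiplicative.toAdd v) = 0 := congrArg Subtype.val h3
  rw [← map_smul, Submodule.mkQ_apply, Submodule.Quotient.mk_eq_zero] at h4
  have h5 : ψ (Multiplicative.ofAdd (z • Multiplicative.toAdd v)) = 1 := h4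
  rw [ofAdd_zsmul, map_zpow, ofAdd_toAdd] at h5
  have h6 : ψ v ^ (z.natAbs : ℤ) = 1 := by
    rcases Int.natAbs_eq z with h7 | h7
    · rw [← h7]
      exact h5
    · have h8 : (z.natAbs : ℤ) = -z := by omega
      rw [h8, zpow_neg, h5, inv_one]
  rw [zpow_natCast] at h6
  exact h6

private theorem qb_free_abelian {G : Type} [Group G] (x y : G) (hxy : Commute x y) :
    ∃ e : ℕ, 0 < e ∧ ∃ k : ℕ,
      Nonempty (↥(Subgroup.closure {x ^ e, y ^ e}) ≃* Multiplicative (Fin k → ℤ)) := by
  obtain ⟨e, he, hexp⟩ := qb_exp x y hxy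
  refine ⟨e, he, ?_⟩
  have hcomm : ∀ u ∈ ({x ^ e, y ^ e} : Set G), ∀ v ∈ ({x ^ e, y ^ e} : Set G),
      u * v = v * u := by
    intro u hu v hv
    rcases hu with rfl | hu
    · rcases hv with rfl | hv
      · rfl
      · rw [Set.mem_singleton_iff] at hv
        rw [hv]
        exact (hxy.pow_pow e e).eq
    · rw [Set.mem_singleton_iff] at hu
      rw [hu]
      rcases hv with rfl | hv
      · exact (hxy.pow_pow e e).eq.symm
      · rw [Set.mem_singleton_iff] at hv
        rw [hv]
  have hrep : ∀ d ∈ Subgroup.closure ({x ^ e, y ^ e} : Set G),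
      ∃ v : Multiplicative (ℤ × ℤ), qbHom x y hxy v ^ e = d := by
    intro d hd
    have h1 : Subgroup.closure ({x ^ e, y ^ e} : Set G) ≤
        ((qbHom x y hxy).comp (powMonoidHom e)).range := by
      rw [Subgroup.closure_le]
      rintro u (rfl | hu)
      · refine ⟨Multiplicative.ofAdd (1, 0), ?_⟩
        rw [MonoidHom.comp_apply, powMonoidHom_apply, map_pow]
        change (x ^ (1 : ℤ) * y ^ (0 : ℤ)) ^ e = x ^ e
        rw [zpow_one, zpow_zero, mul_one]
      · rw [Set.mem_singleton_iff] at hu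
        rw [hu]
        refine ⟨Multiplicative.ofAdd (0, 1), ?_⟩
        rw [MonoidHom.comp_apply, powMonoidHom_apply, map_pow]
        change (x ^ (0 : ℤ) * y ^ (1 : ℤ)) ^ e = y ^ e
        rw [zpow_one, zpow_zero, one_mul]
    obtain ⟨v, hv⟩ := h1 hd
    refine ⟨v, ?_⟩
    rw [MonoidHom.comp_apply, powMonoidHom_apply, map_pow] at hv
    exact hv
  let D := Subgroup.closure ({x ^ e, y ^ e} : Set G)
  have hmc := Subgroup.isMulCommutative_closure hcomm
  letI : CommGroup D := { (inferInstance : Group D) with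
    mul_comm := fun u v => by
      have h1 := hmc.is_comm.comm u v
      exact h1 }
  have htf : Module.IsTorsionFree ℤ (Additive D) := by
    rw [Submodule.isTorsionFree_iff_torsion_eq_bot, eq_bot_iff]
    intro d hd
    rw [Submodule.mem_torsion_iff] at hd
    obtain ⟨⟨z, hz⟩, hzd⟩ := hd
    have hz0 : z ≠ 0 := nonZeroDivisors.ne_zero hz
    have h1 : z • d = 0 := hzd
    have h2 : (Additive.toMul d) ^ z = 1 := h1
    have h3 : (Additive.toMul d) ^ z.natAbs = 1 := by
      have h6 : (Additive.toMul d) ^ (z.natAbs : ℤ) = 1 := by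
        rcases Int.natAbs_eq z with h7 | h7
        · rw [← h7]
          exact h2
        · have h8 : (z.natAbs : ℤ) = -z := by omega
          rw [h8, zpow_neg, h2, inv_one]
      rw [zpow_natCast] at h6
      exact h6
    obtain ⟨v, hv⟩ := hrep (Additive.toMul d : D).1 (Additive.toMul d : D).2
    have h4 : ((Additive.toMul d : D) : G) ^ z.natAbs = 1 := by
      have h5 := congrArg (Subtype.val : D → G) h3
      exact h5
    have h5 : qbHom x y hxy v ^ (e * z.natAbs) = 1 := by
      rw [pow_mul, hv]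
      exact h4
    have h6 := hexp v (e * z.natAbs) (Nat.mul_pos he (Int.natAbs_pos.2 hz0)) h5
    rw [hv] at h6
    have h7 : (Additive.toMul d : D) = 1 := Subtype.ext h6
    rw [Submodule.mem_bot]
    exact h7
  have hfin : Module.Finite ℤ (Additive D) := by
    rw [Module.Finite.iff_addGroup_fg]
    have h1 : Group.FG D := Group.closure_finite_fg _
    exact (GroupFG.iff_add_fg (G := D)).1 h1
  have hfree : Module.Free ℤ (Additive D) := Module.free_of_finite_type_torsion_free'
  let b := Module.finBasis ℤ (Additive D)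
  exact ⟨_, ⟨AddEquiv.toMultiplicativeRight b.equivFun.toAddEquiv⟩⟩

theorem Q1_of_PA {G : Type} [Group G] (h : PA G) : Q1 G := by
  intro a b
  obtain ⟨n, hn, hc | hf⟩ := h a b
  · obtain ⟨e, he, k, hk⟩ := qb_free_abelian (a ^ n) (b ^ n) hc
    refine ⟨n * e, Nat.mul_pos hn he, Or.inr ⟨k, ?_⟩⟩
    rw [pow_mul, pow_mul]
    exact hk
  · refine ⟨n, hn, Or.inl ?_⟩
    have h1 : (FreeGroup.lift ![a ^ n, b ^ n] : FreeGroup (Fin 2) →* G).range =
        Subgroup.closure {a ^ n, b ^ n} := by
      rw [FreeGroup.range_lift_eq_closure, Matrix.range_cons, Matrix.range_cons,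
        Matrix.range_empty, Set.union_empty]
      rfl
    rw [← h1]
    exact IsFreeGroup.ofMulEquiv (MonoidHom.ofInjective hf)

theorem PA_of_Q1 {G : Type} [Group G] (h : Q1 G) : PA G := by
  intro a b
  obtain ⟨n, hn, h1⟩ := h a b
  have ha : a ^ n ∈ Subgroup.closure {a ^ n, b ^ n} := Subgroup.subset_closure (by simp)
  have hb : b ^ n ∈ Subgroup.closure {a ^ n, b ^ n} := Subgroup.subset_closure (by simp)
  rcases h1 with h1 | ⟨k, ⟨e⟩⟩
  · have hPA : PA ↥(Subgroup.closure {a ^ n, b ^ n}) :=
      PA_of_injective (IsFreeGroup.toFreeGroup ↥(Subgroup.closure {a ^ n, b ^ n})).toMonoidHom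
        (IsFreeGroup.toFreeGroup ↥(Subgroup.closure {a ^ n, b ^ n})).injective (PA_free _)
    obtain ⟨m, hm, h2⟩ := hPA ⟨a ^ n, ha⟩ ⟨b ^ n, hb⟩
    refine ⟨n * m, Nat.mul_pos hn hm, ?_⟩
    rw [pow_mul, pow_mul]
    rcases h2 with h2 | h2
    · left
      exact h2.map (Subgroup.subtype _)
    · right
      exact FreeTwo.map (Subgroup.subtype _) (Subgroup.subtype_injective _) h2
  · refine ⟨n, hn, Or.inl ?_⟩
    have h2 : (⟨a ^ n, ha⟩ : ↥(Subgroup.closure {a ^ n, b ^ n})) * ⟨b ^ n, hb⟩ =
        ⟨b ^ n, hb⟩ * ⟨a ^ n, ha⟩ := by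
      apply e.injective
      rw [map_mul, map_mul, mul_comm]
    exact congrArg Subtype.val h2

end Pool.Agent.Lib.MP_9dbb0e_al
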