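import Pool.Agent.Lib.MP_9dbb0e_al.Defs

/-!
# JOB U: free pairs and the power alternative under homomorphisms

PROOFS.
`FreeTwo.of_map`: `FreeGroup.lift ![f a, f b] = f.comp (FreeGroup.lift ![a, b])` (`FreeGroup.ext_hom`, `Fin.forall_fin_two`),
`Function.Injective.of_comp`.
`FreeTwo.map`: the same identity, composition of injective maps.
`PA_of_injective`: `f (a ^ n) = f a ^ n`; `Commute`: by injectivity; `FreeTwo.of_map`.
`PA_range`: `f.range` is isomorphic to `G` (`MonoidHom.ofInjective`), `PA_of_injective` for the inverse isomorphism.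
`PA_conj`: the map `x ↦ g⁻¹ x g` from `H.map (MulAut.conj g).toMonoidHom` to `H` (or `Subgroup.equivSMul`/`equivMapOfInjective`).
`PA_comm`: `n = 1`.
`free_of_pp` (ping-pong): copy the proof of `FreeGroup.injective_lift_of_ping_pong` in Mathlib
(`Mathlib/GroupTheory/CoprodI.lean`, at the end): with `c = ![a ^ m, b ^ n]`,
`FreeGroup.lift c = (Monoid.CoprodI.lift fun i => FreeGroup.lift fun _ => c i).comp freeGroupEquivCoprodI.toMonoidHom`; apply
`Monoid.CoprodI.lift_injective_of_ping_pong` with the sets `![X, Y]`; `3 ≤ #(FreeGroup Unit)` because `FreeGroup Unit` is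
infinite (see there); an element `h ≠ 1` of `FreeGroup Unit` is `(FreeGroup.of ()) ^ k` with `k ≠ 0`
(`FreeGroup.freeGroupUnitEquivInt`), its image is `(a ^ m) ^ k = a ^ (m * k)`, `m * k ≠ 0`: use `ha`; same for `b`.
-/

set_option autoImplicit false

namespace Pool.Agent.Lib.MP_9dbb0e_al

private theorem u_lift {G H : Type*} [Group G] [Group H] (f : G →* H) (a b : G) :
    (FreeGroup.lift ![f a, f b] : FreeGroup (Fin 2) →* H) =
      f.comp (FreeGroup.lift ![a, b] : FreeGroup (Fin 2) →* G) := by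
  refine FreeGroup.ext_hom _ _ ?_
  rw [Fin.forall_fin_two]
  refine ⟨?_, ?_⟩ <;> simp

theorem FreeTwo.of_map {G H : Type*} [Group G] [Group H] (f : G →* H) {a b : G}
    (h : FreeTwo (f a) (f b)) : FreeTwo a b := by
  unfold FreeTwo at h ⊢
  rw [u_lift, MonoidHom.coe_comp] at h
  exact Function.Injective.of_comp h

theorem FreeTwo.map {G H : Type*} [Group G] [Group H] (f : G →* H) (hf : Function.Injective f)
    {a b : G} (h : FreeTwo a b) : FreeTwo (f a) (f b) := by
  unfold FreeTwo at h ⊢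
  rw [u_lift, MonoidHom.coe_comp]
  exact hf.comp h

theorem PA_of_injective {G H : Type*} [Group G] [Group H] (f : G →* H)
    (hf : Function.Injective f) (h : PA H) : PA G := by
  intro a b
  obtain ⟨n, hn, h1⟩ := h (f a) (f b)
  refine ⟨n, hn, ?_⟩
  rw [← map_pow, ← map_pow] at h1
  rcases h1 with h1 | h1
  · left
    apply hf
    rw [map_mul, map_mul]
    exact h1
  · right
    exact FreeTwo.of_map f h1

theorem PA_range {G H : Type*} [Group G] [Group H] (f : G →* H)
    (hf : Function.Injective f) (h : PA G) : PA f.range :=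
  PA_of_injective (MonoidHom.ofInjective hf).symm.toMonoidHom
    (MonoidHom.ofInjective hf).symm.injective h

theorem PA_conj {G : Type*} [Group G] (H : Subgroup G) (g : G) (h : PA H) :
    PA (H.map (MulAut.conj g).toMonoidHom) := by
  have hinj : Function.Injective (MulAut.conj g).toMonoidHom := (MulAut.conj g).injective
  exact PA_of_injective (H.equivMapOfInjective _ hinj).symm.toMonoidHom
    (H.equivMapOfInjective _ hinj).symm.injective h

theorem PA_comm {G : Type*} [Group G] (h : ∀ a b : G, Commute a b) : PA G := by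
  intro a b
  refine ⟨1, one_pos, Or.inl ?_⟩
  exact h _ _

open scoped Pointwise in
open Monoid.CoprodI in
theorem free_of_pp {G α : Type*} [Group G] [MulAction G α] (a b : G) (X Y : Set α)
    (hX : X.Nonempty) (hY : Y.Nonempty) (hd : Disjoint X Y)
    (ha : ∀ k : ℤ, k ≠ 0 → ∀ y ∈ Y, a ^ k • y ∈ X)
    (hb : ∀ k : ℤ, k ≠ 0 → ∀ x ∈ X, b ^ k • x ∈ Y) (m n : ℕ) (hm : 0 < m) (hn : 0 < n) :
    FreeTwo (a ^ m) (b ^ n) := by
  have hpow : ∀ (c : G) (l : ℕ), 0 < l → ∀ (P Q : Set α),
      (∀ k : ℤ, k ≠ 0 → ∀ y ∈ Q, c ^ k • y ∈ P) → ∀ h : FreeGroup Unit, h ≠ 1 →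
        ∀ y ∈ Q, (FreeGroup.lift fun _ => c ^ l : FreeGroup Unit →* G) h • y ∈ P := by
    intro c l hl P Q hc
    refine FreeGroup.freeGroupUnitEquivInt.forall_congr_left.mpr ?_
    intro k hne y hy
    have hk : k ≠ 0 := by
      rintro rfl
      apply hne
      simp [FreeGroup.freeGroupUnitEquivInt]
    show (FreeGroup.lift (fun _ => c ^ l)) (FreeGroup.of () ^ k) • y ∈ P
    rw [map_zpow, FreeGroup.lift_apply_of]
    have h1 : (c ^ l) ^ k = c ^ ((l : ℤ) * k) := by
      rw [zpow_mul, zpow_natCast]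
    show (c ^ l) ^ k • y ∈ P
    rw [h1]
    exact hc _ (mul_ne_zero (by exact_mod_cast hl.ne') hk) y hy
  unfold FreeTwo
  have h1 : (FreeGroup.lift ![a ^ m, b ^ n] : FreeGroup (Fin 2) →* G) =
      (Monoid.CoprodI.lift fun i => FreeGroup.lift fun _ => ![a ^ m, b ^ n] i).comp
        (@freeGroupEquivCoprodI (Fin 2)).toMonoidHom := by
    ext i
    simp
  rw [h1, MonoidHom.coe_comp]
  refine Function.Injective.comp ?_ (MulEquiv.injective freeGroupEquivCoprodI)
  change Function.Injective
    (Monoid.CoprodI.lift fun i : Fin 2 => FreeGroup.lift fun _ => ![a ^ m, b ^ n] i)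
  let H : Fin 2 → Type _ := fun _ => FreeGroup Unit
  let f : ∀ i, H i →* G := fun i => FreeGroup.lift fun _ => ![a ^ m, b ^ n] i
  let X' : Fin 2 → Set α := ![X, Y]
  apply Monoid.CoprodI.lift_injective_of_ping_pong f _ X'
  · show ∀ i, (X' i).Nonempty
    rw [Fin.forall_fin_two]
    exact ⟨hX, hY⟩
  · show Pairwise fun i j => Disjoint (X' i) (X' j)
    intro i j hij
    fin_cases i <;> fin_cases j
    · exact absurd rfl hij
    · exact hd
    · exact hd.symm
    · exact absurd rfl hij
  · show Pairwise fun i j => ∀ h : H i, h ≠ 1 → f i h • X' j ⊆ X' i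
    intro i j hij h hh
    fin_cases i <;> fin_cases j
    · exact absurd rfl hij
    · rintro _ ⟨y, hy, rfl⟩
      exact hpow a m hm X Y ha h hh y hy
    · rintro _ ⟨y, hy, rfl⟩
      exact hpow b n hn Y X hb h hh y hy
    · exact absurd rfl hij
  · right
    refine ⟨0, ?_⟩
    show 3 ≤ Cardinal.mk (FreeGroup Unit)
    rw [FreeGroup.freeGroupUnitEquivInt.cardinal_eq, Cardinal.mk_denumerable]
    exact Cardinal.natCast_le_aleph0

end Pool.Agent.Lib.MP_9dbb0e_al
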