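import Pool.Agent.Lib.MP_9dbb0e_al.A1
import Pool.Agent.Lib.MP_9dbb0e_al.U

/-!
# JOB D1: direct products
-/

set_option autoImplicit false

namespace Pool.Agent.Lib.MP_9dbb0e_al

theorem PA_prod {G H : Type*} [Group G] [Group H] (hG : PA G) (hH : PA H) : PA (G × H) := by
  rintro ⟨a₁, a₂⟩ ⟨b₁, b₂⟩
  obtain ⟨n₁, hn₁, h₁⟩ := hG a₁ b₁
  rcases h₁ with h₁ | h₁
  · obtain ⟨n₂, hn₂, h₂⟩ := hH (a₂ ^ n₁) (b₂ ^ n₁)
    refine ⟨n₁ * n₂, Nat.mul_pos hn₁ hn₂, ?_⟩
    rcases h₂ with h₂ | h₂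
    · left
      show Commute (a₁ ^ (n₁ * n₂), a₂ ^ (n₁ * n₂)) (b₁ ^ (n₁ * n₂), b₂ ^ (n₁ * n₂))
      rw [pow_mul, pow_mul, pow_mul, pow_mul]
      exact Prod.ext (h₁.pow_pow n₂ n₂) h₂
    · right
      refine FreeTwo.of_map (MonoidHom.snd G H) ?_
      show FreeTwo (a₂ ^ (n₁ * n₂)) (b₂ ^ (n₁ * n₂))
      rw [pow_mul, pow_mul]
      exact h₂
  · refine ⟨n₁, hn₁, Or.inr ?_⟩
    refine FreeTwo.of_map (MonoidHom.fst G H) ?_
    show FreeTwo (a₁ ^ n₁) (b₁ ^ n₁)
    exact h₁

private theorem d1_mem_closure {B : Type} (M : CoxeterMatrix B) (x : Art M) :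
    x ∈ Subgroup.closure (Set.range (σ M)) := by
  have h : Subgroup.closure (Set.range (σ M)) = ⊤ := PresentedGroup.closure_range_of (rels M)
  rw [h]
  exact Subgroup.mem_top x

private theorem d1_commute {B C : Type} (M : CoxeterMatrix B) (N : CoxeterMatrix C) {G : Type*}
    [Group G] (F : Art M →* G) (F' : Art N →* G)
    (h : ∀ i j, Commute (F (σ M i)) (F' (σ N j))) (x : Art M) (y : Art N) :
    Commute (F x) (F' y) := by
  have h1 : ∀ j, Commute (F x) (F' (σ N j)) := by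
    intro j
    refine Subgroup.closure_induction (p := fun z _ => Commute (F z) (F' (σ N j))) ?_ ?_ ?_ ?_
      (d1_mem_closure M x)
    · rintro _ ⟨i, rfl⟩
      exact h i j
    · rw [map_one]
      exact Commute.one_left _
    · intro a b _ _ ha hb
      rw [map_mul]
      exact ha.mul_left hb
    · intro a _ ha
      rw [map_inv]
      exact ha.inv_left
  refine Subgroup.closure_induction (p := fun z _ => Commute (F x) (F' z)) ?_ ?_ ?_ ?_
    (d1_mem_closure N y)
  · rintro _ ⟨j, rfl⟩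
    exact h1 j
  · rw [map_one]
    exact Commute.one_right _
  · intro a b _ _ ha hb
    rw [map_mul]
    exact ha.mul_right hb
  · intro a _ ha
    rw [map_inv]
    exact ha.inv_right

private theorem d1_alt_prod {G H : Type*} [Group G] [Group H] (a b : G) (c d : H) (n : ℕ) :
    alt (a, c) (b, d) n = (alt a b n, alt c d n) := by
  have h1 := alt_map (MonoidHom.fst G H) (a, c) (b, d) n
  have h2 := alt_map (MonoidHom.snd G H) (a, c) (b, d) n
  exact Prod.ext h1 h2

theorem PA_split {B : Type} (M : CoxeterMatrix B) (p : B → Prop)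
    (h : ∀ i j, p i → ¬ p j → M.M i j = 2) (h1 : PA (Art (sub M p)))
    (h2 : PA (Art (sub M (fun i => ¬ p i)))) : PA (Art M) := by
  classical
  obtain ⟨Φ, hΦ⟩ := exists_lift M (G := Art (sub M p) × Art (sub M (fun i => ¬ p i)))
    (fun i => if hi : p i then (σ (sub M p) ⟨i, hi⟩, 1)
      else (1, σ (sub M (fun i => ¬ p i)) ⟨i, hi⟩)) (by
    intro i j hij hM
    by_cases hi : p i
    · by_cases hj : p j
      · simp only [hi, hj, dif_pos]
        rw [d1_alt_prod, d1_alt_prod]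
        have := braid (sub M p) ⟨i, hi⟩ ⟨j, hj⟩ (fun e => hij (congrArg Subtype.val e)) hM
        exact Prod.ext this rfl
      · simp only [hi, hj, dif_pos, dif_neg, not_false_eq_true]
        rw [h i j hi hj, alt_two, alt_two]
        exact Prod.ext (by simp) (by simp)
    · by_cases hj : p j
      · simp only [hi, hj, dif_pos, dif_neg, not_false_eq_true]
        rw [M.symmetric i j, h j i hj hi, alt_two, alt_two]
        exact Prod.ext (by simp) (by simp)
      · simp only [hi, hj, dif_neg, not_false_eq_true]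
        rw [d1_alt_prod, d1_alt_prod]
        have := braid (sub M (fun i => ¬ p i)) ⟨i, hi⟩ ⟨j, hj⟩
          (fun e => hij (congrArg Subtype.val e)) hM
        exact Prod.ext rfl this)
  obtain ⟨F₁, hF₁⟩ := exists_incl M p
  obtain ⟨F₂, hF₂⟩ := exists_incl M (fun i => ¬ p i)
  have hcomm : ∀ x y, Commute (F₁ x) (F₂ y) := by
    refine d1_commute _ _ F₁ F₂ ?_
    rintro ⟨i, hi⟩ ⟨j, hj⟩
    rw [hF₁, hF₂]
    have hij : i ≠ j := fun e => hj (e ▸ hi)
    have hb := braid M i j hij (by rw [h i j hi hj]; norm_num)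
    rw [h i j hi hj, alt_two, alt_two] at hb
    exact hb
  refine PA_of_injective Φ ?_ (PA_prod h1 h2)
  have hcomp : (MonoidHom.noncommCoprod F₁ F₂ hcomm).comp Φ = MonoidHom.id (Art M) := by
    refine art_ext M _ _ fun i => ?_
    rw [MonoidHom.comp_apply, hΦ, MonoidHom.id_apply]
    by_cases hi : p i
    · simp only [hi, dif_pos]
      rw [MonoidHom.noncommCoprod_apply]
      simp only [map_one, mul_one, hF₁]
    · simp only [hi, dif_neg, not_false_eq_true]
      rw [MonoidHom.noncommCoprod_apply]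
      simp only [map_one, one_mul, hF₂]
  intro x y hxy
  have hx := DFunLike.congr_fun hcomp x
  have hy := DFunLike.congr_fun hcomp y
  rw [MonoidHom.comp_apply, MonoidHom.id_apply] at hx hy
  rw [← hx, ← hy, hxy]

theorem PA_top {B : Type} (M : CoxeterMatrix B) (q : B → Prop) (hq : ∀ i, q i)
    (h : PA (Art (sub M q))) : PA (Art M) := by
  obtain ⟨Φ, hΦ⟩ := exists_lift M (G := Art (sub M q)) (fun i => σ (sub M q) ⟨i, hq i⟩) (by
    intro i j hij hM
    exact braid (sub M q) ⟨i, hq i⟩ ⟨j, hq j⟩ (fun e => hij (congrArg Subtype.val e)) hM)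
  obtain ⟨F, hF⟩ := exists_incl M q
  refine PA_of_injective Φ ?_ h
  have hcomp : F.comp Φ = MonoidHom.id (Art M) := by
    refine art_ext M _ _ fun i => ?_
    rw [MonoidHom.comp_apply, hΦ, MonoidHom.id_apply, hF]
  intro x y hxy
  have hx := DFunLike.congr_fun hcomp x
  have hy := DFunLike.congr_fun hcomp y
  rw [MonoidHom.comp_apply, MonoidHom.id_apply] at hx hy
  rw [← hx, ← hy, hxy]

/-- restricting twice -/
theorem PA_sub_sub {B : Type} (M : CoxeterMatrix B) (q : B → Prop) (p : {i // q i} → Prop)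
    (r : B → Prop) (hr : ∀ i (hi : q i), p ⟨i, hi⟩ → r i) (h : PA (Art (sub M r)))
    (hr' : ∀ i, r i → ∃ hi : q i, p ⟨i, hi⟩) : PA (Art (sub (sub M q) p)) := by
  obtain ⟨Φ, hΦ⟩ := exists_lift (sub (sub M q) p) (G := Art (sub M r))
    (fun i => σ (sub M r) ⟨i.1.1, hr i.1.1 i.1.2 i.2⟩) (by
    intro i j hij hM
    exact braid (sub M r) ⟨i.1.1, hr i.1.1 i.1.2 i.2⟩ ⟨j.1.1, hr j.1.1 j.1.2 j.2⟩
      (fun e => hij (Subtype.ext (Subtype.ext (congrArg (fun z : {b : B // r b} => z.1) e)))) hM)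
  obtain ⟨F, hF⟩ := exists_lift (sub M r) (G := Art (sub (sub M q) p))
    (fun i => σ (sub (sub M q) p) ⟨⟨i.1, (hr' i.1 i.2).choose⟩, (hr' i.1 i.2).choose_spec⟩) (by
    intro i j hij hM
    exact braid (sub (sub M q) p) ⟨⟨i.1, (hr' i.1 i.2).choose⟩, (hr' i.1 i.2).choose_spec⟩
      ⟨⟨j.1, (hr' j.1 j.2).choose⟩, (hr' j.1 j.2).choose_spec⟩
      (fun e => hij (Subtype.ext (congrArg (fun z => z.1.1) e))) hM)
  refine PA_of_injective Φ ?_ h
  have hcomp : F.comp Φ = MonoidHom.id _ := by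
    refine art_ext _ _ _ fun i => ?_
    rw [MonoidHom.comp_apply, hΦ, MonoidHom.id_apply, hF]
  intro x y hxy
  have hx := DFunLike.congr_fun hcomp x
  have hy := DFunLike.congr_fun hcomp y
  rw [MonoidHom.comp_apply, MonoidHom.id_apply] at hx hy
  rw [← hx, ← hy, hxy]

end Pool.Agent.Lib.MP_9dbb0e_al
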