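import Pool.Agent.Lib.MP_9dbb0e_al.GDefs

/-!
# JOB G2: levels and parents in the Bass-Serre graph

PROOF. `classical`; let `d : NormalWord.Transversal φ` (`NormalWord.transversal_nonempty φ hφ`). For `g : PushoutI φ` let `w g = g⁻¹ • (NormalWord.empty : NormalWord d)`; `(w g).prod = g⁻¹` (`NormalWord.prod_smul`, `prod_empty`), `w` determines `g`.
(1) `w (g * base φ c)` has the same `toList` as `w g`: `w (g * base φ c) = (base φ c)⁻¹ • w g`, `NormalWord.base_smul_def`. Conversely if `(w g).toList = (w g').toList` then `g` and `g'` are in the same coset of `(base φ).range` (`prod = base φ head * ofCoprodI (toWord.prod)`).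
(2) Let `tl i g = (NormalWord.equivPair i (w g)).tail` (a `Word`). `tl i (g * of i x) = tl i g`: `w (g * of i x) = of i x⁻¹ • w g`, `NormalWord.summand_smul_def`, `Equiv.apply_symm_apply`. Conversely, `tl i g = tl i g'` implies that `g, g'` are in the same coset of `(of i).range`
(`w g = (equivPair i).symm (equivPair i (w g))`, so `w g = x • w g'`-like: the pair with head replaced is `of i x • w g'`).
(3) `tl i g` is the tail of the list `(w g).toList` if its first letter has index `i`, and it is `(w g).toWord` otherwise: `(NormalWord.equivPair i w).tail = (Word.equivPair i (CoprodI.of (φ i w.head) • w.toWord)).tail = (Word.equivPair i w.toWord).tail` (`Word.equivPair_smul_same`), and the lemmas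
`Word.equivPair_tail`, `Word.equivPair_head` (in `Mathlib/GroupTheory/CoprodI.lean`) or `Word.equivPairAux`. `(tl i g).fstIdx ≠ some i`.
LEVELS: `lev (vC g) = 2 * (w g).toList.length`, `lev (vG i g) = 2 * (tl i g).toList.length + 1` (well defined by (1), (2): `Quotient.lift` / `Sum.elim`). PARENTS: `par (vC g) = vG i g` if `(w g).toList` is not empty with first index `i`, `par (vC g) = vC 1` if it is empty;
`par (vG i g) = vC (u⁻¹)` with `u = ofCoprodI (tl i g).prod`: `w (u⁻¹) = u • empty` has `toList = (tl i g).toList` (the normal word with head `1` and word `tl i g`, `NormalWord.prod_smul_empty`) . `r = vC 1`.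
h0: level `0` is only possible for `vC g` with empty list, i.e. `g ∈ range base`, `vC g = vC 1`.
h1: `vC g`, first index `i`: `par = vG i g` is adjacent, level `2 (length - 1) + 1`. `vG i g`: `u⁻¹ = g * (of i x)` for some `x` (`w g = of i x' • (u • empty)`, where `x'` is the head of `equivPair i (w g)`), so `vG i g = vG i u⁻¹` is adjacent to `vC u⁻¹`, level `2 * length`.
h2: `vC g ~ vG i g`: if the first index of `(w g).toList` is `i` then `vG i g = par (vC g)` and the levels are `2 length` and `2 (length - 1) + 1`. Otherwise `tl i g = (w g).toWord`, `par (vG i g) = vC g` (the lists agree, (1)) and the levels are `2 length`, `2 length + 1`.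
(It may be convenient to define `lev`, `par` by choice: `lev x = ` the value for a representative `Quotient.out`, then prove the formulas from (1), (2).)
-/

set_option autoImplicit false

namespace Pool.Agent.Lib.MP_9dbb0e_al

open Monoid Monoid.PushoutI

section

open NormalWord CoprodI

variable {ι : Type} {G : ι → Type} [∀ i, Group (G i)] {H : Type} [Group H] {φ : ∀ i, H →* G i}
  {d : NormalWord.Transversal φ} [DecidableEq ι] [∀ i, DecidableEq (G i)]

private noncomputable def g2W (d : NormalWord.Transversal φ) (g : PushoutI φ) : NormalWord d :=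
  g⁻¹ • NormalWord.empty

private noncomputable def g2T (d : NormalWord.Transversal φ) (i : ι) (g : PushoutI φ) : Word G :=
  (NormalWord.equivPair i (g2W d g)).tail

private theorem g2_prod (g : PushoutI φ) : (g2W d g).prod = g⁻¹ := by
  rw [g2W, prod_smul, prod_empty, mul_one]

private theorem g2_base (g : PushoutI φ) (c : H) :
    (g2W d (g * base φ c)).toList = (g2W d g).toList := by
  rw [g2W, mul_inv_rev, mul_smul, ← map_inv, base_smul_def]
  rfl

private theorem g2_base' {g g' : PushoutI φ} (h : (g2W d g).toList = (g2W d g').toList) :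
    (QuotientGroup.mk g : PushoutI φ ⧸ (base φ).range) = QuotientGroup.mk g' := by
  rw [QuotientGroup.eq]
  have h1 : g2W d g = base φ ((g2W d g).head * (g2W d g').head⁻¹) • g2W d g' := by
    apply NormalWord.ext
    · rw [base_smul_def]
      simp
    · rw [base_smul_def]
      exact h
  have h2 := congrArg NormalWord.prod h1
  rw [prod_smul, g2_prod, g2_prod] at h2
  rw [h2]
  exact ⟨_, by rw [inv_mul_cancel_right]⟩

omit [DecidableEq ι] [∀ i, DecidableEq (G i)] in
private theorem g2_pair {i : ι} {p p' : NormalWord.Pair d i} (h1 : p.head = p'.head)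
    (h2 : p.tail = p'.tail) : p = p' := by
  rcases p with ⟨⟨a, b, c⟩, e⟩
  rcases p' with ⟨⟨a', b', c'⟩, e'⟩
  simp only at h1 h2
  subst h1
  subst h2
  rfl

private theorem g2_of (i : ι) (g : PushoutI φ) (x : G i) : g2T d i (g * of i x) = g2T d i g := by
  rw [g2T, g2W, mul_inv_rev, mul_smul, ← map_inv, summand_smul_def, Equiv.apply_symm_apply]
  rfl

private theorem g2_of' {i : ι} {g g' : PushoutI φ} (h : g2T d i g = g2T d i g') :
    (QuotientGroup.mk g : PushoutI φ ⧸ (of (φ := φ) i).range) = QuotientGroup.mk g' := by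
  rw [QuotientGroup.eq]
  have h1 : g2W d g = of (φ := φ) i ((NormalWord.equivPair i (g2W d g)).head *
      (NormalWord.equivPair i (g2W d g')).head⁻¹) • g2W d g' := by
    rw [summand_smul_def, Equiv.eq_symm_apply]
    apply g2_pair
    · simp
    · exact h
  have h2 := congrArg NormalWord.prod h1
  rw [prod_smul, g2_prod, g2_prod] at h2
  rw [h2]
  exact ⟨_, by rw [inv_mul_cancel_right]⟩

private theorem g2_word (i : ι) (w : Word G) :
    (w.fstIdx ≠ some i ∧ (Word.equivPair i w).tail = w) ∨
      (w.fstIdx = some i ∧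
        w.toList = ⟨i, (Word.equivPair i w).head⟩ :: (Word.equivPair i w).tail.toList) := by
  have h := (Word.equivPair i).symm_apply_apply w
  rw [Word.equivPair_symm] at h
  by_cases hp : (Word.equivPair i w).head = 1
  · left
    have h1 : Word.rcons (Word.equivPair i w) = (Word.equivPair i w).tail := dif_pos hp
    rw [h1] at h
    have h2 := (Word.equivPair i w).fstIdx_ne
    rw [h] at h2
    exact ⟨h2, h⟩
  · right
    have h1 : Word.rcons (Word.equivPair i w) = Word.cons (Word.equivPair i w).head
      (Word.equivPair i w).tail (Word.equivPair i w).fstIdx_ne hp := dif_neg hp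
    rw [h1] at h
    have h2 := congrArg Word.fstIdx h
    rw [Word.fstIdx_cons] at h2
    exact ⟨h2.symm, (congrArg Word.toList h).symm⟩

private theorem g2_tail (i : ι) (n : NormalWord d) :
    (NormalWord.equivPair i n).tail = (Word.equivPair i n.toWord).tail := by
  have h : (NormalWord.equivPair i n).tail =
    (Word.equivPair i (CoprodI.of (φ i n.head) • n.toWord)).tail := rfl
  rw [h, Word.equivPair_smul_same]

private theorem g2_T (i : ι) (g : PushoutI φ) :
    ((g2W d g).fstIdx ≠ some i ∧ g2T d i g = (g2W d g).toWord) ∨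
      ((g2W d g).fstIdx = some i ∧
        ∃ m : G i, (g2W d g).toList = ⟨i, m⟩ :: (g2T d i g).toList) := by
  rw [g2T, g2_tail]
  rcases g2_word i (g2W d g).toWord with h | h
  · exact Or.inl h
  · exact Or.inr ⟨h.1, _, h.2⟩

/-- the element with the word `tl i g` -/
private noncomputable def g2U (d : NormalWord.Transversal φ) (i : ι) (g : PushoutI φ) :
    PushoutI φ := (ofCoprodI (g2T d i g).prod)⁻¹

private theorem g2_U (i : ι) (g : PushoutI φ) : (g2W d (g2U d i g)).toWord = g2T d i g := by
  let n : NormalWord d := ⟨g2T d i g, 1, (NormalWord.equivPair i (g2W d g)).normalized⟩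
  have h1 : n.prod = ofCoprodI (g2T d i g).prod := by
    change base φ 1 * ofCoprodI (g2T d i g).prod = _
    rw [map_one, one_mul]
  have h2 : g2W d (g2U d i g) = n := by
    rw [g2W, g2U, inv_inv, ← h1, prod_smul_empty]
  rw [h2]

private theorem g2_U' (i : ι) (g : PushoutI φ) : g2T d i (g2U d i g) = g2T d i g := by
  rcases g2_T (d := d) i (g2U d i g) with h | h
  · rw [h.2, g2_U]
  · exfalso
    have h1 := h.1
    have h2 : (g2W d (g2U d i g)).fstIdx = (g2T d i g).fstIdx := by
      rw [g2_U]
    rw [h2] at h1
    exact (NormalWord.equivPair i (g2W d g)).fstIdx_ne h1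

end

theorem bs_levels {ι : Type} {G : ι → Type} [∀ i, Group (G i)] {H : Type} [Group H]
    (φ : ∀ i, H →* G i) (hφ : ∀ i, Function.Injective (φ i)) :
    ∃ (lev : BV φ → ℕ) (par : BV φ → BV φ) (r : BV φ), (∀ v, lev v = 0 → v = r) ∧
      (∀ v, lev v ≠ 0 → (BG φ).Adj v (par v) ∧ lev (par v) + 1 = lev v) ∧
      (∀ v w, (BG φ).Adj v w →
        (lev w + 1 = lev v ∧ w = par v) ∨ (lev v + 1 = lev w ∧ v = par w)) := by
  classical
  obtain ⟨d⟩ := NormalWord.transversal_nonempty φ hφ
  -- levels
  let lev : BV φ → ℕ := fun v => match v with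
    | Sum.inl q => 2 * (g2W d q.out).toList.length
    | Sum.inr ⟨i, q⟩ => 2 * (g2T d i q.out).toList.length + 1
  let par : BV φ → BV φ := fun v => match v with
    | Sum.inl q => match (g2W d q.out).fstIdx with
      | none => vC φ 1
      | some i => vG φ i q.out
    | Sum.inr ⟨i, q⟩ => vC φ (g2U d i q.out)
  have hC : ∀ g : PushoutI φ, ∃ c : H,
      (QuotientGroup.mk g : PushoutI φ ⧸ (base φ).range).out = g * base φ c := by
    intro g
    have h1 : (QuotientGroup.mk g : PushoutI φ ⧸ (base φ).range) =
      QuotientGroup.mk (QuotientGroup.mk g : PushoutI φ ⧸ (base φ).range).out :=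
      (Quotient.out_eq _).symm
    rw [QuotientGroup.eq] at h1
    obtain ⟨c, hc⟩ := h1
    exact ⟨c, by rw [hc, mul_inv_cancel_left]⟩
  have hG : ∀ (i : ι) (g : PushoutI φ), ∃ x : G i,
      (QuotientGroup.mk g : PushoutI φ ⧸ (of (φ := φ) i).range).out = g * of i x := by
    intro i g
    have h1 : (QuotientGroup.mk g : PushoutI φ ⧸ (of (φ := φ) i).range) =
      QuotientGroup.mk (QuotientGroup.mk g : PushoutI φ ⧸ (of (φ := φ) i).range).out :=
      (Quotient.out_eq _).symm
    rw [QuotientGroup.eq] at h1
    obtain ⟨c, hc⟩ := h1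
    exact ⟨c, by rw [hc, mul_inv_cancel_left]⟩
  have levC : ∀ g, lev (vC φ g) = 2 * (g2W d g).toList.length := by
    intro g
    obtain ⟨c, hc⟩ := hC g
    change 2 * (g2W d (QuotientGroup.mk g : PushoutI φ ⧸ (base φ).range).out).toList.length = _
    rw [hc, g2_base]
  have levG : ∀ i g, lev (vG φ i g) = 2 * (g2T d i g).toList.length + 1 := by
    intro i g
    obtain ⟨x, hx⟩ := hG i g
    change 2 * (g2T d i (QuotientGroup.mk g :
      PushoutI φ ⧸ (of (φ := φ) i).range).out).toList.length + 1 = _
    rw [hx, g2_of]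
  have eqC : ∀ g g', (g2W d g).toList = (g2W d g').toList → vC φ g = vC φ g' := by
    intro g g' h
    exact congrArg Sum.inl (g2_base' h)
  have eqG : ∀ i g g', g2T d i g = g2T d i g' → vG φ i g = vG φ i g' := by
    intro i g g' h
    unfold vG
    rw [g2_of' h]
  have parC : ∀ g i, (g2W d g).fstIdx = some i → par (vC φ g) = vG φ i g := by
    intro g i hi
    obtain ⟨c, hc⟩ := hC g
    have h1 : (g2W d (QuotientGroup.mk g : PushoutI φ ⧸ (base φ).range).out).fstIdx =
        some i := by
      rw [← hi, hc]
      unfold CoprodI.Word.fstIdx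
      rw [g2_base]
    have h2 : par (vC φ g) = match (g2W d
        (QuotientGroup.mk g : PushoutI φ ⧸ (base φ).range).out).fstIdx with
      | none => vC φ 1
      | some i => vG φ i (QuotientGroup.mk g : PushoutI φ ⧸ (base φ).range).out := rfl
    rw [h2, h1]
    change vG φ i (QuotientGroup.mk g : PushoutI φ ⧸ (base φ).range).out = vG φ i g
    apply eqG
    rw [hc, ← of_apply_eq_base φ i, g2_of]
  have parG : ∀ i g, par (vG φ i g) = vC φ (g2U d i g) := by
    intro i g
    obtain ⟨x, hx⟩ := hG i g
    change vC φ (g2U d i (QuotientGroup.mk g : PushoutI φ ⧸ (of (φ := φ) i).range).out) = _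
    rw [hx]
    unfold g2U
    rw [g2_of]
  have casC : ∀ v : BV φ, (∃ g, v = vC φ g) ∨ ∃ i g, v = vG φ i g := by
    rintro (q | ⟨i, q⟩)
    · left
      obtain ⟨g, rfl⟩ := QuotientGroup.mk_surjective q
      exact ⟨g, rfl⟩
    · right
      obtain ⟨g, rfl⟩ := QuotientGroup.mk_surjective q
      exact ⟨i, g, rfl⟩
  have h0 : (g2W d (1 : PushoutI φ)).toList = [] := by
    rw [g2W, inv_one, one_smul]
    rfl
  -- the edge from `g C` down to `g G_i`
  have down : ∀ g i, (g2W d g).fstIdx = some i → lev (vG φ i g) + 1 = lev (vC φ g) := by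
    intro g i hi
    rcases g2_T (d := d) i g with h | ⟨-, m, h⟩
    · exact absurd hi h.1
    · rw [levC, levG, h, List.length_cons]
      ring
  -- the edge from `g G_i` down
  have levU : ∀ i g, lev (vC φ (g2U d i g)) + 1 = lev (vG φ i g) := by
    intro i g
    rw [levC, levG, g2_U]
  refine ⟨lev, par, vC φ 1, ?_, ?_, ?_⟩
  · intro v hv
    rcases casC v with ⟨g, rfl⟩ | ⟨i, g, rfl⟩
    · rw [levC] at hv
      apply eqC
      rw [h0]
      exact List.eq_nil_of_length_eq_zero (by omega)
    · rw [levG] at hv
      omega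
  · intro v hv
    rcases casC v with ⟨g, rfl⟩ | ⟨i, g, rfl⟩
    · cases hf : (g2W d g).fstIdx with
      | none =>
        exfalso
        apply hv
        rw [levC]
        have h1 : (g2W d g).toList = [] := by
          unfold CoprodI.Word.fstIdx at hf
          simpa using hf
        rw [h1]
        rfl
      | some i =>
        rw [parC g i hf]
        exact ⟨⟨g, i, Or.inl ⟨rfl, rfl⟩⟩, down g i hf⟩
    · rw [parG]
      refine ⟨⟨g2U d i g, i, Or.inr ⟨rfl, ?_⟩⟩, levU i g⟩
      apply eqG
      rw [g2_U']
  · have key : ∀ g i, (lev (vG φ i g) + 1 = lev (vC φ g) ∧ vG φ i g = par (vC φ g)) ∨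
        (lev (vC φ g) + 1 = lev (vG φ i g) ∧ vC φ g = par (vG φ i g)) := by
      intro g i
      rcases g2_T (d := d) i g with h | h
      · right
        have h1 : vC φ g = vC φ (g2U d i g) := by
          apply eqC
          rw [g2_U, h.2]
        refine ⟨?_, ?_⟩
        · rw [h1, levU]
        · rw [parG, ← h1]
      · left
        exact ⟨down g i h.1, (parC g i h.1).symm⟩
    rintro v w ⟨g, i, ⟨rfl, rfl⟩ | ⟨rfl, rfl⟩⟩
    · exact key g i
    · exact (key g i).symm

end Pool.Agent.Lib.MP_9dbb0e_al
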