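import Pool.Agent.Lib.MP_9dbb0e_al.T1
import Pool.Agent.Lib.MP_9dbb0e_al.U

/-!
# JOB T5: three ping-pong lemmas in a tree

Everything follows from the lemmas of T1 and `omega`. Write `(x|y)_p = gp T p x y` (twice the Gromov product). Ultrametric inequality:
`gp_ultra p x y z : (x|z) ≤ (x|y) ∨ (z|y) ≤ (x|y)`.
PROOFS.
`side`: `(h⁻¹ p|q)_p = 0 ≥ min ((h⁻¹ p|x)_p, (x|q)_p)` and `(x|q)_p > 0` give `(h⁻¹ p|x)_p = 0`; apply `h` (`gp_smul`): `(p|h x)_{h p} = 0`, so `gp_add` (base points `p` and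
`h p`): `(h p|h x)_p = 2 d p (h p) > 0`. With `(h p|q)_p = 0 ≥ min ((h p|h x)_p, (h x|q)_p)` we get `(h x|q)_p = 0`.
`side_fix`: `(h x|h q)_p = (x|q)_p > 0` (`gp_smul`, `h p = p`) and `0 = (q|h q)_p ≥ min ((q|h x)_p, (h x|h q)_p)`.
`bridge`: `free_of_pp` with `X = {x | gp T p x q = 0}`, `Y = {x | gp T q x p = 0}`; `gp T p x q + gp T q x p = 2 * d p q > 0` (`gp_add`, `gp_comm`: `gp T p q x + gp T q p x = 2 d p q`), so `X`, `Y` are
disjoint, and `x ∈ Y` implies `gp T p x q > 0`; `p ∈ X`, `q ∈ Y` (`gp_base`).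
`common`: `free_of_pp` with `X = {x | ∃ n : ℤ, n ≠ 0 ∧ 2 * T.d p (a ^ n • p) ≤ gp T p (a ^ n • p) x + κ}` and `Y` the same for `b`. For `x ∈ Y` (with `b ^ m`): `gp p (b ^ m p) x ≥ 2 d - κ > κ`. For `n ≠ 0`:
`gp p (a ^ (-n) p) (b ^ m p) ≤ κ` so (`gp_ultra`) `gp p (a ^ (-n) p) x ≤ κ`; apply `a ^ n`: `gp (a ^ n p) p (a ^ n x) ≤ κ`, and `gp_add`: `gp p (a ^ n p) (a ^ n x) ≥ 2 d p (a ^ n p) - κ`, i.e. `a ^ n x ∈ X`. Disjoint: `x` in both gives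
`κ < gp p (a ^ n p) x`, `κ < gp p x (b ^ m p)`, so `κ < gp p (a ^ n p) (b ^ m p)` by `gp_ultra`, contradiction. `a • p ∈ X` (`gp_self`).
`commonE`: `X` as before and `Y = {x | ∃ m : ℤ, m ≠ 0 ∧ b ^ (-m) • x ∈ X}` (`b` fixes `p`). `x ∈ Y`: for some `m, n' ≠ 0`, `gp p (b ^ m (a ^ n' p)) x > κ` (`gp_smul` for `b ^ m`); `n ≠ 0`: `gp p (a ^ (-n) p) (b ^ m (a ^ n' p)) ≤ κ`, continue as before.
`b ^ k x ∈ Y` for `x ∈ X`, `k ≠ 0`: take `m = k`.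
-/

set_option autoImplicit false

namespace Pool.Agent.Lib.MP_9dbb0e_al

variable {G V : Type*} [Group G] [MulAction G V] (T : TM V)

theorem side (hT : Act G V T) (h : G) (p q : V) (h1 : gp T p (h⁻¹ • p) q = 0)
    (h2 : gp T p (h • p) q = 0) (h3 : h • p ≠ p) (x : V) (hx : 0 < gp T p x q) :
    gp T p (h • x) q = 0 := by
  have e1 : gp T p (h⁻¹ • p) x = 0 := by
    rcases gp_ultra T p (h⁻¹ • p) q x with h4 | h4
    · omega
    · omega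
  have e2 : gp T (h • p) p (h • x) = 0 := by
    have e3 := gp_smul T hT h p (h⁻¹ • p) x
    rw [smul_inv_smul] at e3
    omega
  have e4 : 0 < T.d p (h • p) := by
    rcases Nat.eq_zero_or_pos (T.d p (h • p)) with e5 | e5
    · exact absurd (T.eq_of _ _ e5).symm h3
    · exact e5
  have e6 := gp_add T p (h • p) (h • x)
  rcases gp_ultra T p (h • p) q (h • x) with h7 | h7
  · omega
  · omega

theorem side_fix (hT : Act G V T) (h : G) (p q : V) (h1 : h • p = p)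
    (h2 : gp T p q (h • q) = 0) (x : V) (hx : 0 < gp T p x q) : gp T p (h • x) q = 0 := by
  have e1 : gp T p (h • x) (h • q) = gp T p x q := by
    have e2 := gp_smul T hT h p x q
    rw [h1] at e2
    exact e2
  have e3 := gp_comm T p (h • x) q
  rcases gp_ultra T p q (h • q) (h • x) with h7 | h7
  · omega
  · omega

theorem bridge (a b : G) (p q : V) (hpq : 0 < T.d p q)
    (ha : ∀ k : ℤ, k ≠ 0 → ∀ x, 0 < gp T p x q → gp T p (a ^ k • x) q = 0)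
    (hb : ∀ k : ℤ, k ≠ 0 → ∀ x, 0 < gp T q x p → gp T q (b ^ k • x) p = 0) (m n : ℕ)
    (hm : 0 < m) (hn : 0 < n) : FreeTwo (a ^ m) (b ^ n) := by
  have key : ∀ x, gp T p x q + gp T q x p = 2 * T.d p q := by
    intro x
    have e1 := gp_add T p q x
    have e2 := gp_comm T p x q
    have e3 := gp_comm T q x p
    omega
  refine free_of_pp a b {x | gp T p x q = 0} {x | gp T q x p = 0} ⟨p, gp_base T p q⟩
    ⟨q, gp_base T q p⟩ ?_ ?_ ?_ m n hm hn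
  · rw [Set.disjoint_left]
    intro x hx hy
    have e1 : gp T p x q = 0 := hx
    have e2 : gp T q x p = 0 := hy
    have e3 := key x
    omega
  · intro k hk y hy
    have e2 : gp T q y p = 0 := hy
    have e3 := key y
    exact ha k hk y (by omega)
  · intro k hk x hx
    have e2 : gp T p x q = 0 := hx
    have e3 := key x
    exact hb k hk x (by omega)

private theorem t5_move (hT : Act G V T) (a : G) (p y : V) (κ : ℕ) (k : ℤ)
    (h : gp T p (a ^ (-k) • p) y ≤ κ) :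
    2 * T.d p (a ^ k • p) ≤ gp T p (a ^ k • p) (a ^ k • y) + κ := by
  have h1 := gp_add T p (a ^ k • p) (a ^ k • y)
  have h2 := gp_smul T hT (a ^ k) p (a ^ (-k) • p) y
  rw [smul_smul, ← zpow_add, add_neg_cancel, zpow_zero, one_smul] at h2
  omega

private theorem t5_step (hT : Act G V T) (a b : G) (p : V) (κ : ℕ)
    (h1 : ∀ n m : ℤ, n ≠ 0 → m ≠ 0 → gp T p (a ^ n • p) (b ^ m • p) ≤ κ)
    (h3 : ∀ n : ℤ, n ≠ 0 → κ < T.d p (b ^ n • p)) (k : ℤ) (hk : k ≠ 0) (y : V)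
    (hy : ∃ m : ℤ, m ≠ 0 ∧ 2 * T.d p (b ^ m • p) ≤ gp T p (b ^ m • p) y + κ) :
    2 * T.d p (a ^ k • p) ≤ gp T p (a ^ k • p) (a ^ k • y) + κ := by
  obtain ⟨m, hm, hy⟩ := hy
  have e1 := h1 (-k) m (neg_ne_zero.2 hk) hm
  have e2 := h3 m hm
  refine t5_move T hT a p y κ k ?_
  rcases gp_ultra T p (a ^ (-k) • p) (b ^ m • p) y with e3 | e3
  · omega
  · rw [gp_comm T p y] at e3
    omega

theorem common (hT : Act G V T) (a b : G) (p : V) (κ : ℕ)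
    (h1 : ∀ n m : ℤ, n ≠ 0 → m ≠ 0 → gp T p (a ^ n • p) (b ^ m • p) ≤ κ)
    (h2 : ∀ n : ℤ, n ≠ 0 → κ < T.d p (a ^ n • p)) (h3 : ∀ n : ℤ, n ≠ 0 → κ < T.d p (b ^ n • p))
    (m n : ℕ) (hm : 0 < m) (hn : 0 < n) : FreeTwo (a ^ m) (b ^ n) := by
  have h1' : ∀ n m : ℤ, n ≠ 0 → m ≠ 0 → gp T p (b ^ n • p) (a ^ m • p) ≤ κ := by
    intro n m hn hm
    rw [gp_comm]
    exact h1 m n hm hn
  refine free_of_pp a b {x | ∃ n : ℤ, n ≠ 0 ∧ 2 * T.d p (a ^ n • p) ≤ gp T p (a ^ n • p) x + κ}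
    {x | ∃ n : ℤ, n ≠ 0 ∧ 2 * T.d p (b ^ n • p) ≤ gp T p (b ^ n • p) x + κ} ?_ ?_ ?_ ?_ ?_ m n hm hn
  · refine ⟨a ^ (1 : ℤ) • p, 1, one_ne_zero, ?_⟩
    rw [gp_self]
    omega
  · refine ⟨b ^ (1 : ℤ) • p, 1, one_ne_zero, ?_⟩
    rw [gp_self]
    omega
  · rw [Set.disjoint_left]
    rintro x ⟨n, hn, hx⟩ ⟨m, hm, hx'⟩
    have e1 := h1 n m hn hm
    have e2 := h2 n hn
    have e3 := h3 m hm
    rcases gp_ultra T p (a ^ n • p) (b ^ m • p) x with e4 | e4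
    · omega
    · rw [gp_comm T p x] at e4
      omega
  · intro k hk y hy
    exact ⟨k, hk, t5_step T hT a b p κ h1 h3 k hk y hy⟩
  · intro k hk y hy
    exact ⟨k, hk, t5_step T hT b a p κ h1' h2 k hk y hy⟩

theorem commonE (hT : Act G V T) (a b : G) (p : V) (κ : ℕ) (hb : b • p = p)
    (h1 : ∀ n n' m : ℤ, n ≠ 0 → n' ≠ 0 → m ≠ 0 →
      gp T p (a ^ n • p) (b ^ m • a ^ n' • p) ≤ κ)
    (h2 : ∀ n : ℤ, n ≠ 0 → κ < T.d p (a ^ n • p)) (m n : ℕ) (hm : 0 < m) (hn : 0 < n) :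
    FreeTwo (a ^ m) (b ^ n) := by
  have hbz : ∀ k : ℤ, b ^ k • p = p := by
    intro k
    have h0 : b ∈ MulAction.stabilizer G p := hb
    exact Subgroup.zpow_mem _ h0 k
  have key : ∀ (x : V) (n' m : ℤ), n' ≠ 0 →
      2 * T.d p (a ^ n' • p) ≤ gp T p (a ^ n' • p) (b ^ (-m) • x) + κ →
      κ < gp T p (b ^ m • a ^ n' • p) x := by
    intro x n' m hn' hx
    have e1 := gp_smul T hT (b ^ m) p (a ^ n' • p) (b ^ (-m) • x)
    rw [hbz, smul_smul (b ^ m) (b ^ (-m)), ← zpow_add, add_neg_cancel, zpow_zero, one_smul] at e1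
    have e2 := h2 n' hn'
    omega
  refine free_of_pp a b {x | ∃ n : ℤ, n ≠ 0 ∧ 2 * T.d p (a ^ n • p) ≤ gp T p (a ^ n • p) x + κ}
    {x | ∃ m : ℤ, m ≠ 0 ∧ ∃ n : ℤ, n ≠ 0 ∧
      2 * T.d p (a ^ n • p) ≤ gp T p (a ^ n • p) (b ^ (-m) • x) + κ} ?_ ?_ ?_ ?_ ?_ m n hm hn
  · refine ⟨a ^ (1 : ℤ) • p, 1, one_ne_zero, ?_⟩
    rw [gp_self]
    omega
  · refine ⟨b ^ (1 : ℤ) • a ^ (1 : ℤ) • p, 1, one_ne_zero, 1, one_ne_zero, ?_⟩
    rw [smul_smul (b ^ (-1 : ℤ)) (b ^ (1 : ℤ)), ← zpow_add, neg_add_cancel, zpow_zero, one_smul,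
      gp_self]
    omega
  · rw [Set.disjoint_left]
    rintro x ⟨n, hn, hx⟩ ⟨m, hm, n', hn', hx'⟩
    have e1 := h1 n n' m hn hn' hm
    have e2 := h2 n hn
    have e3 := key x n' m hn' hx'
    rcases gp_ultra T p (a ^ n • p) (b ^ m • a ^ n' • p) x with e4 | e4
    · omega
    · rw [gp_comm T p x] at e4
      omega
  · rintro k hk x ⟨m, hm, n', hn', hx'⟩
    refine ⟨k, hk, t5_move T hT a p x κ k ?_⟩
    have e1 := h1 (-k) n' m (neg_ne_zero.2 hk) hn' hm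
    have e3 := key x n' m hn' hx'
    rcases gp_ultra T p (a ^ (-k) • p) (b ^ m • a ^ n' • p) x with e4 | e4
    · omega
    · rw [gp_comm T p x] at e4
      omega
  · rintro k hk x ⟨n, hn, hx⟩
    refine ⟨k, hk, n, hn, ?_⟩
    rw [smul_smul (b ^ (-k)) (b ^ k), ← zpow_add, neg_add_cancel, zpow_zero, one_smul]
    exact hx

end Pool.Agent.Lib.MP_9dbb0e_al
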