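import Pool.Agent.Lib.MP_9dbb0e_al.T4
import Pool.Agent.Lib.MP_9dbb0e_al.T5

/-!
# JOB T6: two hyperbolic elements

PROOFS.
`comm_of_overlap`: the commutator `c = a * b * a⁻¹ * b⁻¹` fixes `L (i + x)` for `t + s ≤ x ≤ R` (natural numbers): `b⁻¹ • L (i + x) = b⁻¹ • L' (j + x) = L' (j + (x - s)) = L (i + (x - s))`, then
`a⁻¹` gives `L (i + (x - s - t))`, `b` gives `L' (j + (x - t)) = L (i + (x - t))`, `a` gives `L (i + x)` (all indices are between `0` and `R`; use `h` with the natural numbers `x - s`, `x - s - t`, `x - t`; `Ax.zpow` or `shift`).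
So `c` fixes `L (i + (t + s))` and `L (i + (t + s + 1))`, which are at distance `1` (`line`); `Φ c = 1`; `hE` gives `c = 1`, `Commute a b`.
`comm_of_overlap'`: the same for the line `x ↦ L' (-x)` of `b⁻¹` (`Ax.rev`): `Commute a b⁻¹` gives `Commute a b` (`Commute.inv_right_iff`).
`hh`: CASE A: there are `i j : ℤ` with `L i = L' j`. CASE A1: there are `ε ε' ∈ {1, -1}` such that `L (i + ε x) = L' (j + ε' x)` for all `x ≤ t + s + 1`: for `ε = 1` use `comm_of_overlap` or `comm_of_overlap'`; for `ε = -1` apply them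
to `a⁻¹` with the line `x ↦ L (-x)` (`Ax.rev`, then `Commute.inv_left_iff`); `n = 1`. CASE A2: not A1. Put `p = L i`, `κ = 2 (t + s) + 1`, `N = κ + 1`; `common` for `a ^ N`, `b ^ N`: for `n, m ≠ 0`:
`(a ^ N) ^ n • p = L (i + N n t) = L (i + ε * (N |n| t))`, `ε = sign n`, same for `b`; if the product were `≥ κ + 1 = 2 (t + s + 1)`, `agree_gp` with `k = t + s + 1` would give A1. `d p ((a ^ N) ^ n p) = N |n| t ≥ N > κ`. Result: `n = N`.
CASE B: `L i ≠ L' j` for all `i, j`. Choose `i, j` with `δ = d (L i) (L' j)` minimal, `δ > 0`; `p = L i`, `q = L' j`. CLAIM: `gp T p (L i') q = 0` for all `i'`: otherwise the product is `≥ 2` (`gp_even`); write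
`L i' = L (i + ε n)`, `n ≥ 1`; take `z` with `d p z = 1`, `d z q + 1 = δ` (`T.geo`); `z = L (i + ε)` by `pt_unique` (`k = 1`, `line_pt`), and `d z q = δ - 1`, contradiction to the minimality. In the same way `gp T q (L' j') p = 0` for all `j'`.
Then `bridge` with `a, b, p, q`: the hypotheses follow from `side` with `h = a ^ k` (`a ^ k • p = L (i + k t) ≠ p`, `(a ^ k)⁻¹ • p = L (i - k t)`, `Ax.zpow`). `n = 1`.
-/

set_option autoImplicit false

namespace Pool.Agent.Lib.MP_9dbb0e_al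

variable {G Q V : Type*} [Group G] [Group Q] [MulAction G V] (T : TM V)

theorem comm_of_overlap (Φ : G →* Q) (hE : EdgeFree T Φ) (a b : G)
    (hc : Commute (Φ a) (Φ b)) {L L' : ℤ → V} {t s : ℕ} (ha : Ax T a L t) (hb : Ax T b L' s)
    (i j : ℤ) (R : ℕ) (hR : t + s + 1 ≤ R) (h : ∀ x : ℕ, x ≤ R → L (i + x) = L' (j + x)) :
    Commute a b := by
  have hL : ∀ x : ℤ, 0 ≤ x → x ≤ R → L (i + x) = L' (j + x) := by
    intro x hx0 hxR
    obtain ⟨n, rfl⟩ := Int.eq_ofNat_of_zero_le hx0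
    exact h n (by omega)
  have hai : ∀ x : ℤ, a⁻¹ • L x = L (x - t) := by
    intro x
    rw [inv_smul_eq_iff, ha.shift, sub_add_cancel]
  have hbi : ∀ x : ℤ, b⁻¹ • L' x = L' (x - s) := by
    intro x
    rw [inv_smul_eq_iff, hb.shift, sub_add_cancel]
  have hfix : ∀ x : ℤ, (t : ℤ) + s ≤ x → x ≤ R → (a * b * a⁻¹ * b⁻¹) • L (i + x) = L (i + x) := by
    intro x h1 h2
    rw [mul_smul, mul_smul, mul_smul, hL x (by omega) h2, hbi,
      show j + x - (s : ℤ) = j + (x - s) by ring, ← hL (x - s) (by omega) (by omega), hai,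
      show i + (x - s) - (t : ℤ) = i + (x - s - t) by ring, hL (x - s - t) (by omega) (by omega),
      hb.shift, show j + (x - s - t) + (s : ℤ) = j + (x - t) by ring,
      ← hL (x - t) (by omega) (by omega), ha.shift, show i + (x - t) + (t : ℤ) = i + x by ring,
      hL x (by omega) h2]
  have hΦ : Φ (a * b * a⁻¹ * b⁻¹) = 1 := by
    rw [map_mul, map_mul, map_mul, map_inv, map_inv, hc.eq]
    group
  have hd : T.d (L (i + ((t : ℤ) + s))) (L (i + ((t : ℤ) + s + 1))) = 1 := by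
    rw [ha.line]
    omega
  have hone := hE _ _ _ hd (hfix _ le_rfl (by omega)) (hfix _ (by omega) (by omega)) hΦ
  have h3 : a * b = (a * b * a⁻¹ * b⁻¹) * (b * a) := by group
  rw [hone, one_mul] at h3
  exact h3

theorem comm_of_overlap' (Φ : G →* Q) (hE : EdgeFree T Φ) (a b : G)
    (hc : Commute (Φ a) (Φ b)) {L L' : ℤ → V} {t s : ℕ} (ha : Ax T a L t) (hb : Ax T b L' s)
    (i j : ℤ) (R : ℕ) (hR : t + s + 1 ≤ R) (h : ∀ x : ℕ, x ≤ R → L (i + x) = L' (j - x)) :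
    Commute a b := by
  have hc' : Commute (Φ a) (Φ b⁻¹) := by
    rw [map_inv]
    exact hc.inv_right
  refine Commute.inv_right_iff.1 (comm_of_overlap T Φ hE a b⁻¹ hc' ha hb.rev i (-j) R hR ?_)
  intro x hx
  show L (i + x) = L' (-(-j + x))
  rw [h x hx]
  congr 1
  ring

private theorem t6b_proj {L : ℤ → V} (hL : ∀ i j, T.d (L i) (L j) = (i - j).natAbs) (i : ℤ) (q : V)
    (hmin : ∀ i', T.d (L i) q ≤ T.d (L i') q) (hpos : 0 < T.d (L i) q) (i' : ℤ) :
    gp T (L i) (L i') q = 0 := by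
  by_contra h0
  have h2 : 2 ≤ gp T (L i) (L i') q := by
    obtain ⟨r, hr⟩ := gp_even T (L i) (L i') q
    omega
  obtain ⟨ε, n, hε, hn⟩ : ∃ (ε : ℤ) (n : ℕ), (ε = 1 ∨ ε = -1) ∧ i' = i + ε * n := by
    rcases le_total i i' with h | h
    · exact ⟨1, (i' - i).natAbs, Or.inl rfl, by omega⟩
    · exact ⟨-1, (i' - i).natAbs, Or.inr rfl, by omega⟩
  have hn1 : 1 ≤ n := by
    by_contra h
    have h3 : n = 0 := by omega
    apply h0
    rw [hn, h3, Nat.cast_zero, mul_zero, add_zero]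
    exact gp_base T (L i) q
  obtain ⟨z, hz1, hz2⟩ := T.geo (L i) q 1 hpos
  obtain ⟨h3, h4, -⟩ := line_pt (T := T) hL i ε hε 1 n hn1
  have h5 : L (i + ε * (1 : ℕ)) = z := by
    apply pt_unique T (L i) (L (i + ε * n)) q _ z 1 h3 h4 hz1 hz2
    rw [← hn]
    exact h2
  have h6 := hmin (i + ε * (1 : ℕ))
  rw [h5] at h6
  omega

private theorem t6b_sign (k : ℤ) (t : ℕ) : ∃ ε : ℤ, (ε = 1 ∨ ε = -1) ∧
    k * (t : ℤ) = ε * ((k.natAbs * t : ℕ) : ℤ) := by
  rcases le_total 0 k with h | h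
  · refine ⟨1, Or.inl rfl, ?_⟩
    rw [Nat.cast_mul, one_mul, Int.natAbs_of_nonneg h]
  · refine ⟨-1, Or.inr rfl, ?_⟩
    rw [Nat.cast_mul, Int.ofNat_natAbs_of_nonpos h]
    ring

private theorem t6b_dist {g : G} {L : ℤ → V} {t : ℕ} (hg : Ax T g L t) (N : ℕ) (hN : 0 < N) (n : ℤ)
    (hn : n ≠ 0) (i : ℤ) : N ≤ T.d (L i) ((g ^ N) ^ n • L i) := by
  have h1 := (hg.pow N hN).zpow n i
  rw [h1, hg.line]
  have h2 : (i - (i + n * ((N * t : ℕ) : ℤ))).natAbs = n.natAbs * (N * t) := by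
    have h3 : i - (i + n * ((N * t : ℕ) : ℤ)) = -(n * ((N * t : ℕ) : ℤ)) := by ring
    rw [h3, Int.natAbs_neg, Int.natAbs_mul, Int.natAbs_natCast]
  rw [h2]
  have h3 : 1 ≤ n.natAbs := Int.natAbs_pos.2 hn
  have h4 : 1 ≤ t := hg.pos
  calc N = 1 * (N * 1) := by ring
    _ ≤ n.natAbs * (N * t) := Nat.mul_le_mul h3 (Nat.mul_le_mul le_rfl h4)

private theorem t6b_move {g : G} {L : ℤ → V} {t : ℕ} (hg : Ax T g L t) (k : ℤ) (hk : k ≠ 0) (i : ℤ) :
    g ^ k • L i ≠ L i := by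
  intro h
  rw [hg.zpow k i] at h
  have h1 := hg.line (i + k * t) i
  rw [h, T.self] at h1
  have h2 : k * (t : ℤ) = 0 := by omega
  rcases mul_eq_zero.1 h2 with h3 | h3
  · exact hk h3
  · have := hg.pos
    omega

private theorem t6b_side (hT : Act G V T) {g : G} {L : ℤ → V} {t : ℕ} (hg : Ax T g L t) (i : ℤ)
    (q : V) (h0 : ∀ i', gp T (L i) (L i') q = 0) (k : ℤ) (hk : k ≠ 0) (x : V)
    (hx : 0 < gp T (L i) x q) : gp T (L i) (g ^ k • x) q = 0 := by
  refine side T hT (g ^ k) (L i) q ?_ ?_ (t6b_move T hg k hk i) x hx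
  · rw [← zpow_neg, hg.zpow]
    exact h0 _
  · rw [hg.zpow]
    exact h0 _

private theorem t6b_one (Φ : G →* Q) (hE : EdgeFree T Φ) (a b : G)
    (hc : Commute (Φ a) (Φ b)) {L L' : ℤ → V} {t s : ℕ} (ha : Ax T a L t) (hb : Ax T b L' s)
    (i j ε' : ℤ) (hε' : ε' = 1 ∨ ε' = -1)
    (h : ∀ x : ℕ, x ≤ t + s + 1 → L (i + x) = L' (j + ε' * x)) : Commute a b := by
  rcases hε' with rfl | rfl
  · refine comm_of_overlap T Φ hE a b hc ha hb i j (t + s + 1) le_rfl fun x hx => ?_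
    rw [h x hx, one_mul]
  · refine comm_of_overlap' T Φ hE a b hc ha hb i j (t + s + 1) le_rfl fun x hx => ?_
    rw [h x hx]
    congr 1
    ring

private theorem t6b_both (Φ : G →* Q) (hE : EdgeFree T Φ) (a b : G)
    (hc : Commute (Φ a) (Φ b)) {L L' : ℤ → V} {t s : ℕ} (ha : Ax T a L t) (hb : Ax T b L' s)
    (i j ε ε' : ℤ) (hε : ε = 1 ∨ ε = -1) (hε' : ε' = 1 ∨ ε' = -1)
    (h : ∀ x : ℕ, x ≤ t + s + 1 → L (i + ε * x) = L' (j + ε' * x)) : Commute a b := by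
  rcases hε with rfl | rfl
  · refine t6b_one T Φ hE a b hc ha hb i j ε' hε' fun x hx => ?_
    rw [← h x hx, one_mul]
  · have hc' : Commute (Φ a⁻¹) (Φ b) := by
      rw [map_inv]
      exact hc.inv_left
    have h1 : Commute a⁻¹ b := by
      refine t6b_one T Φ hE a⁻¹ b hc' ha.rev hb (-i) j ε' hε' fun x hx => ?_
      have h2 := h x hx
      rw [← h2]
      show L (-(-i + x)) = L (i + -1 * x)
      congr 1
      ring
    exact (Commute.inv_left_iff).1 h1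

theorem hh (hT : Act G V T) (Φ : G →* Q) (hE : EdgeFree T Φ) (a b : G)
    (hc : Commute (Φ a) (Φ b)) {L L' : ℤ → V} {t s : ℕ} (ha : Ax T a L t) (hb : Ax T b L' s) :
    ∃ n : ℕ, 0 < n ∧ (Commute (a ^ n) (b ^ n) ∨ FreeTwo (a ^ n) (b ^ n)) := by
  by_cases hA : ∃ i j : ℤ, L i = L' j
  · obtain ⟨i, j, hij⟩ := hA
    by_cases hA1 : ∃ ε ε' : ℤ, (ε = 1 ∨ ε = -1) ∧ (ε' = 1 ∨ ε' = -1) ∧
        ∀ x : ℕ, x ≤ t + s + 1 → L (i + ε * x) = L' (j + ε' * x)
    · obtain ⟨ε, ε', hε, hε', h⟩ := hA1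
      refine ⟨1, one_pos, Or.inl ?_⟩
      rw [pow_one, pow_one]
      exact t6b_both T Φ hE a b hc ha hb i j ε ε' hε hε' h
    · refine ⟨2 * (t + s) + 1 + 1, by omega, Or.inr ?_⟩
      have hN : 0 < 2 * (t + s) + 1 + 1 := by omega
      have key := common T hT (a ^ (2 * (t + s) + 1 + 1)) (b ^ (2 * (t + s) + 1 + 1)) (L i)
        (2 * (t + s) + 1) (fun n m _ _ => ?_) (fun n hn => ?_) (fun m hm => ?_) 1 1 one_pos one_pos
      · rw [pow_one, pow_one] at key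
        exact key
      · by_contra hgt
        rw [(ha.pow _ hN).zpow n i, hij, (hb.pow _ hN).zpow m j, ← hij] at hgt
        obtain ⟨ε, hε, e1⟩ := t6b_sign n ((2 * (t + s) + 1 + 1) * t)
        obtain ⟨ε', hε', e2⟩ := t6b_sign m ((2 * (t + s) + 1 + 1) * s)
        rw [e1, e2] at hgt
        apply hA1
        obtain ⟨-, -, h3⟩ := agree_gp (T := T) ha.line hb.line i j ε ε' hε hε'
          (n.natAbs * ((2 * (t + s) + 1 + 1) * t)) (m.natAbs * ((2 * (t + s) + 1 + 1) * s))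
          (t + s + 1) hij (by omega)
        exact ⟨ε, ε', hε, hε', h3⟩
      · exact t6b_dist T ha _ hN n hn i
      · rw [hij]
        exact t6b_dist T hb _ hN m hm j
  · obtain ⟨⟨i, j⟩, hmin⟩ : ∃ ij : ℤ × ℤ, ∀ kl : ℤ × ℤ,
        T.d (L ij.1) (L' ij.2) ≤ T.d (L kl.1) (L' kl.2) :=
      ⟨Function.argmin (fun kl : ℤ × ℤ => T.d (L kl.1) (L' kl.2)),
        fun kl => Function.argmin_le (fun kl : ℤ × ℤ => T.d (L kl.1) (L' kl.2)) kl⟩
    have hpos : 0 < T.d (L i) (L' j) := by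
      rw [Nat.pos_iff_ne_zero]
      intro h
      exact hA ⟨i, j, T.eq_of _ _ h⟩
    have c1 : ∀ i', gp T (L i) (L i') (L' j) = 0 :=
      t6b_proj T ha.line i (L' j) (fun i' => hmin (i', j)) hpos
    have c2 : ∀ j', gp T (L' j) (L' j') (L i) = 0 := by
      refine t6b_proj T hb.line j (L i) (fun j' => ?_) (by rw [T.symm]; exact hpos)
      rw [T.symm, T.symm (L' j')]
      exact hmin (i, j')
    refine ⟨1, one_pos, Or.inr ?_⟩
    exact bridge T a b (L i) (L' j) hpos (t6b_side T hT ha i (L' j) c1)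
      (t6b_side T hT hb j (L i) c2) 1 1 one_pos one_pos

end Pool.Agent.Lib.MP_9dbb0e_al
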