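import Pool.Agent.Lib.MP_9dbb0e_al.T4
import Pool.Agent.Lib.MP_9dbb0e_al.T5

/-!
# JOB T7: a hyperbolic and an elliptic element

PROOFS.
`comm_of_fix`: `c = a * b * a⁻¹ * b⁻¹` fixes `L (i + x)` for `t ≤ x ≤ R`: `b⁻¹` fixes it, `a⁻¹` maps it to `L (i + (x - t))`, which is fixed by `b`, and `a` maps it back. Two vertices at distance `1` are fixed (`x = t`, `x = t + 1`), `Φ c = 1`, so `c = 1` by `hE`.
`reflect`: put `M = 2 t + 1`, `a₁ = b⁻¹ * a * b`. For `0 ≤ m ≤ M`: `b • L (i - m) = L (i + m)`, so `b⁻¹ • L (i + m) = L (i - m)`.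
 (1) for `m + t ≤ M`: `a₁ • L (i - m) = b⁻¹ a L (i + m) = b⁻¹ L (i + m + t) = L (i - m - t)`. For `t ≤ m ≤ M`: `a₁⁻¹ • L (i - m) = L (i - m + t)`.
 (2) `c = a * a₁⁻¹`: `c • L (i - m) = L (i - m + 2 t)` for `t ≤ m ≤ M`. `Φ c = 1`, because `a₁⁻¹ = b⁻¹ a⁻¹ b` and `Φ a, Φ b` commute.
 (3) `e = c⁻¹ * (a * c * a⁻¹)`: for `t ≤ m ≤ M - t = t + 1`: `a⁻¹`: `L (i - m - t)`; `c` (`t ≤ m + t ≤ M`): `L (i - m + t)`; `a`: `L (i - m + 2 t)`; `c⁻¹`: `L (i - m)`. So `e` fixes `L (i - t)` and `L (i - t - 1)`, `Φ e = 1`, so `e = 1`: `a` commutes with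
     `c`, hence with `a₁` (`a₁ = c⁻¹ a`).
 (4) `f = a * a₁` fixes `L (i - m)` for `0 ≤ m ≤ t + 1` (by (1): `a₁ L (i - m) = L (i - m - t)`, `m + t ≤ M`), and `f` commutes with `a`. Every `k : ℤ` is `k = i - m + n t` with `0 ≤ m < t`, `n : ℤ` (`Int.emod`); `f • L k = f • a ^ n • L (i - m) = a ^ n • f • L (i - m) = L k`.
     So `a₁ • L k = a⁻¹ • L k = L (k - t)` for all `k`.
 (5) `b⁻¹ • L (i + m + n t) = L (i - m - n t)` for all `n : ℤ`, `0 ≤ m < t`: `b⁻¹ • a ^ n • L (i + m) = a₁ ^ n • b⁻¹ • L (i + m) = a₁ ^ n • L (i - m) = L (i - m - n t)` (`a₁ ^ n = b⁻¹ a ^ n b`, `conj_zpow`). So `b⁻¹ • L (i + k) = L (i - k)` for all `k : ℤ`, hence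
     `b⁻¹ • b⁻¹ • L (i + k) = b⁻¹ • L (i - k) = L (i + k)`: `b ^ 2` fixes all `L k`.
`eh`: every power of `b` fixes `v`. CASE 1: there are `k ≥ 1` and `i` with `b ^ k` fixing `L i` and `L (i + (t + 1))`: `fix_seg` and `comm_of_fix` for `a, b ^ k`: `Commute a (b ^ k)`, so `a ^ k, b ^ k` commute.
 CASE 2: not case 1. Choose `k ≥ 1`, `i : ℤ`, `q : V` with `b ^ k • q = q` and `δ = d (L i) q` minimal (the set of such triples is nonempty: `k = 1`, `q = v`). `B = b ^ k`, `p = L i`.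
 CASE 2a: `δ > 0`. `gp T p (L i') q = 0` for all `i'` (as in T6 case B: otherwise `≥ 2`, the point at distance `1` from `p` on `[p, q]` is `L (i ± 1)`, closer to `q`). For `m ≠ 0`: `gp T q p (B ^ m • p) = 0`: otherwise `≥ 2`; let `z` be the point with `d q z = 1`, `d z p = δ - 1` (`T.geo`);
   `B ^ m • z` is at distance `1` from `q` on `[q, B ^ m p]`; `pt_unique`: `B ^ m • z = z`; then `b ^ (k |m|) • z = z` and `d (L i) z < δ`, contradiction. `bridge` for `a, B, p, q` with `side` (for `a ^ n`) and `side_fix` (for `B ^ m`, base point `q`): `FreeTwo (a ^ k) (B ^ 1)`, `n = k`.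
 CASE 2b: `δ = 0`: `p = L i = q` is fixed by `B`. Put `A = a ^ 5`, `κ = 4 t`. CLAIM: `gp T p (A ^ n • p) (B ^ m • A ^ n' • p) ≤ κ` for `n, n', m ≠ 0`. `A ^ n • p = L (i + 5 n t)`; the line `L'' x = B ^ m • L x` has `L'' i = p`. Suppose the product is `> 4 t`, so `≥ 2 (2 t + 1)` (`gp_even`). `agree_gp` with
   `k = 2 t + 1`, `ε = sign n`, `ε' = sign n'`: `L (i + ε x) = B ^ m • L (i + ε' x)` for `0 ≤ x ≤ 2 t + 1`. If `ε = ε'`: `B ^ m` (or `b ^ (k |m|)`) fixes `p = L i` and `L (i + ε (t + 1))`: case 1 (if `ε = -1` use the indices `i - (t + 1)` and `i`). If `ε = 1`, `ε' = -1`: `reflect` for `B ^ m`: `B ^ (2 m)` fixes all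
   `L k`: case 1. If `ε = -1`, `ε' = 1`: `reflect` for `(B ^ m)⁻¹`. `Φ` of powers of `b` commute with `Φ a`. `d p (A ^ n p) = 5 |n| t > 4 t`. `commonE` for `A, B`: `FreeTwo (A ^ k) (B ^ 5)`, i.e. `FreeTwo (a ^ (5 k)) (b ^ (5 k))`.
-/

set_option autoImplicit false

namespace Pool.Agent.Lib.MP_9dbb0e_al

variable {G Q V : Type*} [Group G] [Group Q] [MulAction G V] (T : TM V)

theorem comm_of_fix (Φ : G →* Q) (hE : EdgeFree T Φ) (a b : G)
    (hc : Commute (Φ a) (Φ b)) {L : ℤ → V} {t : ℕ} (ha : Ax T a L t) (i : ℤ) (R : ℕ)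
    (hR : t + 1 ≤ R) (h : ∀ x : ℕ, x ≤ R → b • L (i + x) = L (i + x)) : Commute a b := by
  have hinv : ∀ x : ℤ, a⁻¹ • L x = L (x - t) := fun x => by
    rw [inv_smul_eq_iff, ha.shift]
    congr 1
    ring
  have hfix : ∀ x : ℕ, t ≤ x → x ≤ R → (a * b * a⁻¹ * b⁻¹) • L (i + x) = L (i + x) := by
    intro x h1 h2
    have h3 : b⁻¹ • L (i + x) = L (i + x) := by
      rw [inv_smul_eq_iff, h x h2]
    have h4 := h (x - t) (by omega)
    have e : i + ((x - t : ℕ) : ℤ) = i + x - t := by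
      push_cast [Nat.cast_sub h1]
      ring
    rw [e] at h4
    rw [mul_smul, mul_smul, mul_smul, h3, hinv, h4, ha.shift]
    congr 1
    ring
  have hone : a * b * a⁻¹ * b⁻¹ = 1 := by
    refine hE _ (L (i + (t : ℕ))) (L (i + ((t + 1 : ℕ) : ℤ))) ?_ (hfix t le_rfl (by omega))
      (hfix (t + 1) (by omega) hR) ?_
    · rw [ha.line]
      push_cast
      omega
    · rw [map_mul, map_mul, map_mul, map_inv, map_inv, hc.eq]
      group
  exact commutatorElement_eq_one_iff_commute.1 hone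

theorem reflect (Φ : G →* Q) (hE : EdgeFree T Φ) (a b : G)
    (hc : Commute (Φ a) (Φ b)) {L : ℤ → V} {t : ℕ} (ha : Ax T a L t) (i : ℤ)
    (h : ∀ x : ℕ, x ≤ 2 * t + 1 → b • L (i - x) = L (i + x)) (k : ℤ) : b ^ 2 • L k = L k := by
  have hinv : ∀ x : ℤ, a⁻¹ • L x = L (x - t) := fun x => by
    rw [inv_smul_eq_iff, ha.shift]
    congr 1
    ring
  have hb' : ∀ x : ℕ, x ≤ 2 * t + 1 → b⁻¹ • L (i + x) = L (i - x) := fun x hx => by
    rw [inv_smul_eq_iff, h x hx]
  set a₁ : G := b⁻¹ * a * b with ha₁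
  -- step 1
  have s1 : ∀ m : ℕ, m + t ≤ 2 * t + 1 → a₁ • L (i - m) = L (i - (m + t : ℕ)) := by
    intro m hm
    rw [ha₁, mul_smul, mul_smul, h m (by omega), ha.shift]
    have e : i + (m : ℤ) + t = i + ((m + t : ℕ) : ℤ) := by
      push_cast
      ring
    rw [e, hb' _ hm]
  have s1' : ∀ m : ℕ, m + t ≤ 2 * t + 1 → a₁⁻¹ • L (i - (m + t : ℕ)) = L (i - m) := by
    intro m hm
    rw [inv_smul_eq_iff, s1 m hm]
  -- step 2
  set c : G := a * a₁⁻¹ with hcd
  have s2 : ∀ m : ℕ, m + t ≤ 2 * t + 1 → c • L (i - (m + t : ℕ)) = L (i - m + t) := by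
    intro m hm
    rw [hcd, mul_smul, s1' m hm, ha.shift]
  have hΦa₁ : Φ a₁ = Φ a := by
    rw [ha₁, map_mul, map_mul, map_inv, mul_assoc, hc.eq]
    group
  have hΦc : Φ c = 1 := by
    rw [hcd, map_mul, map_inv, hΦa₁, mul_inv_cancel]
  -- step 3
  have s3 : ∀ m : ℕ, m ≤ 1 → (c⁻¹ * (a * c * a⁻¹)) • L (i - (m + t : ℕ)) = L (i - (m + t : ℕ)) := by
    intro m hm
    rw [mul_smul, mul_smul, mul_smul, hinv, inv_smul_eq_iff]
    have e1 : i - ((m + t : ℕ) : ℤ) - t = i - ((m + t + t : ℕ) : ℤ) := by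
      push_cast
      ring
    rw [e1, s2 (m + t) (by omega), s2 m (by omega)]
    have e2 : i - ((m + t : ℕ) : ℤ) + t = i - (m : ℤ) := by
      push_cast
      ring
    rw [e2, ha.shift]
  have hone : c⁻¹ * (a * c * a⁻¹) = 1 := by
    refine hE _ _ _ ?_ (s3 0 (by omega)) (s3 1 le_rfl) ?_
    · rw [ha.line]
      push_cast
      omega
    · rw [map_mul, map_mul, map_mul, map_inv, map_inv, hΦc]
      group
  have hac : a * c = c * a := by
    have h1 : a * c * a⁻¹ = c := by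
      rw [inv_mul_eq_one] at hone
      exact hone.symm
    rw [mul_inv_eq_iff_eq_mul] at h1
    exact h1
  have hca₁ : a₁ = c⁻¹ * a := by
    rw [hcd]
    group
  have haa₁ : Commute a a₁ := by
    rw [hca₁]
    have h1 : Commute a c := hac
    exact h1.inv_right.mul_right (Commute.refl a)
  -- step 4
  have s4 : ∀ m : ℕ, m + t ≤ 2 * t + 1 → (a * a₁) • L (i - m) = L (i - m) := by
    intro m hm
    rw [mul_smul, s1 m hm, ha.shift]
    congr 1
    push_cast
    ring
  have ht : (0 : ℤ) < t := by exact_mod_cast ha.pos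
  have s4' : ∀ k : ℤ, (a * a₁) • L k = L k := by
    intro k
    set m : ℕ := ((i - k) % t).toNat with hm
    have hm0 : (m : ℤ) = (i - k) % t := Int.toNat_of_nonneg (Int.emod_nonneg _ ht.ne')
    have hmt : (m : ℤ) < t := by
      rw [hm0]
      exact Int.emod_lt_of_pos _ ht
    set n : ℤ := -((i - k) / t) with hn
    have hk : k = i - m + n * t := by
      have h1 := Int.emod_add_mul_ediv (i - k) t
      rw [hm0, hn]
      linarith
    have h2 := s4 m (by omega)
    have hcom : Commute (a * a₁) (a ^ n) := ((Commute.refl a).mul_left haa₁.symm).zpow_right n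
    rw [hk, ← ha.zpow n (i - m), smul_smul, hcom.eq, mul_smul, h2]
  have s4'' : ∀ k : ℤ, a₁⁻¹ • L k = L (k + t) := by
    intro k
    rw [inv_smul_eq_iff]
    have h1 := s4' (k + t)
    rw [mul_smul, smul_eq_iff_eq_inv_smul, hinv] at h1
    rw [h1]
    congr 1
    ring
  have hax : Ax T a₁⁻¹ L t := ⟨ha.pos, ha.line, s4''⟩
  -- step 5
  have s5 : ∀ k : ℤ, b⁻¹ • L (i + k) = L (i - k) := by
    intro k
    set m : ℕ := (k % t).toNat with hm
    have hm0 : (m : ℤ) = k % t := Int.toNat_of_nonneg (Int.emod_nonneg _ ht.ne')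
    have hmt : (m : ℤ) < t := by
      rw [hm0]
      exact Int.emod_lt_of_pos _ ht
    set n : ℤ := k / t with hn
    have hk : k = m + n * t := by
      have h1 := Int.emod_add_mul_ediv k t
      rw [hm0, hn]
      linarith
    have e1 : i + k = i + m + n * t := by
      rw [hk]
      ring
    have e2 : b⁻¹ * a ^ n = (a₁⁻¹) ^ (-n) * b⁻¹ := by
      have h3 : a₁ ^ n = b⁻¹ * a ^ n * b := by
        rw [ha₁]
        have h4 := conj_zpow (a := b⁻¹) (b := a) (i := n)
        rw [inv_inv] at h4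
        exact h4
      rw [inv_zpow', neg_neg, h3]
      group
    rw [e1, ← ha.zpow n (i + m), smul_smul, e2, mul_smul, hb' m (by omega), hax.zpow]
    congr 1
    rw [hk]
    ring
  have s6 : b⁻¹ • b⁻¹ • L k = L k := by
    have h1 := s5 (k - i)
    have h2 := s5 (i - k)
    have e1 : i + (k - i) = k := by ring
    have e2 : i - (k - i) = i + (i - k) := by ring
    have e3 : i - (i - k) = k := by ring
    rw [e1, e2] at h1
    rw [e3] at h2
    rw [h1, h2]
  rw [pow_two, mul_smul]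
  rw [inv_smul_eq_iff, inv_smul_eq_iff] at s6
  exact s6.symm

private theorem t7b_natAbs (b : G) (m : ℤ) (x : V) (h : b ^ m • x = x) :
    b ^ m.natAbs • x = x := by
  rcases Int.natAbs_eq m with h1 | h1
  · rw [h1, zpow_natCast] at h
    exact h
  · rw [h1, zpow_neg, zpow_natCast, inv_smul_eq_iff] at h
    exact h.symm

private theorem t7b_zpow (b : G) (x : V) (h : b • x = x) (m : ℤ) : b ^ m • x = x := by
  have h1 : b ∈ MulAction.stabilizer G x := h
  exact (MulAction.stabilizer G x).zpow_mem h1 m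

private theorem t7b_sign (j : ℤ) : ∃ ε : ℤ, (ε = 1 ∨ ε = -1) ∧ j = ε * (j.natAbs : ℤ) := by
  rcases Int.natAbs_eq j with h | h
  · exact ⟨1, Or.inl rfl, by omega⟩
  · exact ⟨-1, Or.inr rfl, by omega⟩

theorem eh (hT : Act G V T) (Φ : G →* Q) (hE : EdgeFree T Φ) (a b : G)
    (hc : Commute (Φ a) (Φ b)) {L : ℤ → V} {t : ℕ} (ha : Ax T a L t) (v : V) (hv : b • v = v) :
    ∃ n : ℕ, 0 < n ∧ (Commute (a ^ n) (b ^ n) ∨ FreeTwo (a ^ n) (b ^ n)) := by
  have htpos : 0 < t := ha.pos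
  by_cases hC1 : ∃ (k : ℕ) (i : ℤ), 0 < k ∧ b ^ k • L i = L i ∧
      b ^ k • L (i + (t + 1)) = L (i + (t + 1))
  · obtain ⟨k, i, hk, h0, h1⟩ := hC1
    have h1' : b ^ k • L (i + ((t + 1 : ℕ) : ℤ)) = L (i + ((t + 1 : ℕ) : ℤ)) := by
      push_cast
      exact h1
    have h2 : Commute a (b ^ k) := by
      refine comm_of_fix T Φ hE a (b ^ k) ?_ ha i (t + 1) le_rfl
        (fun x hx => fix_seg hT ha.line (b ^ k) i (t + 1) h0 h1' x hx)
      rw [map_pow]
      exact hc.pow_right k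
    exact ⟨k, hk, Or.inl (h2.pow_left k)⟩
  -- a power with a non-zero exponent cannot fix two points of the axis at distance `t + 1`
  have hno : ∀ (m i : ℤ), m ≠ 0 → b ^ m • L i = L i → b ^ m • L (i + (t + 1)) = L (i + (t + 1)) →
      False := by
    intro m i hm h0 h1
    exact hC1 ⟨m.natAbs, i, Int.natAbs_pos.mpr hm, t7b_natAbs b m _ h0, t7b_natAbs b m _ h1⟩
  have hex : ∃ δ : ℕ, ∃ (k : ℕ) (i : ℤ) (q : V), 0 < k ∧ b ^ k • q = q ∧ T.d (L i) q = δ :=
    ⟨T.d (L 0) v, 1, 0, v, one_pos, by rw [pow_one]; exact hv, rfl⟩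
  classical
  obtain ⟨k, i, q, hk, hq, hδ⟩ := Nat.find_spec hex
  have hmin := fun (δ' : ℕ) (h : δ' < Nat.find hex) => Nat.find_min hex h
  set δ : ℕ := Nat.find hex with hδdef
  set B : G := b ^ k with hB
  have hBm : ∀ m : ℤ, B ^ m = b ^ ((k : ℤ) * m) := by
    intro m
    rw [hB, zpow_mul, zpow_natCast]
  have hkm : ∀ m : ℤ, m ≠ 0 → (k : ℤ) * m ≠ 0 := by
    intro m hm
    exact mul_ne_zero (by exact_mod_cast hk.ne') hm
  have hBq : ∀ m : ℤ, B ^ m • q = q := t7b_zpow B q hq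
  rcases Nat.eq_zero_or_pos δ with hδ0 | hδpos
  · -- case 2b
    have hpq : L i = q := T.eq_of _ _ (by rw [hδ, hδ0])
    have hBp : B • L i = L i := by
      rw [hpq]
      exact hq
    have hBmp : ∀ m : ℤ, B ^ m • L i = L i := t7b_zpow B (L i) hBp
    have hA : ∀ n : ℤ, (a ^ 5) ^ n • L i = L (i + 5 * n * t) := by
      intro n
      have h1 : (a ^ 5) ^ n = a ^ (5 * n) := by
        rw [zpow_mul]
        norm_cast
      rw [h1]
      exact ha.zpow (5 * n) i
    have hcB : ∀ m : ℤ, Commute (Φ a) (Φ (B ^ m)) := by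
      intro m
      rw [hBm, map_zpow]
      exact hc.zpow_right _
    have h1 : ∀ n n' m : ℤ, n ≠ 0 → n' ≠ 0 → m ≠ 0 →
        gp T (L i) ((a ^ 5) ^ n • L i) (B ^ m • (a ^ 5) ^ n' • L i) ≤ 4 * t := by
      intro n n' m hn hn' hm
      by_contra hcon
      push Not at hcon
      have hev := gp_even T (L i) ((a ^ 5) ^ n • L i) (B ^ m • (a ^ 5) ^ n' • L i)
      have hge : 2 * (2 * t + 1) ≤
          gp T (L i) ((a ^ 5) ^ n • L i) (B ^ m • (a ^ 5) ^ n' • L i) := by
        obtain ⟨r, hr⟩ := hev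
        omega
      rw [hA, hA] at hge
      obtain ⟨ε, hε, hεn⟩ := t7b_sign (5 * n * t)
      obtain ⟨ε', hε', hεn'⟩ := t7b_sign (5 * n' * t)
      have hL'' : ∀ x y : ℤ, T.d ((fun z => B ^ m • L z) x) ((fun z => B ^ m • L z) y) =
          (x - y).natAbs := by
        intro x y
        show T.d (B ^ m • L x) (B ^ m • L y) = (x - y).natAbs
        rw [hT.iso]
        exact ha.line x y
      have hge' : 2 * (2 * t + 1) ≤ gp T (L i) (L (i + ε * ((5 * n * (t : ℤ)).natAbs : ℤ)))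
          ((fun z => B ^ m • L z) (i + ε' * ((5 * n' * (t : ℤ)).natAbs : ℤ))) := by
        rw [← hεn, ← hεn']
        exact hge
      obtain ⟨_, _, hag⟩ := agree_gp ha.line hL'' i i ε ε' hε hε' _ _ (2 * t + 1)
        (hBmp m).symm hge'
      have hag' : ∀ x : ℕ, x ≤ 2 * t + 1 → L (i + ε * x) = B ^ m • L (i + ε' * x) := hag
      have ht1 := hag' (t + 1) (by omega)
      have hkm' := hkm m hm
      rcases hε with rfl | rfl <;> rcases hε' with rfl | rfl
      · refine hno ((k : ℤ) * m) i hkm' ?_ ?_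
        · rw [← hBm]
          exact hBmp m
        · rw [← hBm]
          have e : i + 1 * (((t + 1 : ℕ)) : ℤ) = i + ((t : ℤ) + 1) := by push_cast; ring
          rw [e] at ht1
          exact ht1.symm
      · have hrefl : ∀ x : ℤ, (B ^ m) ^ 2 • L x = L x := by
          refine reflect T Φ hE a (B ^ m) (hcB m) ha i ?_
          intro x hx
          have h3 := hag' x hx
          have e1 : i + 1 * (x : ℤ) = i + x := by ring
          have e2 : i + -1 * (x : ℤ) = i - x := by ring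
          rw [e1, e2] at h3
          exact h3.symm
        have e3 : (B ^ m) ^ 2 = b ^ ((k : ℤ) * m * 2) := by
          rw [hBm, zpow_mul b ((k : ℤ) * m) 2]
          norm_cast
        refine hno ((k : ℤ) * m * 2) i (mul_ne_zero hkm' two_ne_zero) ?_ ?_
        · rw [← e3]
          exact hrefl i
        · rw [← e3]
          exact hrefl _
      · have hrefl : ∀ x : ℤ, ((B ^ m)⁻¹) ^ 2 • L x = L x := by
          refine reflect T Φ hE a (B ^ m)⁻¹ ?_ ha i ?_
          · rw [map_inv]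
            exact (hcB m).inv_right
          intro x hx
          have h3 := hag' x hx
          have e1 : i + 1 * (x : ℤ) = i + x := by ring
          have e2 : i + -1 * (x : ℤ) = i - x := by ring
          rw [e1, e2] at h3
          rw [inv_smul_eq_iff]
          exact h3
        have e3 : ((B ^ m)⁻¹) ^ 2 = b ^ (-((k : ℤ) * m) * 2) := by
          rw [hBm, ← zpow_neg, zpow_mul b (-((k : ℤ) * m)) 2]
          norm_cast
        refine hno (-((k : ℤ) * m) * 2) i (mul_ne_zero (neg_ne_zero.mpr hkm') two_ne_zero) ?_ ?_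
        · rw [← e3]
          exact hrefl i
        · rw [← e3]
          exact hrefl _
      · refine hno ((k : ℤ) * m) (i - (t + 1)) hkm' ?_ ?_
        · rw [← hBm]
          have e : i + -1 * (((t + 1 : ℕ)) : ℤ) = i - ((t : ℤ) + 1) := by push_cast; ring
          rw [e] at ht1
          exact ht1.symm
        · rw [← hBm]
          have e : i - ((t : ℤ) + 1) + ((t : ℤ) + 1) = i := by ring
          rw [e]
          exact hBmp m
    have h2 : ∀ n : ℤ, n ≠ 0 → 4 * t < T.d (L i) ((a ^ 5) ^ n • L i) := by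
      intro n hn
      rw [hA, ha.line]
      have e : (i - (i + 5 * n * (t : ℤ))).natAbs = 5 * n.natAbs * t := by
        have e1 : i - (i + 5 * n * (t : ℤ)) = -(5 * n * t) := by ring
        rw [e1, Int.natAbs_neg, Int.natAbs_mul, Int.natAbs_mul]
        rfl
      rw [e]
      have h3 : 1 ≤ n.natAbs := Int.natAbs_pos.mpr hn
      nlinarith [Nat.mul_le_mul_right t h3]
    have h4 := commonE T hT (a ^ 5) B (L i) (4 * t) hBp h1 h2 k 5 hk (by norm_num)
    refine ⟨5 * k, by omega, Or.inr ?_⟩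
    have e1 : a ^ (5 * k) = (a ^ 5) ^ k := pow_mul a 5 k
    have e2 : b ^ (5 * k) = B ^ 5 := by rw [hB, ← pow_mul, mul_comm]
    rw [e1, e2]
    exact h4
  · -- case 2a
    have hdpq : 0 < T.d (L i) q := by rw [hδ]; exact hδpos
    have hgL : ∀ i' : ℤ, gp T (L i) (L i') q = 0 := by
      intro i'
      by_contra hcon
      have hev := gp_even T (L i) (L i') q
      have hge : 2 * 1 ≤ gp T (L i) (L i') q := by
        obtain ⟨r, hr⟩ := hev
        omega
      have hne : i' ≠ i := by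
        rintro rfl
        exact hcon (gp_base T _ _)
      obtain ⟨ε, hε, hεn⟩ := t7b_sign (i' - i)
      have hn1 : 1 ≤ (i' - i).natAbs := Int.natAbs_pos.mpr (sub_ne_zero.mpr hne)
      have hi' : i' = i + ε * ((i' - i).natAbs : ℤ) := by omega
      obtain ⟨l1, l2, _⟩ := line_pt ha.line i ε hε 1 (i' - i).natAbs hn1
      rw [← hi'] at l2
      obtain ⟨z, hz1, hz2⟩ := T.geo (L i) q 1 (by omega)
      have hz : L (i + ε * ((1 : ℕ) : ℤ)) = z :=
        pt_unique T (L i) (L i') q _ z 1 l1 l2 hz1 hz2 hge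
      have h5 : T.d (L (i + ε * ((1 : ℕ) : ℤ))) q = δ - 1 := by
        rw [hz]
        omega
      exact hmin (δ - 1) (by omega) ⟨k, _, q, hk, hq, h5⟩
    have hgB : ∀ m : ℤ, m ≠ 0 → gp T q (L i) (B ^ m • L i) = 0 := by
      intro m hm
      by_contra hcon
      have hev := gp_even T q (L i) (B ^ m • L i)
      have hge : 2 * 1 ≤ gp T q (L i) (B ^ m • L i) := by
        obtain ⟨r, hr⟩ := hev
        omega
      have hdqp : T.d q (L i) = δ := by rw [T.symm]; exact hδ
      obtain ⟨z, hz1, hz2⟩ := T.geo q (L i) 1 (by omega)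
      have hz3 : T.d q (B ^ m • z) = 1 := by
        have h6 := hT.iso (B ^ m) q z
        rw [hBq m] at h6
        rw [h6]
        exact hz1
      have hz4 : T.d (B ^ m • z) (B ^ m • L i) + 1 = T.d q (B ^ m • L i) := by
        have h6 := hT.iso (B ^ m) q (L i)
        rw [hBq m] at h6
        rw [hT.iso, h6]
        exact hz2
      have hz5 : z = B ^ m • z := pt_unique T q (L i) (B ^ m • L i) z _ 1 hz1 hz2 hz3 hz4 hge
      have hz6 : b ^ ((k : ℤ) * m).natAbs • z = z := by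
        refine t7b_natAbs b _ z ?_
        rw [← hBm]
        exact hz5.symm
      have h7 : T.d (L i) z = δ - 1 := by
        rw [T.symm]
        omega
      exact hmin (δ - 1) (by omega) ⟨((k : ℤ) * m).natAbs, i, z, Int.natAbs_pos.mpr (hkm m hm),
        hz6, h7⟩
    have hfix : ∀ m : ℤ, m ≠ 0 → a ^ m • L i ≠ L i := by
      intro m hm h8
      rw [ha.zpow m i] at h8
      have h9 := ha.line (i + m * t) i
      rw [h8, T.self] at h9
      have h10 : i + m * (t : ℤ) - i = m * t := by ring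
      rw [h10] at h9
      have h11 : m * (t : ℤ) ≠ 0 := mul_ne_zero hm (by exact_mod_cast htpos.ne')
      exact h11 (Int.natAbs_eq_zero.mp h9.symm)
    have h12 := bridge T a B (L i) q hdpq
      (fun m hm x hx => side T hT (a ^ m) (L i) q
        (by rw [← zpow_neg, ha.zpow]; exact hgL _) (by rw [ha.zpow]; exact hgL _) (hfix m hm) x hx)
      (fun m hm x hx => side_fix T hT (B ^ m) q (L i) (hBq m) (hgB m hm) x hx) k 1 hk one_pos
    rw [pow_one] at h12
    exact ⟨k, hk, Or.inr h12⟩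

end Pool.Agent.Lib.MP_9dbb0e_al
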