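import Pool.Agent.Lib.MP_9dbb0e_al.T5

/-!
# JOB T8: two elliptic elements

PROOF. CASE 1: there are `n ≥ 1` and a vertex `x` fixed by `a ^ n` and by `b ^ n`: apply `hV x` to the elements `⟨a ^ n, _⟩`, `⟨b ^ n, _⟩` of the stabilizer: `m ≥ 1` such that the `m`-th powers commute or freely generate; map to `G` by the inclusion
(`Subgroup.subtype`, injective, `FreeTwo.map`); `n * m` (`pow_mul`).
CASE 2: not case 1. Choose `i, j ≥ 1` and vertices `p, q` with `a ^ i • p = p`, `b ^ j • q = q` and `δ = d p q` minimal (nonempty: `i = j = 1`, `p = v`, `q = w`). `δ > 0`: otherwise `p = q` is fixed by `a ^ (i j)` and `b ^ (i j)`. `A = a ^ i`, `B = b ^ j`. CLAIM: for `k ≠ 0`: `gp T p q (A ^ k • q) = 0`: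
otherwise `≥ 2` (`gp_even`); let `z` be the point with `d p z = 1`, `d z q + 1 = δ` (`T.geo`); `A ^ k • z` satisfies `d p (A ^ k z) = 1`, `d (A ^ k z) (A ^ k q) + 1 = δ` (`A ^ k` fixes `p`, `hT.iso`); `pt_unique` with `k = 1`: `A ^ k • z = z`, so `a ^ (i |k|) • z = z`, and `d z q < δ`, contradiction.
In the same way `gp T q p (B ^ k • p) = 0`. `bridge` with `A, B, p, q`, the hypotheses from `side_fix`: `FreeTwo (A ^ j) (B ^ i)`, i.e. `n = i * j`.
-/

set_option autoImplicit false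

namespace Pool.Agent.Lib.MP_9dbb0e_al

variable {G V : Type*} [Group G] [MulAction G V] (T : TM V)

private theorem T8_key (hT : Act G V T) (A : G) (p q : V) (hA : A • p = p)
    (hpos : 0 < T.d p q)
    (hmin : ∀ z : V, ∀ k : ℤ, k ≠ 0 → A ^ k • z = z → T.d p q ≤ T.d z q) (k : ℤ) (hk : k ≠ 0) :
    A ^ k • p = p ∧ gp T p q (A ^ k • q) = 0 := by
  have hfix : A ^ k • p = p :=
    (MulAction.stabilizer G p).zpow_mem (MulAction.mem_stabilizer_iff.2 hA) k
  refine ⟨hfix, ?_⟩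
  by_contra hne
  obtain ⟨z, hz1, hz2⟩ := T.geo p q 1 hpos
  have h3 : T.d p (A ^ k • z) = 1 := by
    have e1 := hT.iso (A ^ k) p z
    rw [hfix, hz1] at e1
    exact e1
  have h4 : T.d (A ^ k • z) (A ^ k • q) + 1 = T.d p (A ^ k • q) := by
    have e1 := hT.iso (A ^ k) z q
    have e2 := hT.iso (A ^ k) p q
    rw [hfix] at e2
    rw [e1, e2, hz2]
  have h5 : 2 * 1 ≤ gp T p q (A ^ k • q) := by
    obtain ⟨r, hr⟩ := gp_even T p q (A ^ k • q)
    omega
  have h6 := pt_unique T p q (A ^ k • q) z (A ^ k • z) 1 hz1 hz2 h3 h4 h5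
  have h7 := hmin z k hk h6.symm
  omega

private theorem T8_abs (g : G) (x : V) (k : ℤ) (h : g ^ k • x = x) : g ^ k.natAbs • x = x := by
  have h2 : g ^ (k.natAbs : ℤ) • x = x := by
    rcases Int.natAbs_eq k with h1 | h1
    · rw [← h1]
      exact h
    · have h3 : (k.natAbs : ℤ) = -k := by omega
      rw [h3, zpow_neg]
      exact inv_smul_eq_iff.2 h.symm
  rwa [zpow_natCast] at h2

theorem ee (hT : Act G V T) (hV : ∀ x : V, PA (MulAction.stabilizer G x)) (a b : G) (v w : V)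
    (hv : a • v = v) (hw : b • w = w) :
    ∃ n : ℕ, 0 < n ∧ (Commute (a ^ n) (b ^ n) ∨ FreeTwo (a ^ n) (b ^ n)) := by
  classical
  by_cases hc : ∃ (n : ℕ) (x : V), 0 < n ∧ a ^ n • x = x ∧ b ^ n • x = x
  · obtain ⟨n, x, hn, hax, hbx⟩ := hc
    obtain ⟨m, hm, h⟩ := hV x ⟨a ^ n, MulAction.mem_stabilizer_iff.2 hax⟩
      ⟨b ^ n, MulAction.mem_stabilizer_iff.2 hbx⟩
    refine ⟨n * m, Nat.mul_pos hn hm, ?_⟩
    rw [pow_mul, pow_mul]
    rcases h with h | h
    · left
      exact h.map (MulAction.stabilizer G x).subtype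
    · right
      exact h.map (MulAction.stabilizer G x).subtype (Subgroup.subtype_injective _)
  · have hex : ∃ δ : ℕ, ∃ (i j : ℕ) (p q : V), 0 < i ∧ 0 < j ∧ a ^ i • p = p ∧ b ^ j • q = q ∧
        T.d p q = δ :=
      ⟨_, 1, 1, v, w, one_pos, one_pos, by rw [pow_one]; exact hv, by rw [pow_one]; exact hw, rfl⟩
    obtain ⟨i, j, p, q, hi, hj, hp, hq, hδ⟩ := Nat.find_spec hex
    have hmin : ∀ (i' j' : ℕ) (p' q' : V), 0 < i' → 0 < j' → a ^ i' • p' = p' →
        b ^ j' • q' = q' → T.d p q ≤ T.d p' q' := by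
      intro i' j' p' q' h1 h2 h3 h4
      rw [hδ]
      exact Nat.find_min' hex ⟨i', j', p', q', h1, h2, h3, h4, rfl⟩
    have hpos : 0 < T.d p q := by
      refine Nat.pos_of_ne_zero fun h0 => ?_
      have hpq := T.eq_of p q h0
      refine hc ⟨i * j, p, Nat.mul_pos hi hj, ?_, ?_⟩
      · rw [pow_mul]
        exact (MulAction.stabilizer G p).pow_mem (MulAction.mem_stabilizer_iff.2 hp) j
      · rw [hpq, mul_comm, pow_mul]
        exact (MulAction.stabilizer G q).pow_mem (MulAction.mem_stabilizer_iff.2 hq) i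
    have hA := T8_key T hT (a ^ i) p q hp hpos (fun z k hk hz => by
      have h1 := T8_abs (a ^ i) z k hz
      rw [← pow_mul] at h1
      exact hmin (i * k.natAbs) j z q (Nat.mul_pos hi (Int.natAbs_pos.2 hk)) hj h1 hq)
    have hB := T8_key T hT (b ^ j) q p hq (by rw [T.symm]; exact hpos) (fun z k hk hz => by
      have h1 := T8_abs (b ^ j) z k hz
      rw [← pow_mul] at h1
      rw [T.symm q p, T.symm z p]
      exact hmin i (j * k.natAbs) p z hi (Nat.mul_pos hj (Int.natAbs_pos.2 hk)) hp h1)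
    have hF := bridge T (a ^ i) (b ^ j) p q hpos
      (fun k hk x hx => side_fix T hT ((a ^ i) ^ k) p q (hA k hk).1 (hA k hk).2 x hx)
      (fun k hk x hx => side_fix T hT ((b ^ j) ^ k) q p (hB k hk).1 (hB k hk).2 x hx) j i hj hi
    refine ⟨i * j, Nat.mul_pos hi hj, Or.inr ?_⟩
    rw [← pow_mul, ← pow_mul, mul_comm j i] at hF
    exact hF

end Pool.Agent.Lib.MP_9dbb0e_al
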