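import Pool.Agent.Lib.MP_9dbb0e_al.T3
import Pool.Agent.Lib.MP_9dbb0e_al.T6
import Pool.Agent.Lib.MP_9dbb0e_al.T7
import Pool.Agent.Lib.MP_9dbb0e_al.T8

/-!
# JOB T9: the combination theorem

PROOF. Let `a b : G`. `hQ (Φ a) (Φ b)` gives `n ≥ 1`. If `FreeTwo (Φ a ^ n) (Φ b ^ n)`: `FreeTwo.of_map` (`map_pow`). If `Φ a ^ n`, `Φ b ^ n` commute: put `a' = a ^ n`, `b' = b ^ n`; it is enough to find `m ≥ 1` for `a', b'` (`pow_mul`). Either `a'` fixes a vertex or it has an axis (`exists_axis`), the same for `b'`: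
two axes: `hh`; axis of `a'`, fixed vertex of `b'`: `eh`; the other way round: `eh` with `a', b'` exchanged (`Commute.symm`; `FreeTwo b a → FreeTwo a b`: compose with the automorphism of `FreeGroup (Fin 2)` exchanging the generators: `FreeGroup.lift ![a, b] = (FreeGroup.lift ![b, a]).comp (FreeGroup.map (Equiv.swap 0 1))`, and `FreeGroup.map` of an
injective map is injective, or use `FreeGroup.freeGroupCongr`); two fixed vertices: `ee`.
-/

set_option autoImplicit false

namespace Pool.Agent.Lib.MP_9dbb0e_al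

theorem FreeTwo.symm {G : Type*} [Group G] {a b : G} (h : FreeTwo a b) : FreeTwo b a := by
  unfold FreeTwo at h ⊢
  have e : (FreeGroup.lift ![b, a] : FreeGroup (Fin 2) →* G) =
      (FreeGroup.lift ![a, b]).comp
        (FreeGroup.freeGroupCongr (Equiv.swap (0 : Fin 2) 1)).toMonoidHom := by
    refine FreeGroup.ext_hom _ _ ?_
    intro i
    fin_cases i <;> simp
  rw [e]
  exact h.comp (FreeGroup.freeGroupCongr (Equiv.swap (0 : Fin 2) 1)).injective

theorem tree_PA {G Q V : Type*} [Group G] [Group Q] [MulAction G V] [Nonempty V] (T : TM V)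
    (hT : Act G V T) (Φ : G →* Q) (hE : EdgeFree T Φ) (hQ : PA Q)
    (hV : ∀ x : V, PA (MulAction.stabilizer G x)) : PA G := by
  intro a b
  obtain ⟨n, hn, h | h⟩ := hQ (Φ a) (Φ b)
  · have hc : Commute (Φ (a ^ n)) (Φ (b ^ n)) := by
      rw [map_pow, map_pow]
      exact h
    have hs : ∃ m : ℕ, 0 < m ∧ (Commute ((a ^ n) ^ m) ((b ^ n) ^ m) ∨
        FreeTwo ((a ^ n) ^ m) ((b ^ n) ^ m)) := by
      by_cases h1 : ∀ x : V, a ^ n • x ≠ x
      · obtain ⟨L, t, hL⟩ := exists_axis T hT (a ^ n) h1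
        by_cases h2 : ∀ x : V, b ^ n • x ≠ x
        · obtain ⟨L', s, hL'⟩ := exists_axis T hT (b ^ n) h2
          exact hh T hT Φ hE _ _ hc hL hL'
        · push Not at h2
          obtain ⟨v, hv⟩ := h2
          exact eh T hT Φ hE _ _ hc hL v hv
      · push Not at h1
        obtain ⟨w, hw⟩ := h1
        by_cases h2 : ∀ x : V, b ^ n • x ≠ x
        · obtain ⟨L', s, hL'⟩ := exists_axis T hT (b ^ n) h2
          obtain ⟨m, hm, h3⟩ := eh T hT Φ hE _ _ hc.symm hL' w hw
          exact ⟨m, hm, h3.imp Commute.symm FreeTwo.symm⟩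
        · push Not at h2
          obtain ⟨v, hv⟩ := h2
          exact ee T hT hV _ _ w v hw hv
    obtain ⟨m, hm, hs⟩ := hs
    refine ⟨n * m, Nat.mul_pos hn hm, ?_⟩
    rw [pow_mul, pow_mul]
    exact hs
  · refine ⟨n, hn, Or.inr (FreeTwo.of_map Φ ?_)⟩
    rw [map_pow, map_pow]
    exact h

end Pool.Agent.Lib.MP_9dbb0e_al
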