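import Pool.Agent.Lib.MP_9dbb0e_al.G1
import Pool.Agent.Lib.MP_9dbb0e_al.G2
import Pool.Agent.Lib.MP_9dbb0e_al.T9

/-!
# JOB G3: the power alternative for amalgams

PROOF of `bs_act`: `iso`: multiplication by `g` is an automorphism of `BG φ` (`smul_vC`, `smul_vG`; adjacency of `g • x`, `g • y` iff adjacency of `x, y`, using `g⁻¹`), and `dist` is invariant (there is `SimpleGraph.Iso`/`SimpleGraph.Hom` API: a walk maps to a walk of the same length, so `dist (g x) (g y) ≤ dist x y`, and
apply the same to `g⁻¹`; if `x, y` are not connected both distances are `0`; or use `T.geo` and induction on the distance: the graph is connected because `T.d = dist` and `T.eq_of`).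
`even`: let `c x = 0` for `x = Sum.inl _` and `1` for `Sum.inr _`; for a walk from `x` to `y` of length `n`, `c x + c y + n` is even (induction; adjacent vertices have different types), `c (g • x) = c x`; so `dist x (g • x)` is even (walk of length `dist`; if there is no walk the distance is `0`).
PROOF of `pushout_PA`: `TM_of_parent` and `bs_levels` give `T`; `tree_PA` for `PushoutI φ`, `Φ`. `EdgeFree`: `T.d x y = 1` means adjacent (`SimpleGraph.dist_eq_one_iff_adj`); one of `x, y` is `vC h`, fixed by `g`: `g h C = h C`, so `h⁻¹ g h = base φ c` (`QuotientGroup.eq`); `Φ (base φ c) = 1`, so `c = 1` by `hΦ` and `g = 1`.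
Stabilizers: `x = vC h = h • vC 1`, `MulAction.stabilizer_smul_eq_stabilizer_map_conj`, the stabilizer of `vC 1` is `(base φ).range` (`QuotientGroup.eq`), `PA_conj`, `PA_range` (`base_injective hφ`), `hH`; the same for `vG i h`: `(of i).range`, `of_injective hφ i`, `hG i`.
(`MulAction.stabilizer` of `Sum.inl x`, `Sum.inr ⟨i, x⟩`: `g • Sum.inl x = Sum.inl (g • x)`, `Sum.inl.injEq`; `Sigma` equality with the same index: `eq_of_heq`/`Sigma.mk.injEq`.)
-/

set_option autoImplicit false

namespace Pool.Agent.Lib.MP_9dbb0e_al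

open Monoid Monoid.PushoutI

private theorem g3a_adj {ι : Type} {G : ι → Type} [∀ i, Group (G i)] {H : Type} [Group H]
    (φ : ∀ i, H →* G i) (g : PushoutI φ) {x y : BV φ} (h : (BG φ).Adj x y) :
    (BG φ).Adj (g • x) (g • y) := by
  obtain ⟨k, i, ⟨rfl, rfl⟩ | ⟨rfl, rfl⟩⟩ := h
  · exact ⟨g * k, i, Or.inl ⟨smul_vC φ g k, smul_vG φ i g k⟩⟩
  · exact ⟨g * k, i, Or.inr ⟨smul_vC φ g k, smul_vG φ i g k⟩⟩

private theorem g3a_walk {ι : Type} {G : ι → Type} [∀ i, Group (G i)] {H : Type} [Group H]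
    (φ : ∀ i, H →* G i) (g : PushoutI φ) {x y : BV φ} (p : (BG φ).Walk x y) :
    ∃ q : (BG φ).Walk (g • x) (g • y), q.length = p.length := by
  induction p with
  | nil => exact ⟨SimpleGraph.Walk.nil, rfl⟩
  | cons h p ih =>
    obtain ⟨q, hq⟩ := ih
    exact ⟨SimpleGraph.Walk.cons (g3a_adj φ g h) q, by
      rw [SimpleGraph.Walk.length_cons, SimpleGraph.Walk.length_cons, hq]⟩

private theorem g3a_dist {ι : Type} {G : ι → Type} [∀ i, Group (G i)] {H : Type} [Group H]
    (φ : ∀ i, H →* G i) (g : PushoutI φ) (x y : BV φ) :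
    (BG φ).dist (g • x) (g • y) ≤ (BG φ).dist x y := by
  by_cases hr : (BG φ).Reachable x y
  · obtain ⟨p, hp⟩ := hr.exists_walk_length_eq_dist
    obtain ⟨q, hq⟩ := g3a_walk φ g p
    rw [← hp, ← hq]
    exact SimpleGraph.dist_le q
  · have hr' : ¬ (BG φ).Reachable (g • x) (g • y) := by
      rintro ⟨p⟩
      obtain ⟨q, -⟩ := g3a_walk φ g⁻¹ p
      rw [inv_smul_smul, inv_smul_smul] at q
      exact hr ⟨q⟩
    rw [SimpleGraph.dist_eq_zero_of_not_reachable hr']
    exact Nat.zero_le _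

/-- the type of a vertex -/
private def g3a_c {ι : Type} {G : ι → Type} [∀ i, Group (G i)] {H : Type} [Group H]
    (φ : ∀ i, H →* G i) : BV φ → ℕ
  | Sum.inl _ => 0
  | Sum.inr _ => 1

private theorem g3a_par {ι : Type} {G : ι → Type} [∀ i, Group (G i)] {H : Type} [Group H]
    (φ : ∀ i, H →* G i) {x y : BV φ} (p : (BG φ).Walk x y) :
    Even (g3a_c φ x + g3a_c φ y + p.length) := by
  induction p with
  | @nil u => exact ⟨g3a_c φ u, by rw [SimpleGraph.Walk.length_nil, add_zero]⟩
  | @cons u v w h p ih =>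
    rw [SimpleGraph.Walk.length_cons]
    have h1 : g3a_c φ u + g3a_c φ v = 1 := by
      obtain ⟨k, i, ⟨rfl, rfl⟩ | ⟨rfl, rfl⟩⟩ := h <;> rfl
    obtain ⟨m, hm⟩ := ih
    rw [Nat.even_iff]
    omega

private theorem g3a_cs {ι : Type} {G : ι → Type} [∀ i, Group (G i)] {H : Type} [Group H]
    (φ : ∀ i, H →* G i) (g : PushoutI φ) (x : BV φ) : g3a_c φ (g • x) = g3a_c φ x := by
  rcases x with x | x <;> rfl

theorem bs_act {ι : Type} {G : ι → Type} [∀ i, Group (G i)] {H : Type} [Group H]
    (φ : ∀ i, H →* G i) (T : TM (BV φ)) (hT : ∀ x y, T.d x y = (BG φ).dist x y) :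
    Act (PushoutI φ) (BV φ) T := by
  refine ⟨fun g x y => ?_, fun g x => ?_⟩
  · rw [hT, hT]
    refine le_antisymm (g3a_dist φ g x y) ?_
    have h := g3a_dist φ g⁻¹ (g • x) (g • y)
    rwa [inv_smul_smul, inv_smul_smul] at h
  · rw [hT]
    by_cases hr : (BG φ).Reachable x (g • x)
    · obtain ⟨p, hp⟩ := hr.exists_walk_length_eq_dist
      have h := g3a_par φ p
      rw [g3a_cs, hp] at h
      obtain ⟨m, hm⟩ := h
      rw [Nat.even_iff]
      omega
    · rw [SimpleGraph.dist_eq_zero_of_not_reachable hr]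
      exact Even.zero

private theorem g3b_conj {G : Type*} [Group G] (K : Subgroup G) (g h : G) :
    (QuotientGroup.mk (g * h) : G ⧸ K) = QuotientGroup.mk h ↔
      g ∈ K.map (MulAut.conj h).toMonoidHom := by
  rw [QuotientGroup.eq, Subgroup.mem_map]
  constructor
  · intro hh
    refine ⟨h⁻¹ * g * h, ?_, ?_⟩
    · have h1 := K.inv_mem hh
      have e : ((g * h)⁻¹ * h)⁻¹ = h⁻¹ * g * h := by group
      rwa [e] at h1
    · show h * (h⁻¹ * g * h) * h⁻¹ = g
      group
  · rintro ⟨y, hy, rfl⟩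
    have e : ((MulAut.conj h).toMonoidHom y * h)⁻¹ * h = y⁻¹ := by
      show (h * y * h⁻¹ * h)⁻¹ * h = y⁻¹
      group
    rw [e]
    exact K.inv_mem hy

section

variable {ι : Type} {G : ι → Type} [∀ i, Group (G i)] {H : Type} [Group H] (φ : ∀ i, H →* G i)

private theorem g3b_vC (g h : PushoutI φ) :
    g • vC φ h = vC φ h ↔ g ∈ (base φ).range.map (MulAut.conj h).toMonoidHom := by
  rw [← g3b_conj, smul_vC]
  exact Sum.inl_injective.eq_iff

private theorem g3b_vG (i : ι) (g h : PushoutI φ) :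
    g • vG φ i h = vG φ i h ↔ g ∈ (of (φ := φ) i).range.map (MulAut.conj h).toMonoidHom := by
  rw [← g3b_conj, smul_vG]
  constructor
  · intro hh
    have h1 := Sum.inr_injective hh
    exact eq_of_heq (Sigma.mk.inj h1).2
  · intro hh
    unfold vG
    rw [hh]

private theorem g3b_edge {Q : Type} [Group Q] (Φ : PushoutI φ →* Q)
    (hΦ : Function.Injective (Φ.comp (base φ))) (g h : PushoutI φ)
    (hx : g • vC φ h = vC φ h) (hg : Φ g = 1) : g = 1 := by
  rw [g3b_vC, Subgroup.mem_map] at hx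
  obtain ⟨y, ⟨c, rfl⟩, rfl⟩ := hx
  have h1 : Φ (base φ c) = 1 := by
    have h2 : Φ (h * base φ c * h⁻¹) = 1 := hg
    rw [map_mul, map_mul, map_inv] at h2
    have h3 : Φ (base φ c) = (Φ h)⁻¹ * (Φ h * Φ (base φ c) * (Φ h)⁻¹) * Φ h := by group
    rw [h3, h2]
    group
  have h4 : c = 1 := hΦ (by
    rw [map_one]
    exact h1)
  rw [h4, map_one, map_one]

end

theorem pushout_PA {ι : Type} {G : ι → Type} [∀ i, Group (G i)] {H : Type} [Group H]
    (φ : ∀ i, H →* G i) (hφ : ∀ i, Function.Injective (φ i)) {Q : Type} [Group Q]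
    (Φ : PushoutI φ →* Q) (hΦ : Function.Injective (Φ.comp (base φ))) (hQ : PA Q)
    (hG : ∀ i, PA (G i)) (hH : PA H) : PA (PushoutI φ) := by
  obtain ⟨lev, par, r, h0, h1, h2⟩ := bs_levels φ hφ
  obtain ⟨T, hT⟩ := TM_of_parent (BG φ) lev par r h0 h1 h2
  have hact := bs_act φ T hT
  have : Nonempty (BV φ) := ⟨vC φ 1⟩
  refine tree_PA T hact Φ ?_ hQ ?_
  · intro g x y hxy hx hy hg
    rw [hT, SimpleGraph.dist_eq_one_iff_adj] at hxy
    obtain ⟨h, i, ⟨e, -⟩ | ⟨e, -⟩⟩ := hxy
    · rw [e] at hx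
      exact g3b_edge φ Φ hΦ g h hx hg
    · rw [e] at hy
      exact g3b_edge φ Φ hΦ g h hy hg
  · intro x
    rcases x with q | ⟨i, q⟩
    · obtain ⟨h, rfl⟩ := QuotientGroup.mk_surjective q
      have e : MulAction.stabilizer (PushoutI φ)
          (Sum.inl (QuotientGroup.mk h) : BV φ) =
            (base φ).range.map (MulAut.conj h).toMonoidHom := by
        ext g
        rw [MulAction.mem_stabilizer_iff]
        exact g3b_vC φ g h
      rw [e]
      exact PA_conj _ _ (PA_range _ (base_injective hφ) hH)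
    · obtain ⟨h, rfl⟩ := QuotientGroup.mk_surjective q
      have e : MulAction.stabilizer (PushoutI φ)
          (Sum.inr ⟨i, QuotientGroup.mk h⟩ : BV φ) =
            (of (φ := φ) i).range.map (MulAut.conj h).toMonoidHom := by
        ext g
        rw [MulAction.mem_stabilizer_iff]
        exact g3b_vG φ i g h
      rw [e]
      exact PA_conj _ _ (PA_range _ (of_injective hφ i) (hG i))

end Pool.Agent.Lib.MP_9dbb0e_al
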