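import Pool.Agent.Lib.MP_9dbb0e_al.A1
import Pool.Agent.Lib.MP_9dbb0e_al.G3

/-!
# JOB D2: dihedral Artin groups with an even label

PROOF. `Art M` with the two generators `σ i`, `σ j` and `M i j = 2 k`, `k ≥ 1`; `s = σ i`, `t = σ j`. Write `Z = Multiplicative ℤ`. Amalgam over `Bool`: `H = Z`, `G true = Z × Z`, `G false = Z` (`G b = if b then .. else ..`, better: a definition by `match`/`Bool.rec` with instances; or take `G b = Z × Z` for both and `φ false z = (z ^ k, 1)`:
then `G false` has a useless second factor: DO NOT do this; a convenient uniform choice is `G : Bool → Type`, `G true = Z × Z`, `G false = Z` via `Bool.rec`, with a local instance `∀ b, Group (G b)` by `Bool.rec`), `φ true z = (1, z)`, `φ false z = z ^ k`, both injective.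
`Art M →* PushoutI φ` (`exists_lift`): `s ↦ S = of true (g, 1)`, `t ↦ S⁻¹ * X`, `X = of false g`, `g = Multiplicative.ofAdd 1`. Relation: `alt a b (2 k) = (a * b) ^ k` (induction, `alt_succ`): `(S * (S⁻¹ X)) ^ k = X ^ k = of false (g ^ k) = base φ g = of true (1, g)` and `((S⁻¹ X) * S) ^ k = S⁻¹ X ^ k S = X ^ k`, because `of true (g, 1)` commutes with
`of true (1, g)`. (The generators are `σ i, σ j` in this order or exchanged: `f i = S`, `f j = S⁻¹ X`; the relation for the pair `(j, i)` is the same equation with the sides exchanged, `M.symmetric`.)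
Left inverse: `PushoutI.lift`: `G true = Z × Z → Art M`: `(u, v) ↦ s ^ u * ((s t) ^ k) ^ v` (`MonoidHom.noncommCoprod (zpowersHom _ s) (zpowersHom _ ((s t) ^ k))`, `s` commutes with `(s t) ^ k`: `braid`), `G false → Art M`: `zpowersHom _ (s t)`, `H → Art M`: `zpowersHom _ ((s t) ^ k)`. The composition fixes `s` and `t` (`art_ext`). So the map to `PushoutI φ` is injective.
`PA (PushoutI φ)`: `pushout_PA` with `Q = Z × Z`, `Φ`: `G true`: `(u, v) ↦ (u * v ^ k, v ^ k)`, `G false`: `x ↦ (x, x)`, `H`: `z ↦ (z ^ k, z ^ k)`, injective. `Q`, `G b`, `H` are commutative: `PA_comm`.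
-/

set_option autoImplicit false

namespace Pool.Agent.Lib.MP_9dbb0e_al

open Monoid Monoid.PushoutI

/-- alternating products of even length -/
private theorem d2_alt_even {G : Type*} [Monoid G] (a b : G) (k : ℕ) :
    alt a b (2 * k) = (a * b) ^ k := by
  induction k with
  | zero =>
    rw [mul_zero, pow_zero]
    exact alt_zero a b
  | succ n ih =>
    rw [show 2 * (n + 1) = (2 * n + 1) + 1 by ring, alt_succ, alt_succ, ih, pow_succ,
      if_pos (even_two_mul n), if_neg (by rw [Nat.not_even_iff_odd]; exact odd_two_mul_add_one n),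
      mul_assoc]

/-- the vertex groups -/
private def D2G : Bool → Type
  | true => Multiplicative ℤ × Multiplicative ℤ
  | false => Multiplicative ℤ

private instance D2inst : ∀ b, CommGroup (D2G b)
  | true => inferInstanceAs (CommGroup (Multiplicative ℤ × Multiplicative ℤ))
  | false => inferInstanceAs (CommGroup (Multiplicative ℤ))

private def D2hom {K : Type} [Group K] (f : Multiplicative ℤ × Multiplicative ℤ →* K)
    (g : Multiplicative ℤ →* K) : ∀ b, D2G b →* K
  | true => f
  | false => g

private def D2φ (k : ℕ) : ∀ b, Multiplicative ℤ →* D2G b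
  | true => MonoidHom.inr (Multiplicative ℤ) (Multiplicative ℤ)
  | false => (powMonoidHom k : Multiplicative ℤ →* Multiplicative ℤ)

private def D2S : D2G true :=
  ((Multiplicative.ofAdd 1, 1) : Multiplicative ℤ × Multiplicative ℤ)

private def D2X : D2G false := (Multiplicative.ofAdd 1 : Multiplicative ℤ)

private theorem d2_pow_inj {k : ℕ} (hk : k ≠ 0) :
    Function.Injective (powMonoidHom k : Multiplicative ℤ →* Multiplicative ℤ) := by
  intro u v huv
  have h1 : u ^ k = v ^ k := huv
  have h2 : k • Multiplicative.toAdd u = k • Multiplicative.toAdd v := by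
    rw [← toAdd_pow, ← toAdd_pow, h1]
  rw [nsmul_eq_mul, nsmul_eq_mul] at h2
  exact Multiplicative.toAdd.injective
    (mul_left_cancel₀ (by exact_mod_cast hk : (k : ℤ) ≠ 0) h2)

theorem PA_dih_even {B : Type} (M : CoxeterMatrix B) (i j : B) (hij : i ≠ j)
    (hB : ∀ x, x = i ∨ x = j) (k : ℕ) (hk : 0 < k) (hM : M.M i j = 2 * k) : PA (Art M) := by
  classical
  -- the amalgam
  set s := σ M i with hs
  set t := σ M j with ht
  have hk' : k ≠ 0 := hk.ne'
  have hst : (s * t) ^ k = (t * s) ^ k := by
    have h := braid M i j hij (by omega)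
    rw [hM, d2_alt_even, d2_alt_even] at h
    exact h
  have hcomm : s * (s * t) ^ k = (s * t) ^ k * s := by
    rw [mul_pow_mul, hst]
  -- the map to the amalgam
  set S : PushoutI (D2φ k) := of (φ := D2φ k) true (D2S) with hS
  set X : PushoutI (D2φ k) := of (φ := D2φ k) false (D2X) with hX
  have hXk : X ^ k = base (D2φ k) (Multiplicative.ofAdd 1) := by
    rw [hX, ← map_pow, ← of_apply_eq_base (D2φ k) false]
    rfl
  have hSX : S * X ^ k = X ^ k * S := by
    rw [hXk, ← of_apply_eq_base (D2φ k) true, hS, ← map_mul, ← map_mul, mul_comm]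
  have hrel : alt S (S⁻¹ * X) (2 * k) = alt (S⁻¹ * X) S (2 * k) := by
    rw [d2_alt_even, d2_alt_even, mul_inv_cancel_left]
    have h1 : (S⁻¹ * X * S) ^ k = S⁻¹ * X ^ k * S := by
      have h2 := conj_pow (i := k) (a := S⁻¹) (b := X)
      rw [inv_inv] at h2
      exact h2
    rw [h1, mul_assoc, ← hSX, inv_mul_cancel_left]
  obtain ⟨F, hF⟩ := exists_lift M (fun x => if x = i then S else S⁻¹ * X) (by
    intro x y hxy _
    rcases hB x with hx | hx <;> rcases hB y with hy | hy
    · exact absurd (hx.trans hy.symm) hxy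
    · subst hx; subst hy
      simp only [if_true, if_neg hij.symm]
      rw [hM]
      exact hrel
    · subst hx; subst hy
      simp only [if_true, if_neg hij.symm]
      rw [M.symmetric, hM]
      exact hrel.symm
    · exact absurd (hx.trans hy.symm) hxy)
  have hFi : F s = S := by
    rw [hs, hF i]
    exact if_pos rfl
  have hFj : F t = S⁻¹ * X := by
    rw [ht, hF j]
    exact if_neg hij.symm
  -- the map back
  let f1 : Multiplicative ℤ × Multiplicative ℤ →* Art M :=
    MonoidHom.noncommCoprod (zpowersHom _ s) (zpowersHom _ ((s * t) ^ k)) (fun m n => by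
      rw [zpowersHom_apply, zpowersHom_apply]
      exact Commute.zpow_zpow hcomm _ _)
  let f2 : Multiplicative ℤ →* Art M := zpowersHom _ (s * t)
  let F' : PushoutI (D2φ k) →* Art M := lift (D2hom f1 f2) (zpowersHom _ ((s * t) ^ k)) (by
    intro b
    cases b
    · refine MonoidHom.ext fun z => ?_
      show (s * t) ^ (Multiplicative.toAdd (z ^ k)) = ((s * t) ^ k) ^ (Multiplicative.toAdd z)
      rw [toAdd_pow, ← zpow_natCast, ← zpow_mul, nsmul_eq_mul]
    · refine MonoidHom.ext fun z => ?_
      show s ^ (0 : ℤ) * ((s * t) ^ k) ^ (Multiplicative.toAdd z)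
        = ((s * t) ^ k) ^ (Multiplicative.toAdd z)
      rw [zpow_zero, one_mul])
  have hF'S : F' S = s := by
    show F' (of (φ := D2φ k) true (D2S)) = s
    rw [lift_of]
    show s ^ (1 : ℤ) * ((s * t) ^ k) ^ (0 : ℤ) = s
    rw [zpow_one, zpow_zero, mul_one]
  have hF'X : F' X = s * t := by
    show F' (of (φ := D2φ k) false (D2X)) = s * t
    rw [lift_of]
    show (s * t) ^ (1 : ℤ) = s * t
    rw [zpow_one]
  have hid : F'.comp F = MonoidHom.id (Art M) := by
    refine art_ext M _ _ fun x => ?_
    rcases hB x with hx | hx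
    · subst hx
      show F' (F s) = s
      rw [hFi, hF'S]
    · subst hx
      show F' (F t) = t
      rw [hFj, map_mul, map_inv, hF'S, hF'X, inv_mul_cancel_left]
  have hinj : Function.Injective F := by
    intro a b hab
    have h1 := congrArg F' hab
    have h2 : F' (F a) = a := DFunLike.congr_fun hid a
    have h3 : F' (F b) = b := DFunLike.congr_fun hid b
    rw [← h2, ← h3, h1]
  refine PA_of_injective F hinj ?_
  -- the power alternative for the amalgam
  have hc : ∀ b, (D2hom ((powMonoidHom k).comp (MonoidHom.snd (Multiplicative ℤ)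
      (Multiplicative ℤ))) (MonoidHom.id (Multiplicative ℤ)) b).comp (D2φ k b)
        = powMonoidHom k := by
    intro b
    cases b
    · rfl
    · rfl
  let Φ : PushoutI (D2φ k) →* Multiplicative ℤ := lift _ _ hc
  refine pushout_PA (D2φ k) ?_ Φ ?_ (PA_comm fun a b => mul_comm a b)
    (fun b => PA_comm fun a c => mul_comm a c) (PA_comm fun a b => mul_comm a b)
  · intro b
    cases b
    · exact d2_pow_inj hk'
    · intro u v huv
      exact (Prod.ext_iff.1 huv).2
  · have h1 : Φ.comp (base (D2φ k)) = powMonoidHom k := by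
      refine MonoidHom.ext fun z => ?_
      exact lift_base _ _ hc z
    rw [h1]
    exact d2_pow_inj hk'

end Pool.Agent.Lib.MP_9dbb0e_al
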