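import Pool.Agent.Lib.MP_9dbb0e_al.A1
import Pool.Agent.Lib.MP_9dbb0e_al.G3

/-!
# JOB D3: dihedral Artin groups with an odd label

PROOF. `s = σ i`, `t = σ j`, `m = M i j = 2 k + 1`, `Z = Multiplicative ℤ`, `g = ofAdd 1`. Amalgam over `Bool` with `G b = Z` for both, `H = Z`, `φ true z = z ^ 2`, `φ false z = z ^ m`. `Y = of true g`, `X = of false g`, `Y ^ 2 = X ^ m` (both are `base φ g`).
`Art M →* PushoutI φ` (`exists_lift`): `s ↦ X ^ (-k) * Y`, `t ↦ Y⁻¹ * X ^ (k + 1)`. `alt a b (2 k + 1) = (a b) ^ k * a = a * (b a) ^ k`. With `a = X^(-k) Y`, `b = Y⁻¹ X^(k+1)`: `a b = X`, so `alt a b m = X ^ k * X ^ (-k) * Y = Y`, `alt b a m = b * (a b) ^ k = Y⁻¹ X^(k+1) X^k = Y⁻¹ X^m = Y⁻¹ Y² = Y`.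
Left inverse (`PushoutI.lift`): `G true → Art M`: `zpowersHom _ Δ` with `Δ = alt s t m = (s t)^k * s = t * (s t)^k` (`braid`), `G false → Art M`: `zpowersHom _ (s t)`, `H → Art M`: `zpowersHom _ ((s t) ^ m)`; `Δ² = (s t)^k s * t (s t)^k = (s t)^m`. The composition maps `s` to `(s t)^(-k) Δ = s` and `t` to `Δ⁻¹ (s t)^(k+1) = t` (`Δ t = (s t)^k s t = (s t)^(k+1)`).
`PA (PushoutI φ)`: `pushout_PA` with `Q = Z`, `Φ`: `G true`: `y ↦ y ^ m`, `G false`: `x ↦ x ^ 2`, `H`: `z ↦ z ^ (2 m)` injective; `PA_comm`. `PA_of_injective`.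
`PA_one`: at most one generator: `Art M` is commutative (generated by at most one element: all generators commute).
-/

set_option autoImplicit false

namespace Pool.Agent.Lib.MP_9dbb0e_al

open Monoid Monoid.PushoutI

private theorem d3_alt {G : Type*} [Monoid G] (a b : G) (k : ℕ) :
    alt a b (2 * k + 1) = (a * b) ^ k * a := by
  induction k with
  | zero =>
    have h := alt_succ a b 0
    rw [if_pos (Even.zero : Even 0), alt_zero, one_mul, zero_add] at h
    rw [pow_zero, one_mul]
    exact h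
  | succ k ih =>
    have h1 : 2 * (k + 1) + 1 = (2 * k + 1) + 1 + 1 := by ring
    rw [h1, alt_succ, alt_succ, ih, if_neg, if_pos, pow_succ]
    · simp only [mul_assoc]
    · exact ⟨k + 1, by ring⟩
    · rw [Nat.not_even_iff_odd]
      exact ⟨k, rfl⟩

private theorem d3_pow_inj (n : ℕ) (hn : n ≠ 0) :
    Function.Injective (powMonoidHom n : Multiplicative ℤ →* Multiplicative ℤ) := by
  intro x y h
  have h1 : (n : ℤ) * Multiplicative.toAdd x = n * Multiplicative.toAdd y := by
    have h2 := congrArg Multiplicative.toAdd (show x ^ n = y ^ n from h)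
    rw [toAdd_pow, toAdd_pow, nsmul_eq_mul, nsmul_eq_mul] at h2
    exact h2
  exact Multiplicative.toAdd.injective (mul_left_cancel₀ (Int.natCast_ne_zero.2 hn) h1)

/-- the exponents of the amalgam -/
private def d3_e (k : ℕ) (b : Bool) : ℕ := if b then 2 else 2 * k + 1

/-- the maps of the amalgam -/
private def d3_phi (k : ℕ) : ∀ _ : Bool, Multiplicative ℤ →* Multiplicative ℤ :=
  fun b => powMonoidHom (d3_e k b)

private theorem d3_phi_inj (k : ℕ) (b : Bool) : Function.Injective (d3_phi k b) := by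
  refine d3_pow_inj _ ?_
  unfold d3_e
  split_ifs <;> omega

private theorem d3_PA (k : ℕ) : PA (PushoutI (d3_phi k)) := by
  have hc : PA (Multiplicative ℤ) := PA_comm fun a b => Commute.all a b
  have hcompat : ∀ b : Bool,
      (powMonoidHom (if b then 2 * k + 1 else 2) : Multiplicative ℤ →* Multiplicative ℤ).comp
        (d3_phi k b) = powMonoidHom (2 * (2 * k + 1)) := by
    intro b
    refine MonoidHom.ext fun z => ?_
    show (z ^ d3_e k b) ^ (if b then 2 * k + 1 else 2) = z ^ (2 * (2 * k + 1))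
    rw [← pow_mul]
    congr 1
    unfold d3_e
    cases b
    · simp only [Bool.false_eq_true, if_false]
      ring
    · simp only [if_true]
  refine pushout_PA (d3_phi k) (d3_phi_inj k) (PushoutI.lift _ _ hcompat) ?_ hc (fun _ => hc) hc
  intro x y h
  simp only [MonoidHom.comp_apply, lift_base] at h
  exact d3_pow_inj _ (by omega) h

theorem PA_dih_odd {B : Type} (M : CoxeterMatrix B) (i j : B) (hij : i ≠ j)
    (hB : ∀ x, x = i ∨ x = j) (k : ℕ) (hM : M.M i j = 2 * k + 1) : PA (Art M) := by
  classical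
  have hM' : M.M j i = 2 * k + 1 := by
    rw [← hM]
    exact M.symmetric j i
  -- the map to the amalgam
  set g : Multiplicative ℤ := Multiplicative.ofAdd 1 with hg
  set Y : PushoutI (d3_phi k) := of true g with hY
  set X : PushoutI (d3_phi k) := of false g with hX
  have hYX : Y ^ 2 = X ^ (2 * k + 1) := by
    have h1 : Y ^ 2 = base (d3_phi k) g := by
      rw [hY, ← map_pow, ← of_apply_eq_base (d3_phi k) true g]
      rfl
    have h2 : X ^ (2 * k + 1) = base (d3_phi k) g := by
      rw [hX, ← map_pow, ← of_apply_eq_base (d3_phi k) false g]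
      rfl
    rw [h1, h2]
  have hrel : alt ((X ^ k)⁻¹ * Y) (Y⁻¹ * X ^ (k + 1)) (2 * k + 1) =
      alt (Y⁻¹ * X ^ (k + 1)) ((X ^ k)⁻¹ * Y) (2 * k + 1) := by
    have h1 : (X ^ k)⁻¹ * Y * (Y⁻¹ * X ^ (k + 1)) = X := by
      rw [pow_succ]
      group
    rw [d3_alt, d3_alt, mul_pow_mul (Y⁻¹ * X ^ (k + 1)) ((X ^ k)⁻¹ * Y) k, h1]
    have h2 : Y⁻¹ * X ^ (k + 1) * X ^ k = Y := by
      rw [mul_assoc, ← pow_add, show k + 1 + k = 2 * k + 1 by ring, ← hYX, pow_two]
      group
    rw [h2]
    group
  obtain ⟨F, hF⟩ := exists_lift M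
    (fun x => if x = i then (X ^ k)⁻¹ * Y else Y⁻¹ * X ^ (k + 1)) (by
      intro x y hxy _
      rcases hB x with rfl | rfl
      · rcases hB y with rfl | rfl
        · exact absurd rfl hxy
        · simp only [if_true, if_neg hxy.symm]
          rw [hM]
          exact hrel
      · rcases hB y with rfl | rfl
        · simp only [if_true, if_neg hxy]
          rw [hM']
          exact hrel.symm
        · exact absurd rfl hxy)
  have hFi : F (σ M i) = (X ^ k)⁻¹ * Y := by
    rw [hF]
    exact if_pos rfl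
  have hFj : F (σ M j) = Y⁻¹ * X ^ (k + 1) := by
    rw [hF]
    exact if_neg hij.symm
  -- the left inverse
  have hbr := braid M i j hij (by rw [hM]; omega)
  rw [hM, d3_alt, d3_alt, mul_pow_mul (σ M j) (σ M i) k] at hbr
  set s := σ M i with hs
  set t := σ M j with ht
  have hΔ : ((s * t) ^ k * s) ^ 2 = (s * t) ^ (2 * k + 1) := by
    rw [pow_two]
    nth_rewrite 2 [hbr]
    have h1 : (s * t) ^ k * s * (t * (s * t) ^ k) = (s * t) ^ k * (s * t) * (s * t) ^ k := by
      simp only [mul_assoc]
    rw [h1, ← pow_succ, ← pow_add]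
    congr 1
    ring
  have hcompat : ∀ b : Bool,
      (zpowersHom (Art M) (if b then (s * t) ^ k * s else s * t)).comp (d3_phi k b) =
        zpowersHom (Art M) ((s * t) ^ (2 * k + 1)) := by
    intro b
    refine MonoidHom.ext_mint ?_
    show (zpowersHom (Art M) (if b then (s * t) ^ k * s else s * t)) ((Multiplicative.ofAdd 1) ^ d3_e k b) = _
    rw [map_pow]
    simp only [zpowersHom_apply, toAdd_ofAdd, zpow_one]
    unfold d3_e
    cases b
    · simp only [Bool.false_eq_true, if_false]
    · simp only [if_true]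
      exact hΔ
  set Λ : PushoutI (d3_phi k) →* Art M := PushoutI.lift _ _ hcompat with hΛ
  have hΛY : Λ Y = (s * t) ^ k * s := by
    rw [hΛ, hY, lift_of]
    simp only [if_true, zpowersHom_apply, hg, toAdd_ofAdd, zpow_one]
  have hΛX : Λ X = s * t := by
    rw [hΛ, hX, lift_of]
    simp only [Bool.false_eq_true, if_false, zpowersHom_apply, hg, toAdd_ofAdd, zpow_one]
  have hinv : Λ.comp F = MonoidHom.id (Art M) := by
    refine art_ext M _ _ fun x => ?_
    rw [MonoidHom.comp_apply, MonoidHom.id_apply]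
    rcases hB x with rfl | rfl
    · rw [← hs, hFi, map_mul, map_inv, map_pow, hΛY, hΛX]
      group
    · rw [← ht, hFj, map_mul, map_inv, map_pow, hΛY, hΛX, pow_succ]
      group
  have hFinj : Function.Injective F := by
    intro a b hab
    have h1 := DFunLike.congr_fun hinv a
    have h2 := DFunLike.congr_fun hinv b
    rw [MonoidHom.comp_apply, MonoidHom.id_apply] at h1 h2
    rw [← h1, ← h2, hab]
  exact PA_of_injective F hFinj (d3_PA k)

theorem PA_one {B : Type} (M : CoxeterMatrix B) (hB : ∀ x y : B, x = y) : PA (Art M) := by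
  have hcl : ∀ a : Art M, a ∈ Subgroup.closure (Set.range (PresentedGroup.of : B → Art M)) := by
    intro a
    rw [PresentedGroup.closure_range_of]
    exact Subgroup.mem_top a
  have h1 : ∀ (a : Art M) (x : B), Commute a (PresentedGroup.of x : Art M) := by
    intro a x
    refine Subgroup.closure_induction (p := fun a _ => Commute a (PresentedGroup.of x : Art M))
      ?_ ?_ ?_ ?_ (hcl a)
    · rintro _ ⟨y, rfl⟩
      rw [hB y x]
    · exact Commute.one_left _
    · intro a b _ _ ha hb
      exact ha.mul_left hb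
    · intro a _ ha
      exact ha.inv_left
  refine PA_comm fun a b => ?_
  refine Subgroup.closure_induction (p := fun b _ => Commute a b) ?_ ?_ ?_ ?_ (hcl b)
  · rintro _ ⟨y, rfl⟩
    exact h1 a y
  · exact Commute.one_right _
  · intro b c _ _ hb hc
    exact hb.mul_right hc
  · intro b _ hb
    exact hb.inv_right

end Pool.Agent.Lib.MP_9dbb0e_al
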