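import Pool.Agent.Lib.MP_9dbb0e_al.A3
import Pool.Agent.Lib.MP_9dbb0e_al.D1
import Pool.Agent.Lib.MP_9dbb0e_al.D2
import Pool.Agent.Lib.MP_9dbb0e_al.D3

/-!
# JOB D4: labels at least 3 form a matching

PROOF. `PA_matching_fin`: all labels finite (`≠ 0`), by strong induction on the number of elements of `B` (`Nat.card`), for all types `B : Type`. `B` empty: `PA_one`. Otherwise choose `i`. CASE 1: there is `j` with `3 ≤ M i j` (so `j ≠ i`): `p x = (x = i ∨ x = j)`. For `p x`, `¬ p y`: `M x y = 2`: it is `≠ 0, 1` and not `≥ 3`
(`3 ≤ M i y` gives `y = j`; `3 ≤ M j y` and `3 ≤ M j i` give `y = i`). `PA (Art (sub M p))`: `PA_dih_even` or `PA_dih_odd` by the parity of `M i j` (for the elements `⟨i, _⟩`, `⟨j, _⟩`). `PA (Art (sub M (¬ p)))`: induction hypothesis (smaller type). `PA_split`. CASE 2: no such `j`: `p x = (x = i)`, `PA_one`, all labels `M i y`, `y ≠ i` are `2`, `PA_split`.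
`PA_matching`: `M` = the matrix `M'` with the entries `0` replaced by `2` (a Coxeter matrix) satisfies the hypotheses of `PA_matching_fin` (an entry of `M` is `≥ 3` iff the entry of `M'` is). `PA_mono M M'`.
-/

set_option autoImplicit false

namespace Pool.Agent.Lib.MP_9dbb0e_al

theorem PA_matching_fin {B : Type} [Finite B] (M : CoxeterMatrix B) (h0 : ∀ i j, M.M i j ≠ 0)
    (h : ∀ i j k, 3 ≤ M.M i j → 3 ≤ M.M i k → j = k) : PA (Art M) := by
  classical
  suffices H : ∀ n : ℕ, ∀ (B : Type) [Finite B] (M : CoxeterMatrix B), Nat.card B = n →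
      (∀ i j, M.M i j ≠ 0) → (∀ i j k, 3 ≤ M.M i j → 3 ≤ M.M i k → j = k) → PA (Art M) from
    H _ B M rfl h0 h
  intro n
  induction n using Nat.strong_induction_on with
  | _ n ih =>
    intro B _ M hn h0 h
    rcases isEmpty_or_nonempty B with hB | ⟨⟨i⟩⟩
    · exact PA_one M fun x _ => (hB.false x).elim
    · by_cases hj : ∃ j, 3 ≤ M.M i j
      · obtain ⟨j, hj⟩ := hj
        have hij : i ≠ j := by
          rintro rfl
          rw [M.diagonal i] at hj
          omega
        have hji : 3 ≤ M.M j i := by
          rw [M.symmetric j i]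
          exact hj
        have key : ∀ x y, (x = i ∨ x = j) → ¬ (y = i ∨ y = j) → M.M x y = 2 := by
          intro x y hx hy
          have hxy : x ≠ y := by
            rintro rfl
            exact hy hx
          have h1 := M.off_diagonal x y hxy
          have h2 := h0 x y
          by_contra h3
          have h4 : 3 ≤ M.M x y := by omega
          rcases hx with rfl | rfl
          · exact hy (Or.inr (h x y j h4 hj))
          · exact hy (Or.inl (h x y i h4 hji))
        have hne : (⟨i, Or.inl rfl⟩ : {x : B // x = i ∨ x = j}) ≠ ⟨j, Or.inr rfl⟩ := fun h' =>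
          hij (congrArg Subtype.val h')
        have hall : ∀ x : {x : B // x = i ∨ x = j}, x = ⟨i, Or.inl rfl⟩ ∨ x = ⟨j, Or.inr rfl⟩ := by
          rintro ⟨x, hx⟩
          rcases hx with rfl | rfl
          · exact Or.inl rfl
          · exact Or.inr rfl
        have h1 : PA (Art (sub M fun x => x = i ∨ x = j)) := by
          rcases Nat.even_or_odd' (M.M i j) with ⟨k, hk | hk⟩
          · exact PA_dih_even (sub M fun x => x = i ∨ x = j) ⟨i, Or.inl rfl⟩ ⟨j, Or.inr rfl⟩ hne hall k
              (by omega) hk
          · exact PA_dih_odd (sub M fun x => x = i ∨ x = j) ⟨i, Or.inl rfl⟩ ⟨j, Or.inr rfl⟩ hne hall k hk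
        have h2 : PA (Art (sub M fun x => ¬ (x = i ∨ x = j))) := by
          refine ih (Nat.card {x : B // ¬ (x = i ∨ x = j)}) ?_ _ (sub M fun x => ¬ (x = i ∨ x = j)) rfl
            (fun a b => h0 a.1 b.1) (fun a b c h1 h2 => Subtype.ext (h a.1 b.1 c.1 h1 h2))
          rw [← hn]
          exact Finite.card_subtype_lt (x := i) (fun h' => h' (Or.inl rfl))
        exact PA_split M (fun x => x = i ∨ x = j) key h1 h2
      · push Not at hj
        have key : ∀ x y, x = i → ¬ y = i → M.M x y = 2 := by
          intro x y hx hy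
          subst hx
          have h1 := M.off_diagonal x y (fun h' => hy h'.symm)
          have h2 := h0 x y
          have h3 := hj y
          omega
        have h1 : PA (Art (sub M fun x => x = i)) :=
          PA_one _ fun x y => Subtype.ext (x.2.trans y.2.symm)
        have h2 : PA (Art (sub M fun x => ¬ x = i)) := by
          refine ih (Nat.card {x : B // ¬ x = i}) ?_ _ (sub M fun x => ¬ x = i) rfl
            (fun a b => h0 a.1 b.1) (fun a b c h1 h2 => Subtype.ext (h a.1 b.1 c.1 h1 h2))
          rw [← hn]
          exact Finite.card_subtype_lt (x := i) (fun h' => h' rfl)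
        exact PA_split M (fun x => x = i) key h1 h2

theorem PA_matching {B : Type} [Finite B] (M' : CoxeterMatrix B)
    (h : ∀ i j k, 3 ≤ M'.M i j → 3 ≤ M'.M i k → j = k) : PA (Art M') := by
  classical
  let M : CoxeterMatrix B :=
    { M := fun i j => if M'.M i j = 0 then 2 else M'.M i j
      isSymm := by
        ext i j
        show (if M'.M j i = 0 then 2 else M'.M j i) = if M'.M i j = 0 then 2 else M'.M i j
        rw [M'.symmetric j i]
      diagonal := by
        intro i
        show (if M'.M i i = 0 then 2 else M'.M i i) = 1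
        rw [M'.diagonal i, if_neg one_ne_zero]
      off_diagonal := by
        intro i j hij
        show (if M'.M i j = 0 then 2 else M'.M i j) ≠ 1
        split_ifs
        · omega
        · exact M'.off_diagonal i j hij }
  have hM : ∀ i j, M.M i j = if M'.M i j = 0 then 2 else M'.M i j := fun i j => rfl
  have h3 : ∀ i j, 3 ≤ M.M i j → 3 ≤ M'.M i j := by
    intro i j hij
    rw [hM] at hij
    split_ifs at hij
    · omega
    · exact hij
  refine PA_mono M M' ?_ ?_
  · intro i j
    rw [hM]
    split_ifs with h0
    · exact Or.inr h0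
    · exact Or.inl rfl
  · refine PA_matching_fin M ?_ ?_
    · intro i j
      rw [hM]
      split_ifs with h0
      · exact two_ne_zero
      · exact h0
    · intro i j k h1 h2
      exact h i j k (h3 i j h1) (h3 i k h2)

end Pool.Agent.Lib.MP_9dbb0e_al
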