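import Mathlib

/-!
# MP_9dbb0e_al: the power alternative for Artin groups, definitions

* `Art M`: the Artin group of the Coxeter matrix `M` (the presented group of the frozen statement).
* `FreeTwo a b`: `a, b` freely generate a free group of rank two.
* `PA G`: for all `a b` there is `n ≥ 1` such that `a ^ n, b ^ n` commute or freely generate.
* `TM V`: a metric on `V` which is the path metric of a simplicial tree with vertex set `V`
  (integer valued, four point condition, geodesics, bipartite).
* `gp T p x y`: twice the Gromov product of `x, y` at the base point `p`.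
* `Act G V T`: the action of `G` on `V` is by isometries and moves every vertex by an even distance.
* `Ax T g L t`: `L : ℤ → V` is an axis of `g` with translation length `t ≥ 1`.
-/

set_option autoImplicit false

namespace Pool.Agent.Lib.MP_9dbb0e_al

/-! ## Artin groups -/

/-- `a b a b ...` with `n` factors -/
def alt {G : Type*} [Monoid G] (a b : G) (n : ℕ) : G :=
  ((List.range n).map (fun k => if Even k then a else b)).prod

/-- the relations of the Artin group of `M` -/
def rels {B : Type} (M : CoxeterMatrix B) : Set (FreeGroup B) :=
  {r : FreeGroup B | ∃ i j : B, i ≠ j ∧ M.M i j ≠ 0 ∧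
    r = ((List.range (M.M i j)).map
          (fun k => if Even k then FreeGroup.of i else FreeGroup.of j)).prod *
        (((List.range (M.M i j)).map
          (fun k => if Even k then FreeGroup.of j else FreeGroup.of i)).prod)⁻¹}

/-- the Artin group of `M` -/
abbrev Art {B : Type} (M : CoxeterMatrix B) : Type := PresentedGroup (rels M)

/-- the standard generators -/
def σ {B : Type} (M : CoxeterMatrix B) (i : B) : Art M := PresentedGroup.of i

/-- the matrix restricted to the generators satisfying `p` -/
def sub {B : Type} (M : CoxeterMatrix B) (p : B → Prop) : CoxeterMatrix {i : B // p i} where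
  M := fun i j => M.M i.1 j.1
  isSymm := by
    ext i j
    exact M.symmetric j.1 i.1
  diagonal := fun i => M.diagonal i.1
  off_diagonal := fun i j h => M.off_diagonal i.1 j.1 (fun h' => h (Subtype.ext h'))

/-! ## The power alternative -/

/-- `a` and `b` freely generate a free group of rank two -/
def FreeTwo {G : Type*} [Group G] (a b : G) : Prop :=
  Function.Injective (FreeGroup.lift ![a, b] : FreeGroup (Fin 2) →* G)

/-- the power alternative -/
def PA (G : Type*) [Group G] : Prop :=
  ∀ a b : G, ∃ n : ℕ, 0 < n ∧ (Commute (a ^ n) (b ^ n) ∨ FreeTwo (a ^ n) (b ^ n))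

/-! ## Tree metrics -/

/-- vertex set of a tree with its path metric -/
structure TM (V : Type*) where
  d : V → V → ℕ
  self : ∀ x, d x x = 0
  eq_of : ∀ x y, d x y = 0 → x = y
  symm : ∀ x y, d x y = d y x
  tri : ∀ x y z, d x z ≤ d x y + d y z
  four : ∀ x y z w, d x y + d z w ≤ d x z + d y w ∨ d x y + d z w ≤ d x w + d y z
  geo : ∀ x y k, k ≤ d x y → ∃ z, d x z = k ∧ d z y + k = d x y
  par : ∀ x y z, Even (d x y + d y z + d z x)

/-- twice the Gromov product of `x` and `y` at `p` -/
def gp {V : Type*} (T : TM V) (p x y : V) : ℕ := T.d p x + T.d p y - T.d x y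

/-- isometric actions which move every vertex by an even distance -/
structure Act (G V : Type*) [Group G] [MulAction G V] (T : TM V) : Prop where
  iso : ∀ (g : G) x y, T.d (g • x) (g • y) = T.d x y
  even : ∀ (g : G) x, Even (T.d x (g • x))

/-- `L` is an axis of `g`, with translation length `t` -/
structure Ax {G V : Type*} [Group G] [MulAction G V] (T : TM V) (g : G) (L : ℤ → V) (t : ℕ) :
    Prop where
  pos : 0 < t
  line : ∀ i j, T.d (L i) (L j) = (i - j).natAbs
  shift : ∀ i, g • L i = L (i + t)

/-- the kernel of `Φ` meets the stabilizers of the edges trivially -/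
def EdgeFree {G Q V : Type*} [Group G] [Group Q] [MulAction G V] (T : TM V) (Φ : G →* Q) : Prop :=
  ∀ (g : G) (x y : V), T.d x y = 1 → g • x = x → g • y = y → Φ g = 1 → g = 1

end Pool.Agent.Lib.MP_9dbb0e_al
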