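import Pool.Agent.Lib.MP_9dbb0e_al.Defs

/-!
# JOB G1: a graph with levels and parents is a tree
-/

set_option autoImplicit false

namespace Pool.Agent.Lib.MP_9dbb0e_al

private def anc {V : Type*} (lev : V → ℕ) (par : V → V) (k : ℕ) (v : V) : V := par^[lev v - k] v

private theorem lev_iter {V : Type*} (lev : V → ℕ) (par : V → V)
    (h1 : ∀ v, lev v ≠ 0 → lev (par v) + 1 = lev v) (n : ℕ) :
    ∀ v, n ≤ lev v → lev (par^[n] v) + n = lev v := by
  induction n with
  | zero => intro v _; simp
  | succ n ih =>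
    intro v hv
    rw [Function.iterate_succ_apply]
    have h := h1 v (by omega)
    have := ih (par v) (by omega)
    omega

private theorem lev_anc {V : Type*} (lev : V → ℕ) (par : V → V)
    (h1 : ∀ v, lev v ≠ 0 → lev (par v) + 1 = lev v) (k : ℕ) (v : V) (hk : k ≤ lev v) :
    lev (anc lev par k v) = k := by
  have := lev_iter lev par h1 (lev v - k) v (by omega)
  unfold anc
  omega

private theorem anc_self {V : Type*} (lev : V → ℕ) (par : V → V) (v : V) :
    anc lev par (lev v) v = v := by
  simp [anc]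

private theorem anc_par {V : Type*} (lev : V → ℕ) (par : V → V)
    (h1 : ∀ v, lev v ≠ 0 → lev (par v) + 1 = lev v) (k : ℕ) (v : V) (hk : k < lev v) :
    anc lev par k v = anc lev par k (par v) := by
  unfold anc
  have h := h1 v (by omega)
  have h2 : lev v - k = (lev (par v) - k) + 1 := by omega
  rw [h2, Function.iterate_succ_apply]

private theorem par_anc {V : Type*} (lev : V → ℕ) (par : V → V) (k : ℕ) (v : V)
    (hk : k + 1 ≤ lev v) : par (anc lev par (k + 1) v) = anc lev par k v := by
  unfold anc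
  have h2 : lev v - k = (lev v - (k + 1)) + 1 := by omega
  rw [h2, Function.iterate_succ_apply']

private def CA {V : Type*} (lev : V → ℕ) (par : V → V) (v w : V) (k : ℕ) : Prop :=
  k ≤ lev v ∧ k ≤ lev w ∧ anc lev par k v = anc lev par k w

open Classical in
private noncomputable def mm {V : Type*} (lev : V → ℕ) (par : V → V) (v w : V) : ℕ :=
  Nat.findGreatest (CA lev par v w) (lev v)

private theorem CA_zero {V : Type*} (lev : V → ℕ) (par : V → V) (r : V)
    (h0 : ∀ v, lev v = 0 → v = r)
    (h1 : ∀ v, lev v ≠ 0 → lev (par v) + 1 = lev v) (v w : V) : CA lev par v w 0 := by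
  refine ⟨Nat.zero_le _, Nat.zero_le _, ?_⟩
  rw [h0 _ (lev_anc lev par h1 0 v (Nat.zero_le _)), h0 _ (lev_anc lev par h1 0 w (Nat.zero_le _))]

private theorem CA_trans {V : Type*} (lev : V → ℕ) (par : V → V) (v w u : V) (k : ℕ)
    (h : CA lev par v w k) (h' : CA lev par w u k) : CA lev par v u k :=
  ⟨h.1, h'.2.1, h.2.2.trans h'.2.2⟩

private theorem CA_symm {V : Type*} (lev : V → ℕ) (par : V → V) (v w : V) (k : ℕ)
    (h : CA lev par v w k) : CA lev par w v k :=
  ⟨h.2.1, h.1, h.2.2.symm⟩

private theorem CA_pred {V : Type*} (lev : V → ℕ) (par : V → V) (v w : V) (k : ℕ)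
    (h : CA lev par v w (k + 1)) : CA lev par v w k := by
  refine ⟨by have := h.1; omega, by have := h.2.1; omega, ?_⟩
  rw [← par_anc lev par k v h.1, ← par_anc lev par k w h.2.1, h.2.2]

private theorem CA_mono {V : Type*} (lev : V → ℕ) (par : V → V) (v w : V) (k l : ℕ) (hkl : l ≤ k)
    (h : CA lev par v w k) : CA lev par v w l := by
  obtain ⟨n, rfl⟩ := Nat.exists_eq_add_of_le hkl
  clear hkl
  induction n with
  | zero => exact h
  | succ n ih => exact ih (CA_pred lev par v w _ h)

private theorem CA_mm {V : Type*} (lev : V → ℕ) (par : V → V) (r : V)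
    (h0 : ∀ v, lev v = 0 → v = r)
    (h1 : ∀ v, lev v ≠ 0 → lev (par v) + 1 = lev v) (v w : V) :
    CA lev par v w (mm lev par v w) := by
  classical
  have := @Nat.findGreatest_spec 0 (CA lev par v w) _ (lev v) (Nat.zero_le _)
    (CA_zero lev par r h0 h1 v w)
  unfold mm
  exact this

private theorem le_mm {V : Type*} (lev : V → ℕ) (par : V → V) (v w : V) (k : ℕ)
    (h : CA lev par v w k) : k ≤ mm lev par v w := by
  classical
  unfold mm
  exact Nat.le_findGreatest h.1 h

private theorem mm_symm {V : Type*} (lev : V → ℕ) (par : V → V) (r : V)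
    (h0 : ∀ v, lev v = 0 → v = r)
    (h1 : ∀ v, lev v ≠ 0 → lev (par v) + 1 = lev v) (v w : V) :
    mm lev par v w = mm lev par w v :=
  le_antisymm (le_mm lev par w v _ (CA_symm _ _ _ _ _ (CA_mm lev par r h0 h1 v w)))
    (le_mm lev par v w _ (CA_symm _ _ _ _ _ (CA_mm lev par r h0 h1 w v)))

private theorem mm_ultra {V : Type*} (lev : V → ℕ) (par : V → V) (r : V)
    (h0 : ∀ v, lev v = 0 → v = r)
    (h1 : ∀ v, lev v ≠ 0 → lev (par v) + 1 = lev v) (v w u : V) :
    mm lev par v w ≤ mm lev par v u ∨ mm lev par w u ≤ mm lev par v u := by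
  rcases le_total (mm lev par v w) (mm lev par w u) with h | h
  · left
    refine le_mm lev par v u _ (CA_trans lev par v w u _ (CA_mm lev par r h0 h1 v w) ?_)
    exact CA_mono lev par w u _ _ h (CA_mm lev par r h0 h1 w u)
  · right
    refine le_mm lev par v u _ (CA_trans lev par v w u _ ?_ (CA_mm lev par r h0 h1 w u))
    exact CA_mono lev par v w _ _ h (CA_mm lev par r h0 h1 v w)

private theorem walk_CA {V : Type*} (Γ : SimpleGraph V) (lev : V → ℕ) (par : V → V)
    (h1 : ∀ v, lev v ≠ 0 → lev (par v) + 1 = lev v)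
    (h2 : ∀ v w, Γ.Adj v w → (lev w + 1 = lev v ∧ w = par v) ∨ (lev v + 1 = lev w ∧ v = par w))
    {v w : V} (p : Γ.Walk v w) :
    ∃ k, CA lev par v w k ∧ lev v + lev w ≤ 2 * k + p.length := by
  induction p with
  | nil => exact ⟨_, ⟨le_refl _, le_refl _, rfl⟩, by simp; omega⟩
  | @cons v u w hadj p ih =>
    obtain ⟨k, hk, hl⟩ := ih
    rw [SimpleGraph.Walk.length_cons]
    rcases h2 v u hadj with ⟨hlev, rfl⟩ | ⟨hlev, hv⟩
    · refine ⟨k, ⟨?_, hk.2.1, ?_⟩, by omega⟩
      · have := hk.1
        omega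
      · have := hk.1
        rw [anc_par lev par h1 k v (by omega), hk.2.2]
    · subst hv
      by_cases hk' : k ≤ lev (par u)
      · refine ⟨k, ⟨hk', hk.2.1, ?_⟩, by omega⟩
        rw [← hk.2.2, anc_par lev par h1 k u (by omega)]
      · have hku : k = lev u := by
          have := hk.1
          omega
        subst hku
        refine ⟨lev (par u), ⟨le_refl _, by have := hk.2.1; omega, ?_⟩, by omega⟩
        rw [anc_self, ← par_anc lev par (lev (par u)) w (by have := hk.2.1; omega), hlev, ← hk.2.2,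
          anc_self]

private theorem dist_anc {V : Type*} (Γ : SimpleGraph V) (lev : V → ℕ) (par : V → V)
    (h1 : ∀ v, lev v ≠ 0 → Γ.Adj v (par v) ∧ lev (par v) + 1 = lev v) (n : ℕ) :
    ∀ v, n ≤ lev v → ∃ p : Γ.Walk v (par^[n] v), p.length = n := by
  induction n with
  | zero => intro v _; exact ⟨SimpleGraph.Walk.nil, rfl⟩
  | succ n ih =>
    intro v hv
    rw [Function.iterate_succ_apply]
    obtain ⟨h, h'⟩ := h1 v (by omega)
    obtain ⟨p, hp⟩ := ih (par v) (by omega)
    exact ⟨SimpleGraph.Walk.cons h p, by rw [SimpleGraph.Walk.length_cons, hp]⟩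

theorem TM_of_parent {V : Type*} (Γ : SimpleGraph V) (lev : V → ℕ) (par : V → V) (r : V)
    (h0 : ∀ v, lev v = 0 → v = r)
    (h1 : ∀ v, lev v ≠ 0 → Γ.Adj v (par v) ∧ lev (par v) + 1 = lev v)
    (h2 : ∀ v w, Γ.Adj v w → (lev w + 1 = lev v ∧ w = par v) ∨ (lev v + 1 = lev w ∧ v = par w)) :
    ∃ T : TM V, ∀ x y, T.d x y = Γ.dist x y := by
  have h1' : ∀ v, lev v ≠ 0 → lev (par v) + 1 = lev v := fun v hv => (h1 v hv).2
  have hle : ∀ v w, ∃ p : Γ.Walk v w, p.length + 2 * mm lev par v w = lev v + lev w := by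
    intro v w
    have hCA := CA_mm lev par r h0 h1' v w
    obtain ⟨p, hp⟩ := dist_anc Γ lev par h1 (lev v - mm lev par v w) v (by omega)
    obtain ⟨q, hq⟩ := dist_anc Γ lev par h1 (lev w - mm lev par v w) w (by omega)
    have he : par^[lev w - mm lev par v w] w = par^[lev v - mm lev par v w] v := hCA.2.2.symm
    refine ⟨p.append ((q.copy rfl he).reverse), ?_⟩
    rw [SimpleGraph.Walk.length_append, SimpleGraph.Walk.length_reverse,
      SimpleGraph.Walk.length_copy, hp, hq]
    have := hCA.1
    have := hCA.2.1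
    omega
  have hconn : ∀ v w, Γ.Reachable v w := fun v w => ⟨(hle v w).choose⟩
  have : Nonempty V := ⟨r⟩
  have hC : Γ.Connected := ⟨hconn⟩
  have hdist : ∀ v w, Γ.dist v w + 2 * mm lev par v w = lev v + lev w := by
    intro v w
    obtain ⟨p, hp⟩ := hle v w
    have ha := SimpleGraph.dist_le p
    obtain ⟨q, hq⟩ := (hconn v w).exists_walk_length_eq_dist
    obtain ⟨k, hk, hl⟩ := walk_CA Γ lev par h1' h2 q
    have := le_mm lev par v w k hk
    omega
  refine ⟨⟨fun x y => Γ.dist x y, ?_, ?_, ?_, ?_, ?_, ?_, ?_⟩, fun x y => rfl⟩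
  · intro x; exact SimpleGraph.dist_self
  · intro x y h; exact (hC.dist_eq_zero_iff).1 h
  · intro x y; exact SimpleGraph.dist_comm
  · intro x y z; exact hC.dist_triangle
  · intro x y z w
    have hu := fun a b c => mm_ultra lev par r h0 h1' a b c
    have hs := fun a b => mm_symm lev par r h0 h1' a b
    have e1 := hdist x y
    have e2 := hdist z w
    have e3 := hdist x z
    have e4 := hdist y w
    have e5 := hdist x w
    have e6 := hdist y z
    have u1 := hu x z y
    have u2 := hu x w y
    have u3 := hu z x w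
    have u4 := hu z y w
    have u5 := hu x y z
    have u6 := hu x w z
    have u7 := hu y x w
    have u8 := hu y z w
    have u9 := hu x y w
    have u10 := hu x z w
    have u11 := hu y x z
    have u12 := hu y w z
    rw [hs z y] at u1
    rw [hs w y] at u2
    rw [hs z x] at u3
    rw [hs z y] at u4
    rw [hs w z] at u6
    rw [hs y x] at u7
    rw [hs y x] at u11
    rw [hs w z] at u12
    omega
  · intro x y k hk
    obtain ⟨p, hp⟩ := (hconn x y).exists_walk_length_eq_dist
    have a1 := SimpleGraph.dist_le (p.take k)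
    have a2 := SimpleGraph.dist_le (p.drop k)
    rw [SimpleGraph.Walk.take_length] at a1
    rw [SimpleGraph.Walk.drop_length] at a2
    have a3 := hC.dist_triangle (u := x) (v := p.getVert k) (w := y)
    exact ⟨p.getVert k, by omega, by omega⟩
  · intro x y z
    have e1 := hdist x y
    have e2 := hdist y z
    have e3 := hdist z x
    rw [Nat.even_iff]
    omega

end Pool.Agent.Lib.MP_9dbb0e_al
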