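import Pool.Agent.Lib.MP_9dbb0e_al.Defs

/-!
# The Bass-Serre graph of an amalgam

Vertices: the cosets `g C` of the base group and the cosets `g G_i`; `g C` is adjacent to `g G_i`.
-/

set_option autoImplicit false

namespace Pool.Agent.Lib.MP_9dbb0e_al

open Monoid Monoid.PushoutI

section

variable {ι : Type} {G : ι → Type} [∀ i, Group (G i)] {H : Type} [Group H] (φ : ∀ i, H →* G i)

/-- the vertices -/
abbrev BV : Type := (PushoutI φ ⧸ (base φ).range) ⊕ (Σ i, PushoutI φ ⧸ (of (φ := φ) i).range)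

/-- the vertex `g C` -/
def vC (g : PushoutI φ) : BV φ := Sum.inl (QuotientGroup.mk g)

/-- the vertex `g G_i` -/
def vG (i : ι) (g : PushoutI φ) : BV φ := Sum.inr ⟨i, QuotientGroup.mk g⟩

/-- the Bass-Serre graph -/
def BG : SimpleGraph (BV φ) where
  Adj x y := ∃ (g : PushoutI φ) (i : ι), (x = vC φ g ∧ y = vG φ i g) ∨ (y = vC φ g ∧ x = vG φ i g)
  symm := ⟨fun _ _ ⟨g, i, h⟩ => ⟨g, i, h.symm⟩⟩
  loopless := ⟨by
    rintro x ⟨g, i, ⟨h1, h2⟩ | ⟨h1, h2⟩⟩ <;>
    · rw [h1] at h2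
      exact absurd h2 (by simp [vC, vG])⟩

theorem smul_vC (g h : PushoutI φ) : g • vC φ h = vC φ (g * h) := rfl

theorem smul_vG (i : ι) (g h : PushoutI φ) : g • vG φ i h = vG φ i (g * h) := rfl

end

end Pool.Agent.Lib.MP_9dbb0e_al
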