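import Pool.Agent.Lib.MP_9dbb0e_al.Defs

/-!
# JOB T1: Gromov products in a tree metric

PROOFS. Unfold `gp` and use `omega` with the facts `T.symm`, `T.tri`, `T.four`, `T.self` for the points that occur.
`gp_even`: `T.par`, `T.symm`, `T.tri` (`Nat.even_sub`, or `Nat.even_iff` and `omega`).
`gp_ultra`: `T.four x y p z`: `d x y + d p z ≤ d x p + d y z` or `d x y + d p z ≤ d x z + d y p`.
`pt_unique`: `T.four z z' p x`: `d z z' + d p x ≤ d z p + d z' x` or `≤ d z x + d z' p`; and `d z' x + k ≤ d p x`: `T.four z' x p y`. So `d z z' = 0`.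
`btw_unique`: `pt_unique` with `p = x`, and both end points `y` (`gp T x y y = 2 * d x y`).
-/

set_option autoImplicit false

namespace Pool.Agent.Lib.MP_9dbb0e_al

variable {V : Type*} (T : TM V)

theorem gp_comm (p x y : V) : gp T p x y = gp T p y x := by
  have h := T.symm x y
  unfold gp
  omega

theorem gp_self (p x : V) : gp T p x x = 2 * T.d p x := by
  have h := T.self x
  unfold gp
  omega

theorem gp_base (p y : V) : gp T p p y = 0 := by
  have h := T.self p
  unfold gp
  omega

theorem gp_add (p x y : V) : gp T p x y + gp T x p y = 2 * T.d p x := by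
  have h1 := T.symm x p
  have h2 := T.tri x p y
  have h3 := T.tri p x y
  unfold gp
  omega

theorem gp_le (p x y : V) : gp T p x y ≤ 2 * T.d p x ∧ gp T p x y ≤ 2 * T.d p y := by
  have h1 := T.symm x y
  have h2 := T.tri p y x
  have h3 := T.tri p x y
  unfold gp
  omega

theorem gp_even (p x y : V) : Even (gp T p x y) := by
  have h1 := T.symm y p
  have h2 := T.symm x p
  have h3 := T.tri x p y
  have h4 := T.par p x y
  rw [Nat.even_iff] at h4 ⊢
  unfold gp
  omega

theorem gp_ultra (p x y z : V) : gp T p x z ≤ gp T p x y ∨ gp T p z y ≤ gp T p x y := by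
  have h1 := T.symm y p
  have h2 := T.symm x p
  have h3 := T.symm z p
  have h4 := T.symm y z
  have h5 := T.tri x p y
  have h6 := T.tri x p z
  have h7 := T.tri z p y
  have h8 := T.four x y p z
  unfold gp
  omega

theorem gp_smul {G : Type*} [Group G] [MulAction G V] (hT : Act G V T) (g : G) (p x y : V) :
    gp T (g • p) (g • x) (g • y) = gp T p x y := by
  have h1 := hT.iso g p x
  have h2 := hT.iso g p y
  have h3 := hT.iso g x y
  unfold gp
  rw [h1, h2, h3]

theorem pt_unique (p x y z z' : V) (k : ℕ) (h1 : T.d p z = k) (h2 : T.d z x + k = T.d p x)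
    (h3 : T.d p z' = k) (h4 : T.d z' y + k = T.d p y) (h5 : 2 * k ≤ gp T p x y) : z = z' := by
  have e1 := T.symm z p
  have e2 := T.symm z' p
  have e3 := T.symm x p
  have e4 := T.tri x p y
  have e5 := T.four z' x p y
  have e6 := T.four z z' p x
  unfold gp at h5
  apply T.eq_of
  omega

theorem btw_unique (x y z z' : V) (k : ℕ) (h1 : T.d x z = k) (h2 : T.d z y + k = T.d x y)
    (h3 : T.d x z' = k) (h4 : T.d z' y + k = T.d x y) : z = z' := by
  refine pt_unique T x y y z z' k h1 h2 h3 h4 ?_
  rw [gp_self]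
  omega

end Pool.Agent.Lib.MP_9dbb0e_al
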