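import Pool.Agent.Lib.MP_9dbb0e_al.T1

/-!
# JOB T3: existence of an axis

PROOF. `exists_min`: let `v` minimise `d v (g v)` (well founded), `t = d v (g v) > 0` (`hg`, `T.eq_of`), `t` is even (`hT.even`), so `t ≥ 2`.
Suppose `d v (g² v) ≠ 2 t`; by the triangle inequality `d v (g² v) < 2 t`, so
`gp T (g v) v (g² v) = t + t - d v (g² v) > 0`, hence `≥ 2` (`gp_even`). By `T.geo (g v) v 1` and `T.geo (g v) (g² v) 1` there are points `z` on `[g v, v]` and `z₂` on `[g v, g² v]` at
distance `1` from `g v`; `z = z₂` by `pt_unique` (`k = 1`). Let `z' = g⁻¹ z`. Then `d v z' = d (g v) z = 1` and, since `d (g v) z₂ = 1`, `d z₂ (g² v) = t - 1`: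
`d z' (g v) = d (g z') (g² v) = d z (g² v) = t - 1`. Both `z'` and `z` lie between `v` and `g v`: `d v z' = 1`, `d z' (g v) = t - 1`, `d v z = t - 1`, `d z (g v) = 1`.
Then `d z' (g z') = d z' z ≤ t - 2 < t`: `T.four v (g v) z' z`: `d v (g v) + d z' z ≤ d v z' + d (g v) z = 2` or `≤ d v z + d (g v) z' = 2 t - 2`; in both cases
`d z' z ≤ t - 2` (`t ≥ 2`). Contradiction to the minimality.
`orbit_dist`: induction on `n`: `T.four v (g ^ n v) (g ^ (n-1) v) (g ^ (n+1) v)`: with `D = d v (g^(n+1) v)`: `d v (g^n v) + d (g^(n-1) v) (g^(n+1) v) = n t + 2 t ≤`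
`d v (g^(n-1) v) + d (g^n v) (g^(n+1) v) = (n-1) t + t` (impossible) or `≤ D + d (g^n v) (g^(n-1) v) = D + t`; so `D ≥ (n+1) t`; `≤` by the triangle inequality.
`exists_axis`: let `γ : ℕ → V` with `γ 0 = v`, `γ t = g v` and `d v (γ k) = k`, `d (γ k) (g v) + k = t` for `k ≤ t` (choice from `T.geo`; `γ 0 = v`, `γ t = g v` by `T.eq_of`).
Put `L i = g ^ (i / t) • γ (i % t).toNat` (`Int` division, `t > 0`). `g • L i = L (i + t)` is clear (`Int.add_ediv_of_dvd_right`, `Int.add_emod_self`; `(i + t) / t = i / t + 1`).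
`d (L i) (L (i+1)) ≤ 1`: if `i % t + 1 < t`, then `d (γ r) (γ (r+1)) ≤ 1` by `T.four v (g v) (γ r) (γ (r+1))` (the points are between `v` and `g v`); if `i % t + 1 = t`, then
`L (i+1) = g ^ (q+1) v = g ^ q (g v)` and `d (γ (t-1)) (g v) = 1`. Hence `d (L i) (L j) ≤ |i - j|` (induction). For `i ≤ j` choose `n n' : ℤ` with `n t ≤ i`, `j ≤ n' t` (`n = i / t`, `n' = j / t + 1`):
`(n' - n) t = d (L (n t)) (L (n' t)) ≤ (i - n t) + d (L i) (L j) + (n' t - j)`, so `d (L i) (L j) ≥ j - i` (`orbit_dist`, `L (n t) = g ^ n v`).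
-/

set_option autoImplicit false

namespace Pool.Agent.Lib.MP_9dbb0e_al

variable {G V : Type*} [Group G] [MulAction G V] (T : TM V)

theorem exists_min [Nonempty V] (hT : Act G V T) (g : G) (hg : ∀ x : V, g • x ≠ x) :
    ∃ (v : V) (t : ℕ), 0 < t ∧ T.d v (g • v) = t ∧ T.d v (g • g • v) = 2 * t := by
  classical
  obtain ⟨v, hv⟩ : ∃ v : V, ∀ w : V, T.d v (g • v) ≤ T.d w (g • w) := by
    have h : ∃ n : ℕ, ∃ v : V, T.d v (g • v) = n :=
      ⟨T.d (Classical.arbitrary V) (g • Classical.arbitrary V), Classical.arbitrary V, rfl⟩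
    obtain ⟨v, hv⟩ := Nat.find_spec h
    exact ⟨v, fun w => by rw [hv]; exact Nat.find_min' h ⟨w, rfl⟩⟩
  obtain ⟨t, ht⟩ : ∃ t, t = T.d v (g • v) := ⟨_, rfl⟩
  have ht0 : t ≠ 0 := by
    intro h0
    exact hg v (T.eq_of v (g • v) (by rw [← ht, h0])).symm
  have hte : Even t := by rw [ht]; exact hT.even g v
  have ht2 : 2 ≤ t := by
    rcases hte with ⟨m, hm⟩
    omega
  refine ⟨v, t, by omega, ht.symm, ?_⟩
  by_contra hne
  have hbc : T.d (g • v) (g • g • v) = t := by rw [hT.iso]; exact ht.symm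
  have htri := T.tri v (g • v) (g • g • v)
  have hba : T.d (g • v) v = t := by rw [T.symm]; exact ht.symm
  have hgp : 2 ≤ gp T (g • v) v (g • g • v) := by
    have he := gp_even T (g • v) v (g • g • v)
    have h1 : gp T (g • v) v (g • g • v)
        = T.d (g • v) v + T.d (g • v) (g • g • v) - T.d v (g • g • v) := rfl
    rcases he with ⟨m, hm⟩
    omega
  obtain ⟨z, hz1, hz2⟩ := T.geo (g • v) v 1 (by omega)
  obtain ⟨z2, hy1, hy2⟩ := T.geo (g • v) (g • g • v) 1 (by omega)
  have hzz : z = z2 := pt_unique T (g • v) v (g • g • v) z z2 1 hz1 hz2 hy1 hy2 (by omega)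
  rw [← hzz] at hy1 hy2
  have hgz : g • (g⁻¹ • z) = z := smul_inv_smul g z
  have h1 : T.d v (g⁻¹ • z) = 1 := by
    rw [← hT.iso g v (g⁻¹ • z), hgz]
    exact hz1
  have h2 : T.d (g⁻¹ • z) (g • v) = T.d z (g • g • v) := by
    rw [← hT.iso g (g⁻¹ • z) (g • v), hgz]
  have h3 := hv (g⁻¹ • z)
  rw [hgz] at h3
  have h4 := T.four v (g • v) (g⁻¹ • z) z
  have h5 := T.symm v z
  have h6 := T.symm (g • v) (g⁻¹ • z)
  omega

theorem orbit_dist (hT : Act G V T) (g : G) (v : V) (t : ℕ) (ht : 0 < t) (h1 : T.d v (g • v) = t)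
    (h2 : T.d v (g • g • v) = 2 * t) (n : ℕ) : T.d v (g ^ n • v) = n * t := by
  have key : ∀ n : ℕ, T.d v (g ^ n • v) = n * t ∧ T.d v (g ^ (n + 1) • v) = (n + 1) * t := by
    intro n
    induction n with
    | zero =>
      constructor
      · rw [pow_zero, one_smul, T.self, zero_mul]
      · rw [zero_add, pow_one, one_mul]
        exact h1
    | succ n ih =>
      refine ⟨ih.2, ?_⟩
      have e1 : g ^ (n + 1) • v = g ^ n • g • v := by rw [pow_succ, mul_smul]
      have e2 : g ^ (n + 1 + 1) • v = g ^ n • g • g • v := by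
        rw [pow_succ, pow_succ, mul_smul, mul_smul]
      have h3 : T.d (g ^ n • v) (g ^ (n + 1) • v) = t := by rw [e1, hT.iso]; exact h1
      have h4 : T.d (g ^ n • v) (g ^ (n + 1 + 1) • v) = 2 * t := by rw [e2, hT.iso]; exact h2
      have h5 : T.d (g ^ (n + 1) • v) (g ^ (n + 1 + 1) • v) = t := by
        rw [e1, e2, hT.iso, hT.iso]
        exact h1
      have h6 := T.four v (g ^ (n + 1) • v) (g ^ n • v) (g ^ (n + 1 + 1) • v)
      have h7 := T.tri v (g ^ (n + 1) • v) (g ^ (n + 1 + 1) • v)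
      have h8 := T.symm (g ^ (n + 1) • v) (g ^ n • v)
      obtain ⟨i1, i2⟩ := ih
      have e3 : (n + 1) * t = n * t + t := by ring
      have e4 : (n + 1 + 1) * t = n * t + 2 * t := by ring
      rw [e4]
      rw [e3] at i2
      omega
  exact (key n).1

theorem exists_axis [Nonempty V] (hT : Act G V T) (g : G) (hg : ∀ x : V, g • x ≠ x) :
    ∃ (L : ℤ → V) (t : ℕ), Ax T g L t := by
  obtain ⟨v, t, ht, h1, h2⟩ := exists_min T hT g hg
  have horb := orbit_dist T hT g v t ht h1 h2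
  have hγ : ∀ k : ℕ, ∃ z : V, k ≤ t → T.d v z = k ∧ T.d z (g • v) + k = t := by
    intro k
    by_cases hk : k ≤ t
    · obtain ⟨z, hz1, hz2⟩ := T.geo v (g • v) k (by omega)
      exact ⟨z, fun _ => ⟨hz1, by omega⟩⟩
    · exact ⟨v, fun h => absurd h hk⟩
  choose γ hγ using hγ
  have hγ0 : γ 0 = v := by
    have h3 := (hγ 0 (Nat.zero_le t)).1
    exact (T.eq_of _ _ h3).symm
  have hγt : γ t = g • v := by
    have h3 := (hγ t le_rfl).2
    exact T.eq_of _ _ (by omega)
  have ht' : (0 : ℤ) < t := by exact_mod_cast ht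
  let L : ℤ → V := fun i => g ^ (i / (t : ℤ)) • γ (i % (t : ℤ)).toNat
  have hL1 : ∀ (q : ℤ) (r : ℕ), r < t → L (q * t + r) = g ^ q • γ r := by
    intro q r hr
    have h3 : (q * t + r) / (t : ℤ) = q ∧ (q * t + r) % (t : ℤ) = r := by
      rw [Int.ediv_emod_unique ht']
      refine ⟨by ring, by omega, by omega⟩
    change g ^ ((q * t + r) / (t : ℤ)) • γ ((q * t + r) % (t : ℤ)).toNat = _
    rw [h3.1, h3.2, Int.toNat_natCast]
  have hL : ∀ (q : ℤ) (r : ℕ), r ≤ t → L (q * t + r) = g ^ q • γ r := by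
    intro q r hr
    rcases Nat.lt_or_ge r t with h | h
    · exact hL1 q r h
    · have h3 : r = t := le_antisymm hr h
      rw [h3]
      have h4 : q * (t : ℤ) + t = (q + 1) * t + (0 : ℕ) := by
        push_cast
        ring
      rw [h4, hL1 (q + 1) 0 ht, hγ0, hγt, zpow_add_one, mul_smul]
  have hrep : ∀ i : ℤ, ∃ (q : ℤ) (r : ℕ), r < t ∧ i = q * t + r := by
    intro i
    refine ⟨i / t, (i % (t : ℤ)).toNat, ?_, ?_⟩
    · have h3 := Int.emod_lt_of_pos i ht'
      have h4 := Int.emod_nonneg i (ne_of_gt ht')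
      omega
    · have h4 := Int.emod_nonneg i (ne_of_gt ht')
      rw [Int.toNat_of_nonneg h4, mul_comm]
      exact (Int.mul_ediv_add_emod i t).symm
  have hstep : ∀ i : ℤ, T.d (L i) (L (i + 1)) ≤ 1 := by
    intro i
    obtain ⟨q, r, hr, hi⟩ := hrep i
    have h3 : i + 1 = q * t + ((r + 1 : ℕ) : ℤ) := by
      rw [hi]
      push_cast
      ring
    rw [h3, hi, hL q r hr.le, hL q (r + 1) hr, hT.iso]
    obtain ⟨h4, h5⟩ := hγ r hr.le
    obtain ⟨h6, h7⟩ := hγ (r + 1) hr
    have h8 := T.four v (g • v) (γ r) (γ (r + 1))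
    have h9 := T.symm (g • v) (γ r)
    have h10 := T.symm (g • v) (γ (r + 1))
    omega
  have hle : ∀ (n : ℕ) (i : ℤ), T.d (L i) (L (i + n)) ≤ n := by
    intro n
    induction n with
    | zero =>
      intro i
      rw [Nat.cast_zero, add_zero, T.self]
    | succ n ih =>
      intro i
      have h3 := ih i
      have h4 := hstep (i + n)
      have h5 := T.tri (L i) (L (i + n)) (L (i + n + 1))
      have h6 : i + ((n + 1 : ℕ) : ℤ) = i + n + 1 := by
        push_cast
        ring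
      rw [h6]
      omega
  have horb' : ∀ (q : ℤ) (m : ℕ), T.d (L (q * t)) (L ((q + m) * t)) = m * t := by
    intro q m
    have h3 : L (q * t) = g ^ q • v := by
      have h4 := hL q 0 (Nat.zero_le t)
      rw [Nat.cast_zero, add_zero, hγ0] at h4
      exact h4
    have h4 : L ((q + m) * t) = g ^ q • g ^ m • v := by
      have h5 := hL (q + m) 0 (Nat.zero_le t)
      rw [Nat.cast_zero, add_zero, hγ0, zpow_add, mul_smul, zpow_natCast] at h5
      exact h5
    rw [h3, h4, hT.iso, horb]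
  have heq : ∀ (n : ℕ) (i : ℤ), T.d (L i) (L (i + n)) = n := by
    intro n i
    refine le_antisymm (hle n i) ?_
    obtain ⟨q, r, hr, hi⟩ := hrep i
    obtain ⟨q', r', hr', hi'⟩ := hrep (i + n)
    -- q ≤ q'
    have hqq : q ≤ q' := by
      by_contra hlt
      have h3 : q' + 1 ≤ q := by omega
      have h4 : (q' + 1) * (t : ℤ) ≤ q * t := mul_le_mul_of_nonneg_right h3 ht'.le
      have h5 : (q' + 1) * (t : ℤ) = q' * t + t := by ring
      omega
    obtain ⟨m, hm⟩ : ∃ m : ℕ, q' + 1 = q + m := ⟨(q' + 1 - q).toNat, by omega⟩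
    have h6 := horb' q m
    -- distances at the ends
    have h7 : T.d (L (q * t)) (L i) ≤ r := by
      have h8 := hle r (q * t)
      rw [← hi] at h8
      exact h8
    obtain ⟨u, hu⟩ : ∃ u : ℕ, t = r' + u := ⟨t - r', by omega⟩
    have h9 : T.d (L (i + n)) (L ((q + m) * t)) ≤ u := by
      have h8 := hle u (i + n)
      have h10 : i + n + (u : ℤ) = (q + m) * t := by
        have h11 : (t : ℤ) = r' + u := by exact_mod_cast hu
        rw [← hm, hi']
        have h12 : (q' + 1) * (t : ℤ) = q' * t + t := by ring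
        rw [h12]
        omega
      rw [h10] at h8
      exact h8
    have h13 := T.tri (L (q * t)) (L i) (L ((q + m) * t))
    have h14 := T.tri (L i) (L (i + n)) (L ((q + m) * t))
    -- m t = r + n + u as integers
    have h15 : (m : ℤ) * t = -(r : ℤ) * (-1) + n + u := by
      have h11 : (t : ℤ) = r' + u := by exact_mod_cast hu
      have h16 : (q + m) * (t : ℤ) = q * t + m * t := by ring
      have h17 : (q' + 1) * (t : ℤ) = q' * t + t := by ring
      rw [hm] at h17
      have h18 : i + (n : ℤ) = q' * t + r' := hi'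
      linarith
    have h19 : m * t = r + n + u := by
      have h20 : ((m * t : ℕ) : ℤ) = ((r + n + u : ℕ) : ℤ) := by
        push_cast
        linarith
      exact_mod_cast h20
    omega
  refine ⟨L, t, ht, ?_, ?_⟩
  · intro i j
    rcases le_total i j with h | h
    · obtain ⟨n, hn⟩ : ∃ n : ℕ, j = i + n := ⟨(j - i).toNat, by omega⟩
      rw [hn, heq]
      omega
    · obtain ⟨n, hn⟩ : ∃ n : ℕ, i = j + n := ⟨(i - j).toNat, by omega⟩
      rw [hn, T.symm, heq]
      omega
  · intro i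
    obtain ⟨q, r, hr, hi⟩ := hrep i
    have h3 : i + t = (q + 1) * t + r := by
      rw [hi]
      ring
    rw [h3, hi, hL q r hr.le, hL (q + 1) r hr.le, smul_smul, add_comm q 1, zpow_one_add]

end Pool.Agent.Lib.MP_9dbb0e_al
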