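import Pool.Agent.Lib.MP_9dbb0e_al.T1

/-!
# JOB T4: lemmas on axes

PROOFS.
`Ax.zpow`: induction on `k` (`Int.induction_on`); for negative powers: `g⁻¹ • L i = L (i - t)` from `shift (i - t)`.
`Ax.pow`: `zpow` with the cast of `n`; `Ax.rev`: `line` with `-i, -j`; `shift`: `g⁻¹ • L (-i) = L (-i - t)`.
`line_pt`: distances are `natAbs` of differences (`line`), `ε = 1` or `ε = -1`.
`agree`: the points `L (i + x)` and `L' (j + x)` both lie between `L i = L' j` and `L (i + R) = L' (j + R)`: `btw_unique` (`line_pt`).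
`fix_seg`: `g • L (i + x)` and `L (i + x)` both lie between `L i` and `L (i + R)` (`hT.iso`).
`agree_gp`: two lines `L, L'` with `L i = L' j = p`, `k ≤ n`, `k ≤ n'` and `2 k ≤ gp T p (L (i + ε n)) (L' (j + ε' n'))`: `pt_unique`.
-/

set_option autoImplicit false

namespace Pool.Agent.Lib.MP_9dbb0e_al

variable {G V : Type*} [Group G] [MulAction G V] {T : TM V}

theorem Ax.zpow {g : G} {L : ℤ → V} {t : ℕ} (h : Ax T g L t) (k i : ℤ) :
    g ^ k • L i = L (i + k * t) := by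
  have hinv : ∀ i, g⁻¹ • L i = L (i - t) := by
    intro i
    rw [inv_smul_eq_iff, h.shift]
    congr 1
    ring
  revert i
  induction k using Int.induction_on with
  | zero => intro i; simp
  | succ k ih =>
    intro i
    rw [zpow_add, mul_smul, zpow_one, h.shift, ih]
    congr 1
    ring
  | pred k ih =>
    intro i
    rw [sub_eq_add_neg, zpow_add, mul_smul, zpow_neg_one, hinv, ih]
    congr 1
    ring

theorem Ax.pow {g : G} {L : ℤ → V} {t : ℕ} (h : Ax T g L t) (n : ℕ) (hn : 0 < n) :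
    Ax T (g ^ n) L (n * t) where
  pos := Nat.mul_pos hn h.pos
  line := h.line
  shift i := by
    have := h.zpow (n : ℤ) i
    rw [zpow_natCast] at this
    rw [this]
    push_cast
    rfl

theorem Ax.rev {g : G} {L : ℤ → V} {t : ℕ} (h : Ax T g L t) : Ax T g⁻¹ (fun i => L (-i)) t where
  pos := h.pos
  line i j := by
    show T.d (L (-i)) (L (-j)) = (i - j).natAbs
    rw [h.line]
    omega
  shift i := by
    show g⁻¹ • L (-i) = L (-(i + t))
    rw [inv_smul_eq_iff, h.shift]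
    congr 1
    ring

theorem line_pt {L : ℤ → V} (hL : ∀ i j, T.d (L i) (L j) = (i - j).natAbs) (i ε : ℤ)
    (hε : ε = 1 ∨ ε = -1) (k n : ℕ) (hk : k ≤ n) :
    T.d (L i) (L (i + ε * k)) = k ∧ T.d (L (i + ε * k)) (L (i + ε * n)) + k =
      T.d (L i) (L (i + ε * n)) ∧ T.d (L i) (L (i + ε * n)) = n := by
  rw [hL, hL, hL]
  rcases hε with rfl | rfl <;> omega

theorem agree {L L' : ℤ → V} (hL : ∀ i j, T.d (L i) (L j) = (i - j).natAbs)
    (hL' : ∀ i j, T.d (L' i) (L' j) = (i - j).natAbs) (i j : ℤ) (R : ℕ) (h0 : L i = L' j)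
    (h1 : L (i + R) = L' (j + R)) (x : ℕ) (hx : x ≤ R) : L (i + x) = L' (j + x) := by
  refine btw_unique T (L i) (L (i + R)) (L (i + x)) (L' (j + x)) x ?_ ?_ ?_ ?_
  · rw [hL]; omega
  · rw [hL, hL]; omega
  · rw [h0, hL']; omega
  · rw [h1, hL', h0, hL']; omega

theorem fix_seg (hT : Act G V T) {L : ℤ → V} (hL : ∀ i j, T.d (L i) (L j) = (i - j).natAbs)
    (g : G) (i : ℤ) (R : ℕ) (h0 : g • L i = L i) (h1 : g • L (i + R) = L (i + R)) (x : ℕ)
    (hx : x ≤ R) : g • L (i + x) = L (i + x) := by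
  have hL' : ∀ i j, T.d (g • L i) (g • L j) = (i - j).natAbs := fun i j => by rw [hT.iso, hL]
  exact agree (L := fun i => g • L i) (L' := L) hL' hL i i R h0 h1 x hx

theorem agree_gp {L L' : ℤ → V} (hL : ∀ i j, T.d (L i) (L j) = (i - j).natAbs)
    (hL' : ∀ i j, T.d (L' i) (L' j) = (i - j).natAbs) (i j ε ε' : ℤ) (hε : ε = 1 ∨ ε = -1)
    (hε' : ε' = 1 ∨ ε' = -1) (n n' k : ℕ) (h0 : L i = L' j)
    (hk : 2 * k ≤ gp T (L i) (L (i + ε * n)) (L' (j + ε' * n'))) :
    k ≤ n ∧ k ≤ n' ∧ ∀ x : ℕ, x ≤ k → L (i + ε * x) = L' (j + ε' * x) := by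
  have e1 := (line_pt hL i ε hε n n le_rfl).2.2
  have e2 := (line_pt hL' j ε' hε' n' n' le_rfl).2.2
  have g1 := gp_le T (L i) (L (i + ε * n)) (L' (j + ε' * n'))
  rw [e1] at g1
  rw [h0, e2, ← h0] at g1
  have hn : k ≤ n := by omega
  have hn' : k ≤ n' := by omega
  refine ⟨hn, hn', fun x hx => ?_⟩
  have a1 := line_pt hL i ε hε x n (hx.trans hn)
  have a2 := line_pt hL' j ε' hε' x n' (hx.trans hn')
  refine pt_unique T (L i) (L (i + ε * n)) (L' (j + ε' * n')) _ _ x a1.1 a1.2.1 ?_ ?_ ?_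
  · rw [h0]; exact a2.1
  · rw [h0]; exact a2.2.1
  · omega

end Pool.Agent.Lib.MP_9dbb0e_al
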