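import Pool.Agent.Lib.MP_9dbb0e_al.VDefs

/-!
# JOB V1: all labels occur

PROOF. COPY the proofs of `w4_len`, `w4_word`, `w4_min`, `w4_minR`, `w4_three` of W4.lean (complete, the last theorem `dih_two` there is the model) with the condition `g = i ∨ g = j` on the letters replaced by `q g` (here `q = p`), `Dih cs i j` replaced by `Dq cs q`, new names `v1_...`.
Let `d` be a shortest element of the class `{w | Dq cs p d w}` of `v` (`w4_min`). `d` is `MinR` (`w4_minR`, from `hv`). For every `x` with `p x` the label `x` occurs at some `w` with `MinR w`, `Dq v w`, `p g`, `s g * w = w * s x`, so (`w4_three`) there is `h x` with `p (h x)`, `s (h x) * d = d * s x`. `h` is injective on `{x // p x}` (`label_unique`), the type is finite, so `h` is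
surjective (`Finite.injective_iff_surjective`, for the map `{x // p x} → {x // p x}`). CLAIM: `v = d`: `v = π ω * d` with a shortest `ω` (letters in `p`), `ℓ v = ω.length + ℓ d` (`w4_word`, `w4_len`). If `ω` is not empty, `ω = ω' ++ [k]`, `p k`; there is `z` with `p z`, `s k * d = d * s z` (surjectivity), so
`v * s z = π ω' * s k * d * s z = π ω' * s k * s k * d = π ω' * d` has length `≤ ω'.length + ℓ d < ℓ v`, contradiction to `hv z` (see the end of the proof of `dih_two`). So `v = d`, and `h` proves `Nor cs p v`.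
-/

set_option autoImplicit false

namespace Pool.Agent.Lib.MP_9dbb0e_al

variable {B W : Type} [Group W] {M : CoxeterMatrix B} (cs : CoxeterSystem M W) (p : B → Prop)

private theorem v1_len (q : B → Prop) (d : W)
    (hd : ∀ w, Dq cs q d w → cs.length d ≤ cs.length w)
    (ω : List B) (hω : ∀ g ∈ ω, q g)
    (hmin : ∀ ω' : List B, (∀ g ∈ ω', q g) →
      cs.wordProd ω * d = cs.wordProd ω' * d → ω.length ≤ ω'.length) :
    cs.length (cs.wordProd ω * d) = ω.length + cs.length d := by
  induction ω with
  | nil => simp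
  | cons g ω ih =>
    have hω' : ∀ g ∈ ω, q g := fun x hx => hω x (List.mem_cons_of_mem _ hx)
    have hg : q g := hω g List.mem_cons_self
    have ih' := ih hω' (by
      intro ω' h1 h2
      have := hmin (g :: ω') (by
        intro x hx
        rcases List.mem_cons.1 hx with rfl | hx
        · exact hg
        · exact h1 x hx) (by
        rw [cs.wordProd_cons, cs.wordProd_cons, mul_assoc, mul_assoc, h2])
      simpa using this)
    obtain ⟨δ, hδ, hδd⟩ := cs.exists_isReduced d
    have hδl : cs.length d = δ.length := by rw [hδd]; exact hδ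
    rw [cs.wordProd_cons, mul_assoc, List.length_cons]
    by_contra hne
    have hdesc : cs.IsLeftDescent (cs.wordProd ω * d) g := by
      rcases cs.length_simple_mul (cs.wordProd ω * d) g with h | h
      · exact absurd (by rw [h, ih']; omega) hne
      · show cs.length _ < cs.length _
        omega
    have hred : cs.IsReduced (ω ++ δ) := by
      show cs.length (cs.wordProd (ω ++ δ)) = (ω ++ δ).length
      rw [cs.wordProd_append, ← hδd, ih', List.length_append, hδl]
    obtain ⟨t, ht, hte⟩ := exchange_left cs (ω ++ δ) hred g (by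
      rw [cs.wordProd_append, ← hδd]
      exact hdesc)
    rw [cs.wordProd_append, ← hδd] at hte
    by_cases htl : t < ω.length
    · rw [List.eraseIdx_append_of_lt_length htl, cs.wordProd_append, ← hδd] at hte
      have h3 := hmin (ω.eraseIdx t) (fun x hx => hω' x (List.mem_of_mem_eraseIdx hx)) (by
        rw [cs.wordProd_cons, mul_assoc, hte])
      have h4 := List.length_eraseIdx_add_one htl
      rw [List.length_cons] at h3
      omega
    · rw [List.eraseIdx_append_of_length_le (by omega), cs.wordProd_append] at hte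
      have h5 : Dq cs q d (cs.wordProd (δ.eraseIdx (t - ω.length))) := by
        have h6 : Dq cs q d (cs.simple g * (cs.wordProd ω * d)) :=
          Dq.step ⟨ω, hω', rfl⟩ g hg
        rw [hte] at h6
        exact Dq.trans h6 (Dq.symm ⟨ω, hω', rfl⟩)
      have h7 := hd _ h5
      have h8 := cs.length_wordProd_le (δ.eraseIdx (t - ω.length))
      rw [List.length_append] at ht
      have h9 := List.length_eraseIdx_add_one (l := δ) (i := t - ω.length) (by omega)
      omega

private theorem v1_word (q : B → Prop) (d w : W) (h : Dq cs q d w) :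
    ∃ ω : List B, (∀ g ∈ ω, q g) ∧ w = cs.wordProd ω * d ∧
      ∀ ω' : List B, (∀ g ∈ ω', q g) →
        cs.wordProd ω * d = cs.wordProd ω' * d → ω.length ≤ ω'.length := by
  classical
  have hex : ∃ n, ∃ ω : List B, (∀ g ∈ ω, q g) ∧ w = cs.wordProd ω * d ∧
      ω.length = n := by
    obtain ⟨ω, hω, hw⟩ := h
    exact ⟨_, ω, hω, hw, rfl⟩
  obtain ⟨ω, hω, hw, hl⟩ := Nat.find_spec hex
  refine ⟨ω, hω, hw, fun ω' h1 h2 => ?_⟩
  rw [hl]
  exact Nat.find_min' hex ⟨ω', h1, by rw [hw, h2], rfl⟩

private theorem v1_min (q : B → Prop) (v : W) :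
    ∃ d, Dq cs q d v ∧ ∀ w, Dq cs q d w → cs.length d ≤ cs.length w := by
  classical
  have hex : ∃ n, ∃ d, Dq cs q d v ∧ cs.length d = n := ⟨_, v, Dq.refl q v, rfl⟩
  obtain ⟨d, hd, hl⟩ := Nat.find_spec hex
  refine ⟨d, hd, fun w hw => ?_⟩
  rw [hl]
  exact Nat.find_min' hex ⟨w, Dq.trans (Dq.symm hw) hd, rfl⟩

private theorem v1_minR (q : B → Prop) (d : W)
    (hd : ∀ w, Dq cs q d w → cs.length d ≤ cs.length w) (w : W) (hw : MinR cs p w)
    (h : Dq cs q d w) : MinR cs p d := by
  intro x hx hdesc
  obtain ⟨ω, hω, rfl, hmin⟩ := v1_word cs q d w h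
  have hl := v1_len cs q d hd ω hω hmin
  refine hw x hx ?_
  show cs.length _ < cs.length _
  have hdesc' : cs.length (d * cs.simple x) < cs.length d := hdesc
  rw [hl, mul_assoc]
  have h1 := cs.length_mul_le (cs.wordProd ω) (d * cs.simple x)
  have h2 := cs.length_wordProd_le ω
  omega

private theorem v1_three (q : B → Prop) (d : W)
    (hd : ∀ w, Dq cs q d w → cs.length d ≤ cs.length w) (w : W) (hw : MinR cs p w)
    (h : Dq cs q d w) (g : B) (hg : q g) (x : B) (hx : p x)
    (e : cs.simple g * w = w * cs.simple x) :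
    ∃ h, q h ∧ cs.simple h * d = d * cs.simple x := by
  have hdR := v1_minR cs p q d hd w hw h
  have hlen : cs.length (d * cs.simple x) = cs.length d + 1 :=
    (cs.not_isRightDescent_iff).1 (hdR x hx)
  have hD : Dq cs q d (d * cs.simple x) := by
    obtain ⟨ω, hω, rfl⟩ := h
    have h1 : Dq cs q d (cs.simple g * (cs.wordProd ω * d)) :=
      Dq.step ⟨ω, hω, rfl⟩ g hg
    rw [e, mul_assoc] at h1
    exact Dq.trans h1 (Dq.symm ⟨ω, hω, rfl⟩)
  obtain ⟨ω, hω, hw', hmin⟩ := v1_word cs q d _ hD
  have hl := v1_len cs q d hd ω hω hmin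
  rw [← hw', hlen] at hl
  obtain ⟨k, rfl⟩ := List.length_eq_one_iff.1 (by omega : ω.length = 1)
  refine ⟨k, hω k (by simp), ?_⟩
  rw [hw', cs.wordProd_singleton]

theorem nor_of_lab [Finite B] (v : W) (hv : MinR cs p v) (h : ∀ x, p x → Lab cs p v x) :
    Nor cs p v := by
  obtain ⟨d, hdv, hd⟩ := v1_min cs p v
  have hlab : ∀ x : {x : B // p x}, ∃ k : {x : B // p x},
      cs.simple k.1 * d = d * cs.simple x.1 := by
    intro x
    obtain ⟨hx, w, g, hvw, hw, hg, e⟩ := h x.1 x.2
    obtain ⟨k, hk, ek⟩ := v1_three cs p p d hd w hw (Dq.trans hdv hvw) g hg x.1 x.2 e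
    exact ⟨⟨k, hk⟩, ek⟩
  choose f hf using hlab
  have hinj : Function.Injective f := by
    intro x y hxy
    have h1 := hf x
    rw [hxy, hf y] at h1
    exact Subtype.ext (label_unique cs d x.1 y.1 h1.symm)
  have hsurj : Function.Surjective f := Finite.injective_iff_surjective.1 hinj
  have hvd : v = d := by
    obtain ⟨ω, hω, hw, hmin⟩ := v1_word cs p d v hdv
    have hl := v1_len cs p d hd ω hω hmin
    rcases List.eq_nil_or_concat ω with h0 | ⟨ω', k, hk'⟩
    · rw [hw, h0, cs.wordProd_nil, one_mul]
    · rw [List.concat_eq_append] at hk'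
      exfalso
      have hkm : p k := hω k (by rw [hk', List.mem_append]; simp)
      obtain ⟨z, hz'⟩ := hsurj ⟨k, hkm⟩
      have ez := hf z
      rw [hz'] at ez
      refine hv z.1 z.2 ?_
      show cs.length _ < cs.length _
      rw [← hw, hk', List.length_append, List.length_singleton] at hl
      have hvz : v * cs.simple z.1 = cs.wordProd ω' * d := by
        rw [hw, hk', cs.wordProd_append, cs.wordProd_singleton, mul_assoc (cs.wordProd ω'), ez,
          mul_assoc, mul_assoc, cs.simple_mul_simple_self, mul_one]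
      rw [hvz, hl]
      have h1 := cs.length_mul_le (cs.wordProd ω') d
      have h2 := cs.length_wordProd_le ω'
      omega
  intro x hx
  rw [hvd]
  exact ⟨(f ⟨x, hx⟩).1, (f ⟨x, hx⟩).2, hf ⟨x, hx⟩⟩

end Pool.Agent.Lib.MP_9dbb0e_al
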