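import Pool.Agent.Lib.MP_9dbb0e_al.VDefs

/-!
# JOB V2: right multiplication on the second component

PROOFS. `act_mul_right`: `art_induction M`. Generator: `act_σ`, `stp` commutes with right multiplication: cases of `MinR cs p (s i * v)`: `stp_move`, or a loop (`deodhar`): `stp_loop`, `mul_assoc`. Product: `map_mul`, `Equiv.Perm.mul_apply`. Inverse: let `(v', α') = (act g)⁻¹ (v, α)`, so `act g (v', α') = (v, α)`, and by the hypothesis `act g (v', α' * β) = (v, α * β)`,
apply `(act g)⁻¹` (`map_inv`, `Equiv.Perm.inv_eq_iff_eq`, `Equiv.Perm.eq_inv_iff_eq`).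
`act_incl`: the proof of `vdl` in W6.lean (`hall` there), with `incl_σ`, `act_σ`.
`vv_incl`, `pp_incl`: `act_incl` with `β = 1`. `vv_mul_incl`, `pp_mul_incl`: `act (g * incl a) (1, 1) = act g (1, a) = act g (1, 1 * a)`, `act_mul_right`. `act_state`: `act_mul_right` with `α = 1`.
`incl_sPar`: `Subgroup.closure_induction`; the generator `σ (sub M p) y` is mapped to `σ M y.1 = incl M r (σ (sub M r) ⟨y.1, _⟩)`.
-/

set_option autoImplicit false

namespace Pool.Agent.Lib.MP_9dbb0e_al

variable {B : Type} (M : CoxeterMatrix B) (p : B → Prop)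

private theorem v2_stp (i : B) (v : {v : M.Group // MinR M.toCoxeterSystem p v})
    (α β : Art (sub M p)) :
    stp M.toCoxeterSystem p i (v, α * β) = ((stp M.toCoxeterSystem p i (v, α)).1,
      (stp M.toCoxeterSystem p i (v, α)).2 * β) := by
  by_cases h : MinR M.toCoxeterSystem p (M.toCoxeterSystem.simple i * v.1)
  · rw [stp_move _ _ i v (α * β) h, stp_move _ _ i v α h]
  · have h1 := lab_spec M.toCoxeterSystem p i v h
    rw [stp_loop _ _ i v (α * β) _ h1, stp_loop _ _ i v α _ h1, mul_assoc]

theorem act_mul_right (g : Art M) (v : {v : M.Group // MinR M.toCoxeterSystem p v})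
    (α β : Art (sub M p)) :
    act M p g (v, α * β) = ((act M p g (v, α)).1, (act M p g (v, α)).2 * β) := by
  revert v α
  refine art_induction M (P := fun g => ∀ (v : {v : M.Group // MinR M.toCoxeterSystem p v})
    (α : Art (sub M p)), act M p g (v, α * β) =
      ((act M p g (v, α)).1, (act M p g (v, α)).2 * β)) ?_ ?_ ?_ ?_ g
  · intro v α
    rw [map_one]
    rfl
  · intro a b iha ihb v α
    rw [map_mul, Equiv.Perm.mul_apply, Equiv.Perm.mul_apply, ihb, iha]
  · intro a iha v α
    rw [map_inv, Equiv.Perm.inv_eq_iff_eq, iha]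
    have h : act M p a (((act M p a)⁻¹ (v, α)).1, ((act M p a)⁻¹ (v, α)).2) = (v, α) :=
      (act M p a).apply_symm_apply (v, α)
    rw [h]
  · intro i v α
    rw [act_σ]
    exact v2_stp M p i v α β

theorem act_incl (a : Art (sub M p)) (β : Art (sub M p)) :
    act M p (incl M p a) (one' M p, β) = (one' M p, a * β) := by
  revert β
  refine art_induction (sub M p) (P := fun a => ∀ β : Art (sub M p),
    act M p (incl M p a) (one' M p, β) = (one' M p, a * β)) ?_ ?_ ?_ ?_ a
  · intro β
    rw [map_one, map_one, one_mul]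
    rfl
  · intro a b iha ihb β
    rw [map_mul, map_mul, Equiv.Perm.mul_apply, ihb, iha, mul_assoc]
  · intro a iha β
    rw [map_inv, map_inv, Equiv.Perm.inv_eq_iff_eq, iha, mul_inv_cancel_left]
  · intro x β
    rw [incl_σ, act_σ]
    refine stp_loop _ _ x.1 (one' M p) β x ?_
    change M.toCoxeterSystem.simple x.1 * 1 = 1 * M.toCoxeterSystem.simple x.1
    rw [mul_one, one_mul]

theorem act_state (g : Art M) (β : Art (sub M p)) :
    act M p g (one' M p, β) = (vv M p g, pp M p g * β) := by
  have h := act_mul_right M p g (one' M p) 1 β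
  rw [one_mul] at h
  exact h

theorem vv_incl (a : Art (sub M p)) : vv M p (incl M p a) = one' M p :=
  congrArg Prod.fst (act_incl M p a 1)

theorem pp_incl (a : Art (sub M p)) : pp M p (incl M p a) = a :=
  (congrArg Prod.snd (act_incl M p a 1)).trans (mul_one a)

private theorem v2_mul (g : Art M) (a : Art (sub M p)) :
    act M p (g * incl M p a) (one' M p, 1) = (vv M p g, pp M p g * a) := by
  rw [map_mul, Equiv.Perm.mul_apply, act_incl, mul_one, act_state]

theorem vv_mul_incl (g : Art M) (a : Art (sub M p)) : vv M p (g * incl M p a) = vv M p g := by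
  have h := congrArg Prod.fst (v2_mul M p g a)
  exact h

theorem pp_mul_incl (g : Art M) (a : Art (sub M p)) :
    pp M p (g * incl M p a) = pp M p g * a := by
  have h := congrArg Prod.snd (v2_mul M p g a)
  exact h

theorem incl_sPar (r : B → Prop) (x : Art (sub M p)) (hx : x ∈ sPar M p r) :
    incl M p x ∈ Par M r := by
  unfold sPar at hx
  induction hx using Subgroup.closure_induction with
  | mem x hx =>
    obtain ⟨y, hy, rfl⟩ := hx
    rw [incl_σ]
    exact ⟨σ (sub M r) ⟨y.1, hy⟩, incl_σ M r ⟨y.1, hy⟩⟩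
  | one =>
    rw [map_one]
    exact one_mem _
  | mul a b _ _ iha ihb =>
    rw [map_mul]
    exact mul_mem iha ihb
  | inv a _ iha =>
    rw [map_inv]
    exact inv_mem iha

end Pool.Agent.Lib.MP_9dbb0e_al
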