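import Pool.Agent.Lib.MP_9dbb0e_al.V2

/-!
# JOB V3: conjugates in the parabolic subgroup

PROOF. STEP 1. Fix `v₀` with `MinR v₀`. For all `a : Art (sub M p)` and all states `(v, β)` with `Dq cs p v₀ v`: `act M p (incl M p a) (v, β) = (v', λ * β)` with `Dq cs p v₀ v'` and `λ ∈ sPar M p (Lab cs p v₀)`. `art_induction (sub M p)` on `a`: generator: `incl_σ`, `act_σ`: `i = x.1`, `p i`. If `s i * v` is minimal: `stp_move`, `Dq.step`, `λ = 1`. Otherwise (`deodhar`)
`s i * v = v * s y`, `p y`: `stp_loop`, `λ = σ y`, and `Lab cs p v₀ y` holds (witness `w = v`, `g = i`). Product: compose. Inverse: let `(v, β) ` be given and `(v', β') = act (incl a)⁻¹ (v, β)`. One needs `Dq v₀ v'` and `β' = λ * β`. It is convenient to prove the statement for `a` and `a⁻¹` simultaneously: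
`P a := (statement for incl a) ∧ (statement for (incl a)⁻¹)`; for a generator the inverse permutation `(stp i)⁻¹` is given by `invFun` in the definition of `stp` (W5Defs.lean): it maps `(v, β)` to `(s i * v, β)` or to `(v, (σ y)⁻¹ * β)` (prove it from `stp_move`, `stp_loop`: `(stp i)⁻¹ z = z'` iff `stp i z' = z`, `Equiv.Perm.inv_eq_iff_eq`; `s i * (s i * v) = v`).
STEP 2. `act (g * incl a) (1, 1) = (vv g, pp g * a)` (`vv_mul_incl`, `pp_mul_incl`), and `act (incl a' * g) (1, 1) = act (incl a') (vv g, pp g) = (v', λ * pp g)` with `λ ∈ sPar (Lab (vv g))` by step 1 for `v₀ = vv g`. Compare the second components: `pp g * a = λ * pp g`.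
-/

set_option autoImplicit false

namespace Pool.Agent.Lib.MP_9dbb0e_al

variable {B : Type} (M : CoxeterMatrix B) (p : B → Prop)

/-- the permutation `f` preserves the class of `v₀` and multiplies by elements of the subgroup of the labels -/
private def v3Good (v₀ : M.Group) (f : Equiv.Perm (St M.toCoxeterSystem p)) : Prop :=
  ∀ z, Dq M.toCoxeterSystem p v₀ z.1.1 → Dq M.toCoxeterSystem p v₀ (f z).1.1 ∧
    ∃ l ∈ sPar M p (Lab M.toCoxeterSystem p v₀), (f z).2 = l * z.2

private theorem v3_one (v₀ : M.Group) : v3Good M p v₀ 1 :=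
  fun _ hz => ⟨hz, 1, Subgroup.one_mem _, (one_mul _).symm⟩

private theorem v3_mul (v₀ : M.Group) (f f' : Equiv.Perm (St M.toCoxeterSystem p))
    (h : v3Good M p v₀ f) (h' : v3Good M p v₀ f') : v3Good M p v₀ (f * f') := by
  intro z hz
  obtain ⟨h1, l1, hl1, e1⟩ := h' z hz
  obtain ⟨h2, l2, hl2, e2⟩ := h (f' z) h1
  refine ⟨h2, l2 * l1, Subgroup.mul_mem _ hl2 hl1, ?_⟩
  change (f (f' z)).2 = _
  rw [e2, e1, mul_assoc]

private theorem v3_lab (v₀ : M.Group) (i : B) (hi : p i)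
    (v : {v : M.Group // MinR M.toCoxeterSystem p v}) (hv : Dq M.toCoxeterSystem p v₀ v.1)
    (h : ¬ MinR M.toCoxeterSystem p (M.toCoxeterSystem.simple i * v.1)) :
    σ (sub M p) (lab M.toCoxeterSystem p i v h) ∈ sPar M p (Lab M.toCoxeterSystem p v₀) :=
  Subgroup.subset_closure ⟨lab M.toCoxeterSystem p i v h,
    ⟨(lab M.toCoxeterSystem p i v h).2, v.1, i, hv, v.2, hi, lab_spec M.toCoxeterSystem p i v h⟩, rfl⟩

private theorem v3_stp (v₀ : M.Group) (i : B) (hi : p i) :
    v3Good M p v₀ (stp M.toCoxeterSystem p i) := by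
  rintro ⟨v, α⟩ hz
  by_cases h : MinR M.toCoxeterSystem p (M.toCoxeterSystem.simple i * v.1)
  · rw [stp_move M.toCoxeterSystem p i v α h]
    exact ⟨Dq.step hz i hi, 1, Subgroup.one_mem _, (one_mul _).symm⟩
  · rw [stp_loop M.toCoxeterSystem p i v α _ (lab_spec M.toCoxeterSystem p i v h)]
    exact ⟨hz, _, v3_lab M p v₀ i hi v hz h, rfl⟩

private theorem v3_inv (v₀ : M.Group) (i : B) (hi : p i) :
    v3Good M p v₀ (stp M.toCoxeterSystem p i)⁻¹ := by
  rintro ⟨v, α⟩ hz
  by_cases h : MinR M.toCoxeterSystem p (M.toCoxeterSystem.simple i * v.1)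
  · have e : (stp M.toCoxeterSystem p i)⁻¹ (v, α) = (⟨_, h⟩, α) := by
      change (stp M.toCoxeterSystem p i).symm (v, α) = (⟨_, h⟩, α)
      simp only [stp, Equiv.coe_fn_symm_mk, h, dif_pos]
    rw [e]
    exact ⟨Dq.step hz i hi, 1, Subgroup.one_mem _, (one_mul _).symm⟩
  · have e : (stp M.toCoxeterSystem p i)⁻¹ (v, α) =
        (v, (σ (sub M p) (lab M.toCoxeterSystem p i v h))⁻¹ * α) := by
      change (stp M.toCoxeterSystem p i).symm (v, α) = _
      simp only [stp, Equiv.coe_fn_symm_mk, h, dif_neg, not_false_eq_true]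
    rw [e]
    exact ⟨hz, _, Subgroup.inv_mem _ (v3_lab M p v₀ i hi v hz h), rfl⟩

private theorem v3_incl (v₀ : M.Group) (a : Art (sub M p)) :
    v3Good M p v₀ (act M p (incl M p a)) ∧ v3Good M p v₀ (act M p (incl M p a))⁻¹ := by
  refine art_induction (sub M p) (P := fun a => v3Good M p v₀ (act M p (incl M p a)) ∧
    v3Good M p v₀ (act M p (incl M p a))⁻¹) ?_ ?_ ?_ ?_ a
  · rw [map_one, map_one, inv_one]
    exact ⟨v3_one M p v₀, v3_one M p v₀⟩
  · intro a b ha hb
    rw [map_mul, map_mul, mul_inv_rev]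
    exact ⟨v3_mul M p v₀ _ _ ha.1 hb.1, v3_mul M p v₀ _ _ hb.2 ha.2⟩
  · intro a ha
    rw [map_inv, map_inv, inv_inv]
    exact ⟨ha.2, ha.1⟩
  · intro x
    rw [incl_σ, act_σ]
    exact ⟨v3_stp M p v₀ x.1 x.2, v3_inv M p v₀ x.1 x.2⟩

theorem conj_lab (g : Art M) (a a' : Art (sub M p)) (h : g * incl M p a = incl M p a' * g) :
    pp M p g * a * (pp M p g)⁻¹ ∈ sPar M p (Lab M.toCoxeterSystem p (vv M p g).1) := by
  have h1 := congrArg (fun x => (act M p x (one' M p, 1)).2) h
  have h2 : (act M p (g * incl M p a) (one' M p, 1)).2 = pp M p g * a := pp_mul_incl M p g a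
  obtain ⟨-, l, hl, e⟩ := (v3_incl M p (vv M p g).1 a').1 (act M p g (one' M p, 1)) (Dq.refl _ _)
  have h3 : (act M p (incl M p a' * g) (one' M p, 1)).2 = l * pp M p g := by
    rw [map_mul]
    exact e
  have h4 : pp M p g * a = l * pp M p g := by
    rw [← h2, ← h3]
    exact h1
  rw [h4, mul_inv_cancel_right]
  exact hl

end Pool.Agent.Lib.MP_9dbb0e_al
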