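import Pool.Agent.Lib.MP_9dbb0e_al.VDefs

/-!
# JOB V4a: products of minimal representatives

PROOF of `minR_mul`. Induction on `n = ℓ u` (for all `u`). `n = 0`: `u = 1` (`cs.length_eq_zero_iff`). `n > 0`: there is a left descent `i` of `u` (`cs.exists_leftDescent_of_ne_one`), `u' = s i * u`, `ℓ u' + 1 = ℓ u` (`cs.isLeftDescent_iff`). `u'` is `MinR`: if `p x` and `ℓ (u' * s x) < ℓ u'` then `u * s x = s i * (u' * s x)` has length `≤ ℓ (u' * s x) + 1 ≤ ℓ u' < ℓ u`,
contradiction to `hu x`. By the induction hypothesis `u' * v` is `MinR`. `deodhar cs p (u' * v) _ i`: either `s i * (u' * v) = u * v` is `MinR` (done), or `s i * (u' * v) = u' * v * s x` with `p x`. By `hn x` there is `g` with `p g`, `s g * v = v * s x`. So `u * v = u' * s g * v`, `u = u' * s g`, and `u * s g = u'` has length `< ℓ u`: contradiction to `hu g`.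
`loop_mul`: if `s i * u = u * s y`, `p y`, `Nor cs p v`, `B` finite: there is `x` with `p x` and `s i * (u * v) = u * v * s x`. Indeed the map `h : {x // p x} → {x // p x}` with `s (h x) * v = v * s x` (choice from `hn`) is injective (`label_unique cs v`), so it is surjective (`Finite.injective_iff_surjective`): choose `x` with `h x = y`.
-/

set_option autoImplicit false

namespace Pool.Agent.Lib.MP_9dbb0e_al

variable {B W : Type} [Group W] {M : CoxeterMatrix B} (cs : CoxeterSystem M W) (p : B → Prop)

private theorem v4a_aux : ∀ (n : ℕ) (u v : W), cs.length u = n → MinR cs p u → MinR cs p v →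
    Nor cs p v → MinR cs p (u * v) := by
  intro n
  induction n with
  | zero =>
    intro u v hn0 _ hv _
    rw [cs.length_eq_zero_iff.1 hn0, one_mul]
    exact hv
  | succ n ih =>
    intro u v hlen hu hv hn
    have hne : u ≠ 1 := by
      intro h1
      rw [h1, cs.length_one] at hlen
      exact absurd hlen (by omega)
    obtain ⟨i, hi⟩ := cs.exists_leftDescent_of_ne_one hne
    have hi' := cs.isLeftDescent_iff.1 hi
    have hu' : MinR cs p (cs.simple i * u) := by
      intro x hx hd
      have h1 : cs.length (cs.simple i * u * cs.simple x) < cs.length (cs.simple i * u) := hd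
      have h2 : ¬ cs.length (u * cs.simple x) < cs.length u := hu x hx
      have h3 : u * cs.simple x = cs.simple i * (cs.simple i * u * cs.simple x) := by
        rw [← mul_assoc, ← mul_assoc, cs.simple_mul_simple_self, one_mul]
      have h4 : cs.length (u * cs.simple x) ≤ 1 + cs.length (cs.simple i * u * cs.simple x) := by
        rw [h3]
        refine (cs.length_mul_le _ _).trans ?_
        rw [cs.length_simple]
      omega
    have h5 := ih (cs.simple i * u) v (by omega) hu' hv hn
    have h6 : cs.simple i * (cs.simple i * u * v) = u * v := by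
      rw [← mul_assoc, ← mul_assoc, cs.simple_mul_simple_self, one_mul]
    rcases deodhar cs p (cs.simple i * u * v) h5 i with h7 | ⟨x, hx, h7⟩
    · rw [h6] at h7
      exact h7
    · exfalso
      obtain ⟨g, hg, h8⟩ := hn x hx
      rw [h6, mul_assoc (cs.simple i * u) v, ← h8, ← mul_assoc] at h7
      have h9 : u = cs.simple i * u * cs.simple g := mul_right_cancel h7
      have h10 : u * cs.simple g = cs.simple i * u := by
        calc u * cs.simple g = cs.simple i * u * cs.simple g * cs.simple g := by rw [← h9]
          _ = cs.simple i * u := by rw [mul_assoc, cs.simple_mul_simple_self, mul_one]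
      have h11 : ¬ cs.length (u * cs.simple g) < cs.length u := hu g hg
      rw [h10] at h11
      omega

theorem minR_mul (u v : W) (hu : MinR cs p u) (hv : MinR cs p v) (hn : Nor cs p v) :
    MinR cs p (u * v) :=
  v4a_aux cs p (cs.length u) u v rfl hu hv hn

theorem loop_mul [Finite B] (u v : W) (hn : Nor cs p v) (i y : B) (hy : p y)
    (h : cs.simple i * u = u * cs.simple y) :
    ∃ x, p x ∧ cs.simple i * (u * v) = u * v * cs.simple x := by
  choose f hf hf' using hn
  have hinj : Function.Injective (fun x : {x // p x} => (⟨f x.1 x.2, hf x.1 x.2⟩ : {x // p x})) := by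
    intro a b hab
    have h1 : f a.1 a.2 = f b.1 b.2 := congrArg Subtype.val hab
    have h2 : v * cs.simple a.1 = v * cs.simple b.1 := by
      rw [← hf' a.1 a.2, ← hf' b.1 b.2, h1]
    exact Subtype.ext (label_unique cs v a.1 b.1 h2)
  obtain ⟨x, hx⟩ := Finite.injective_iff_surjective.1 hinj ⟨y, hy⟩
  have h3 : f x.1 x.2 = y := congrArg Subtype.val hx
  refine ⟨x.1, x.2, ?_⟩
  rw [← mul_assoc, h, mul_assoc, mul_assoc, ← h3, hf' x.1 x.2]

end Pool.Agent.Lib.MP_9dbb0e_al
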