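import Pool.Agent.Lib.MP_9dbb0e_al.V2
import Pool.Agent.Lib.MP_9dbb0e_al.V4a

/-!
# JOB V4b: centralising representatives

PROOF of `act_shift`: `Cen cs p v` implies `Nor cs p v` (`g = x`). `art_induction M` on `g`, for all `u, α`; statement: for `(u', α') = act g (u, α)`: `act g (u * v, α) = (u' * v, α')` (the subtype element `⟨u * v, minR_mul ..⟩`). Generator `i` (`act_σ`): if `s i * u` is minimal: `stp_move` for `u`; `s i * (u * v) = (s i * u) * v` is minimal by `minR_mul`, `stp_move` for `u * v`.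
Otherwise (`deodhar`) `s i * u = u * s x`, `p x`: `s i * (u * v) = u * s x * v = u * v * s x` (`hc x`), `stp_loop` for both. Product: `map_mul`, `Equiv.Perm.mul_apply`. Inverse: with `(u', α') = (act g)⁻¹ (u, α)`, i.e. `act g (u', α') = (u, α)`, the hypothesis gives `act g (u' * v, α') = (u * v, α)`, apply `(act g)⁻¹`.
`vv_mul_cen`: `act (g * h) (1, 1) = act g (vv h, pp h) = act g (1 * vv h, pp h)`, `act g (1, pp h) = (vv g, pp g * pp h)` (`act_state`), so by `act_shift` it is `(vv g * vv h, pp g * pp h)`.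
`exists_N0`: `N = {g | Cen cs p (vv g)}`: closed under products by `vv_mul_cen` (`Cen` of a product: clear), `vv 1 = 1`; inverse: `1 = vv (g⁻¹ * g) = vv g⁻¹ * vv g` (`vv_mul_cen`, `Cen (vv g)`), so `vv g⁻¹ = (vv g)⁻¹`. `π = pp` is a homomorphism on `N` (`vv_mul_cen`, `pp 1 = 1`). For `z = incl a`: `vv_incl`: `Cen 1`; `pp (incl a) = a` (`pp_incl`): if it is `1` then `z = incl 1 = 1`.
-/

set_option autoImplicit false

namespace Pool.Agent.Lib.MP_9dbb0e_al

variable {B : Type} (M : CoxeterMatrix B) (p : B → Prop)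

private theorem v4b_nor (v : M.Group) (hc : Cen M.toCoxeterSystem p v) :
    Nor M.toCoxeterSystem p v := fun x hx => ⟨x, hx, hc x hx⟩

private theorem v4b_aux (v : M.Group) (hv : MinR M.toCoxeterSystem p v)
    (hc : Cen M.toCoxeterSystem p v) (g : Art M) :
    ∀ (u : {v : M.Group // MinR M.toCoxeterSystem p v}) (α : Art (sub M p)),
      act M p g (⟨u.1 * v, minR_mul M.toCoxeterSystem p u.1 v u.2 hv (v4b_nor M p v hc)⟩, α) =
        (⟨(act M p g (u, α)).1.1 * v, minR_mul M.toCoxeterSystem p (act M p g (u, α)).1.1 v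
          (act M p g (u, α)).1.2 hv (v4b_nor M p v hc)⟩, (act M p g (u, α)).2) := by
  refine art_induction M (P := fun g : Art M =>
    ∀ (u : {v : M.Group // MinR M.toCoxeterSystem p v}) (α : Art (sub M p)),
      act M p g (⟨u.1 * v, minR_mul M.toCoxeterSystem p u.1 v u.2 hv (v4b_nor M p v hc)⟩, α) =
        (⟨(act M p g (u, α)).1.1 * v, minR_mul M.toCoxeterSystem p (act M p g (u, α)).1.1 v
          (act M p g (u, α)).1.2 hv (v4b_nor M p v hc)⟩, (act M p g (u, α)).2))
    ?_ ?_ ?_ ?_ g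
  · intro u α
    simp only [map_one, Equiv.Perm.one_apply]
  · intro a b ha hb u α
    simp only [map_mul, Equiv.Perm.mul_apply]
    rw [hb, ha]
  · intro a ha u α
    rw [map_inv, Equiv.Perm.inv_eq_iff_eq]
    have h1 : act M p a ((act M p a)⁻¹ (u, α)) = (u, α) := (act M p a).apply_symm_apply (u, α)
    have h2 := ha ((act M p a)⁻¹ (u, α)).1 ((act M p a)⁻¹ (u, α)).2
    rw [h2]
    have h3 : act M p a (((act M p a)⁻¹ (u, α)).1, ((act M p a)⁻¹ (u, α)).2) = (u, α) := h1
    refine Prod.ext (Subtype.ext ?_) ?_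
    · change u.1 * v = (act M p a (((act M p a)⁻¹ (u, α)).1, ((act M p a)⁻¹ (u, α)).2)).1.1 * v
      rw [h3]
    · change α = (act M p a (((act M p a)⁻¹ (u, α)).1, ((act M p a)⁻¹ (u, α)).2)).2
      rw [h3]
  · intro i u α
    rw [act_σ]
    rcases deodhar M.toCoxeterSystem p u.1 u.2 i with h | ⟨x, hx, he⟩
    · have h1 : MinR M.toCoxeterSystem p (M.toCoxeterSystem.simple i * (u.1 * v)) := by
        rw [← mul_assoc]
        exact minR_mul M.toCoxeterSystem p _ v h hv (v4b_nor M p v hc)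
      rw [stp_move M.toCoxeterSystem p i u α h, stp_move M.toCoxeterSystem p i ⟨u.1 * v, _⟩ α h1]
      exact Prod.ext (Subtype.ext (mul_assoc _ _ _).symm) rfl
    · have h1 : M.toCoxeterSystem.simple i * (u.1 * v) =
          (u.1 * v) * M.toCoxeterSystem.simple x := by
        rw [← mul_assoc, he, mul_assoc, hc x hx, ← mul_assoc]
      rw [stp_loop M.toCoxeterSystem p i u α ⟨x, hx⟩ he,
        stp_loop M.toCoxeterSystem p i ⟨u.1 * v, _⟩ α ⟨x, hx⟩ h1]

theorem act_shift (g : Art M) (v : M.Group) (hv : MinR M.toCoxeterSystem p v)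
    (hc : Cen M.toCoxeterSystem p v) (u : {v : M.Group // MinR M.toCoxeterSystem p v})
    (α : Art (sub M p)) (u' : {v : M.Group // MinR M.toCoxeterSystem p v})
    (hu' : u'.1 = u.1 * v) :
    (act M p g (u', α)).1.1 = (act M p g (u, α)).1.1 * v ∧
      (act M p g (u', α)).2 = (act M p g (u, α)).2 := by
  have h1 : u' = ⟨u.1 * v, minR_mul M.toCoxeterSystem p u.1 v u.2 hv (v4b_nor M p v hc)⟩ :=
    Subtype.ext hu'
  rw [h1, v4b_aux M p v hv hc g u α]
  exact ⟨rfl, rfl⟩

theorem vv_mul_cen (g h : Art M) (hc : Cen M.toCoxeterSystem p (vv M p h).1) :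
    (vv M p (g * h)).1 = (vv M p g).1 * (vv M p h).1 ∧
      pp M p (g * h) = pp M p g * pp M p h := by
  have h1 : act M p (g * h) (one' M p, 1) = act M p g (vv M p h, pp M p h) := by
    rw [map_mul, Equiv.Perm.mul_apply]
    rfl
  have h2 := act_shift M p g (vv M p h).1 (vv M p h).2 hc (one' M p) (pp M p h) (vv M p h)
    (one_mul _).symm
  rw [act_state] at h2
  have h3 : vv M p (g * h) = (act M p (g * h) (one' M p, 1)).1 := rfl
  have h4 : pp M p (g * h) = (act M p (g * h) (one' M p, 1)).2 := rfl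
  rw [h3, h4, h1]
  exact h2

private theorem v4b_vv_one : (vv M p 1).1 = 1 := by
  have h1 : (vv M p 1).1 = (act M p 1 (one' M p, 1)).1.1 := rfl
  rw [h1, map_one]
  rfl

private theorem v4b_pp_one : pp M p 1 = 1 := by
  have h1 : pp M p 1 = (act M p 1 (one' M p, 1)).2 := rfl
  rw [h1, map_one]
  rfl

private theorem v4b_cen_one : Cen M.toCoxeterSystem p (1 : M.Group) := fun x _ => by
  rw [mul_one, one_mul]

theorem exists_N0 : ∃ (N : Subgroup (Art M)) (π : N →* Art (sub M p)),
    (∀ g, g ∈ N ↔ Cen M.toCoxeterSystem p (vv M p g).1) ∧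
      ∀ z ∈ Par M p, ∃ h : z ∈ N, π ⟨z, h⟩ = 1 → z = 1 := by
  let N : Subgroup (Art M) :=
    { carrier := {g | Cen M.toCoxeterSystem p (vv M p g).1}
      mul_mem' := by
        intro a b ha hb x hx
        rw [(vv_mul_cen M p a b hb).1, ← mul_assoc, ha x hx, mul_assoc, hb x hx, ← mul_assoc]
      one_mem' := by
        intro x hx
        rw [v4b_vv_one]
        exact v4b_cen_one M p x hx
      inv_mem' := by
        intro a ha x hx
        have h1 := (vv_mul_cen M p a⁻¹ a ha).1
        rw [inv_mul_cancel, v4b_vv_one] at h1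
        have h2 : (vv M p a⁻¹).1 = ((vv M p a).1)⁻¹ := eq_inv_of_mul_eq_one_left h1.symm
        rw [h2]
        have h3 := ha x hx
        rw [eq_inv_mul_iff_mul_eq, ← mul_assoc, ← h3, mul_inv_cancel_right] }
  let π : N →* Art (sub M p) :=
    { toFun := fun g => pp M p g.1
      map_one' := v4b_pp_one M p
      map_mul' := fun a b => (vv_mul_cen M p a.1 b.1 b.2).2 }
  refine ⟨N, π, fun g => Iff.rfl, ?_⟩
  rintro z ⟨a, rfl⟩
  have h1 : incl M p a ∈ N := by
    intro x hx
    rw [vv_incl]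
    exact v4b_cen_one M p x hx
  refine ⟨h1, fun h2 => ?_⟩
  have h3 : pp M p (incl M p a) = 1 := h2
  rw [pp_incl] at h3
  rw [h3, map_one]

end Pool.Agent.Lib.MP_9dbb0e_al
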