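import Pool.Agent.Lib.MP_9dbb0e_al.V2
import Pool.Agent.Lib.MP_9dbb0e_al.V4a

/-!
# JOB V5: normalising representatives

PROOF of `act_nor`: `art_induction M` on `g`, statement for all `u, u', α, α'` with `u' = u * v`. Generator `i` (`act_σ`): if `s i * u` is minimal, then `s i * (u * v)` is minimal (`minR_mul`), `stp_move` for both. Otherwise (`deodhar`) `s i * u = u * s y`, `p y`; by `loop_mul` `s i * (u * v) = u * v * s x`, `p x`; `stp_loop` for both, the first components do not change.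
Product: `map_mul`, `Equiv.Perm.mul_apply`; write `act h (u, α) = (u₁, α₁)`, `act h (u', α') = (u₁', α₁')` with `u₁' = u₁ * v` by the hypothesis for `h`, then use the hypothesis for `g`. Inverse: let `(u₁, α₁) = (act g)⁻¹ (u, α)`, so `act g (u₁, α₁) = (u, α)`. Let `u₁' = ⟨u₁ * v, minR_mul ..⟩`. By the hypothesis `act g (u₁', 1)` has first component `u * v = u'`;
let `γ` be its second component. By `act_mul_right`: `act g (u₁', 1 * (γ⁻¹ * α')) = (u', γ * (γ⁻¹ * α')) = (u', α')`. So `(act g)⁻¹ (u', α') = (u₁', _)`.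
`vv_pow`: induction on `k`: `g ^ (k + 1) = g ^ k * g`, `act (g ^ k) (vv g, pp g)`, apply `act_nor` with `u = 1`, `u' = vv g`: the first component is `vv (g ^ k) * vv g`.
`cen_pow`: the map `h : {x // p x} → {x // p x}` with `s (h x) * v = v * s x` (choice) is injective (`label_unique cs v`), so bijective (`Finite`), let `ψ` be the permutation (`Equiv.ofBijective`); `k = orderOf ψ > 0` (`orderOf_pos`, `Finite (Equiv.Perm _)`), `ψ ^ k = 1`. By induction on `m`: `s ((ψ ^ m) x) * v ^ m = v ^ m * s x`. So `Cen cs p (v ^ k)`.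
-/

set_option autoImplicit false

namespace Pool.Agent.Lib.MP_9dbb0e_al

theorem act_nor {B : Type} [Finite B] (M : CoxeterMatrix B) (p : B → Prop) (g : Art M)
    (v : M.Group) (hv : MinR M.toCoxeterSystem p v) (hn : Nor M.toCoxeterSystem p v)
    (u u' : {v : M.Group // MinR M.toCoxeterSystem p v}) (hu' : u'.1 = u.1 * v)
    (α α' : Art (sub M p)) : (act M p g (u', α')).1.1 = (act M p g (u, α)).1.1 * v := by
  revert u u' α α'
  refine art_induction M (P := fun g => ∀ (u u' : {v : M.Group // MinR M.toCoxeterSystem p v})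
    (_ : u'.1 = u.1 * v) (α α' : Art (sub M p)),
    (act M p g (u', α')).1.1 = (act M p g (u, α)).1.1 * v) ?_ ?_ ?_ ?_ g
  · intro u u' hu' α α'
    rw [map_one]
    exact hu'
  · intro a b ha hb u u' hu' α α'
    rw [map_mul, Equiv.Perm.mul_apply, Equiv.Perm.mul_apply]
    exact ha _ _ (hb u u' hu' α α') _ _
  · intro a ha u u' hu' α α'
    rw [map_inv]
    obtain ⟨z, hz⟩ : ∃ z, z = (act M p a)⁻¹ (u, α) := ⟨_, rfl⟩
    have h2 : act M p a z = (u, α) := Equiv.Perm.eq_inv_iff_eq.1 hz
    have hm : MinR M.toCoxeterSystem p (z.1.1 * v) :=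
      minR_mul M.toCoxeterSystem p z.1.1 v z.1.2 hv hn
    have h3 := ha z.1 ⟨z.1.1 * v, hm⟩ rfl z.2 1
    rw [show ((z.1, z.2) : St M.toCoxeterSystem p) = z from rfl, h2] at h3
    have h4 : (act M p a (⟨z.1.1 * v, hm⟩, 1)).1 = u' := Subtype.ext (h3.trans hu'.symm)
    have h5 := act_mul_right M p a ⟨z.1.1 * v, hm⟩ 1
      ((act M p a (⟨z.1.1 * v, hm⟩, 1)).2⁻¹ * α')
    rw [mul_inv_cancel_left, h4] at h5
    have h6 : (act M p a)⁻¹ (u', α') = (⟨z.1.1 * v, hm⟩,
        1 * ((act M p a (⟨z.1.1 * v, hm⟩, 1)).2⁻¹ * α')) := by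
      rw [Equiv.Perm.inv_eq_iff_eq]
      exact h5.symm
    rw [h6, ← hz]
  · intro i u u' hu' α α'
    rw [act_σ]
    rcases deodhar M.toCoxeterSystem p u.1 u.2 i with h | ⟨y, hy, h⟩
    · have h' : MinR M.toCoxeterSystem p (M.toCoxeterSystem.simple i * u'.1) := by
        rw [hu', ← mul_assoc]
        exact minR_mul M.toCoxeterSystem p _ v h hv hn
      rw [stp_move _ p i u α h, stp_move _ p i u' α' h']
      show M.toCoxeterSystem.simple i * u'.1 = M.toCoxeterSystem.simple i * u.1 * v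
      rw [hu', mul_assoc]
    · obtain ⟨x, hx, h'⟩ := loop_mul M.toCoxeterSystem p u.1 v hn i y hy h
      rw [← hu'] at h'
      rw [stp_loop _ p i u α ⟨y, hy⟩ h, stp_loop _ p i u' α' ⟨x, hx⟩ h']
      exact hu'

theorem vv_pow {B : Type} [Finite B] (M : CoxeterMatrix B) (p : B → Prop) (g : Art M)
    (hn : Nor M.toCoxeterSystem p (vv M p g).1) (k : ℕ) :
    (vv M p (g ^ k)).1 = (vv M p g).1 ^ k := by
  induction k with
  | zero =>
    rw [pow_zero, pow_zero, vv, map_one]
    rfl
  | succ k ih =>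
    rw [pow_succ, pow_succ, ← ih]
    have h := act_nor M p (g ^ k) (vv M p g).1 (vv M p g).2 hn (one' M p) (vv M p g)
      (by show (vv M p g).1 = 1 * (vv M p g).1; rw [one_mul]) 1 (pp M p g)
    have h2 : vv M p (g ^ k * g) = (act M p (g ^ k) (vv M p g, pp M p g)).1 := by
      rw [vv, map_mul, Equiv.Perm.mul_apply]
      rfl
    rw [h2]
    exact h

theorem cen_pow {B W : Type} [Finite B] [Group W] {M : CoxeterMatrix B} (cs : CoxeterSystem M W)
    (p : B → Prop) (v : W) (hn : Nor cs p v) : ∃ k : ℕ, 0 < k ∧ Cen cs p (v ^ k) := by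
  classical
  let h : {x // p x} → {x // p x} := fun x =>
    ⟨Classical.choose (hn x.1 x.2), (Classical.choose_spec (hn x.1 x.2)).1⟩
  have hh : ∀ x : {x // p x}, cs.simple (h x).1 * v = v * cs.simple x.1 := fun x =>
    (Classical.choose_spec (hn x.1 x.2)).2
  have hinj : Function.Injective h := by
    intro x y hxy
    have h1 := hh x
    rw [hxy, hh y] at h1
    exact Subtype.ext (label_unique cs v x.1 y.1 h1.symm)
  have hbij : Function.Bijective h := ⟨hinj, Finite.surjective_of_injective hinj⟩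
  let ψ : Equiv.Perm {x // p x} := Equiv.ofBijective h hbij
  have hψ : ∀ x : {x // p x}, cs.simple (ψ x).1 * v = v * cs.simple x.1 := hh
  have hpow : ∀ (m : ℕ) (x : {x // p x}), cs.simple ((ψ ^ m) x).1 * v ^ m =
      v ^ m * cs.simple x.1 := by
    intro m
    induction m with
    | zero =>
      intro x
      rw [pow_zero, pow_zero, Equiv.Perm.one_apply, mul_one, one_mul]
    | succ m ih =>
      intro x
      rw [pow_succ ψ, Equiv.Perm.mul_apply, pow_succ v, ← mul_assoc, ih, mul_assoc, hψ, mul_assoc]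
  refine ⟨orderOf ψ, orderOf_pos ψ, fun x hx => ?_⟩
  have h3 := hpow (orderOf ψ) ⟨x, hx⟩
  rw [pow_orderOf_eq_one, Equiv.Perm.one_apply] at h3
  exact h3

end Pool.Agent.Lib.MP_9dbb0e_al
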