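import Pool.Agent.Lib.MP_9dbb0e_al.V1
import Pool.Agent.Lib.MP_9dbb0e_al.V3
import Pool.Agent.Lib.MP_9dbb0e_al.V4b
import Pool.Agent.Lib.MP_9dbb0e_al.V5

/-!
# JOB V6: the key statement

PROOF. `N`, `π` from `exists_N0 M R`. Let `g : Art M`, `v = vv M R g`. CASE 1: `∀ x, R x → Lab cs R v x`: `nor_of_lab` (with `v.2`) gives `Nor cs R v`; `cen_pow`: `k > 0` with `Cen (v ^ k)`, `vv_pow`: `vv (g ^ k) = v ^ k`, so `g ^ k ∈ N`. CASE 2: there is `i` with `R i`, `¬ Lab cs R v i`. Put `R' = Lab cs R v` (it implies `R`), `c = incl M R (pp M R g)`.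
Let `z ∈ Par M R`, `z = incl a`, and `g * z * g⁻¹ = incl a'`. Then `g * incl a = incl a' * g`; `conj_lab`: `pp g * a * (pp g)⁻¹ ∈ sPar M R (Lab ..)`, `incl_sPar`: `incl (pp g * a * (pp g)⁻¹) = c * z * c⁻¹ ∈ Par M R'`.
`par_mono`: if `r` implies `p` then `Par M r ≤ Par M p`: for `z = incl M r a`: `(incl M p).comp F = incl M r` with `F` from `exists_incl'` (`art_ext`).
-/

set_option autoImplicit false

namespace Pool.Agent.Lib.MP_9dbb0e_al

theorem key {B : Type} [Finite B] (M : CoxeterMatrix B) (R : B → Prop) :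
    ∃ (N : Subgroup (Art M)) (π : N →* Art (sub M R)),
      (∀ z ∈ Par M R, ∃ h : z ∈ N, π ⟨z, h⟩ = 1 → z = 1) ∧
      ∀ g : Art M, (∃ k : ℕ, 0 < k ∧ g ^ k ∈ N) ∨
        ∃ R' : B → Prop, (∀ i, R' i → R i) ∧ (∃ i, R i ∧ ¬ R' i) ∧
          ∃ c : Art M, ∀ z ∈ Par M R, g * z * g⁻¹ ∈ Par M R → c * z * c⁻¹ ∈ Par M R' := by
  obtain ⟨N, π, hN, hπ⟩ := exists_N0 M R
  refine ⟨N, π, hπ, fun g => ?_⟩
  by_cases hall : ∀ x, R x → Lab M.toCoxeterSystem R (vv M R g).1 x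
  · left
    have hn := nor_of_lab M.toCoxeterSystem R (vv M R g).1 (vv M R g).2 hall
    obtain ⟨k, hk, hc⟩ := cen_pow M.toCoxeterSystem R (vv M R g).1 hn
    refine ⟨k, hk, (hN _).2 ?_⟩
    rw [vv_pow M R g hn k]
    exact hc
  · right
    rw [not_forall] at hall
    obtain ⟨i, hi⟩ := hall
    rw [Classical.not_imp] at hi
    refine ⟨Lab M.toCoxeterSystem R (vv M R g).1, fun x hx => hx.1, ⟨i, hi.1, hi.2⟩,
      incl M R (pp M R g), ?_⟩
    rintro z ⟨a, rfl⟩ ⟨a', ha'⟩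
    have h1 : g * incl M R a = incl M R a' * g := by
      rw [ha', inv_mul_cancel_right]
    have h2 := incl_sPar M R _ _ (conj_lab M R g a a' h1)
    rw [map_mul, map_mul, map_inv] at h2
    exact h2

end Pool.Agent.Lib.MP_9dbb0e_al
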