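import Pool.Agent.Lib.MP_9dbb0e_al.W6

/-!
# Definitions: the action of the Artin group, the parabolic subgroups, labels

`act M p` is the action of `Art M` on the states `(v, α)` (`v` minimal in `v W_p`, `α ∈ Art (sub M p)`), `incl M p` the inclusion of the standard parabolic
subgroup, `Par M p` its image; `vv g`, `pp g` are the two components of `act g (1, 1)`. `Nor`, `Cen`: `v` normalises `p`, centralises `p`. `Dq q v w`: `w ∈ W_q v`.
`Lab v`: the labels of the loops in the class `W_p v`.
-/

set_option autoImplicit false

namespace Pool.Agent.Lib.MP_9dbb0e_al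

section

variable {B : Type} (M : CoxeterMatrix B) (p : B → Prop)

/-- the action of the Artin group on the states -/
noncomputable def act : Art M →* Equiv.Perm (St M.toCoxeterSystem p) :=
  Classical.choose (exists_lift M (stp M.toCoxeterSystem p) (braid_stp M.toCoxeterSystem p))

theorem act_σ (i : B) : act M p (σ M i) = stp M.toCoxeterSystem p i :=
  Classical.choose_spec (exists_lift M (stp M.toCoxeterSystem p)
    (braid_stp M.toCoxeterSystem p)) i

/-- the inclusion of the standard parabolic subgroup -/
noncomputable def incl : Art (sub M p) →* Art M := Classical.choose (exists_incl (M := M) p)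

theorem incl_σ (x : {i // p i}) : incl M p (σ (sub M p) x) = σ M x.1 :=
  Classical.choose_spec (exists_incl (M := M) p) x

theorem incl_inj : Function.Injective (incl M p) := vdl M p _ (incl_σ M p)

/-- the neutral element as a minimal representative -/
def one' : {v : M.Group // MinR M.toCoxeterSystem p v} := ⟨1, minR_one M.toCoxeterSystem p⟩

/-- first component of `g • (1, 1)` -/
noncomputable def vv (g : Art M) : {v : M.Group // MinR M.toCoxeterSystem p v} :=
  (act M p g (one' M p, 1)).1

/-- second component of `g • (1, 1)` -/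
noncomputable def pp (g : Art M) : Art (sub M p) := (act M p g (one' M p, 1)).2

/-- the standard parabolic subgroup -/
noncomputable def Par : Subgroup (Art M) := (incl M p).range

/-- the standard parabolic subgroup of `r`, inside `Art (sub M p)` -/
def sPar (r : B → Prop) : Subgroup (Art (sub M p)) :=
  Subgroup.closure {x | ∃ y : {i // p i}, r y.1 ∧ x = σ (sub M p) y}

/-- induction over the generators and their inverses -/
theorem art_induction {P : Art M → Prop} (h1 : P 1) (hmul : ∀ a b, P a → P b → P (a * b))
    (hinv : ∀ a, P a → P a⁻¹) (hσ : ∀ i, P (σ M i)) (g : Art M) : P g := by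
  have ha : g ∈ Subgroup.closure (Set.range (PresentedGroup.of (rels := rels M))) := by
    rw [PresentedGroup.closure_range_of]
    exact Subgroup.mem_top g
  induction ha using Subgroup.closure_induction with
  | mem x hx =>
    obtain ⟨y, rfl⟩ := hx
    exact hσ y
  | one => exact h1
  | mul a b _ _ iha ihb => exact hmul a b iha ihb
  | inv a _ iha => exact hinv a iha

end

section

variable {B W : Type} [Group W] {M : CoxeterMatrix B} (cs : CoxeterSystem M W) (p : B → Prop)

/-- `v` normalises `p` -/
def Nor (v : W) : Prop := ∀ x, p x → ∃ g, p g ∧ cs.simple g * v = v * cs.simple x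

/-- `v` centralises `p` -/
def Cen (v : W) : Prop := ∀ x, p x → cs.simple x * v = v * cs.simple x

/-- `w` is in the coset `W_q v` -/
def Dq (q : B → Prop) (v w : W) : Prop :=
  ∃ ω : List B, (∀ g ∈ ω, q g) ∧ w = cs.wordProd ω * v

/-- the labels of the loops in the class of `v` -/
def Lab (v : W) (x : B) : Prop :=
  p x ∧ ∃ w g, Dq cs p v w ∧ MinR cs p w ∧ p g ∧ cs.simple g * w = w * cs.simple x

variable {cs p}

theorem Dq.refl (q : B → Prop) (v : W) : Dq cs q v v :=
  ⟨[], by simp, by simp⟩

theorem Dq.symm {q : B → Prop} {v w : W} (h : Dq cs q v w) : Dq cs q w v := by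
  obtain ⟨ω, hω, rfl⟩ := h
  refine ⟨ω.reverse, fun g hg => hω g (List.mem_reverse.1 hg), ?_⟩
  rw [cs.wordProd_reverse, inv_mul_cancel_left]

theorem Dq.trans {q : B → Prop} {u v w : W} (h : Dq cs q u v) (h' : Dq cs q v w) :
    Dq cs q u w := by
  obtain ⟨ω, hω, rfl⟩ := h
  obtain ⟨ω', hω', rfl⟩ := h'
  refine ⟨ω' ++ ω, fun g hg => ?_, ?_⟩
  · rcases List.mem_append.1 hg with hg | hg
    · exact hω' g hg
    · exact hω g hg
  · rw [cs.wordProd_append, mul_assoc]

theorem Dq.step {q : B → Prop} {v w : W} (h : Dq cs q v w) (g : B) (hg : q g) :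
    Dq cs q v (cs.simple g * w) := by
  refine Dq.trans h ⟨[g], ?_, by rw [cs.wordProd_singleton]⟩
  intro g' hg'
  rw [List.mem_singleton] at hg'
  rw [hg']
  exact hg

end

end Pool.Agent.Lib.MP_9dbb0e_al
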