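import Mathlib

/-!
# JOB W1: the order of the product of two simple reflections

PROOF. `b i k = -Real.cos (π / M i k)` if `M i k ≠ 0`, `-1` if `M i k = 0` (so `b i i = 1`: `M i i = 1`, `cos π = -1`). For `i : B` let `g i : (B → ℝ) → (B → ℝ)`, `g i f = fun k => f k - 2 * b i k * f i`. `(g i f) i = - f i`, and `g i (g i f) = f`. So `g i` is an element of `Equiv.Perm (B → ℝ)` (`Function.Involutive.toPerm`).
LIFTABLE: `(g i * g j) ^ M i j = 1`. For `i = j`: `g i * g i = 1`. For `i ≠ j`, `m = M i j ≥ 2` (`m ≠ 0, 1`): `θ = π / m`, `c = cos θ`, `s₁ = sin θ > 0`. For `f` put `x = f i`, `y = f j`, `T = g i * g j`: `(g j f) i = x + 2 c y`, `(g j f) j = - y`,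
`(T f) i = - x - 2 c y`, `(T f) j = 2 c x + (4 c² - 1) y`, `(T f) k = f k - 2 b j k * y - 2 b i k * (x + 2 c y)`. With `S n = sin (n θ)` (`n : ℤ` or real), `S (n+1) + S (n-1) = 2 c S n`: by induction on `n : ℕ`
  `(T^n f) i = (- S (2n-1) * x - S (2n) * y) / s₁`, `(T^n f) j = (S (2n) * x + S (2n+1) * y) / s₁`.
For `n = m`: `S (2m) = sin (2π) = 0`, `S (2m ± 1) = sin (2π ± θ) = ± s₁`, so `(T^m f) i = f i`, `(T^m f) j = f j` for ALL `f`. For the other coordinates: `(T^n f) k = f k - 2 b j k * ∑_{l<n} (T^l f) j - 2 b i k * ∑_{l<n} ((T^l f) i + 2 c (T^l f) j)`. Let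
`X = ∑_{l<m} (T^l f) i`, `Y = ∑_{l<m} (T^l f) j`. Since `(T^m f) i = f i` the sums do not change if `l` is replaced by `l + 1` (`Finset.sum_range_succ`, `sum_range_succ'`): `X = - X - 2 c Y`, `Y = 2 c X + (4 c² - 1) Y`. So `X = - c Y`, `(2 - 4 c² + 2 c²) Y = 0`, `(2 - 2 c²) Y = 2 s₁² Y = 0`, `Y = 0`, `X = 0`.
Hence `(T^m f) k = f k`. So `cs.lift ⟨g, _⟩ : W →* Equiv.Perm (B → ℝ)` (`CoxeterSystem.lift`, `lift_apply_simple`) maps `s i * s j` to `T`.
ORDER: `(s i * s j) ^ M i j = 1` is `cs.simple_mul_simple_pow`. For `i = j` the order of `1` is `1`. For `m ≥ 2`, `0 < n < m`: if `T^n = 1` then with `f` = the indicator function of `i` (`x = 1`, `y = 0`): `S (2n) = 0` and `- S (2n-1) = s₁`; `0 < 2 n θ < 2 π` and `sin = 0` give `2 n θ = π`, so `S (2n-1) = sin (π - θ) = s₁`, contradiction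
(`orderOf_eq_iff`). For `m = 0`: `b i j = b j i = -1`: `(T f) i = - x - 2 y`, `(T f) j = 2 x + 3 y`, `T^n f` has for `x = 1`, `y = 0` the values `1 - 2 n`, `2 n` (induction), so `T^n ≠ 1` for `n > 0` (`orderOf_eq_zero_iff'`); in this case no relation for `i, j` is needed (`M i j = 0`, power `0`).
`simple_inj`: `s i = s j` gives `orderOf 1 = M i j`, so `M i j = 1`, `i = j` (`M.off_diagonal`).
-/

set_option autoImplicit false

namespace Pool.Agent.Lib.MP_9dbb0e_al

open Real in
/-- the symmetric form of the geometric representation -/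
private noncomputable def w1b {B : Type} (M : CoxeterMatrix B) (i k : B) : ℝ :=
  if M.M i k = 0 then -1 else -Real.cos (π / (M.M i k : ℝ))

private theorem w1b_self {B : Type} (M : CoxeterMatrix B) (i : B) : w1b M i i = 1 := by
  rw [w1b, M.diagonal i, if_neg one_ne_zero, Nat.cast_one, div_one, Real.cos_pi, neg_neg]

private theorem w1b_symm {B : Type} (M : CoxeterMatrix B) (i k : B) : w1b M i k = w1b M k i := by
  rw [w1b, w1b, M.symmetric i k]

/-- the reflections, as functions -/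
private noncomputable def w1g {B : Type} (M : CoxeterMatrix B) (i : B) (f : B → ℝ) : B → ℝ :=
  fun k => f k - 2 * w1b M i k * f i

private theorem w1g_inv {B : Type} (M : CoxeterMatrix B) (i : B) :
    Function.Involutive (w1g M i) := by
  intro f
  funext k
  show (f k - 2 * w1b M i k * f i) - 2 * w1b M i k * (f i - 2 * w1b M i i * f i) = f k
  rw [w1b_self]
  ring

/-- the reflections, as permutations -/
private noncomputable def w1p {B : Type} (M : CoxeterMatrix B) (i : B) : Equiv.Perm (B → ℝ) :=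
  (w1g_inv M i).toPerm

private theorem w1p_apply {B : Type} (M : CoxeterMatrix B) (i : B) (f : B → ℝ) (k : B) :
    w1p M i f k = f k - 2 * w1b M i k * f i := rfl

private theorem w1p_self {B : Type} (M : CoxeterMatrix B) (i : B) : w1p M i * w1p M i = 1 := by
  apply Equiv.ext
  intro f
  exact w1g_inv M i f

private theorem w1T_k {B : Type} (M : CoxeterMatrix B) (i j : B) (f : B → ℝ) (k : B) :
    (w1p M i * w1p M j) f k =
      f k - 2 * w1b M j k * f j - 2 * w1b M i k * (f i - 2 * w1b M i j * f j) := by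
  rw [Equiv.Perm.mul_apply, w1p_apply, w1p_apply, w1p_apply, w1b_symm M j i]

private theorem w1T_i {B : Type} (M : CoxeterMatrix B) (i j : B) (f : B → ℝ) :
    (w1p M i * w1p M j) f i = -f i + 2 * w1b M i j * f j := by
  rw [w1T_k, w1b_self, w1b_symm M j i]
  ring

private theorem w1T_j {B : Type} (M : CoxeterMatrix B) (i j : B) (f : B → ℝ) :
    (w1p M i * w1p M j) f j = -2 * w1b M i j * f i + (4 * w1b M i j ^ 2 - 1) * f j := by
  rw [w1T_k, w1b_self]
  ring

private theorem w1_succ {B : Type} (M : CoxeterMatrix B) (i j : B) (f : B → ℝ) (n : ℕ) :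
    ((w1p M i * w1p M j) ^ (n + 1)) f = (w1p M i * w1p M j) (((w1p M i * w1p M j) ^ n) f) := by
  rw [pow_succ', Equiv.Perm.mul_apply]

/-- the iterates on the plane -/
private theorem w1_iter {B : Type} (M : CoxeterMatrix B) (i j : B) (θ : ℝ)
    (hθ : w1b M i j = -Real.cos θ) (f : B → ℝ) (n : ℕ) :
    Real.sin θ * ((w1p M i * w1p M j) ^ n) f i =
        -(Real.sin (n * (2 * θ)) * Real.cos θ - Real.cos (n * (2 * θ)) * Real.sin θ) * f i -
          Real.sin (n * (2 * θ)) * f j ∧
      Real.sin θ * ((w1p M i * w1p M j) ^ n) f j =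
        Real.sin (n * (2 * θ)) * f i +
          (Real.sin (n * (2 * θ)) * Real.cos θ + Real.cos (n * (2 * θ)) * Real.sin θ) * f j := by
  induction n with
  | zero =>
    rw [pow_zero, Equiv.Perm.one_apply, Nat.cast_zero, zero_mul, Real.sin_zero, Real.cos_zero]
    constructor <;> ring
  | succ n ih =>
    obtain ⟨h1, h2⟩ := ih
    have hc : Real.sin θ ^ 2 + Real.cos θ ^ 2 = 1 := Real.sin_sq_add_cos_sq θ
    have e1 : ((n + 1 : ℕ) : ℝ) * (2 * θ) = (n : ℝ) * (2 * θ) + 2 * θ := by push_cast; ring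
    rw [e1, Real.sin_add, Real.cos_add, Real.sin_two_mul, Real.cos_two_mul, w1_succ, w1T_i, w1T_j, hθ]
    obtain ⟨P, hP⟩ : ∃ P, P = Real.sin ((n : ℝ) * (2 * θ)) := ⟨_, rfl⟩
    obtain ⟨Q, hQ⟩ : ∃ Q, Q = Real.cos ((n : ℝ) * (2 * θ)) := ⟨_, rfl⟩
    rw [← hP, ← hQ] at h1 h2
    rw [← hP, ← hQ]
    constructor
    · linear_combination (-1) * h1 - 2 * Real.cos θ * h2 + (2 * P * Real.cos θ * f i) * hc
    · linear_combination (2 * Real.cos θ) * h1 + (4 * Real.cos θ ^ 2 - 1) * h2 + (2 * P * Real.cos θ * f j) * hc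

/-- the other coordinates -/
private theorem w1_iter_k {B : Type} (M : CoxeterMatrix B) (i j : B) (f : B → ℝ) (k : B) (n : ℕ) :
    ((w1p M i * w1p M j) ^ n) f k = f k -
      2 * w1b M j k * (∑ l ∈ Finset.range n, ((w1p M i * w1p M j) ^ l) f j) -
      2 * w1b M i k * ((∑ l ∈ Finset.range n, ((w1p M i * w1p M j) ^ l) f i) -
        2 * w1b M i j * ∑ l ∈ Finset.range n, ((w1p M i * w1p M j) ^ l) f j) := by
  induction n with
  | zero =>
    rw [pow_zero, Equiv.Perm.one_apply, Finset.sum_range_zero, Finset.sum_range_zero]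
    ring
  | succ n ih =>
    rw [w1_succ, w1T_k, ih, Finset.sum_range_succ, Finset.sum_range_succ]
    ring

private theorem w1_pow_eq_one {B : Type} (M : CoxeterMatrix B) (i j : B) (hij : i ≠ j)
    (h0 : M.M i j ≠ 0) : (w1p M i * w1p M j) ^ (M.M i j) = 1 := by
  have h1 : M.M i j ≠ 1 := M.off_diagonal i j hij
  have hm : (2 : ℝ) ≤ (M.M i j : ℝ) := by
    have : 2 ≤ M.M i j := by omega
    exact_mod_cast this
  have hθ : w1b M i j = -Real.cos (Real.pi / (M.M i j : ℝ)) := by rw [w1b, if_neg h0]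
  obtain ⟨θ, hθ'⟩ : ∃ θ, θ = Real.pi / (M.M i j : ℝ) := ⟨_, rfl⟩
  rw [← hθ'] at hθ
  have hpos : 0 < θ := by
    rw [hθ']
    exact div_pos Real.pi_pos (by linarith)
  have hlt : θ < Real.pi := by
    rw [hθ', div_lt_iff₀ (by linarith)]
    nlinarith [Real.pi_pos]
  have hs : 0 < Real.sin θ := Real.sin_pos_of_pos_of_lt_pi hpos hlt
  have hmt : ((M.M i j : ℕ) : ℝ) * (2 * θ) = 2 * Real.pi := by
    rw [hθ']
    field_simp
  apply Equiv.ext
  intro f
  have hit := w1_iter M i j θ hθ f (M.M i j)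
  rw [hmt, Real.sin_two_pi, Real.cos_two_pi] at hit
  have hxi : ((w1p M i * w1p M j) ^ (M.M i j)) f i = f i := by
    have h2 : Real.sin θ * ((w1p M i * w1p M j) ^ (M.M i j)) f i = Real.sin θ * f i := by
      rw [hit.1]
      ring
    exact mul_left_cancel₀ hs.ne' h2
  have hxj : ((w1p M i * w1p M j) ^ (M.M i j)) f j = f j := by
    have h2 : Real.sin θ * ((w1p M i * w1p M j) ^ (M.M i j)) f j = Real.sin θ * f j := by
      rw [hit.2]
      ring
    exact mul_left_cancel₀ hs.ne' h2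
  -- shift of the sums
  have hshift : ∀ a : ℕ → ℝ, a (M.M i j) = a 0 →
      ∑ l ∈ Finset.range (M.M i j), a (l + 1) = ∑ l ∈ Finset.range (M.M i j), a l := by
    intro a ha
    have e1 := Finset.sum_range_succ a (M.M i j)
    have e2 := Finset.sum_range_succ' a (M.M i j)
    rw [e1] at e2
    linarith
  have hX := hshift (fun l => ((w1p M i * w1p M j) ^ l) f i) (by
    show ((w1p M i * w1p M j) ^ (M.M i j)) f i = ((w1p M i * w1p M j) ^ 0) f i
    rw [hxi, pow_zero, Equiv.Perm.one_apply])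
  have hY := hshift (fun l => ((w1p M i * w1p M j) ^ l) f j) (by
    show ((w1p M i * w1p M j) ^ (M.M i j)) f j = ((w1p M i * w1p M j) ^ 0) f j
    rw [hxj, pow_zero, Equiv.Perm.one_apply])
  obtain ⟨X, hXd⟩ : ∃ X, X = ∑ l ∈ Finset.range (M.M i j), ((w1p M i * w1p M j) ^ l) f i := ⟨_, rfl⟩
  obtain ⟨Y, hYd⟩ : ∃ Y, Y = ∑ l ∈ Finset.range (M.M i j), ((w1p M i * w1p M j) ^ l) f j := ⟨_, rfl⟩
  have hX' : -X + 2 * w1b M i j * Y = X := by
    rw [hXd, hYd, ← Finset.sum_neg_distrib, Finset.mul_sum, ← Finset.sum_add_distrib]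
    refine Eq.trans ?_ hX
    refine Finset.sum_congr rfl fun l _ => ?_
    show _ = ((w1p M i * w1p M j) ^ (l + 1)) f i
    rw [w1_succ, w1T_i]
  have hY' : -2 * w1b M i j * X + (4 * w1b M i j ^ 2 - 1) * Y = Y := by
    rw [hXd, hYd, Finset.mul_sum, Finset.mul_sum, ← Finset.sum_add_distrib]
    refine Eq.trans ?_ hY
    refine Finset.sum_congr rfl fun l _ => ?_
    show _ = ((w1p M i * w1p M j) ^ (l + 1)) f j
    rw [w1_succ, w1T_j]
  have hc : Real.sin θ ^ 2 + Real.cos θ ^ 2 = 1 := Real.sin_sq_add_cos_sq θ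
  rw [hθ] at hX' hY'
  have hX2 : X = -Real.cos θ * Y := by linarith
  have hY0 : Y = 0 := by
    have h2 : Real.sin θ ^ 2 * Y = 0 := by
      rw [hX2] at hY'
      linear_combination (-1 / 2) * hY' + Y * hc
    exact (mul_eq_zero.1 h2).resolve_left (pow_ne_zero 2 hs.ne')
  have hX0 : X = 0 := by rw [hX2, hY0, mul_zero]
  funext k
  rw [w1_iter_k, ← hXd, ← hYd, hX0, hY0, Equiv.Perm.one_apply]
  ring

private theorem w1_pow_ne_one {B : Type} (M : CoxeterMatrix B) (i j : B) (hij : i ≠ j)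
    (n : ℕ) (hn : 0 < n) (hnm : M.M i j = 0 ∨ n < M.M i j) : (w1p M i * w1p M j) ^ n ≠ 1 := by
  classical
  intro hT
  have hval : ∀ (f : B → ℝ) (k : B), ((w1p M i * w1p M j) ^ n) f k = f k := by
    intro f k
    rw [hT, Equiv.Perm.one_apply]
  obtain ⟨f, hf⟩ : ∃ f : B → ℝ, f = Pi.single i 1 := ⟨_, rfl⟩
  have hfi : f i = 1 := by rw [hf, Pi.single_eq_same]
  have hfj : f j = 0 := by rw [hf, Pi.single_eq_of_ne hij.symm]
  by_cases h0 : M.M i j = 0
  · have hb : w1b M i j = -1 := by rw [w1b, if_pos h0]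
    have hind : ∀ l : ℕ, ((w1p M i * w1p M j) ^ l) f i = 1 - 2 * (l : ℝ) ∧
        ((w1p M i * w1p M j) ^ l) f j = 2 * (l : ℝ) := by
      intro l
      induction l with
      | zero =>
        rw [pow_zero, Equiv.Perm.one_apply, hfi, hfj, Nat.cast_zero]
        constructor <;> ring
      | succ l ih =>
        rw [w1_succ, w1T_i, w1T_j, ih.1, ih.2, hb]
        push_cast
        constructor <;> ring
    have h1 := (hind n).2
    rw [hval, hfj] at h1
    have h2 : (0 : ℝ) < (n : ℝ) := by exact_mod_cast hn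
    linarith
  · have hlt : n < M.M i j := hnm.resolve_left h0
    have h1 : M.M i j ≠ 1 := M.off_diagonal i j hij
    have hm : (2 : ℝ) ≤ (M.M i j : ℝ) := by
      have : 2 ≤ M.M i j := by omega
      exact_mod_cast this
    have hθ : w1b M i j = -Real.cos (Real.pi / (M.M i j : ℝ)) := by rw [w1b, if_neg h0]
    obtain ⟨θ, hθ'⟩ : ∃ θ, θ = Real.pi / (M.M i j : ℝ) := ⟨_, rfl⟩
    rw [← hθ'] at hθ
    have hpos : 0 < θ := by
      rw [hθ']
      exact div_pos Real.pi_pos (by linarith)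
    have hltp : θ < Real.pi := by
      rw [hθ', div_lt_iff₀ (by linarith)]
      nlinarith [Real.pi_pos]
    have hs : 0 < Real.sin θ := Real.sin_pos_of_pos_of_lt_pi hpos hltp
    have hit := w1_iter M i j θ hθ f n
    rw [hval, hval, hfi, hfj] at hit
    have hP : Real.sin (n * (2 * θ)) = 0 := by linarith [hit.2]
    have hQ : Real.cos (n * (2 * θ)) = 1 := by
      have h2 := hit.1
      rw [hP] at h2
      have h3 : Real.sin θ * Real.cos (n * (2 * θ)) = Real.sin θ * 1 := by linarith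
      exact mul_left_cancel₀ hs.ne' h3
    have hn' : (0 : ℝ) < (n : ℝ) := by exact_mod_cast hn
    have hp : 0 < (n : ℝ) * (2 * θ) := by positivity
    have hl : (n : ℝ) * (2 * θ) < 2 * Real.pi := by
      have h2 : (n : ℝ) < (M.M i j : ℝ) := by exact_mod_cast hlt
      have h3 : (M.M i j : ℝ) * θ = Real.pi := by
        rw [hθ']
        field_simp
      nlinarith
    have h4 := (Real.cos_eq_one_iff_of_lt_of_lt (by linarith [Real.pi_pos]) hl).1 hQ
    linarith

private theorem w1_lift {B : Type} (M : CoxeterMatrix B) : M.IsLiftable (w1p M) := by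
  intro i j
  by_cases hij : i = j
  · subst hij
    rw [w1p_self, one_pow]
  · by_cases h0 : M.M i j = 0
    · rw [h0, pow_zero]
    · exact w1_pow_eq_one M i j hij h0

theorem orderOf_simple {B W : Type} [Group W] {M : CoxeterMatrix B} (cs : CoxeterSystem M W)
    (i j : B) : orderOf (cs.simple i * cs.simple j) = M.M i j := by
  by_cases hij : i = j
  · subst hij
    rw [cs.simple_mul_simple_self, orderOf_one, M.diagonal i]
  · have hmap : ∀ n : ℕ, (cs.simple i * cs.simple j) ^ n = 1 → (w1p M i * w1p M j) ^ n = 1 := by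
      intro n hn
      have h := congrArg (cs.lift ⟨w1p M, w1_lift M⟩) hn
      rw [map_pow, map_mul, cs.lift_apply_simple, cs.lift_apply_simple, map_one] at h
      exact h
    by_cases h0 : M.M i j = 0
    · rw [h0, orderOf_eq_zero_iff']
      intro n hn h
      exact w1_pow_ne_one M i j hij n hn (Or.inl h0) (hmap n h)
    · rw [orderOf_eq_iff (Nat.pos_of_ne_zero h0)]
      refine ⟨cs.simple_mul_simple_pow i j, fun n hn hn0 h => ?_⟩
      exact w1_pow_ne_one M i j hij n hn0 (Or.inr hn) (hmap n h)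

theorem simple_inj {B W : Type} [Group W] {M : CoxeterMatrix B} (cs : CoxeterSystem M W) (i j : B)
    (h : cs.simple i = cs.simple j) : i = j := by
  by_contra hij
  have h1 := orderOf_simple cs i j
  rw [h, cs.simple_mul_simple_self, orderOf_one] at h1
  exact M.off_diagonal i j hij h1.symm

end Pool.Agent.Lib.MP_9dbb0e_al
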