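import Mathlib

/-!
# JOB W2: the exchange property

PROOF. `classical`. For `i : B` let `f i : Equiv.Perm (W × ZMod 2)`, `f i (t, e) = (s i * t * s i, e + if t = s i then 1 else 0)` (an involution: `s i * t * s i = s i ↔ t = s i`).
LIFTABLE: `(f i * f j) ^ m = 1`, `m = M i j`. Put `c = s i * s j`. `(f i * f j) (t, e) = (c t c⁻¹, e + [t = s j] + [s j t s j = s i])` (`c⁻¹ = s j * s i`). Induction on `n`: `((f i * f j) ^ n) (t, e) = (c^n t c^(-n), e + ∑_{k<n} ([c^k t c^(-k) = s j] + [s j c^k t c^(-k) s j = s i]))` (write `(f i * f j)^(n+1) = (f i * f j) * (f i * f j)^n`).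
`c^k t c^(-k) = s j ↔ t = c^(-k) s j c^k = c^(-2k) s j` (since `s j c^k = c^(-k) s j`, `s j c s j = c⁻¹`), and `s j c^k t c^(-k) s j = s i ↔ t = c^(-k) s j s i s j c^k = c^(-(2k+1)) s j`. So the sum for `n = m` is `∑_{l < 2m} [t = c^(-l) s j]` in `ZMod 2`, and because `c^m = 1` (`cs.simple_mul_simple_pow`) the terms `l` and `l + m` are equal, the sum is
`2 * ∑_{l<m} .. = 0`. So `F := cs.lift ⟨f, _⟩ : W →* Equiv.Perm (W × ZMod 2)`, `F (s i) = f i`.
(1) For a word `ω`: `F (π ω) (t, e) = (π ω * t * (π ω)⁻¹, e + (List.count t (cs.rightInvSeq ω) : ZMod 2))`: induction on `ω` (`rightInvSeq (i :: ω) = (π ω)⁻¹ * s i * π ω :: rightInvSeq ω`, `wordProd_cons`; `π ω * t * (π ω)⁻¹ = s i ↔ t = (π ω)⁻¹ * s i * π ω`).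
(2) Let `ω` be reduced, `w = π ω`, `i` a right descent of `w`. Let `w' = w * s i`, `ω'` a reduced word of `w'` (`cs.exists_isReduced`); `ω'' = ω' ++ [i]` is a word of `w`, `rightInvSeq (ω'.concat i) = (rightInvSeq ω').map (MulAut.conj (s i)⁻¹ ..) ++ [s i]` (`rightInvSeq_concat`). `s i` does not occur in the first part: otherwise `s i ∈ rightInvSeq ω'`, and
`cs.isRightInversion_of_mem_rightInvSeq` (`ω'` reduced) gives `ℓ (w' * s i) < ℓ w'`, but `ℓ w < ℓ ..` contradicts the descent (`ℓ w' < ℓ w = ℓ (w' * s i)`). So the count of `s i` in `rightInvSeq ω''` is `1`. By (1) for `ω` and `ω''` (both with product `w`, `t = s i`, `e = 0`) the count of `s i` in `rightInvSeq ω` is odd, so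
`s i ∈ rightInvSeq ω`, say at the place `j < ω.length` (`List.mem_iff_getElem`, `length_rightInvSeq`); `cs.wordProd_mul_getD_rightInvSeq ω j : π ω * (ris ω).getD j 1 = π (ω.eraseIdx j)`.
`exchange_left`: apply `exchange_right` to `ω.reverse` (`wordProd_reverse`, `isRightDescent_inv_iff`, `List.eraseIdx` and `reverse`) or repeat the argument with `leftInvSeq`: alternatively prove `s i ∈ leftInvSeq ω` from `leftInvSeq_reverse` and use `cs.getD_leftInvSeq_mul_wordProd`.
-/

set_option autoImplicit false

namespace Pool.Agent.Lib.MP_9dbb0e_al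

section W2a

variable {B W : Type} [Group W] {M : CoxeterMatrix B} (cs : CoxeterSystem M W)

open Classical in
/-- the action of a generator on `W × ZMod 2` -/
private noncomputable def w2aF (i : B) : Function.End (W × ZMod 2) := fun q =>
  (cs.simple i * q.1 * cs.simple i, q.2 + if q.1 = cs.simple i then 1 else 0)

open Classical in
/-- the action of a word -/
private theorem w2a_word (ω : List B) (q : W × ZMod 2) :
    (ω.map (w2aF cs)).prod q = (cs.wordProd ω * q.1 * (cs.wordProd ω)⁻¹,
      q.2 + ((List.count q.1 (cs.rightInvSeq ω) : ℕ) : ZMod 2)) := by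
  induction ω with
  | nil =>
    rw [List.map_nil, List.prod_nil, cs.wordProd_nil, cs.rightInvSeq_nil, List.count_nil,
      Nat.cast_zero, add_zero, one_mul, inv_one, mul_one]
    rfl
  | cons i ω ih =>
    rw [List.map_cons, List.prod_cons]
    show w2aF cs i ((ω.map (w2aF cs)).prod q) = _
    rw [ih, w2aF]
    have h1 : cs.rightInvSeq (i :: ω) =
        (cs.wordProd ω)⁻¹ * cs.simple i * cs.wordProd ω :: cs.rightInvSeq ω := rfl
    rw [h1, cs.wordProd_cons, List.count_cons, mul_inv_rev, cs.inv_simple]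
    refine Prod.ext ?_ ?_
    · show cs.simple i * (cs.wordProd ω * q.1 * (cs.wordProd ω)⁻¹) * cs.simple i = _
      group
    · show q.2 + ((List.count q.1 (cs.rightInvSeq ω) : ℕ) : ZMod 2) +
        (if cs.wordProd ω * q.1 * (cs.wordProd ω)⁻¹ = cs.simple i then 1 else 0) = _
      rw [Nat.cast_add, add_assoc]
      congr 2
      by_cases h : cs.wordProd ω * q.1 * (cs.wordProd ω)⁻¹ = cs.simple i
      · have h2 : (cs.wordProd ω)⁻¹ * cs.simple i * cs.wordProd ω = q.1 := by
          rw [← h]
          group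
        rw [if_pos h, h2, if_pos (beq_self_eq_true _), Nat.cast_one]
      · have h2 : ¬ (cs.wordProd ω)⁻¹ * cs.simple i * cs.wordProd ω = q.1 := by
          intro h3
          apply h
          rw [← h3]
          group
        rw [if_neg h, if_neg (fun h3 => h2 (beq_iff_eq.1 h3)), Nat.cast_zero]

/-- the word `(i j)^k` -/
private def w2aP (i j : B) : ℕ → List B
  | 0 => []
  | k + 1 => i :: j :: w2aP i j k

private theorem w2a_prod (i j : B) (k : ℕ) :
    cs.wordProd (w2aP i j k) = (cs.simple i * cs.simple j) ^ k := by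
  induction k with
  | zero => rw [w2aP, cs.wordProd_nil, pow_zero]
  | succ k ih => rw [w2aP, cs.wordProd_cons, cs.wordProd_cons, ih, ← mul_assoc, ← pow_succ']

private theorem w2a_map {G : Type*} [Monoid G] (f : B → G) (i j : B) (k : ℕ) :
    ((w2aP i j k).map f).prod = (f i * f j) ^ k := by
  induction k with
  | zero => rw [w2aP, List.map_nil, List.prod_nil, pow_zero]
  | succ k ih =>
    rw [w2aP, List.map_cons, List.map_cons, List.prod_cons, List.prod_cons, ih, ← mul_assoc,
      ← pow_succ']

private theorem w2a_inv (i j : B) (k : ℕ) :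
    cs.simple j * (cs.simple i * cs.simple j) ^ k =
      ((cs.simple i * cs.simple j) ^ k)⁻¹ * cs.simple j := by
  induction k with
  | zero => rw [pow_zero, inv_one, one_mul, mul_one]
  | succ k ih =>
    have h1 : cs.simple j * (cs.simple i * cs.simple j) =
        (cs.simple i * cs.simple j)⁻¹ * cs.simple j := by
      rw [mul_inv_rev, cs.inv_simple, cs.inv_simple, mul_assoc]
    rw [pow_succ', ← mul_assoc, h1, mul_assoc, ih, ← mul_assoc, ← mul_inv_rev, ← pow_succ,
      pow_succ']

open Classical in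
private theorem w2a_count (i j : B) (k : ℕ) (t : W) :
    List.count t (cs.rightInvSeq (w2aP i j k)) = ∑ l ∈ Finset.range (2 * k),
      if t = ((cs.simple i * cs.simple j) ^ l)⁻¹ * cs.simple j then 1 else 0 := by
  induction k with
  | zero =>
    rw [w2aP, cs.rightInvSeq_nil, List.count_nil, mul_zero, Finset.sum_range_zero]
  | succ k ih =>
    have h1 : cs.rightInvSeq (w2aP i j (k + 1)) =
        (cs.wordProd (j :: w2aP i j k))⁻¹ * cs.simple i * cs.wordProd (j :: w2aP i j k) ::
        (cs.wordProd (w2aP i j k))⁻¹ * cs.simple j * cs.wordProd (w2aP i j k) ::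
        cs.rightInvSeq (w2aP i j k) := rfl
    have h2 : (cs.wordProd (w2aP i j k))⁻¹ * cs.simple j * cs.wordProd (w2aP i j k) =
        ((cs.simple i * cs.simple j) ^ (2 * k))⁻¹ * cs.simple j := by
      rw [w2a_prod, mul_assoc, w2a_inv, ← mul_assoc, ← mul_inv_rev, ← pow_add, two_mul]
    have h3 : (cs.wordProd (j :: w2aP i j k))⁻¹ * cs.simple i *
        cs.wordProd (j :: w2aP i j k) =
        ((cs.simple i * cs.simple j) ^ (2 * k + 1))⁻¹ * cs.simple j := by
      have h4 : cs.simple i * (cs.simple j * (cs.simple i * cs.simple j) ^ k) =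
          (cs.simple i * cs.simple j) ^ (k + 1) := by
        rw [← mul_assoc, ← pow_succ']
      rw [cs.wordProd_cons, w2a_prod, mul_inv_rev, cs.inv_simple, mul_assoc, mul_assoc, h4,
        w2a_inv, ← mul_assoc, ← mul_inv_rev, ← pow_add]
      congr 3
      ring
    rw [h1, List.count_cons, List.count_cons, ih, h2, h3, show 2 * (k + 1) = 2 * k + 1 + 1 by ring,
      Finset.sum_range_succ, Finset.sum_range_succ]
    simp only [beq_iff_eq, eq_comm (a := t)]

private theorem w2a_lift : M.IsLiftable (w2aF cs) := by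
  classical
  intro i j
  funext q
  rw [← w2a_map, w2a_word, w2a_prod, cs.simple_mul_simple_pow, one_mul, inv_one, mul_one,
    w2a_count]
  refine Prod.ext rfl ?_
  show q.2 + _ = q.2
  have h1 : ∀ l, (cs.simple i * cs.simple j) ^ (M i j + l) = (cs.simple i * cs.simple j) ^ l := by
    intro l
    rw [pow_add, cs.simple_mul_simple_pow, one_mul]
  rw [two_mul, Finset.sum_range_add]
  simp only [h1]
  rw [Nat.cast_add, CharTwo.add_self_eq_zero, add_zero]

open Classical in
/-- the parity of the number of occurrences depends only on the product -/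
private theorem w2a_parity (ω ω' : List B) (h : cs.wordProd ω = cs.wordProd ω') (t : W) :
    ((List.count t (cs.rightInvSeq ω) : ℕ) : ZMod 2) =
      ((List.count t (cs.rightInvSeq ω') : ℕ) : ZMod 2) := by
  have hF : ∀ ω : List B, cs.lift ⟨w2aF cs, w2a_lift cs⟩ (cs.wordProd ω) =
      (ω.map (w2aF cs)).prod := by
    intro ω
    rw [CoxeterSystem.wordProd, map_list_prod, List.map_map]
    congr 1
    refine List.map_congr_left fun i _ => ?_
    exact cs.lift_apply_simple (w2a_lift cs) i
  have h1 : (ω.map (w2aF cs)).prod (t, 0) = (ω'.map (w2aF cs)).prod (t, 0) := by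
    rw [← hF, ← hF, h]
  rw [w2a_word, w2a_word] at h1
  have h2 := congrArg Prod.snd h1
  simpa only [zero_add] using h2

end W2a

theorem exchange_right {B W : Type} [Group W] {M : CoxeterMatrix B} (cs : CoxeterSystem M W)
    (ω : List B) (hω : cs.IsReduced ω) (i : B) (h : cs.IsRightDescent (cs.wordProd ω) i) :
    ∃ j, j < ω.length ∧ cs.wordProd ω * cs.simple i = cs.wordProd (ω.eraseIdx j) := by
  classical
  obtain ⟨ω', hω', hw'⟩ := cs.exists_isReduced (cs.wordProd ω * cs.simple i)
  have h1 : cs.wordProd ω = cs.wordProd (ω'.concat i) := by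
    rw [cs.wordProd_concat, ← hw', mul_assoc, cs.simple_mul_simple_self, mul_one]
  have h2 := w2a_parity cs ω (ω'.concat i) h1 (cs.simple i)
  have h3 : cs.simple i ∉ List.map (MulAut.conj (cs.simple i)) (cs.rightInvSeq ω') := by
    intro h4
    obtain ⟨x, hx, hx'⟩ := List.mem_map.1 h4
    rw [MulAut.conj_apply, mul_inv_eq_iff_eq_mul, mul_right_inj] at hx'
    rw [hx'] at hx
    have h5 := (cs.isRightInversion_of_mem_rightInvSeq hω' hx).2
    rw [← hw', mul_assoc, cs.simple_mul_simple_self, mul_one] at h5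
    exact lt_asymm h5 h
  rw [cs.rightInvSeq_concat, List.concat_eq_append, List.count_append, List.count_singleton_self,
    List.count_eq_zero_of_not_mem h3, zero_add, Nat.cast_one] at h2
  have h4 : cs.simple i ∈ cs.rightInvSeq ω := by
    by_contra h5
    rw [List.count_eq_zero_of_not_mem h5, Nat.cast_zero] at h2
    exact zero_ne_one h2
  obtain ⟨j, hj, hj'⟩ := List.mem_iff_getElem.1 h4
  have hj2 := hj
  rw [cs.length_rightInvSeq] at hj2
  refine ⟨j, hj2, ?_⟩
  rw [← cs.wordProd_mul_getD_rightInvSeq ω j, List.getD_eq_getElem _ 1 hj, hj']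

theorem exchange_left {B W : Type} [Group W] {M : CoxeterMatrix B} (cs : CoxeterSystem M W)
    (ω : List B) (hω : cs.IsReduced ω) (i : B) (h : cs.IsLeftDescent (cs.wordProd ω) i) :
    ∃ j, j < ω.length ∧ cs.simple i * cs.wordProd ω = cs.wordProd (ω.eraseIdx j) := by
  have h1 : cs.IsRightDescent (cs.wordProd ω.reverse) i := by
    rw [cs.wordProd_reverse]
    exact cs.isRightDescent_inv_iff.2 h
  obtain ⟨j, hj, hj'⟩ := exchange_right cs ω.reverse ((cs.isReduced_reverse_iff ω).2 hω) i h1
  rw [List.length_reverse] at hj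
  refine ⟨ω.length - 1 - j, by omega, ?_⟩
  have h2 : (ω.reverse.eraseIdx j).reverse = ω.eraseIdx (ω.length - 1 - j) := by
    rw [List.eraseIdx_eq_take_drop_succ, List.eraseIdx_eq_take_drop_succ, List.reverse_append,
      List.take_reverse, List.drop_reverse, List.reverse_reverse, List.reverse_reverse]
    have e1 : ω.length - (j + 1) = ω.length - 1 - j := by omega
    have e2 : ω.length - j = ω.length - 1 - j + 1 := by omega
    rw [e1, ← e2]
  rw [← h2, cs.wordProd_reverse, ← hj', cs.wordProd_reverse, mul_inv_rev, inv_inv,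
    cs.inv_simple]

end Pool.Agent.Lib.MP_9dbb0e_al
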