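import Pool.Agent.Lib.MP_9dbb0e_al.W1
import Pool.Agent.Lib.MP_9dbb0e_al.W2

/-!
# JOB W3: minimal coset representatives

`MinR cs p v`: `v` is minimal in `v W_p` (no right descent in `p`).
PROOF of `deodhar`. Suppose `w = s i * v` is not minimal: there is `x` with `p x` and `ℓ (w * s x) < ℓ w`. (a) `ℓ w = ℓ v + 1`: otherwise `ℓ w + 1 = ℓ v` (`cs.length_simple_mul`), and `v * s x = s i * (w * s x)`, so `ℓ (v * s x) ≤ ℓ (w * s x) + 1 ≤ ℓ w = ℓ v - 1`, contradiction to `MinR cs p v`. (b) Let `ω` be a reduced word
of `v` (`cs.exists_isReduced`); `i :: ω` is a reduced word of `w` (its length is `ℓ v + 1 = ℓ w`). `exchange_right` for `i :: ω` and `x`: `w * s x = π ((i :: ω).eraseIdx j)`. If `j = 0`: `w * s x = π ω = v`, so `s i * v = v * s x`. If `j = j' + 1`: `w * s x = s i * π (ω.eraseIdx j')`, so `v * s x = π (ω.eraseIdx j')` has length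
`≤ ω.length - 1 < ℓ v` (`List.length_eraseIdx`, `cs.length_wordProd_le`), contradiction.
`minR_one`: `not_isRightDescent_one`. `label_unique`: `simple_inj`. `minR_of_loop`: if `s i * v = v * s x`, `p x`, then `s i * v` is not minimal: `x` is a right descent: `(s i * v) * s x = v` and `ℓ (v * s x) > ℓ v`.
-/

set_option autoImplicit false

namespace Pool.Agent.Lib.MP_9dbb0e_al

/-- `v` is the shortest element of `v W_p` -/
def MinR {B W : Type} [Group W] {M : CoxeterMatrix B} (cs : CoxeterSystem M W) (p : B → Prop)
    (v : W) : Prop := ∀ x, p x → ¬ cs.IsRightDescent v x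

variable {B W : Type} [Group W] {M : CoxeterMatrix B} (cs : CoxeterSystem M W) (p : B → Prop)

theorem minR_one : MinR cs p 1 := by
  exact fun x _ => cs.not_isRightDescent_one x

theorem deodhar (v : W) (hv : MinR cs p v) (i : B) :
    MinR cs p (cs.simple i * v) ∨ ∃ x, p x ∧ cs.simple i * v = v * cs.simple x := by
  classical
  by_cases hmin : MinR cs p (cs.simple i * v)
  · exact Or.inl hmin
  right
  unfold MinR at hmin
  push Not at hmin
  obtain ⟨x, hx, hdes⟩ := hmin
  refine ⟨x, hx, ?_⟩
  have hl := cs.length_simple_mul v i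
  have hdes' : cs.length (cs.simple i * v * cs.simple x) < cs.length (cs.simple i * v) := hdes
  have hvx : ¬ cs.length (v * cs.simple x) < cs.length v := hv x hx
  have h1 : v * cs.simple x = cs.simple i * (cs.simple i * v * cs.simple x) := by
    rw [mul_assoc, cs.simple_mul_simple_cancel_left]
  have h2 := cs.length_mul_le (cs.simple i) (cs.simple i * v * cs.simple x)
  rw [← h1, cs.length_simple] at h2
  have ha : cs.length (cs.simple i * v) = cs.length v + 1 := by omega
  obtain ⟨ω, hω, hvω⟩ := cs.exists_isReduced v
  have hcons : cs.wordProd (i :: ω) = cs.simple i * v := by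
    rw [cs.wordProd_cons, ← hvω]
  have hlen : cs.length v = ω.length := by
    rw [hvω]
    exact hω
  have hred : cs.IsReduced (i :: ω) := by
    change cs.length (cs.wordProd (i :: ω)) = (i :: ω).length
    rw [hcons, ha, hlen, List.length_cons]
  obtain ⟨j, hj, he⟩ := exchange_right cs (i :: ω) hred x (by
    rw [hcons]
    exact hdes)
  rcases j with _ | j'
  · rw [List.eraseIdx_cons_zero, hcons, ← hvω] at he
    calc cs.simple i * v = cs.simple i * v * cs.simple x * cs.simple x := by
          rw [mul_assoc, cs.simple_mul_simple_self, mul_one]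
      _ = v * cs.simple x := by rw [he]
  · exfalso
    rw [hcons, List.eraseIdx_cons_succ, cs.wordProd_cons, mul_assoc] at he
    have h3 : v * cs.simple x = cs.wordProd (ω.eraseIdx j') := mul_left_cancel he
    have h4 := cs.length_wordProd_le (ω.eraseIdx j')
    rw [← h3] at h4
    have h5 : j' < ω.length := by
      rw [List.length_cons] at hj
      omega
    rw [List.length_eraseIdx_of_lt h5] at h4
    omega

theorem not_minR_of_loop (v : W) (hv : MinR cs p v) (i x : B) (hx : p x)
    (h : cs.simple i * v = v * cs.simple x) : ¬ MinR cs p (cs.simple i * v) := by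
  intro h1
  have h2 : ¬ cs.length (cs.simple i * v * cs.simple x) < cs.length (cs.simple i * v) := h1 x hx
  have h3 : cs.simple i * v * cs.simple x = v := by
    rw [h, mul_assoc, cs.simple_mul_simple_self, mul_one]
  have h4 : ¬ cs.length (v * cs.simple x) < cs.length v := hv x hx
  have h5 := cs.length_mul_simple_ne v x
  rw [h3, h] at h2
  omega

theorem label_unique (v : W) (x y : B) (h : v * cs.simple x = v * cs.simple y) : x = y := by
  exact simple_inj cs x y (mul_left_cancel h)

end Pool.Agent.Lib.MP_9dbb0e_al
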