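import Pool.Agent.Lib.MP_9dbb0e_al.W3

/-!
# JOB W4: cosets of a dihedral subgroup

`Dih cs i j v w`: `w = π ω * v` for a word `ω` in the letters `i, j`.
-/

set_option autoImplicit false

namespace Pool.Agent.Lib.MP_9dbb0e_al

/-- `w` is in the coset `W_{i,j} v` -/
def Dih {B W : Type} [Group W] {M : CoxeterMatrix B} (cs : CoxeterSystem M W) (i j : B)
    (v w : W) : Prop := ∃ ω : List B, (∀ g ∈ ω, g = i ∨ g = j) ∧ w = cs.wordProd ω * v

variable {B W : Type} [Group W] {M : CoxeterMatrix B} (cs : CoxeterSystem M W)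

theorem Dih.refl (i j : B) (v : W) : Dih cs i j v v :=
  ⟨[], by simp, by simp⟩

theorem Dih.symm {i j : B} {v w : W} (h : Dih cs i j v w) : Dih cs i j w v := by
  obtain ⟨ω, hω, rfl⟩ := h
  refine ⟨ω.reverse, fun g hg => hω g (List.mem_reverse.1 hg), ?_⟩
  rw [cs.wordProd_reverse, inv_mul_cancel_left]

theorem Dih.trans {i j : B} {u v w : W} (h : Dih cs i j u v) (h' : Dih cs i j v w) :
    Dih cs i j u w := by
  obtain ⟨ω, hω, rfl⟩ := h
  obtain ⟨ω', hω', rfl⟩ := h'
  refine ⟨ω' ++ ω, fun g hg => ?_, ?_⟩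
  · rcases List.mem_append.1 hg with hg | hg
    · exact hω' g hg
    · exact hω g hg
  · rw [cs.wordProd_append, mul_assoc]

theorem Dih.step {i j : B} {v w : W} (h : Dih cs i j v w) (g : B) (hg : g = i ∨ g = j) :
    Dih cs i j v (cs.simple g * w) := by
  refine Dih.trans cs h ⟨[g], ?_, by rw [cs.wordProd_singleton]⟩
  intro g' hg'
  rw [List.mem_singleton] at hg'
  rw [hg']
  exact hg

private theorem w4_len (i j : B) (d : W) (hd : ∀ w, Dih cs i j d w → cs.length d ≤ cs.length w)
    (ω : List B) (hω : ∀ g ∈ ω, g = i ∨ g = j)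
    (hmin : ∀ ω' : List B, (∀ g ∈ ω', g = i ∨ g = j) →
      cs.wordProd ω * d = cs.wordProd ω' * d → ω.length ≤ ω'.length) :
    cs.length (cs.wordProd ω * d) = ω.length + cs.length d := by
  induction ω with
  | nil => simp
  | cons g ω ih =>
    have hω' : ∀ g ∈ ω, g = i ∨ g = j := fun x hx => hω x (List.mem_cons_of_mem _ hx)
    have hg : g = i ∨ g = j := hω g List.mem_cons_self
    have ih' := ih hω' (by
      intro ω' h1 h2
      have := hmin (g :: ω') (by
        intro x hx
        rcases List.mem_cons.1 hx with rfl | hx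
        · exact hg
        · exact h1 x hx) (by
        rw [cs.wordProd_cons, cs.wordProd_cons, mul_assoc, mul_assoc, h2])
      simpa using this)
    obtain ⟨δ, hδ, hδd⟩ := cs.exists_isReduced d
    have hδl : cs.length d = δ.length := by rw [hδd]; exact hδ
    rw [cs.wordProd_cons, mul_assoc, List.length_cons]
    by_contra hne
    have hdesc : cs.IsLeftDescent (cs.wordProd ω * d) g := by
      rcases cs.length_simple_mul (cs.wordProd ω * d) g with h | h
      · exact absurd (by rw [h, ih']; omega) hne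
      · show cs.length _ < cs.length _
        omega
    have hred : cs.IsReduced (ω ++ δ) := by
      show cs.length (cs.wordProd (ω ++ δ)) = (ω ++ δ).length
      rw [cs.wordProd_append, ← hδd, ih', List.length_append, hδl]
    obtain ⟨t, ht, hte⟩ := exchange_left cs (ω ++ δ) hred g (by
      rw [cs.wordProd_append, ← hδd]
      exact hdesc)
    rw [cs.wordProd_append, ← hδd] at hte
    by_cases htl : t < ω.length
    · rw [List.eraseIdx_append_of_lt_length htl, cs.wordProd_append, ← hδd] at hte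
      have h3 := hmin (ω.eraseIdx t) (fun x hx => hω' x (List.mem_of_mem_eraseIdx hx)) (by
        rw [cs.wordProd_cons, mul_assoc, hte])
      have h4 := List.length_eraseIdx_add_one htl
      rw [List.length_cons] at h3
      omega
    · rw [List.eraseIdx_append_of_length_le (by omega), cs.wordProd_append] at hte
      have h5 : Dih cs i j d (cs.wordProd (δ.eraseIdx (t - ω.length))) := by
        have h6 : Dih cs i j d (cs.simple g * (cs.wordProd ω * d)) :=
          Dih.step cs ⟨ω, hω', rfl⟩ g hg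
        rw [hte] at h6
        exact Dih.trans cs h6 (Dih.symm cs ⟨ω, hω', rfl⟩)
      have h7 := hd _ h5
      have h8 := cs.length_wordProd_le (δ.eraseIdx (t - ω.length))
      rw [List.length_append] at ht
      have h9 := List.length_eraseIdx_add_one (l := δ) (i := t - ω.length) (by omega)
      omega

private theorem w4_word (i j : B) (d w : W) (h : Dih cs i j d w) :
    ∃ ω : List B, (∀ g ∈ ω, g = i ∨ g = j) ∧ w = cs.wordProd ω * d ∧
      ∀ ω' : List B, (∀ g ∈ ω', g = i ∨ g = j) →
        cs.wordProd ω * d = cs.wordProd ω' * d → ω.length ≤ ω'.length := by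
  classical
  have hex : ∃ n, ∃ ω : List B, (∀ g ∈ ω, g = i ∨ g = j) ∧ w = cs.wordProd ω * d ∧
      ω.length = n := by
    obtain ⟨ω, hω, hw⟩ := h
    exact ⟨_, ω, hω, hw, rfl⟩
  obtain ⟨ω, hω, hw, hl⟩ := Nat.find_spec hex
  refine ⟨ω, hω, hw, fun ω' h1 h2 => ?_⟩
  rw [hl]
  exact Nat.find_min' hex ⟨ω', h1, by rw [hw, h2], rfl⟩

private theorem w4_min (i j : B) (v : W) :
    ∃ d, Dih cs i j d v ∧ ∀ w, Dih cs i j d w → cs.length d ≤ cs.length w := by
  classical
  have hex : ∃ n, ∃ d, Dih cs i j d v ∧ cs.length d = n := ⟨_, v, Dih.refl cs i j v, rfl⟩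
  obtain ⟨d, hd, hl⟩ := Nat.find_spec hex
  refine ⟨d, hd, fun w hw => ?_⟩
  rw [hl]
  exact Nat.find_min' hex ⟨w, Dih.trans cs (Dih.symm cs hw) hd, rfl⟩

private theorem w4_minR (p : B → Prop) (i j : B) (d : W)
    (hd : ∀ w, Dih cs i j d w → cs.length d ≤ cs.length w) (w : W) (hw : MinR cs p w)
    (h : Dih cs i j d w) : MinR cs p d := by
  intro x hx hdesc
  obtain ⟨ω, hω, rfl, hmin⟩ := w4_word cs i j d w h
  have hl := w4_len cs i j d hd ω hω hmin
  refine hw x hx ?_
  show cs.length _ < cs.length _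
  have hdesc' : cs.length (d * cs.simple x) < cs.length d := hdesc
  rw [hl, mul_assoc]
  have h1 := cs.length_mul_le (cs.wordProd ω) (d * cs.simple x)
  have h2 := cs.length_wordProd_le ω
  omega

private theorem w4_three (p : B → Prop) (i j : B) (d : W)
    (hd : ∀ w, Dih cs i j d w → cs.length d ≤ cs.length w) (w : W) (hw : MinR cs p w)
    (h : Dih cs i j d w) (g : B) (hg : g = i ∨ g = j) (x : B) (hx : p x)
    (e : cs.simple g * w = w * cs.simple x) :
    ∃ h, (h = i ∨ h = j) ∧ cs.simple h * d = d * cs.simple x := by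
  have hdR := w4_minR cs p i j d hd w hw h
  have hlen : cs.length (d * cs.simple x) = cs.length d + 1 :=
    (cs.not_isRightDescent_iff).1 (hdR x hx)
  have hD : Dih cs i j d (d * cs.simple x) := by
    obtain ⟨ω, hω, rfl⟩ := h
    have h1 : Dih cs i j d (cs.simple g * (cs.wordProd ω * d)) :=
      Dih.step cs ⟨ω, hω, rfl⟩ g hg
    rw [e, mul_assoc] at h1
    exact Dih.trans cs h1 (Dih.symm cs ⟨ω, hω, rfl⟩)
  obtain ⟨ω, hω, hw', hmin⟩ := w4_word cs i j d _ hD
  have hl := w4_len cs i j d hd ω hω hmin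
  rw [← hw', hlen] at hl
  obtain ⟨k, rfl⟩ := List.length_eq_one_iff.1 (by omega : ω.length = 1)
  refine ⟨k, hω k (by simp), ?_⟩
  rw [hw', cs.wordProd_singleton]

theorem dih_two (p : B → Prop) (i j : B) (v : W) (hv : MinR cs p v) (x y : B) (hx : p x)
    (hy : p y) (hxy : x ≠ y) (w₁ w₂ : W) (h₁ : Dih cs i j v w₁) (h₂ : Dih cs i j v w₂)
    (m₁ : MinR cs p w₁) (m₂ : MinR cs p w₂) (g₁ g₂ : B) (hg₁ : g₁ = i ∨ g₁ = j)
    (hg₂ : g₂ = i ∨ g₂ = j) (e₁ : cs.simple g₁ * w₁ = w₁ * cs.simple x)
    (e₂ : cs.simple g₂ * w₂ = w₂ * cs.simple y) :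
    (cs.simple i * v = v * cs.simple x ∧ cs.simple j * v = v * cs.simple y) ∨
      (cs.simple i * v = v * cs.simple y ∧ cs.simple j * v = v * cs.simple x) := by
  obtain ⟨d, hdv, hd⟩ := w4_min cs i j v
  obtain ⟨k₁, hk₁, ek₁⟩ := w4_three cs p i j d hd w₁ m₁ (Dih.trans cs hdv h₁) g₁ hg₁ x hx e₁
  obtain ⟨k₂, hk₂, ek₂⟩ := w4_three cs p i j d hd w₂ m₂ (Dih.trans cs hdv h₂) g₂ hg₂ y hy e₂
  have hk : k₁ ≠ k₂ := by
    intro hkk
    rw [hkk, ek₂] at ek₁
    exact hxy (label_unique cs d x y ek₁.symm)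
  have hvd : v = d := by
    obtain ⟨ω, hω, hw, hmin⟩ := w4_word cs i j d v hdv
    have hl := w4_len cs i j d hd ω hω hmin
    rcases List.eq_nil_or_concat ω with h0 | ⟨ω', k, hk'⟩
    · rw [hw, h0, cs.wordProd_nil, one_mul]
    · rw [List.concat_eq_append] at hk'
      exfalso
      have hkm : k = i ∨ k = j := hω k (by rw [hk', List.mem_append]; simp)
      have hz : ∃ z, p z ∧ cs.simple k * d = d * cs.simple z := by
        have : k = k₁ ∨ k = k₂ := by
          rcases hkm with rfl | rfl <;> rcases hk₁ with rfl | rfl <;> rcases hk₂ with rfl | rfl <;>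
            simp_all
        rcases this with rfl | rfl
        · exact ⟨x, hx, ek₁⟩
        · exact ⟨y, hy, ek₂⟩
      obtain ⟨z, hz, ez⟩ := hz
      refine hv z hz ?_
      show cs.length _ < cs.length _
      rw [← hw, hk', List.length_append, List.length_singleton] at hl
      have hvz : v * cs.simple z = cs.wordProd ω' * d := by
        rw [hw, hk', cs.wordProd_append, cs.wordProd_singleton, mul_assoc (cs.wordProd ω'), ez,
          mul_assoc, mul_assoc, cs.simple_mul_simple_self, mul_one]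
      rw [hvz, hl]
      have h1 := cs.length_mul_le (cs.wordProd ω') d
      have h2 := cs.length_wordProd_le ω'
      omega
  subst hvd
  rcases hk₁ with rfl | rfl <;> rcases hk₂ with rfl | rfl
  · exact absurd rfl hk
  · exact Or.inl ⟨ek₁, ek₂⟩
  · exact Or.inr ⟨ek₂, ek₁⟩
  · exact absurd rfl hk

end Pool.Agent.Lib.MP_9dbb0e_al
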