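import Pool.Agent.Lib.MP_9dbb0e_al.A1
import Pool.Agent.Lib.MP_9dbb0e_al.W4

/-!
# The action of the Artin group on `{minimal coset representatives} × A_p`

`stp cs p i (v, α) = (s i * v, α)` if `s i * v` is minimal, and `(v, σ x * α)` if `s i * v = v * s x`, `p x`.
-/

set_option autoImplicit false

namespace Pool.Agent.Lib.MP_9dbb0e_al

variable {B W : Type} [Group W] {M : CoxeterMatrix B} (cs : CoxeterSystem M W) (p : B → Prop)

/-- the state space -/
abbrev St : Type := {v : W // MinR cs p v} × Art (sub M p)

/-- the label of the loop at `v` -/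
noncomputable def lab (i : B) (v : {v : W // MinR cs p v}) (h : ¬ MinR cs p (cs.simple i * v.1)) :
    {x : B // p x} :=
  ⟨Classical.choose ((deodhar cs p v.1 v.2 i).resolve_left h),
    (Classical.choose_spec ((deodhar cs p v.1 v.2 i).resolve_left h)).1⟩

theorem lab_spec (i : B) (v : {v : W // MinR cs p v}) (h : ¬ MinR cs p (cs.simple i * v.1)) :
    cs.simple i * v.1 = v.1 * cs.simple (lab cs p i v h).1 :=
  (Classical.choose_spec ((deodhar cs p v.1 v.2 i).resolve_left h)).2

theorem lab_eq (i : B) (v : {v : W // MinR cs p v}) (h : ¬ MinR cs p (cs.simple i * v.1))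
    (x : {x : B // p x}) (hx : cs.simple i * v.1 = v.1 * cs.simple x.1) :
    lab cs p i v h = x :=
  Subtype.ext (label_unique cs v.1 _ _ ((lab_spec cs p i v h).symm.trans hx))

open Classical in
/-- the action of the generator `i` -/
noncomputable def stp (i : B) : Equiv.Perm (St cs p) where
  toFun z := if h : MinR cs p (cs.simple i * z.1.1) then (⟨_, h⟩, z.2)
    else (z.1, σ (sub M p) (lab cs p i z.1 h) * z.2)
  invFun z := if h : MinR cs p (cs.simple i * z.1.1) then (⟨_, h⟩, z.2)
    else (z.1, (σ (sub M p) (lab cs p i z.1 h))⁻¹ * z.2)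
  left_inv z := by
    obtain ⟨v, α⟩ := z
    by_cases h : MinR cs p (cs.simple i * v.1)
    · simp only [h, dif_pos, cs.simple_mul_simple_cancel_left, v.2]
    · simp only [h, dif_neg, not_false_eq_true, inv_mul_cancel_left]
  right_inv z := by
    obtain ⟨v, α⟩ := z
    by_cases h : MinR cs p (cs.simple i * v.1)
    · simp only [h, dif_pos, cs.simple_mul_simple_cancel_left, v.2]
    · simp only [h, dif_neg, not_false_eq_true, mul_inv_cancel_left]

theorem stp_move (i : B) (v : {v : W // MinR cs p v}) (α : Art (sub M p))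
    (h : MinR cs p (cs.simple i * v.1)) : stp cs p i (v, α) = (⟨_, h⟩, α) := by
  simp only [stp, Equiv.coe_fn_mk, h, dif_pos]

theorem stp_loop (i : B) (v : {v : W // MinR cs p v}) (α : Art (sub M p)) (x : {x : B // p x})
    (hx : cs.simple i * v.1 = v.1 * cs.simple x.1) :
    stp cs p i (v, α) = (v, σ (sub M p) x * α) := by
  have h : ¬ MinR cs p (cs.simple i * v.1) := not_minR_of_loop cs p v.1 v.2 i x.1 x.2 hx
  simp only [stp, Equiv.coe_fn_mk, h, dif_neg, not_false_eq_true, lab_eq cs p i v h x hx]

/-- the alternating word `i j i j ..` of length `m` -/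
def la {B : Type} (i j : B) (m : ℕ) : List B := (List.range m).map (fun k => if Even k then i else j)

theorem alt_eq_prod {B G : Type*} [Monoid G] (f : B → G) (i j : B) (m : ℕ) :
    alt (f i) (f j) m = (((List.range m).map (fun k => if Even k then i else j)).map f).prod := by
  rw [alt, List.map_map]
  congr 1
  refine List.map_congr_left fun k _ => ?_
  simp only [Function.comp_apply]
  split_ifs <;> rfl

end Pool.Agent.Lib.MP_9dbb0e_al
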