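import Pool.Agent.Lib.MP_9dbb0e_al.W5Defs

/-!
# JOB W5a: words in two letters acting on the states, at most one label

PROOFS (induction on `ω`; `List.map_cons`, `List.prod_cons`, `Equiv.Perm.mul_apply`).
`prod_noloop`: the state after `ω` is `(π ω * v, α)`; `Dih cs i j v (π ω * v)`; by `hno` the element `s g * π ω * v` is minimal: `stp_move`, `wordProd_cons`.
`prod_single`: let `c` be the count of `τ = v * s x * v⁻¹` in `rightInvSeq ω`; the state after `ω` is `(w, σ x ^ c * α)`, `w = π ω * v * s x ^ c`; keep also `Dih cs i j v w` in the induction statement. For `g :: ω`: `rightInvSeq (g :: ω) = (π ω)⁻¹ * s g * π ω :: rightInvSeq ω`.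
By `deodhar` either `s g * w` is minimal or `s g * w = w * s y`, `p y`, and then `y = x` by `hone`. LOOP: `s g * w = w * s x` iff `(π ω)⁻¹ * s g * π ω = v * s x ^ c * s x * s x ^ (-c) * v⁻¹ = v * s x * v⁻¹ = τ`. So if `(π ω)⁻¹ * s g * π ω = τ`: `stp_loop`, the count is `c + 1`,
`π (g :: ω) * v * s x ^ (c + 1) = s g * w * s x = w * s x * s x = w` (the state does not move), `σ x * (σ x ^ c * α) = σ x ^ (c+1) * α`. Otherwise `s g * w` is minimal (`deodhar`, not a loop): `stp_move`, the count is `c`.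
-/

set_option autoImplicit false

namespace Pool.Agent.Lib.MP_9dbb0e_al

variable {B W : Type} [Group W] {M : CoxeterMatrix B} (cs : CoxeterSystem M W) (p : B → Prop)

theorem prod_noloop (i j : B) (v : {v : W // MinR cs p v})
    (hno : ∀ w : W, Dih cs i j v.1 w → MinR cs p w → ∀ g, (g = i ∨ g = j) →
      MinR cs p (cs.simple g * w)) (ω : List B) (hω : ∀ g ∈ ω, g = i ∨ g = j)
    (α : Art (sub M p)) :
    ∃ h : MinR cs p (cs.wordProd ω * v.1),
      (ω.map (stp cs p)).prod (v, α) = (⟨cs.wordProd ω * v.1, h⟩, α) := by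
  induction ω with
  | nil =>
    have e : cs.wordProd [] * v.1 = v.1 := by rw [cs.wordProd_nil, one_mul]
    refine ⟨by rw [e]; exact v.2, ?_⟩
    rw [List.map_nil, List.prod_nil, Equiv.Perm.one_apply]
    exact Prod.ext (Subtype.ext e.symm) rfl
  | cons g ω ih =>
    obtain ⟨h, e⟩ := ih fun g' hg' => hω g' (List.mem_cons_of_mem _ hg')
    have h2 : MinR cs p (cs.simple g * (cs.wordProd ω * v.1)) :=
      hno _ ⟨ω, fun g' hg' => hω g' (List.mem_cons_of_mem _ hg'), rfl⟩ h g
        (hω g List.mem_cons_self)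
    have e2 : cs.wordProd (g :: ω) * v.1 = cs.simple g * (cs.wordProd ω * v.1) := by
      rw [cs.wordProd_cons, mul_assoc]
    refine ⟨by rw [e2]; exact h2, ?_⟩
    rw [List.map_cons, List.prod_cons, Equiv.Perm.mul_apply, e, stp_move cs p g _ α h2]
    exact Prod.ext (Subtype.ext e2.symm) rfl

private theorem w5a_loop {G : Type} [Group G] (a b V X : G) (c : ℕ) :
    a * (b * V * X ^ c) = b * V * X ^ c * X ↔ b⁻¹ * a * b = V * X * V⁻¹ := by
  have hcomm : X ^ c * X = X * X ^ c := by rw [← pow_succ, ← pow_succ']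
  constructor
  · intro h
    have h1 : a * b * V * X ^ c = b * V * X * X ^ c := by
      calc a * b * V * X ^ c = a * (b * V * X ^ c) := by simp only [mul_assoc]
        _ = b * V * X ^ c * X := h
        _ = b * V * (X ^ c * X) := by simp only [mul_assoc]
        _ = b * V * X * X ^ c := by rw [hcomm]; simp only [mul_assoc]
    have h2 : a * b * V = b * V * X := mul_right_cancel h1
    calc b⁻¹ * a * b = b⁻¹ * (a * b * V) * V⁻¹ := by
          simp only [mul_assoc, mul_inv_cancel, mul_one]
      _ = V * X * V⁻¹ := by rw [h2]; simp only [mul_assoc, inv_mul_cancel_left]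
  · intro h
    have h1 : a * b = b * (V * X * V⁻¹) := by
      rw [← h]
      simp only [mul_assoc, mul_inv_cancel_left]
    calc a * (b * V * X ^ c) = a * b * (V * X ^ c) := by simp only [mul_assoc]
      _ = b * V * (X * X ^ c) := by
          rw [h1]
          simp only [mul_assoc, inv_mul_cancel_left]
      _ = b * V * X ^ c * X := by rw [← hcomm]; simp only [mul_assoc]

private theorem w5a_single [DecidableEq W] (i j : B) (v : {v : W // MinR cs p v})
    (x : {x : B // p x})
    (hone : ∀ w : W, Dih cs i j v.1 w → MinR cs p w → ∀ g, (g = i ∨ g = j) → ∀ y, p y →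
      cs.simple g * w = w * cs.simple y → y = x.1) (ω : List B) (hω : ∀ g ∈ ω, g = i ∨ g = j)
    (α : Art (sub M p)) : ∀ (c : ℕ)
    (_ : c = List.count (v.1 * cs.simple x.1 * v.1⁻¹) (cs.rightInvSeq ω)),
    Dih cs i j v.1 (cs.wordProd ω * v.1 * cs.simple x.1 ^ c) ∧
    ∃ h : MinR cs p (cs.wordProd ω * v.1 * cs.simple x.1 ^ c),
      (ω.map (stp cs p)).prod (v, α) =
        (⟨cs.wordProd ω * v.1 * cs.simple x.1 ^ c, h⟩, σ (sub M p) x ^ c * α) := by
  induction ω with
  | nil =>
    intro c hc
    rw [cs.rightInvSeq_nil, List.count_nil] at hc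
    subst hc
    have e : cs.wordProd [] * v.1 * cs.simple x.1 ^ 0 = v.1 := by
      rw [cs.wordProd_nil, one_mul, pow_zero, mul_one]
    refine ⟨by rw [e]; exact Dih.refl cs i j v.1, by rw [e]; exact v.2, ?_⟩
    rw [List.map_nil, List.prod_nil, Equiv.Perm.one_apply]
    refine Prod.ext (Subtype.ext e.symm) ?_
    show α = σ (sub M p) x ^ 0 * α
    rw [pow_zero, one_mul]
  | cons g ω ih =>
    intro c' hc'
    obtain ⟨c, hc⟩ : ∃ c, c = List.count (v.1 * cs.simple x.1 * v.1⁻¹) (cs.rightInvSeq ω) :=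
      ⟨_, rfl⟩
    obtain ⟨D, h, e⟩ := ih (fun g' hg' => hω g' (List.mem_cons_of_mem _ hg')) c hc
    have hg := hω g List.mem_cons_self
    have hris : cs.rightInvSeq (g :: ω) =
        (cs.wordProd ω)⁻¹ * cs.simple g * cs.wordProd ω :: cs.rightInvSeq ω := rfl
    rw [hris] at hc'
    obtain ⟨w, hw⟩ : ∃ w, w = cs.wordProd ω * v.1 * cs.simple x.1 ^ c := ⟨_, rfl⟩
    have hloop := w5a_loop (cs.simple g) (cs.wordProd ω) v.1 (cs.simple x.1) c
    by_cases hl : (cs.wordProd ω)⁻¹ * cs.simple g * cs.wordProd ω =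
        v.1 * cs.simple x.1 * v.1⁻¹
    · rw [hl, List.count_cons_self, ← hc] at hc'
      have h3 := hloop.2 hl
      have e2 : cs.wordProd (g :: ω) * v.1 * cs.simple x.1 ^ (c + 1) =
          cs.wordProd ω * v.1 * cs.simple x.1 ^ c := by
        calc cs.wordProd (g :: ω) * v.1 * cs.simple x.1 ^ (c + 1)
            = cs.simple g * (cs.wordProd ω * v.1 * cs.simple x.1 ^ c) * cs.simple x.1 := by
              rw [cs.wordProd_cons, pow_succ]
              simp only [mul_assoc]
          _ = cs.wordProd ω * v.1 * cs.simple x.1 ^ c * (cs.simple x.1 * cs.simple x.1) := by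
              rw [h3]
              simp only [mul_assoc]
          _ = _ := by rw [cs.simple_mul_simple_self, mul_one]
      subst hc'
      refine ⟨by rw [e2]; exact D, by rw [e2]; exact h, ?_⟩
      rw [List.map_cons, List.prod_cons, Equiv.Perm.mul_apply, e,
        stp_loop cs p g _ _ x h3, ← mul_assoc, ← pow_succ']
      exact Prod.ext (Subtype.ext e2.symm) rfl
    · rw [List.count_cons_of_ne hl, ← hc] at hc'
      have h2 : MinR cs p (cs.simple g * (cs.wordProd ω * v.1 * cs.simple x.1 ^ c)) := by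
        rcases deodhar cs p _ h g with h3 | ⟨y, hy, h3⟩
        · exact h3
        · have hyx := hone _ D h g hg y hy h3
          rw [hyx] at h3
          exact absurd (hloop.1 h3) hl
      have e2 : cs.wordProd (g :: ω) * v.1 * cs.simple x.1 ^ c =
          cs.simple g * (cs.wordProd ω * v.1 * cs.simple x.1 ^ c) := by
        rw [cs.wordProd_cons]
        simp only [mul_assoc]
      subst hc'
      refine ⟨by rw [e2]; exact D.step cs g hg, by rw [e2]; exact h2, ?_⟩
      rw [List.map_cons, List.prod_cons, Equiv.Perm.mul_apply, e, stp_move cs p g _ _ h2]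
      exact Prod.ext (Subtype.ext e2.symm) rfl

theorem prod_single [DecidableEq W] (i j : B) (v : {v : W // MinR cs p v}) (x : {x : B // p x})
    (hone : ∀ w : W, Dih cs i j v.1 w → MinR cs p w → ∀ g, (g = i ∨ g = j) → ∀ y, p y →
      cs.simple g * w = w * cs.simple y → y = x.1) (ω : List B) (hω : ∀ g ∈ ω, g = i ∨ g = j)
    (α : Art (sub M p)) (c : ℕ)
    (hc : c = List.count (v.1 * cs.simple x.1 * v.1⁻¹) (cs.rightInvSeq ω)) :
    ∃ h : MinR cs p (cs.wordProd ω * v.1 * cs.simple x.1 ^ c),
      (ω.map (stp cs p)).prod (v, α) =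
        (⟨cs.wordProd ω * v.1 * cs.simple x.1 ^ c, h⟩, σ (sub M p) x ^ c * α) :=
  (w5a_single cs p i j v x hone ω hω α c hc).2

end Pool.Agent.Lib.MP_9dbb0e_al
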