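import Pool.Agent.Lib.MP_9dbb0e_al.W5Defs

/-!
# JOB W5b: alternating words of length `M i j`
-/

set_option autoImplicit false

namespace Pool.Agent.Lib.MP_9dbb0e_al

variable {B W : Type} [Group W] {M : CoxeterMatrix B} (cs : CoxeterSystem M W)

theorem la_mem (i j : B) (m : ℕ) : ∀ g ∈ la i j m, g = i ∨ g = j := by
  intro g hg
  unfold la at hg
  rw [List.mem_map] at hg
  obtain ⟨k, _, rfl⟩ := hg
  by_cases hk : Even k
  · left; rw [if_pos hk]
  · right; rw [if_neg hk]

private theorem w5b_la_aw {B : Type} (i j : B) (m : ℕ) :
    la i j m = if Even m then CoxeterSystem.alternatingWord i j m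
      else CoxeterSystem.alternatingWord j i m := by
  induction m with
  | zero => rw [if_pos (by simp)]; rfl
  | succ m ih =>
    have hl : la i j (m + 1) = (la i j m).concat (if Even m then i else j) := by
      unfold la
      rw [List.range_succ, List.map_append, List.concat_eq_append]
      rfl
    rw [hl, ih]
    by_cases hm : Even m
    · have hm' : ¬ Even (m + 1) := by rw [Nat.even_add_one]; exact not_not.2 hm
      rw [if_pos hm, if_pos hm, if_neg hm', CoxeterSystem.alternatingWord_succ]
    · have hm' : Even (m + 1) := by rw [Nat.even_add_one]; exact hm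
      rw [if_neg hm, if_neg hm, if_pos hm', CoxeterSystem.alternatingWord_succ]

theorem wordProd_la (i j : B) :
    cs.wordProd (la i j (M.M i j)) = cs.wordProd (la j i (M.M i j)) := by
  have h := cs.wordProd_braidWord_eq i j
  have hs : M.M j i = M.M i j := M.symmetric j i
  have h' : cs.wordProd (CoxeterSystem.alternatingWord i j (M.M i j)) =
      cs.wordProd (CoxeterSystem.alternatingWord j i (M.M i j)) := by
    have e1 : CoxeterSystem.braidWord M i j = CoxeterSystem.alternatingWord i j (M.M i j) := rfl
    have e2 : CoxeterSystem.braidWord M j i = CoxeterSystem.alternatingWord j i (M.M j i) := rfl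
    rw [e1, e2, hs] at h
    exact h
  rw [w5b_la_aw, w5b_la_aw]
  by_cases hm : Even (M.M i j)
  · rw [if_pos hm, if_pos hm, h']
  · rw [if_neg hm, if_neg hm, h']

private theorem w5b_ris (m : ℕ) : ∀ i i' : B,
    cs.rightInvSeq (CoxeterSystem.alternatingWord i i' m) =
      (List.range m).reverse.map (fun r => (cs.simple i' * cs.simple i) ^ r * cs.simple i') := by
  induction m with
  | zero => intro i i'; rfl
  | succ m ih =>
    intro i i'
    rw [CoxeterSystem.alternatingWord_succ, CoxeterSystem.rightInvSeq_concat, ih i' i,
      List.range_succ_eq_map, List.reverse_cons, List.map_append, List.concat_eq_append]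
    refine congrArg₂ (· ++ ·) ?_ ?_
    · rw [List.map_map, ← List.map_reverse, List.map_map]
      refine List.map_congr_left fun r _ => ?_
      simp only [Function.comp_apply, MulAut.conj_apply, Nat.succ_eq_add_one]
      rw [cs.inv_simple, ← mul_assoc]
      have key : ∀ (a b : W) (n : ℕ), a * (b * a) ^ n * b = (a * b) ^ (n + 1) := by
        intro a b n
        induction n with
        | zero => simp
        | succ n ihn =>
          rw [pow_succ (b * a), pow_succ (a * b), ← ihn]
          simp only [mul_assoc]
      rw [key]
    · simp

private theorem w5b_flip (a b : B) (m n : ℕ) (hn : n < m)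
    (hab : (cs.simple b * cs.simple a) ^ m = 1) :
    (cs.simple a * cs.simple b) ^ (m - 1 - n) * cs.simple a =
      (cs.simple b * cs.simple a) ^ n * cs.simple b := by
  have hinv : cs.simple a * cs.simple b = (cs.simple b * cs.simple a)⁻¹ := by
    rw [mul_inv_rev, cs.inv_simple, cs.inv_simple]
  have e2 : m = (m - 1 - n + n) + 1 := by omega
  have h1 : (cs.simple b * cs.simple a) ^ (m - 1 - n + n) = cs.simple a * cs.simple b := by
    rw [hinv, eq_inv_iff_mul_eq_one, ← pow_succ, ← e2, hab]
  rw [hinv, inv_pow, inv_mul_eq_iff_eq_mul, ← mul_assoc, ← pow_add, h1, mul_assoc,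
    cs.simple_mul_simple_self, mul_one]

theorem count_la [DecidableEq W] (i j : B) (t : W) :
    List.count t (cs.rightInvSeq (la i j (M.M i j))) =
      List.count t (cs.rightInvSeq (la j i (M.M i j))) := by
  have key : ∀ a b : B, (cs.simple b * cs.simple a) ^ (M.M i j) = 1 →
      List.count t (cs.rightInvSeq (CoxeterSystem.alternatingWord a b (M.M i j))) =
      List.count t (cs.rightInvSeq (CoxeterSystem.alternatingWord b a (M.M i j))) := by
    intro a b hab
    rw [w5b_ris, w5b_ris]
    have e : (List.range (M.M i j)).reverse.map
        (fun r => (cs.simple a * cs.simple b) ^ r * cs.simple a) =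
        ((List.range (M.M i j)).reverse.map
          (fun r => (cs.simple b * cs.simple a) ^ r * cs.simple b)).reverse := by
      refine List.ext_getElem (by simp) fun n h1 h2 => ?_
      have hn : n < M.M i j := by simpa using h1
      simp only [List.getElem_map, List.getElem_reverse, List.getElem_range, List.length_range,
        List.length_reverse, List.length_map]
      have e1 : M.M i j - 1 - (M.M i j - 1 - n) = n := by omega
      rw [e1]
      exact w5b_flip cs a b (M.M i j) n hn hab
    rw [e, List.count_reverse]
  have h1 : (cs.simple i * cs.simple j) ^ (M.M i j) = 1 := cs.simple_mul_simple_pow i j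
  have h2 : (cs.simple j * cs.simple i) ^ (M.M i j) = 1 := cs.simple_mul_simple_pow' i j
  rw [w5b_la_aw, w5b_la_aw]
  by_cases hm : Even (M.M i j)
  · rw [if_pos hm, if_pos hm, key i j h2]
  · rw [if_neg hm, if_neg hm, key j i h1]

end Pool.Agent.Lib.MP_9dbb0e_al
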