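import Pool.Agent.Lib.MP_9dbb0e_al.W5a
import Pool.Agent.Lib.MP_9dbb0e_al.W5b

/-!
# JOB W5c: the braid relations for the action

PROOF. `classical`. `alt_eq_prod` turns both sides into `((la i j m).map (stp cs p)).prod`, `((la j i m).map (stp cs p)).prod`, `m = M i j`. Apply both to a state `(v, α)` (`Equiv.ext`). A label is an `x` with `p x` such that there are `w` with `Dih cs i j v w`, `MinR cs p w` and `g ∈ {i, j}` with `s g * w = w * s x`.
(a) no label: `prod_noloop` for both words (`hno` from `deodhar`; note `Dih` for `j, i` instead of `i, j`: use the letters `i, j` for both words, `la_mem`), `wordProd_la`.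
(b) exactly one label `x`: `prod_single` for both words, `wordProd_la`, `count_la`.
(c) two different labels `x, y`: `dih_two`: `s i * v = v * s x`, `s j * v = v * s y` or the same with `x, y` exchanged; let `x', y'` be the labels of `i, j` at `v`. `stp i (v, β) = (v, σ x' * β)`, `stp j (v, β) = (v, σ y' * β)` (`stp_loop`), so by induction on `n` (`alt_succ'`) `alt (stp i) (stp j) n (v, β) = (v, alt (σ x') (σ y') n * β)`, and the
same for `j, i`. `s x' * s y' = v⁻¹ * (s i * s j) * v`, so `orderOf (s x' * s y') = orderOf (s i * s j)` (`MulAut.conj`, `orderOf_injective`, or `isConj` lemma), i.e. `M x' y' = M i j` (`orderOf_simple`); `(sub M p).M x' y' = M.M x'.1 y'.1`; `braid (sub M p) x' y'`.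
-/

set_option autoImplicit false

namespace Pool.Agent.Lib.MP_9dbb0e_al

variable {B W : Type} [Group W] {M : CoxeterMatrix B} (cs : CoxeterSystem M W) (p : B → Prop)

private theorem w5c_order (v : W) (i j x y : B) (h1 : cs.simple i * v = v * cs.simple x)
    (h2 : cs.simple j * v = v * cs.simple y) : M.M x y = M.M i j := by
  rw [← orderOf_simple cs x y, ← orderOf_simple cs i j]
  have e : cs.simple x * cs.simple y = MulAut.conj v⁻¹ (cs.simple i * cs.simple j) := by
    rw [MulAut.conj_apply, inv_inv, mul_assoc, mul_assoc, h2, ← mul_assoc (cs.simple i), h1,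
      mul_assoc, inv_mul_cancel_left]
  rw [e]
  exact orderOf_injective (MulAut.conj v⁻¹).toMonoidHom (MulAut.conj v⁻¹).injective _

private theorem w5c_loops (v : {v : W // MinR cs p v}) (n : ℕ) :
    ∀ (i j : B) (x y : {x : B // p x}), cs.simple i * v.1 = v.1 * cs.simple x.1 →
      cs.simple j * v.1 = v.1 * cs.simple y.1 → ∀ β : Art (sub M p),
      alt (stp cs p i) (stp cs p j) n (v, β) =
        (v, alt (σ (sub M p) x) (σ (sub M p) y) n * β) := by
  induction n with
  | zero =>
    intro i j x y _ _ β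
    rw [alt_zero, alt_zero, one_mul, Equiv.Perm.one_apply]
  | succ n ih =>
    intro i j x y h1 h2 β
    rw [alt_succ', alt_succ', Equiv.Perm.mul_apply, ih j i y x h2 h1 β,
      stp_loop cs p i v _ x h1, mul_assoc]

theorem braid_stp (i j : B) (hij : i ≠ j) (hM : M.M i j ≠ 0) :
    alt (stp cs p i) (stp cs p j) (M.M i j) = alt (stp cs p j) (stp cs p i) (M.M i j) := by
  classical
  apply Equiv.ext
  rintro ⟨v, α⟩
  have e1 : alt (stp cs p i) (stp cs p j) (M.M i j) =
      ((la i j (M.M i j)).map (stp cs p)).prod := alt_eq_prod (stp cs p) i j _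
  have e2 : alt (stp cs p j) (stp cs p i) (M.M i j) =
      ((la j i (M.M i j)).map (stp cs p)).prod := alt_eq_prod (stp cs p) j i _
  have hm1 : ∀ g ∈ la i j (M.M i j), g = i ∨ g = j := la_mem i j _
  have hm2 : ∀ g ∈ la j i (M.M i j), g = i ∨ g = j := fun g hg => (la_mem j i _ g hg).symm
  by_cases h2 : ∃ x y : B, x ≠ y ∧ p x ∧ p y ∧
      (∃ w g, Dih cs i j v.1 w ∧ MinR cs p w ∧ (g = i ∨ g = j) ∧
        cs.simple g * w = w * cs.simple x) ∧
      (∃ w g, Dih cs i j v.1 w ∧ MinR cs p w ∧ (g = i ∨ g = j) ∧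
        cs.simple g * w = w * cs.simple y)
  · obtain ⟨x, y, hxy, hx, hy, ⟨w₁, g₁, d₁, m₁, hg₁, q₁⟩, ⟨w₂, g₂, d₂, m₂, hg₂, q₂⟩⟩ := h2
    have key : ∃ x' y' : {x : B // p x}, x' ≠ y' ∧ cs.simple i * v.1 = v.1 * cs.simple x'.1 ∧
        cs.simple j * v.1 = v.1 * cs.simple y'.1 := by
      rcases dih_two cs p i j v.1 v.2 x y hx hy hxy w₁ w₂ d₁ d₂ m₁ m₂ g₁ g₂ hg₁ hg₂ q₁ q₂ with h | h
      · exact ⟨⟨x, hx⟩, ⟨y, hy⟩, fun e => hxy (congrArg Subtype.val e), h.1, h.2⟩
      · exact ⟨⟨y, hy⟩, ⟨x, hx⟩, fun e => hxy (congrArg Subtype.val e).symm, h.1, h.2⟩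
    obtain ⟨x', y', hne, k1, k2⟩ := key
    have hord : (sub M p).M x' y' = M.M i j := w5c_order cs v.1 i j x'.1 y'.1 k1 k2
    have hb := braid (sub M p) x' y' hne (by rw [hord]; exact hM)
    rw [hord] at hb
    rw [w5c_loops cs p v _ i j x' y' k1 k2 α, w5c_loops cs p v _ j i y' x' k2 k1 α, hb]
  · by_cases h1 : ∃ x : B, p x ∧
      (∃ w g, Dih cs i j v.1 w ∧ MinR cs p w ∧ (g = i ∨ g = j) ∧
        cs.simple g * w = w * cs.simple x)
    · obtain ⟨x, hx, hw⟩ := h1
      have hone : ∀ w : W, Dih cs i j v.1 w → MinR cs p w → ∀ g, (g = i ∨ g = j) → ∀ y, p y →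
          cs.simple g * w = w * cs.simple y → y = (⟨x, hx⟩ : {x : B // p x}).1 := by
        intro w hd hmin g hg y hy hq
        by_contra hne
        exact h2 ⟨x, y, fun e => hne e.symm, hx, hy, hw, w, g, hd, hmin, hg, hq⟩
      obtain ⟨a1, b1⟩ := prod_single cs p i j v ⟨x, hx⟩ hone (la i j (M.M i j)) hm1 α _ rfl
      obtain ⟨a2, b2⟩ := prod_single cs p i j v ⟨x, hx⟩ hone (la j i (M.M i j)) hm2 α _ rfl
      rw [e1, e2, b1, b2]
      refine Prod.ext (Subtype.ext ?_) ?_
      · show cs.wordProd (la i j (M.M i j)) * v.1 * _ ^ _ =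
          cs.wordProd (la j i (M.M i j)) * v.1 * _ ^ _
        rw [wordProd_la cs i j, count_la cs i j]
      · show _ ^ _ * α = _ ^ _ * α
        rw [count_la cs i j]
    · have hno : ∀ w : W, Dih cs i j v.1 w → MinR cs p w → ∀ g, (g = i ∨ g = j) →
          MinR cs p (cs.simple g * w) := by
        intro w hd hmin g hg
        rcases deodhar cs p w hmin g with h | ⟨x, hx, hq⟩
        · exact h
        · exact absurd ⟨x, hx, w, g, hd, hmin, hg, hq⟩ h1
      obtain ⟨a1, b1⟩ := prod_noloop cs p i j v hno (la i j (M.M i j)) hm1 α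
      obtain ⟨a2, b2⟩ := prod_noloop cs p i j v hno (la j i (M.M i j)) hm2 α
      rw [e1, e2, b1, b2]
      refine Prod.ext (Subtype.ext ?_) rfl
      show cs.wordProd (la i j (M.M i j)) * v.1 = cs.wordProd (la j i (M.M i j)) * v.1
      rw [wordProd_la cs i j]

end Pool.Agent.Lib.MP_9dbb0e_al
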