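import Pool.Agent.Lib.MP_9dbb0e_al.XDefs
import Pool.Agent.Lib.MP_9dbb0e_al.T4

/-!
# JOB X1a: a hyperbolic element and powers of an elliptic element fixing long segments

PROOF. `ρ x = L x` (`x : ℕ`) is a ray (`ha.line`), `a • ρ x = ρ (x + t)`. `hR ρ` gives `n, N, Q, π`: `hfix`, `htr`. `htr a t`: `j > 0` with `a ^ j ∈ N`. `h n`: `m₁ > 0` with `b ^ (k * m₁)` fixing `L n`; it also fixes `L 0` (a power of `b ^ k`: `pow_mul`, a power of an element of the stabilizer), so `b ^ (k * m₁) ∈ N` by `hfix`.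
Put `e₀ = j * (k * m₁)`; `a ^ e₀, b ^ e₀ ∈ N` (`pow_mul`, `N.pow_mem`). `PA Q` for `π ⟨a ^ e₀, _⟩`, `π ⟨b ^ e₀, _⟩`: `n₁ > 0`. CASE 1: free: `FreeTwo.of_map π` (for the elements `⟨a ^ e₀, _⟩ ^ n₁`, `⟨b ^ e₀, _⟩ ^ n₁` of `N`), then `FreeTwo.map N.subtype`: `FreeTwo (a ^ e) (b ^ e)`, `e = e₀ * n₁`.
CASE 2: the images of `A := a ^ e` and `B := b ^ e` (`e = e₀ * n₁ > 0`, both in `N`) under `π` commute. `A • L x = L (x + e * t)`. `h (n + e * t)`: `m₂ > 0` such that `b ^ (k * m₂)` fixes `L (n + e t)` (and `L 0`), so by `fix_seg` (or `ray_fix`) it fixes `L x` for `0 ≤ x ≤ n + e t`. Let `D = B ^ (k * m₂) = (b ^ (k * m₂)) ^ e`; `D` fixes these `L x`.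
`f = D * A⁻¹ * D⁻¹ * A` is in `N`, fixes `L 0` and `L n` (`A • L x = L (x + e t)`, `D⁻¹` fixes it, `A⁻¹` maps it back to `L x`, `D` fixes `L x`; `x = 0`, `x = n`), and `π ⟨f, _⟩ = 1` (`π D = (π B) ^ (k m₂)` commutes with `π A`). So `f = 1`, hence `A` and `D` commute. So `A ^ (k m₂)` and `D = B ^ (k m₂)` commute: `n = e * (k * m₂)`.
-/

set_option autoImplicit false

namespace Pool.Agent.Lib.MP_9dbb0e_al

variable {G V : Type} [Group G] [MulAction G V] {T : TM V}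

private theorem x1a_fix_pow (g : G) (p : V) (h : g • p = p) (m : ℕ) : g ^ m • p = p := by
  induction m with
  | zero => rw [pow_zero, one_smul]
  | succ m ih => rw [pow_succ, mul_smul, h, ih]

private theorem x1a_inv (g : G) (p : V) (h : g • p = p) : g⁻¹ • p = p := by
  rw [inv_smul_eq_iff, h]

theorem eh_ray (hT : Act G V T) (hR : RayCond G T) (a b : G) {L : ℤ → V} {t : ℕ}
    (ha : Ax T a L t) (k : ℕ) (hk : 0 < k) (h0 : b ^ k • L 0 = L 0)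
    (h : ∀ y : ℕ, ∃ m : ℕ, 0 < m ∧ b ^ (k * m) • L y = L y) : Alt2 a b := by
  obtain ⟨ρ, hρ⟩ : ∃ ρ : ℕ → V, ρ = fun x : ℕ => L x := ⟨_, rfl⟩
  have hρ' : ∀ x : ℕ, ρ x = L x := fun x => by rw [hρ]
  have hray : Ray T ρ := by
    intro i j
    rw [hρ', hρ', ha.line]
    push_cast
    omega
  have hsh : ∀ x : ℕ, a • ρ x = ρ (x + t) := by
    intro x
    rw [hρ', hρ', ha.shift]
    push_cast
    rfl
  obtain ⟨n, N, Q, instQ, π, hPA, hfix, htr⟩ := hR ρ hray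
  obtain ⟨j, hj, haj⟩ := htr a t ha.pos hsh
  obtain ⟨m1, hm1, hb1⟩ := h n
  have hb0 : ∀ m, b ^ (k * m) • ρ 0 = ρ 0 := by
    intro m
    rw [pow_mul]
    refine x1a_fix_pow _ _ ?_ m
    rw [hρ']
    exact h0
  obtain ⟨hbN, -⟩ := hfix (b ^ (k * m1)) (hb0 m1) (by rw [hρ']; exact hb1)
  have hA0 : a ^ (j * (k * m1)) ∈ N := by
    rw [pow_mul]
    exact N.pow_mem haj _
  have hB0 : b ^ (j * (k * m1)) ∈ N := by
    rw [mul_comm, pow_mul]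
    exact N.pow_mem hbN _
  have he0 : 0 < j * (k * m1) := Nat.mul_pos hj (Nat.mul_pos hk hm1)
  obtain ⟨e0, he0def⟩ : ∃ e0, e0 = j * (k * m1) := ⟨_, rfl⟩
  rw [← he0def] at hA0 hB0 he0
  obtain ⟨n1, hn1, hPA1⟩ := hPA (π ⟨a ^ e0, hA0⟩) (π ⟨b ^ e0, hB0⟩)
  have hA : a ^ (e0 * n1) ∈ N := by
    rw [pow_mul]
    exact N.pow_mem hA0 _
  have hB : b ^ (e0 * n1) ∈ N := by
    rw [pow_mul]
    exact N.pow_mem hB0 _
  have eA : (⟨a ^ e0, hA0⟩ : N) ^ n1 = ⟨a ^ (e0 * n1), hA⟩ := by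
    apply Subtype.ext
    exact (pow_mul a e0 n1).symm
  have eB : (⟨b ^ e0, hB0⟩ : N) ^ n1 = ⟨b ^ (e0 * n1), hB⟩ := by
    apply Subtype.ext
    exact (pow_mul b e0 n1).symm
  rw [← map_pow, ← map_pow, eA, eB] at hPA1
  have he : 0 < e0 * n1 := Nat.mul_pos he0 hn1
  obtain ⟨e, hedef⟩ : ∃ e, e = e0 * n1 := ⟨_, rfl⟩
  rcases hPA1 with hcom | hfree
  · -- the images commute
    have hcom' : Commute (π ⟨a ^ (e0 * n1), hA⟩) (π ⟨b ^ (e0 * n1), hB⟩) := hcom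
    obtain ⟨A', hA'⟩ : ∃ A' : N, A' = ⟨a ^ (e0 * n1), hA⟩ := ⟨_, rfl⟩
    obtain ⟨B', hB'⟩ : ∃ B' : N, B' = ⟨b ^ (e0 * n1), hB⟩ := ⟨_, rfl⟩
    rw [← hA', ← hB'] at hcom'
    have cA : (A' : G) = a ^ e := by rw [hA', hedef]
    have cB : (B' : G) = b ^ e := by rw [hB', hedef]
    rw [← hedef] at he
    obtain ⟨m2, hm2, hb2⟩ := h (n + e * t)
    have hAsh : ∀ x : ℕ, a ^ e • ρ x = ρ (x + e * t) := fun x => ray_pow a t hsh e x
    obtain ⟨D, hD⟩ : ∃ D, D = b ^ (e * (k * m2)) := ⟨_, rfl⟩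
    have hD1 : D = (b ^ (k * m2)) ^ e := by rw [hD, mul_comm, pow_mul]
    have hD2 : D = (b ^ e) ^ (k * m2) := by rw [hD, pow_mul]
    have hDx : ∀ x, x ≤ n + e * t → D • ρ x = ρ x := by
      intro x hx
      refine ray_fix hT hray D (n + e * t) x hx ?_ ?_
      · rw [hD1]
        exact x1a_fix_pow _ _ (hb0 m2) e
      · rw [hD1]
        refine x1a_fix_pow _ _ ?_ e
        rw [hρ']
        exact hb2
    have hf : ∀ x, x ≤ n → (D * (a ^ e)⁻¹ * D⁻¹ * a ^ e) • ρ x = ρ x := by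
      intro x hx
      rw [mul_smul, mul_smul, mul_smul, hAsh x, x1a_inv D _ (hDx (x + e * t) (by omega))]
      have h1 : (a ^ e)⁻¹ • ρ (x + e * t) = ρ x := by
        rw [inv_smul_eq_iff, hAsh x]
      rw [h1]
      exact hDx x (by omega)
    obtain ⟨hfN, hf1⟩ := hfix _ (hf 0 (Nat.zero_le _)) (hf n le_rfl)
    have hcD : Commute (π (B' ^ (k * m2))) (π A') := by
      rw [map_pow]
      exact (hcom'.pow_right _).symm
    have e1 : (⟨D * (a ^ e)⁻¹ * D⁻¹ * a ^ e, hfN⟩ : N) =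
        B' ^ (k * m2) * A'⁻¹ * (B' ^ (k * m2))⁻¹ * A' := by
      apply Subtype.ext
      change D * (a ^ e)⁻¹ * D⁻¹ * a ^ e =
        ((B' ^ (k * m2) * A'⁻¹ * (B' ^ (k * m2))⁻¹ * A' : N) : G)
      push_cast
      rw [cA, cB, ← hD2]
    have e2 : π ⟨D * (a ^ e)⁻¹ * D⁻¹ * a ^ e, hfN⟩ = 1 := by
      rw [e1, map_mul, map_mul, map_mul, map_inv, map_inv, (hcD.inv_right).eq,
        mul_assoc ((π A')⁻¹), mul_inv_cancel, mul_one, inv_mul_cancel]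
    have e3 := hf1 e2
    have hc : Commute (a ^ e) D := by
      have e4 : D * (a ^ e)⁻¹ * D⁻¹ = (a ^ e)⁻¹ := mul_eq_one_iff_eq_inv.1 e3
      have e5 : D * (a ^ e)⁻¹ = (a ^ e)⁻¹ * D := mul_inv_eq_iff_eq_mul.1 e4
      have e6 : Commute D (a ^ e)⁻¹ := e5
      have e7 := e6.inv_right
      rw [inv_inv] at e7
      exact e7.symm
    refine ⟨e * (k * m2), Nat.mul_pos he (Nat.mul_pos hk hm2), Or.inl ?_⟩
    rw [← hD, pow_mul]
    exact hc.pow_left _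
  · refine ⟨e0 * n1, he, Or.inr ?_⟩
    exact (FreeTwo.of_map π hfree).map N.subtype N.subtype_injective

end Pool.Agent.Lib.MP_9dbb0e_al
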