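import Pool.Agent.Lib.MP_9dbb0e_al.XDefs
import Pool.Agent.Lib.MP_9dbb0e_al.T4
import Pool.Agent.Lib.MP_9dbb0e_al.T5

/-!
# JOB X1b: a hyperbolic element and an elliptic element whose powers do not fix long segments

PROOF. (Compare case 2b in the proof of `eh`, T7.lean, from line 225: COPY and edit; the private lemmas `t7b_natAbs`, `t7b_zpow`, `t7b_sign` there.) `B = b ^ k`, it fixes `p = L 0`; `B ^ m` (`m : ℤ`) fixes `L 0`. (1) For `m ≠ 0`, `B ^ m` does not fix `L y` and not `L (-y)` (`t7b_natAbs`, `h1`, `h2`). (2) Let `J = {m : ℤ | B ^ m • L (-y) = L y}`. `J` has at most one element: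
if `m, m' ∈ J` then `B ^ (m - m')` (`= B ^ (-m') * B ^ m`) fixes `L (-y)`, so `m = m'` by (1). So there is `N > 0` such that `N * m ∉ J` for all `m ≠ 0` (`m : ℤ`): if `J` is empty `N = 1`; if `J = {j₀}`: `N = j₀.natAbs + 1` (`|N m| ≥ N > |j₀|`, `Int.natAbs_mul`).
Put `A = a ^ (2 * y + 1)`, `C = B ^ N`. `commonE T hT A C (L 0) (2 * y)`: `C` fixes `L 0`. Claim h1: for `n, n', m ≠ 0`: `gp T (L 0) (A ^ n • L 0) (C ^ m • A ^ n' • L 0) ≤ 2 * y`. Suppose not, so it is `≥ 2 * y`. `A ^ n • L 0 = L (n * (2 y + 1) * t) = L (0 + ε * |..|)`, the same for `n'` with `ε'`; `L'' x = C ^ m • L x` is a line (`hT.iso`) with `L'' 0 = L 0`.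
`agree_gp` (`k = y`): `L (0 + ε * y) = C ^ m • L (0 + ε' * y)`. `C ^ m = B ^ (N * m)`, `N * m ≠ 0`. If `ε = ε'`: contradiction to (1). If `ε = 1, ε' = -1`: `N * m ∈ J`, contradiction. If `ε = -1`, `ε' = 1`: `L (-y) = B ^ (N m) • L y`, so `B ^ (N * (-m)) • L (-y) = L y`, `N * (-m) ∈ J`, contradiction.
Claim h2: `d (L 0) (A ^ n • L 0) = |n| (2 y + 1) t > 2 y`. Result: `FreeTwo (A ^ m) (C ^ n)` for all `m, n > 0`: take `m = k * N`, `n = 2 * y + 1`: `A ^ (k N) = a ^ ((2 y + 1) k N)`, `C ^ (2 y + 1) = b ^ (k N (2 y + 1))`.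
-/

set_option autoImplicit false

namespace Pool.Agent.Lib.MP_9dbb0e_al

variable {G V : Type} [Group G] [MulAction G V] {T : TM V}

private theorem x1b_natAbs (b : G) (m : ℤ) (x : V) (h : b ^ m • x = x) :
    b ^ m.natAbs • x = x := by
  rcases Int.natAbs_eq m with h1 | h1
  · rw [h1, zpow_natCast] at h
    exact h
  · rw [h1, zpow_neg, zpow_natCast, inv_smul_eq_iff] at h
    exact h.symm

private theorem x1b_zpow (b : G) (x : V) (h : b • x = x) (m : ℤ) : b ^ m • x = x := by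
  have h1 : b ∈ MulAction.stabilizer G x := h
  exact (MulAction.stabilizer G x).zpow_mem h1 m

private theorem x1b_sign (j : ℤ) : ∃ ε : ℤ, (ε = 1 ∨ ε = -1) ∧ j = ε * (j.natAbs : ℤ) := by
  rcases Int.natAbs_eq j with h | h
  · exact ⟨1, Or.inl rfl, by omega⟩
  · exact ⟨-1, Or.inr rfl, by omega⟩

private theorem x1b_N (B : G) (u v : V) (h : ∀ m : ℤ, m ≠ 0 → B ^ m • u ≠ u) :
    ∃ N : ℕ, 0 < N ∧ ∀ m : ℤ, m ≠ 0 → B ^ ((N : ℤ) * m) • u ≠ v := by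
  by_cases hJ : ∃ j₀ : ℤ, B ^ j₀ • u = v
  · obtain ⟨j₀, hj₀⟩ := hJ
    refine ⟨j₀.natAbs + 1, Nat.succ_pos _, fun m hm hcon => ?_⟩
    have h1 : B ^ (-j₀ + ((j₀.natAbs + 1 : ℕ) : ℤ) * m) • u = u := by
      rw [zpow_add, mul_smul, hcon, ← hj₀, smul_smul, ← zpow_add, neg_add_cancel, zpow_zero,
        one_smul]
    have h2 : -j₀ + ((j₀.natAbs + 1 : ℕ) : ℤ) * m = 0 := by
      by_contra h3
      exact h _ h3 h1
    have h4 : ((j₀.natAbs + 1 : ℕ) : ℤ) * m = j₀ := by linarith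
    have h5 : (j₀.natAbs + 1) * m.natAbs = j₀.natAbs := by
      have h6 := congrArg Int.natAbs h4
      rw [Int.natAbs_mul, Int.natAbs_natCast] at h6
      exact h6
    have h7 : 1 ≤ m.natAbs := Int.natAbs_pos.mpr hm
    have h8 : (j₀.natAbs + 1) * 1 ≤ (j₀.natAbs + 1) * m.natAbs := Nat.mul_le_mul_left _ h7
    omega
  · exact ⟨1, one_pos, fun m _ hcon => hJ ⟨_, hcon⟩⟩

theorem eh_bdd (hT : Act G V T) (a b : G) {L : ℤ → V} {t : ℕ} (ha : Ax T a L t) (k : ℕ)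
    (hk : 0 < k) (h0 : b ^ k • L 0 = L 0) (y : ℕ)
    (h1 : ∀ m : ℕ, 0 < m → b ^ (k * m) • L y ≠ L y)
    (h2 : ∀ m : ℕ, 0 < m → b ^ (k * m) • L (-(y : ℤ)) ≠ L (-(y : ℤ))) : Alt2 a b := by
  have htpos : 0 < t := ha.pos
  set B : G := b ^ k with hB
  have hBp : ∀ m : ℤ, B ^ m • L 0 = L 0 := x1b_zpow B (L 0) h0
  have hy1 : ∀ m : ℤ, m ≠ 0 → B ^ m • L y ≠ L y := by
    intro m hm hcon
    refine h1 m.natAbs (Int.natAbs_pos.mpr hm) ?_
    rw [pow_mul]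
    exact x1b_natAbs B m _ hcon
  have hy2 : ∀ m : ℤ, m ≠ 0 → B ^ m • L (-(y : ℤ)) ≠ L (-(y : ℤ)) := by
    intro m hm hcon
    refine h2 m.natAbs (Int.natAbs_pos.mpr hm) ?_
    rw [pow_mul]
    exact x1b_natAbs B m _ hcon
  obtain ⟨N, hN, hNJ⟩ := x1b_N B (L (-(y : ℤ))) (L y) hy2
  have hC : ∀ m : ℤ, (B ^ N) ^ m = B ^ ((N : ℤ) * m) := by
    intro m
    rw [zpow_mul, zpow_natCast]
  have hNm : ∀ m : ℤ, m ≠ 0 → (N : ℤ) * m ≠ 0 := by
    intro m hm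
    exact mul_ne_zero (by exact_mod_cast hN.ne') hm
  have hCmp : ∀ m : ℤ, (B ^ N) ^ m • L 0 = L 0 := by
    intro m
    rw [hC]
    exact hBp _
  have hCp : B ^ N • L 0 = L 0 := by
    have h3 := hCmp 1
    rwa [zpow_one] at h3
  have hA : ∀ n : ℤ, (a ^ (2 * y + 1)) ^ n • L 0 = L (0 + ((2 * y + 1 : ℕ) : ℤ) * n * t) := by
    intro n
    have h3 : (a ^ (2 * y + 1)) ^ n = a ^ (((2 * y + 1 : ℕ) : ℤ) * n) := by
      rw [zpow_mul, zpow_natCast]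
    rw [h3]
    exact ha.zpow (((2 * y + 1 : ℕ) : ℤ) * n) 0
  have c1 : ∀ n n' m : ℤ, n ≠ 0 → n' ≠ 0 → m ≠ 0 →
      gp T (L 0) ((a ^ (2 * y + 1)) ^ n • L 0) ((B ^ N) ^ m • (a ^ (2 * y + 1)) ^ n' • L 0) ≤
        2 * y := by
    intro n n' m hn hn' hm
    by_contra hcon
    have hge : 2 * y ≤ gp T (L 0) ((a ^ (2 * y + 1)) ^ n • L 0)
        ((B ^ N) ^ m • (a ^ (2 * y + 1)) ^ n' • L 0) := by omega
    rw [hA, hA] at hge
    obtain ⟨ε, hε, hεn⟩ := x1b_sign (((2 * y + 1 : ℕ) : ℤ) * n * t)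
    obtain ⟨ε', hε', hεn'⟩ := x1b_sign (((2 * y + 1 : ℕ) : ℤ) * n' * t)
    have hL'' : ∀ x z : ℤ, T.d ((fun w => (B ^ N) ^ m • L w) x) ((fun w => (B ^ N) ^ m • L w) z) =
        (x - z).natAbs := by
      intro x z
      show T.d ((B ^ N) ^ m • L x) ((B ^ N) ^ m • L z) = (x - z).natAbs
      rw [hT.iso]
      exact ha.line x z
    have hge' : 2 * y ≤ gp T (L 0)
        (L (0 + ε * ((((2 * y + 1 : ℕ) : ℤ) * n * (t : ℤ)).natAbs : ℤ)))
        ((fun w => (B ^ N) ^ m • L w)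
          (0 + ε' * ((((2 * y + 1 : ℕ) : ℤ) * n' * (t : ℤ)).natAbs : ℤ))) := by
      rw [← hεn, ← hεn']
      exact hge
    obtain ⟨_, _, hag⟩ := agree_gp ha.line hL'' 0 0 ε ε' hε hε' _ _ y (hCmp m).symm hge'
    have hag' : L (0 + ε * (y : ℤ)) = (B ^ N) ^ m • L (0 + ε' * (y : ℤ)) := hag y le_rfl
    have e1 : (0 : ℤ) + 1 * (y : ℤ) = y := by ring
    have e2 : (0 : ℤ) + -1 * (y : ℤ) = -y := by ring
    rcases hε with rfl | rfl <;> rcases hε' with rfl | rfl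
    · rw [e1, hC] at hag'
      exact hy1 _ (hNm m hm) hag'.symm
    · rw [e1, e2, hC] at hag'
      exact hNJ m hm hag'.symm
    · rw [e1, e2, eq_comm, smul_eq_iff_eq_inv_smul, ← zpow_neg, hC] at hag'
      exact hNJ (-m) (neg_ne_zero.mpr hm) hag'.symm
    · rw [e2, hC] at hag'
      exact hy2 _ (hNm m hm) hag'.symm
  have c2 : ∀ n : ℤ, n ≠ 0 → 2 * y < T.d (L 0) ((a ^ (2 * y + 1)) ^ n • L 0) := by
    intro n hn
    rw [hA, ha.line]
    have e : ((0 : ℤ) - (0 + ((2 * y + 1 : ℕ) : ℤ) * n * (t : ℤ))).natAbs =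
        (2 * y + 1) * n.natAbs * t := by
      have e1 : (0 : ℤ) - (0 + ((2 * y + 1 : ℕ) : ℤ) * n * (t : ℤ)) =
          -(((2 * y + 1 : ℕ) : ℤ) * n * t) := by ring
      rw [e1, Int.natAbs_neg, Int.natAbs_mul, Int.natAbs_mul, Int.natAbs_natCast,
        Int.natAbs_natCast]
    rw [e]
    have h3 : 1 ≤ n.natAbs := Int.natAbs_pos.mpr hn
    have h4 : (2 * y + 1) * 1 * 1 ≤ (2 * y + 1) * n.natAbs * t :=
      Nat.mul_le_mul (Nat.mul_le_mul_left _ h3) htpos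
    omega
  have h4 := commonE T hT (a ^ (2 * y + 1)) (B ^ N) (L 0) (2 * y) hCp c1 c2 (k * N) (2 * y + 1)
    (Nat.mul_pos hk hN) (Nat.succ_pos _)
  refine ⟨(2 * y + 1) * (k * N), Nat.mul_pos (Nat.succ_pos _) (Nat.mul_pos hk hN), Or.inr ?_⟩
  have e1 : a ^ ((2 * y + 1) * (k * N)) = (a ^ (2 * y + 1)) ^ (k * N) := pow_mul a _ _
  have e2 : b ^ ((2 * y + 1) * (k * N)) = (B ^ N) ^ (2 * y + 1) := by
    rw [hB, ← pow_mul, ← pow_mul]
    congr 1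
    ring
  rw [e1, e2]
  exact h4

end Pool.Agent.Lib.MP_9dbb0e_al
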