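import Pool.Agent.Lib.MP_9dbb0e_al.XDefs
import Pool.Agent.Lib.MP_9dbb0e_al.T4
import Pool.Agent.Lib.MP_9dbb0e_al.T5

/-!
# JOB X1c: reduction to the case that a power of the elliptic element fixes a point of the axis; two hyperbolic elements with disjoint axes

PROOF of `eh_min`: the beginning (from `have hex : ∃ δ`) and CASE 2a of the proof of `eh` in T7.lean (complete): choose `k > 0`, `i`, `q` with `b ^ k • q = q` and `δ = d (L i) q` minimal. If `δ = 0`: `L i = q`, right alternative. If `δ > 0`: copy case 2a: `FreeTwo (a ^ k) (B ^ 1)`, `B = b ^ k`; left alternative with `n = k`. (Copy the private lemmas `t7b_natAbs`, `t7b_zpow`, `t7b_sign` under new names.)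
`hh_disj`: CASE B of the proof of `hh` in T6.lean (complete; copy the private lemmas `t6b_proj`, `t6b_move`, `t6b_side` under new names), `n = 1`.
-/

set_option autoImplicit false

namespace Pool.Agent.Lib.MP_9dbb0e_al

variable {G V : Type} [Group G] [MulAction G V] {T : TM V}

private theorem x1ca_natAbs (b : G) (m : ℤ) (x : V) (h : b ^ m • x = x) :
    b ^ m.natAbs • x = x := by
  rcases Int.natAbs_eq m with h1 | h1
  · rw [h1, zpow_natCast] at h
    exact h
  · rw [h1, zpow_neg, zpow_natCast, inv_smul_eq_iff] at h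
    exact h.symm

private theorem x1ca_zpow (b : G) (x : V) (h : b • x = x) (m : ℤ) : b ^ m • x = x := by
  have h1 : b ∈ MulAction.stabilizer G x := h
  exact (MulAction.stabilizer G x).zpow_mem h1 m

private theorem x1ca_sign (j : ℤ) : ∃ ε : ℤ, (ε = 1 ∨ ε = -1) ∧ j = ε * (j.natAbs : ℤ) := by
  rcases Int.natAbs_eq j with h | h
  · exact ⟨1, Or.inl rfl, by omega⟩
  · exact ⟨-1, Or.inr rfl, by omega⟩

theorem eh_min (hT : Act G V T) (a b : G) {L : ℤ → V} {t : ℕ} (ha : Ax T a L t) (v : V)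
    (hv : b • v = v) : Alt2 a b ∨ ∃ (k : ℕ) (i : ℤ), 0 < k ∧ b ^ k • L i = L i := by
  have htpos : 0 < t := ha.pos
  have hex : ∃ δ : ℕ, ∃ (k : ℕ) (i : ℤ) (q : V), 0 < k ∧ b ^ k • q = q ∧ T.d (L i) q = δ :=
    ⟨T.d (L 0) v, 1, 0, v, one_pos, by rw [pow_one]; exact hv, rfl⟩
  classical
  obtain ⟨k, i, q, hk, hq, hδ⟩ := Nat.find_spec hex
  have hmin := fun (δ' : ℕ) (h : δ' < Nat.find hex) => Nat.find_min hex h
  set δ : ℕ := Nat.find hex with hδdef
  set B : G := b ^ k with hB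
  have hBm : ∀ m : ℤ, B ^ m = b ^ ((k : ℤ) * m) := by
    intro m
    rw [hB, zpow_mul, zpow_natCast]
  have hkm : ∀ m : ℤ, m ≠ 0 → (k : ℤ) * m ≠ 0 := by
    intro m hm
    exact mul_ne_zero (by exact_mod_cast hk.ne') hm
  have hBq : ∀ m : ℤ, B ^ m • q = q := x1ca_zpow B q hq
  rcases Nat.eq_zero_or_pos δ with hδ0 | hδpos
  · have hpq : L i = q := T.eq_of _ _ (by rw [hδ, hδ0])
    refine Or.inr ⟨k, i, hk, ?_⟩
    rw [hpq]
    exact hq
  · -- case 2a
    have hdpq : 0 < T.d (L i) q := by rw [hδ]; exact hδpos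
    have hgL : ∀ i' : ℤ, gp T (L i) (L i') q = 0 := by
      intro i'
      by_contra hcon
      have hev := gp_even T (L i) (L i') q
      have hge : 2 * 1 ≤ gp T (L i) (L i') q := by
        obtain ⟨r, hr⟩ := hev
        omega
      have hne : i' ≠ i := by
        rintro rfl
        exact hcon (gp_base T _ _)
      obtain ⟨ε, hε, hεn⟩ := x1ca_sign (i' - i)
      have hn1 : 1 ≤ (i' - i).natAbs := Int.natAbs_pos.mpr (sub_ne_zero.mpr hne)
      have hi' : i' = i + ε * ((i' - i).natAbs : ℤ) := by omega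
      obtain ⟨l1, l2, _⟩ := line_pt ha.line i ε hε 1 (i' - i).natAbs hn1
      rw [← hi'] at l2
      obtain ⟨z, hz1, hz2⟩ := T.geo (L i) q 1 (by omega)
      have hz : L (i + ε * ((1 : ℕ) : ℤ)) = z :=
        pt_unique T (L i) (L i') q _ z 1 l1 l2 hz1 hz2 hge
      have h5 : T.d (L (i + ε * ((1 : ℕ) : ℤ))) q = δ - 1 := by
        rw [hz]
        omega
      exact hmin (δ - 1) (by omega) ⟨k, _, q, hk, hq, h5⟩
    have hgB : ∀ m : ℤ, m ≠ 0 → gp T q (L i) (B ^ m • L i) = 0 := by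
      intro m hm
      by_contra hcon
      have hev := gp_even T q (L i) (B ^ m • L i)
      have hge : 2 * 1 ≤ gp T q (L i) (B ^ m • L i) := by
        obtain ⟨r, hr⟩ := hev
        omega
      have hdqp : T.d q (L i) = δ := by rw [T.symm]; exact hδ
      obtain ⟨z, hz1, hz2⟩ := T.geo q (L i) 1 (by omega)
      have hz3 : T.d q (B ^ m • z) = 1 := by
        have h6 := hT.iso (B ^ m) q z
        rw [hBq m] at h6
        rw [h6]
        exact hz1
      have hz4 : T.d (B ^ m • z) (B ^ m • L i) + 1 = T.d q (B ^ m • L i) := by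
        have h6 := hT.iso (B ^ m) q (L i)
        rw [hBq m] at h6
        rw [hT.iso, h6]
        exact hz2
      have hz5 : z = B ^ m • z := pt_unique T q (L i) (B ^ m • L i) z _ 1 hz1 hz2 hz3 hz4 hge
      have hz6 : b ^ ((k : ℤ) * m).natAbs • z = z := by
        refine x1ca_natAbs b _ z ?_
        rw [← hBm]
        exact hz5.symm
      have h7 : T.d (L i) z = δ - 1 := by
        rw [T.symm]
        omega
      exact hmin (δ - 1) (by omega) ⟨((k : ℤ) * m).natAbs, i, z, Int.natAbs_pos.mpr (hkm m hm),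
        hz6, h7⟩
    have hfix : ∀ m : ℤ, m ≠ 0 → a ^ m • L i ≠ L i := by
      intro m hm h8
      rw [ha.zpow m i] at h8
      have h9 := ha.line (i + m * t) i
      rw [h8, T.self] at h9
      have h10 : i + m * (t : ℤ) - i = m * t := by ring
      rw [h10] at h9
      have h11 : m * (t : ℤ) ≠ 0 := mul_ne_zero hm (by exact_mod_cast htpos.ne')
      exact h11 (Int.natAbs_eq_zero.mp h9.symm)
    have h12 := bridge T a B (L i) q hdpq
      (fun m hm x hx => side T hT (a ^ m) (L i) q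
        (by rw [← zpow_neg, ha.zpow]; exact hgL _) (by rw [ha.zpow]; exact hgL _) (hfix m hm) x hx)
      (fun m hm x hx => side_fix T hT (B ^ m) q (L i) (hBq m) (hgB m hm) x hx) k 1 hk one_pos
    rw [pow_one] at h12
    exact Or.inl ⟨k, hk, Or.inr h12⟩

private theorem x1cb_proj {L : ℤ → V} (hL : ∀ i j, T.d (L i) (L j) = (i - j).natAbs) (i : ℤ) (q : V)
    (hmin : ∀ i', T.d (L i) q ≤ T.d (L i') q) (hpos : 0 < T.d (L i) q) (i' : ℤ) :
    gp T (L i) (L i') q = 0 := by
  by_contra h0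
  have h2 : 2 ≤ gp T (L i) (L i') q := by
    obtain ⟨r, hr⟩ := gp_even T (L i) (L i') q
    omega
  obtain ⟨ε, n, hε, hn⟩ : ∃ (ε : ℤ) (n : ℕ), (ε = 1 ∨ ε = -1) ∧ i' = i + ε * n := by
    rcases le_total i i' with h | h
    · exact ⟨1, (i' - i).natAbs, Or.inl rfl, by omega⟩
    · exact ⟨-1, (i' - i).natAbs, Or.inr rfl, by omega⟩
  have hn1 : 1 ≤ n := by
    by_contra h
    have h3 : n = 0 := by omega
    apply h0
    rw [hn, h3, Nat.cast_zero, mul_zero, add_zero]
    exact gp_base T (L i) q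
  obtain ⟨z, hz1, hz2⟩ := T.geo (L i) q 1 hpos
  obtain ⟨h3, h4, -⟩ := line_pt (T := T) hL i ε hε 1 n hn1
  have h5 : L (i + ε * (1 : ℕ)) = z := by
    apply pt_unique T (L i) (L (i + ε * n)) q _ z 1 h3 h4 hz1 hz2
    rw [← hn]
    exact h2
  have h6 := hmin (i + ε * (1 : ℕ))
  rw [h5] at h6
  omega

private theorem x1cb_move {g : G} {L : ℤ → V} {t : ℕ} (hg : Ax T g L t) (k : ℤ) (hk : k ≠ 0) (i : ℤ) :
    g ^ k • L i ≠ L i := by
  intro h
  rw [hg.zpow k i] at h
  have h1 := hg.line (i + k * t) i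
  rw [h, T.self] at h1
  have h2 : k * (t : ℤ) = 0 := by omega
  rcases mul_eq_zero.1 h2 with h3 | h3
  · exact hk h3
  · have := hg.pos
    omega

private theorem x1cb_side (hT : Act G V T) {g : G} {L : ℤ → V} {t : ℕ} (hg : Ax T g L t) (i : ℤ)
    (q : V) (h0 : ∀ i', gp T (L i) (L i') q = 0) (k : ℤ) (hk : k ≠ 0) (x : V)
    (hx : 0 < gp T (L i) x q) : gp T (L i) (g ^ k • x) q = 0 := by
  refine side T hT (g ^ k) (L i) q ?_ ?_ (x1cb_move hg k hk i) x hx
  · rw [← zpow_neg, hg.zpow]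
    exact h0 _
  · rw [hg.zpow]
    exact h0 _

theorem hh_disj (hT : Act G V T) (a b : G) {L L' : ℤ → V} {t s : ℕ} (ha : Ax T a L t)
    (hb : Ax T b L' s) (h : ∀ i j : ℤ, L i ≠ L' j) : Alt2 a b := by
  obtain ⟨⟨i, j⟩, hmin⟩ : ∃ ij : ℤ × ℤ, ∀ kl : ℤ × ℤ,
      T.d (L ij.1) (L' ij.2) ≤ T.d (L kl.1) (L' kl.2) :=
    ⟨Function.argmin (fun kl : ℤ × ℤ => T.d (L kl.1) (L' kl.2)),
      fun kl => Function.argmin_le (fun kl : ℤ × ℤ => T.d (L kl.1) (L' kl.2)) kl⟩
  have hpos : 0 < T.d (L i) (L' j) := by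
    rw [Nat.pos_iff_ne_zero]
    intro h0
    exact h i j (T.eq_of _ _ h0)
  have c1 : ∀ i', gp T (L i) (L i') (L' j) = 0 :=
    x1cb_proj ha.line i (L' j) (fun i' => hmin (i', j)) hpos
  have c2 : ∀ j', gp T (L' j) (L' j') (L i) = 0 := by
    refine x1cb_proj hb.line j (L i) (fun j' => ?_) (by rw [T.symm]; exact hpos)
    rw [T.symm, T.symm (L' j')]
    exact hmin (i, j')
  refine ⟨1, one_pos, Or.inr ?_⟩
  exact bridge T a b (L i) (L' j) hpos (x1cb_side hT ha i (L' j) c1)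
    (x1cb_side hT hb j (L i) c2) 1 1 one_pos one_pos

end Pool.Agent.Lib.MP_9dbb0e_al
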