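import Pool.Agent.Lib.MP_9dbb0e_al.X1a
import Pool.Agent.Lib.MP_9dbb0e_al.X1b
import Pool.Agent.Lib.MP_9dbb0e_al.X1c

/-!
# JOB X1d: a hyperbolic and an elliptic element

PROOFS.
`Alt2.inv_left`: `Commute.inv_left_iff`, `inv_pow`; for `FreeTwo`: `FreeTwo a⁻¹ b → FreeTwo a b`: `FreeGroup.lift ![a⁻¹, b] = (FreeGroup.lift ![a, b]).comp θ` with `θ = FreeGroup.lift ![(FreeGroup.of 0)⁻¹, FreeGroup.of 1]` (`FreeGroup.ext_hom`, `Fin.forall_fin_two`), `θ.comp θ = id`, so `θ` is bijective: `lift ![a, b] = (lift ![a⁻¹, b]).comp θ` is a composition of injective maps.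
`Alt2.symm`: exchange the roles (`Commute.symm`; for `FreeTwo` copy the proof of `FreeTwo.symm` in T9.lean, private name). `Ax.move`: `line`, `shift` with `i + x`.
`eh2`: `eh_min`: either done or `k > 0`, `i`, `b ^ k • L i = L i`. Replace `L` by `L' x = L (i + x)` (`Ax.move`), so `b ^ k • L' 0 = L' 0`. CASE 1: for every `y : ℕ` there is `m > 0` with `b ^ (k * m) • L' y = L' y`: `eh_ray`. CASE 2: for every `y : ℕ` there is `m > 0` with `b ^ (k m)` fixing `L' (-y)`: `eh_ray` for `a⁻¹` and the line `x ↦ L' (-x)` (`Ax.rev`): `Alt2 a⁻¹ b`, `Alt2.inv_left`.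
CASE 3: neither: `y₁`, `y₂` with `b ^ (k m) • L' y₁ ≠ L' y₁`, `b ^ (k m) • L' (-y₂) ≠ L' (-y₂)` for all `m > 0`. Put `y = max y₁ y₂`. If `b ^ (k m)` fixed `L' y`, it would fix `L' 0` and `L' y`, hence `L' y₁` (`fix_seg` for the line `L'` with `i = 0`, `R = y`), contradiction; the same for `L' (-y)` (`fix_seg` for the line `x ↦ L' (-x)`). So `eh_bdd` applies.
-/

set_option autoImplicit false

namespace Pool.Agent.Lib.MP_9dbb0e_al

private theorem x1d_freeInv {G : Type} [Group G] {a b : G} (h : FreeTwo a⁻¹ b) :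
    FreeTwo a b := by
  unfold FreeTwo at h ⊢
  let θ : FreeGroup (Fin 2) →* FreeGroup (Fin 2) :=
    FreeGroup.lift ![(FreeGroup.of 0)⁻¹, FreeGroup.of 1]
  have hθ : θ.comp θ = MonoidHom.id _ := by
    refine FreeGroup.ext_hom _ _ ?_
    intro i
    fin_cases i <;> simp [θ]
  have hinj : Function.Injective θ := by
    intro x y hxy
    have h1 := DFunLike.congr_fun hθ x
    have h2 := DFunLike.congr_fun hθ y
    simp only [MonoidHom.comp_apply, MonoidHom.id_apply] at h1 h2
    rw [← h1, ← h2, hxy]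
  have e : (FreeGroup.lift ![a, b] : FreeGroup (Fin 2) →* G) =
      (FreeGroup.lift ![a⁻¹, b]).comp θ := by
    refine FreeGroup.ext_hom _ _ ?_
    intro i
    fin_cases i <;> simp [θ]
  rw [e]
  exact h.comp hinj

private theorem x1d_freeSymm {G : Type} [Group G] {a b : G} (h : FreeTwo a b) : FreeTwo b a := by
  unfold FreeTwo at h ⊢
  have e : (FreeGroup.lift ![b, a] : FreeGroup (Fin 2) →* G) =
      (FreeGroup.lift ![a, b]).comp
        (FreeGroup.freeGroupCongr (Equiv.swap (0 : Fin 2) 1)).toMonoidHom := by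
    refine FreeGroup.ext_hom _ _ ?_
    intro i
    fin_cases i <;> simp
  rw [e]
  exact h.comp (FreeGroup.freeGroupCongr (Equiv.swap (0 : Fin 2) 1)).injective

theorem Alt2.inv_left {G : Type} [Group G] {a b : G} (h : Alt2 a⁻¹ b) : Alt2 a b := by
  obtain ⟨n, hn, h⟩ := h
  refine ⟨n, hn, ?_⟩
  rw [inv_pow] at h
  rcases h with h | h
  · exact Or.inl (Commute.inv_left_iff.1 h)
  · exact Or.inr (x1d_freeInv h)

theorem Alt2.symm {G : Type} [Group G] {a b : G} (h : Alt2 a b) : Alt2 b a := by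
  obtain ⟨n, hn, h⟩ := h
  exact ⟨n, hn, h.imp Commute.symm x1d_freeSymm⟩

variable {G V : Type} [Group G] [MulAction G V] {T : TM V}

theorem Ax.move {g : G} {L : ℤ → V} {t : ℕ} (h : Ax T g L t) (i : ℤ) :
    Ax T g (fun x => L (i + x)) t where
  pos := h.pos
  line x y := by
    show T.d (L (i + x)) (L (i + y)) = (x - y).natAbs
    rw [h.line]
    congr 1
    ring
  shift x := by
    show g • L (i + x) = L (i + (x + t))
    rw [h.shift]
    congr 1
    ring

private theorem x1d_pow {b : G} {k m : ℕ} {w : V} (h : b ^ k • w = w) : b ^ (k * m) • w = w := by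
  rw [pow_mul]
  induction m with
  | zero => rw [pow_zero, one_smul]
  | succ m ih => rw [pow_succ, mul_smul, h, ih]

theorem eh2 (hT : Act G V T) (hR : RayCond G T) (a b : G) {L : ℤ → V} {t : ℕ}
    (ha : Ax T a L t) (v : V) (hv : b • v = v) : Alt2 a b := by
  rcases eh_min hT a b ha v hv with h | ⟨k, i, hk, hki⟩
  · exact h
  · have hM := ha.move i
    have h00 : b ^ k • (fun x => L (i + x)) 0 = (fun x => L (i + x)) 0 := by
      show b ^ k • L (i + 0) = L (i + 0)
      rw [add_zero]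
      exact hki
    generalize (fun x => L (i + x)) = M at hM h00
    by_cases c1 : ∀ y : ℕ, ∃ m : ℕ, 0 < m ∧ b ^ (k * m) • M y = M y
    · exact eh_ray hT hR a b hM k hk h00 c1
    by_cases c2 : ∀ y : ℕ, ∃ m : ℕ, 0 < m ∧ b ^ (k * m) • M (-(y : ℤ)) = M (-(y : ℤ))
    · apply Alt2.inv_left
      refine eh_ray hT hR a⁻¹ b hM.rev k hk ?_ c2
      show b ^ k • M (-0) = M (-0)
      rw [neg_zero]
      exact h00
    push Not at c1 c2
    obtain ⟨y₁, h1⟩ := c1
    obtain ⟨y₂, h2⟩ := c2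
    refine eh_bdd hT a b hM k hk h00 (max y₁ y₂) ?_ ?_
    · intro m hm hfix
      apply h1 m hm
      have h3 := fix_seg hT hM.line (b ^ (k * m)) 0 (max y₁ y₂) (x1d_pow h00)
        (by rw [zero_add]; exact hfix) y₁ (le_max_left _ _)
      rw [zero_add] at h3
      exact h3
    · intro m hm hfix
      apply h2 m hm
      have h0' : b ^ (k * m) • (fun x : ℤ => M (-x)) 0 = (fun x : ℤ => M (-x)) 0 := by
        show b ^ (k * m) • M (-0) = M (-0)
        rw [neg_zero]
        exact x1d_pow h00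
      have h3 := fix_seg hT hM.rev.line (b ^ (k * m)) 0 (max y₁ y₂) h0'
        (by
          show b ^ (k * m) • M (-(0 + ((max y₁ y₂ : ℕ) : ℤ))) = M (-(0 + ((max y₁ y₂ : ℕ) : ℤ)))
          rw [zero_add]; exact hfix) y₂ (le_max_right _ _)
      have h4 : b ^ (k * m) • M (-(0 + (y₂ : ℤ))) = M (-(0 + (y₂ : ℤ))) := h3
      rw [zero_add] at h4
      exact h4

end Pool.Agent.Lib.MP_9dbb0e_al
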