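import Pool.Agent.Lib.MP_9dbb0e_al.XDefs
import Pool.Agent.Lib.MP_9dbb0e_al.T4

/-!
# JOB X2a: two translations of the same ray

PROOF. `hR ρ` gives `n, N, Q, π`, `hfix`, `htr`. `htr a t`, `htr b s`: `k₁, k₂ > 0` with `a ^ k₁, b ^ k₂ ∈ N`. `e₀ = k₁ * k₂`: `a ^ e₀, b ^ e₀ ∈ N` (`N.pow_mem`). `PA Q` for their images: `n₁ > 0`; `e = e₀ * n₁`. CASE 1: free: `FreeTwo.of_map π`, `FreeTwo.map N.subtype`: `FreeTwo (a ^ e) (b ^ e)`.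
CASE 2: the images of `A = a ^ e`, `B = b ^ e` under `π` commute. `A • ρ x = ρ (x + e * t)`, `B • ρ x = ρ (x + e * s)` (`ray_pow`). `f = A⁻¹ * B⁻¹ * A * B` fixes every `ρ x`: `B`: `ρ (x + e s)`, `A`: `ρ (x + e s + e t)`, `B⁻¹`: `ρ (x + e t)` (because `B • ρ (x + e t) = ρ (x + e t + e s)`, `inv_smul_eq_iff`), `A⁻¹`: `ρ x`. `f ∈ N`, `π ⟨f, _⟩ = 1`, so `f = 1` by `hfix`; `A` and `B` commute.
-/

set_option autoImplicit false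

namespace Pool.Agent.Lib.MP_9dbb0e_al

variable {G V : Type} [Group G] [MulAction G V] {T : TM V}

theorem hh_ray (hR : RayCond G T) (a b : G) {ρ : ℕ → V} (hρ : Ray T ρ) (t s : ℕ)
    (ht : 0 < t) (hs : 0 < s) (ha : ∀ x, a • ρ x = ρ (x + t)) (hb : ∀ x, b • ρ x = ρ (x + s)) :
    Alt2 a b := by
  obtain ⟨n, N, Q, hQ, π, hPA, hfix, htr⟩ := hR ρ hρ
  obtain ⟨k₁, hk₁, ha1⟩ := htr a t ht ha
  obtain ⟨k₂, hk₂, hb1⟩ := htr b s hs hb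
  have ha2 : a ^ (k₁ * k₂) ∈ N := by
    rw [pow_mul]
    exact N.pow_mem ha1 k₂
  have hb2 : b ^ (k₁ * k₂) ∈ N := by
    rw [mul_comm, pow_mul]
    exact N.pow_mem hb1 k₁
  obtain ⟨n₁, hn₁, h1⟩ := hPA (π ⟨a ^ (k₁ * k₂), ha2⟩) (π ⟨b ^ (k₁ * k₂), hb2⟩)
  rw [← map_pow, ← map_pow] at h1
  refine ⟨k₁ * k₂ * n₁, Nat.mul_pos (Nat.mul_pos hk₁ hk₂) hn₁, ?_⟩
  have eA : ((⟨a ^ (k₁ * k₂), ha2⟩ : N) ^ n₁ : N).1 = a ^ (k₁ * k₂ * n₁) := by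
    exact (pow_mul _ (k₁ * k₂) n₁).symm
  have eB : ((⟨b ^ (k₁ * k₂), hb2⟩ : N) ^ n₁ : N).1 = b ^ (k₁ * k₂ * n₁) := by
    exact (pow_mul _ (k₁ * k₂) n₁).symm
  rcases h1 with h1 | h1
  · left
    have hA : ∀ x, a ^ (k₁ * k₂ * n₁) • ρ x = ρ (x + k₁ * k₂ * n₁ * t) :=
      fun x => ray_pow a t ha _ x
    have hB : ∀ x, b ^ (k₁ * k₂ * n₁) • ρ x = ρ (x + k₁ * k₂ * n₁ * s) :=
      fun x => ray_pow b s hb _ x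
    have hf : ∀ x, ((a ^ (k₁ * k₂ * n₁))⁻¹ * (b ^ (k₁ * k₂ * n₁))⁻¹ * a ^ (k₁ * k₂ * n₁) *
        b ^ (k₁ * k₂ * n₁)) • ρ x = ρ x := by
      intro x
      rw [mul_smul, mul_smul, mul_smul, hB, hA, inv_smul_eq_iff, inv_smul_eq_iff, hA, hB]
      congr 1
      ring
    obtain ⟨hfN, h2⟩ := hfix _ (hf 0) (hf n)
    have h3 : (⟨_, hfN⟩ : N) = ((⟨a ^ (k₁ * k₂), ha2⟩ : N) ^ n₁)⁻¹ *
        ((⟨b ^ (k₁ * k₂), hb2⟩ : N) ^ n₁)⁻¹ * (⟨a ^ (k₁ * k₂), ha2⟩ : N) ^ n₁ *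
        (⟨b ^ (k₁ * k₂), hb2⟩ : N) ^ n₁ := by
      apply Subtype.ext
      change _ = (((⟨a ^ (k₁ * k₂), ha2⟩ : N) ^ n₁ : N).1)⁻¹ *
        (((⟨b ^ (k₁ * k₂), hb2⟩ : N) ^ n₁ : N).1)⁻¹ * ((⟨a ^ (k₁ * k₂), ha2⟩ : N) ^ n₁ : N).1 *
        ((⟨b ^ (k₁ * k₂), hb2⟩ : N) ^ n₁ : N).1
      rw [eA, eB]
    have h4 := h2 (by
      rw [h3, map_mul, map_mul, map_mul, map_inv, map_inv, mul_assoc, h1.eq]
      group)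
    have h5 : b ^ (k₁ * k₂ * n₁) * a ^ (k₁ * k₂ * n₁) *
        ((a ^ (k₁ * k₂ * n₁))⁻¹ * (b ^ (k₁ * k₂ * n₁))⁻¹ * a ^ (k₁ * k₂ * n₁) *
        b ^ (k₁ * k₂ * n₁)) = a ^ (k₁ * k₂ * n₁) * b ^ (k₁ * k₂ * n₁) := by
      group
    rw [h4, mul_one] at h5
    exact h5.symm
  · right
    have h2 := FreeTwo.map N.subtype Subtype.val_injective (FreeTwo.of_map π h1)
    rw [Subgroup.subtype_apply, Subgroup.subtype_apply, eA, eB] at h2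
    exact h2

end Pool.Agent.Lib.MP_9dbb0e_al
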