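import Pool.Agent.Lib.MP_9dbb0e_al.X1d
import Pool.Agent.Lib.MP_9dbb0e_al.X2a

/-!
# JOB X2b: two hyperbolic elements

PROOF of `hh_bdd`: (compare CASE A2 in the proof of `hh` in T6.lean, complete: COPY and edit, with the private lemmas `t6b_sign`, `t6b_dist` under new names.) `N = 2 * y + 1`, `common T hT (a ^ N) (b ^ N) (L 0) (2 * y)`: h1: if `gp T (L 0) ((a ^ N) ^ n • L 0) ((b ^ N) ^ m • L 0) > 2 * y`, then `agree_gp` with `k = y` gives `L (ε * y) = L' (ε' * y)` (`0 + ..`), contradiction to `hy`. h2, h3: the distances are `≥ N > 2 * y` (`t6b_dist`).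
`hh2`: if `L i ≠ L' j` for all `i, j`: `hh_disj`. Otherwise `L i = L' j`; replace `L, L'` by `x ↦ L (i + x)`, `x ↦ L' (j + x)` (`Ax.move`), so `L 0 = L' 0`. CASE 1: there are signs `ε, ε' ∈ {1, -1}` with `L (ε * x) = L' (ε' * x)` for all `x : ℕ`. `ρ x = L (ε * x)` is a ray (`line`). If `ε = 1`: `a • ρ x = ρ (x + t)`; if `ε = -1`: `a⁻¹ • ρ x = ρ (x + t)` (`Ax.rev`); the same for `b`.
`hh_ray` for `a ^ ±1`, `b ^ ±1`, then `Alt2.inv_left`, `Alt2.symm`. CASE 2: otherwise for each of the four pairs of signs there is `x` with `L (ε x) ≠ L' (ε' x)`. Let `y` be the maximum of the four. For each pair `L (ε y) ≠ L' (ε' y)`: otherwise `agree` for the lines `z ↦ L (ε z)`, `z ↦ L' (ε' z)` (they are lines: `line`, `natAbs`; `i = j = 0`, `R = y`) gives `L (ε x) = L' (ε' x)`. So `hh_bdd` applies.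
-/

set_option autoImplicit false

namespace Pool.Agent.Lib.MP_9dbb0e_al

variable {G V : Type} [Group G] [MulAction G V] {T : TM V}

private theorem x2ba_sign (k : ℤ) (t : ℕ) : ∃ ε : ℤ, (ε = 1 ∨ ε = -1) ∧
    k * (t : ℤ) = ε * ((k.natAbs * t : ℕ) : ℤ) := by
  rcases le_total 0 k with h | h
  · refine ⟨1, Or.inl rfl, ?_⟩
    rw [Nat.cast_mul, one_mul, Int.natAbs_of_nonneg h]
  · refine ⟨-1, Or.inr rfl, ?_⟩
    rw [Nat.cast_mul, Int.ofNat_natAbs_of_nonpos h]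
    ring

private theorem x2ba_dist {g : G} {L : ℤ → V} {t : ℕ} (hg : Ax T g L t) (N : ℕ) (hN : 0 < N) (n : ℤ)
    (hn : n ≠ 0) (i : ℤ) : N ≤ T.d (L i) ((g ^ N) ^ n • L i) := by
  have h1 := (hg.pow N hN).zpow n i
  rw [h1, hg.line]
  have h2 : (i - (i + n * ((N * t : ℕ) : ℤ))).natAbs = n.natAbs * (N * t) := by
    have h3 : i - (i + n * ((N * t : ℕ) : ℤ)) = -(n * ((N * t : ℕ) : ℤ)) := by ring
    rw [h3, Int.natAbs_neg, Int.natAbs_mul, Int.natAbs_natCast]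
  rw [h2]
  have h3 : 1 ≤ n.natAbs := Int.natAbs_pos.2 hn
  have h4 : 1 ≤ t := hg.pos
  calc N = 1 * (N * 1) := by ring
    _ ≤ n.natAbs * (N * t) := Nat.mul_le_mul h3 (Nat.mul_le_mul le_rfl h4)

theorem hh_bdd (hT : Act G V T) (a b : G) {L L' : ℤ → V} {t s : ℕ} (ha : Ax T a L t)
    (hb : Ax T b L' s) (h0 : L 0 = L' 0) (y : ℕ)
    (hy : ∀ ε ε' : ℤ, (ε = 1 ∨ ε = -1) → (ε' = 1 ∨ ε' = -1) → L (ε * y) ≠ L' (ε' * y)) :
    Alt2 a b := by
  have hN : 0 < 2 * y + 1 := by omega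
  refine ⟨2 * y + 1, hN, Or.inr ?_⟩
  have key := common T hT (a ^ (2 * y + 1)) (b ^ (2 * y + 1)) (L 0)
    (2 * y) (fun n m _ _ => ?_) (fun n hn => ?_) (fun m hm => ?_) 1 1 one_pos one_pos
  · rw [pow_one, pow_one] at key
    exact key
  · by_contra hgt
    rw [(ha.pow _ hN).zpow n 0, h0, (hb.pow _ hN).zpow m 0, ← h0] at hgt
    obtain ⟨ε, hε, e1⟩ := x2ba_sign n ((2 * y + 1) * t)
    obtain ⟨ε', hε', e2⟩ := x2ba_sign m ((2 * y + 1) * s)
    rw [e1, e2] at hgt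
    obtain ⟨-, -, h3⟩ := agree_gp (T := T) ha.line hb.line 0 0 ε ε' hε hε'
      (n.natAbs * ((2 * y + 1) * t)) (m.natAbs * ((2 * y + 1) * s)) y h0 (by omega)
    have h4 := h3 y le_rfl
    rw [zero_add, zero_add] at h4
    exact hy ε ε' hε hε' h4
  · exact x2ba_dist ha _ hN n hn 0
  · rw [h0]
    exact x2ba_dist hb _ hN m hm 0

private theorem x2bb_line {L : ℤ → V} (hL : ∀ i j, T.d (L i) (L j) = (i - j).natAbs) (ε : ℤ)
    (hε : ε = 1 ∨ ε = -1) (i j : ℤ) : T.d (L (ε * i)) (L (ε * j)) = (i - j).natAbs := by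
  rw [hL]
  rcases hε with rfl | rfl <;> omega

private theorem x2bb_tr {a : G} {L : ℤ → V} {t : ℕ} (ha : Ax T a L t) (ε : ℤ)
    (hε : ε = 1 ∨ ε = -1) :
    ∃ a' : G, (a' = a ∨ a' = a⁻¹) ∧
      ∀ x : ℕ, a' • L (ε * (x : ℤ)) = L (ε * ((x + t : ℕ) : ℤ)) := by
  rcases hε with rfl | rfl
  · refine ⟨a, Or.inl rfl, fun x => ?_⟩
    rw [ha.shift]
    congr 1
    push_cast
    ring
  · refine ⟨a⁻¹, Or.inr rfl, fun x => ?_⟩
    rw [inv_smul_eq_iff, ha.shift]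
    congr 1
    push_cast
    ring

private theorem x2bb_alt {a b a' b' : G} (ha : a' = a ∨ a' = a⁻¹) (hb : b' = b ∨ b' = b⁻¹)
    (h : Alt2 a' b') : Alt2 a b := by
  have h1 : Alt2 a b' := by
    rcases ha with rfl | rfl
    · exact h
    · exact h.inv_left
  rcases hb with rfl | rfl
  · exact h1
  · exact h1.symm.inv_left.symm

private theorem x2bb_core (hT : Act G V T) (hR : RayCond G T) (a b : G) {L L' : ℤ → V} {t s : ℕ}
    (ha : Ax T a L t) (hb : Ax T b L' s) (h0 : L 0 = L' 0) : Alt2 a b := by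
  by_cases h : ∃ ε ε' : ℤ, (ε = 1 ∨ ε = -1) ∧ (ε' = 1 ∨ ε' = -1) ∧
      ∀ x : ℕ, L (ε * (x : ℤ)) = L' (ε' * (x : ℤ))
  · obtain ⟨ε, ε', hε, hε', h⟩ := h
    obtain ⟨a', ha', hat⟩ := x2bb_tr ha ε hε
    obtain ⟨b', hb', hbt⟩ := x2bb_tr hb ε' hε'
    have hρ : Ray T (fun x : ℕ => L (ε * (x : ℤ))) := by
      intro i j
      change T.d (L (ε * (i : ℤ))) (L (ε * ((i + j : ℕ) : ℤ))) = j
      rw [x2bb_line ha.line ε hε]
      omega
    refine x2bb_alt ha' hb' (hh_ray hR a' b' hρ t s ha.pos hb.pos hat fun x => ?_)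
    change b' • L (ε * (x : ℤ)) = L (ε * ((x + s : ℕ) : ℤ))
    rw [h, h]
    exact hbt x
  · have hne : ∀ ε ε' : ℤ, (ε = 1 ∨ ε = -1) → (ε' = 1 ∨ ε' = -1) →
        ∃ x : ℕ, L (ε * (x : ℤ)) ≠ L' (ε' * (x : ℤ)) := by
      intro ε ε' hε hε'
      by_contra hx
      refine h ⟨ε, ε', hε, hε', fun x => ?_⟩
      by_contra hx'
      exact hx ⟨x, hx'⟩
    obtain ⟨x1, h1⟩ := hne 1 1 (Or.inl rfl) (Or.inl rfl)
    obtain ⟨x2, h2⟩ := hne 1 (-1) (Or.inl rfl) (Or.inr rfl)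
    obtain ⟨x3, h3⟩ := hne (-1) 1 (Or.inr rfl) (Or.inl rfl)
    obtain ⟨x4, h4⟩ := hne (-1) (-1) (Or.inr rfl) (Or.inr rfl)
    have key : ∀ (ε ε' : ℤ) (x : ℕ), (ε = 1 ∨ ε = -1) → (ε' = 1 ∨ ε' = -1) →
        L (ε * (x : ℤ)) ≠ L' (ε' * (x : ℤ)) → x ≤ x1 + x2 + x3 + x4 →
        L (ε * ((x1 + x2 + x3 + x4 : ℕ) : ℤ)) ≠ L' (ε' * ((x1 + x2 + x3 + x4 : ℕ) : ℤ)) := by
      intro ε ε' x hε hε' hx hxy hy
      apply hx
      have h5 := agree (T := T) (L := fun z => L (ε * z)) (L' := fun z => L' (ε' * z))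
        (x2bb_line ha.line ε hε) (x2bb_line hb.line ε' hε') 0 0 (x1 + x2 + x3 + x4)
        (by
          change L (ε * 0) = L' (ε' * 0)
          rw [mul_zero, mul_zero, h0])
        (by
          change L (ε * (0 + ((x1 + x2 + x3 + x4 : ℕ) : ℤ))) =
            L' (ε' * (0 + ((x1 + x2 + x3 + x4 : ℕ) : ℤ)))
          rw [zero_add]
          exact hy) x hxy
      change L (ε * (0 + (x : ℤ))) = L' (ε' * (0 + (x : ℤ))) at h5
      rw [zero_add] at h5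
      exact h5
    refine hh_bdd hT a b ha hb h0 (x1 + x2 + x3 + x4) fun ε ε' hε hε' => ?_
    rcases hε with rfl | rfl <;> rcases hε' with rfl | rfl
    · exact key 1 1 x1 (Or.inl rfl) (Or.inl rfl) h1 (by omega)
    · exact key 1 (-1) x2 (Or.inl rfl) (Or.inr rfl) h2 (by omega)
    · exact key (-1) 1 x3 (Or.inr rfl) (Or.inl rfl) h3 (by omega)
    · exact key (-1) (-1) x4 (Or.inr rfl) (Or.inr rfl) h4 (by omega)

theorem hh2 (hT : Act G V T) (hR : RayCond G T) (a b : G) {L L' : ℤ → V} {t s : ℕ}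
    (ha : Ax T a L t) (hb : Ax T b L' s) : Alt2 a b := by
  by_cases h : ∃ i j : ℤ, L i = L' j
  · obtain ⟨i, j, hij⟩ := h
    refine x2bb_core hT hR a b (ha.move i) (hb.move j) ?_
    change L (i + 0) = L' (j + 0)
    rw [add_zero, add_zero]
    exact hij
  · exact hh_disj hT a b ha hb fun i j hij => h ⟨i, j, hij⟩

end Pool.Agent.Lib.MP_9dbb0e_al
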