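import Pool.Agent.Lib.MP_9dbb0e_al.X2b
import Pool.Agent.Lib.MP_9dbb0e_al.T3
import Pool.Agent.Lib.MP_9dbb0e_al.T8

/-!
# JOB X3: the combination theorem with the condition on rays

PROOF. (Compare T9.lean.) Let `a b : G`. Either `a` fixes a vertex or it has an axis (`exists_axis`), the same for `b`: two axes: `hh2`; axis of `a`, fixed vertex of `b`: `eh2`; the other way round: `eh2` and `Alt2.symm`; two fixed vertices: `ee`.
-/

set_option autoImplicit false

namespace Pool.Agent.Lib.MP_9dbb0e_al

theorem tree_PA2 {G V : Type} [Group G] [MulAction G V] [Nonempty V] (T : TM V)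
    (hT : Act G V T) (hR : RayCond G T) (hV : ∀ x : V, PA (MulAction.stabilizer G x)) : PA G := by
  intro a b
  by_cases ha : ∃ x : V, a • x = x
  · obtain ⟨v, hv⟩ := ha
    by_cases hb : ∃ x : V, b • x = x
    · obtain ⟨w, hw⟩ := hb
      exact ee T hT hV a b v w hv hw
    · push Not at hb
      obtain ⟨L, s, hL⟩ := exists_axis T hT b hb
      exact Alt2.symm (eh2 hT hR b a hL v hv)
  · push Not at ha
    obtain ⟨L, t, hL⟩ := exists_axis T hT a ha
    by_cases hb : ∃ x : V, b • x = x
    · obtain ⟨w, hw⟩ := hb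
      exact eh2 hT hR a b hL w hw
    · push Not at hb
      obtain ⟨L', s, hL'⟩ := exists_axis T hT b hb
      exact hh2 hT hR a b hL hL'

end Pool.Agent.Lib.MP_9dbb0e_al
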