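import Pool.Agent.Lib.MP_9dbb0e_al.T1
import Pool.Agent.Lib.MP_9dbb0e_al.U

/-!
# Definitions: the condition on rays

`Ray T L`: `L : ℕ → V` is a geodesic ray. `RayCond G T`: for every ray `L` there are `n`, a subgroup `N` of `G` and a homomorphism `π` from `N` to a group with the power alternative such that
the pointwise stabilizer of `L 0, .., L n` is contained in `N` and meets the kernel of `π` trivially, and every element `g` which translates the ray (`g • L x = L (x + t)`, `t > 0`) has a positive power in `N`.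
-/

set_option autoImplicit false

namespace Pool.Agent.Lib.MP_9dbb0e_al

/-- `L` is a geodesic ray -/
def Ray {V : Type} (T : TM V) (L : ℕ → V) : Prop := ∀ i j : ℕ, T.d (L i) (L (i + j)) = j

/-- `a, b` have a common positive power such that they commute or freely generate -/
def Alt2 {G : Type} [Group G] (a b : G) : Prop :=
  ∃ n : ℕ, 0 < n ∧ (Commute (a ^ n) (b ^ n) ∨ FreeTwo (a ^ n) (b ^ n))

/-- the condition on rays -/
def RayCond (G : Type) {V : Type} [Group G] [MulAction G V] (T : TM V) : Prop :=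
  ∀ L : ℕ → V, Ray T L →
    ∃ (n : ℕ) (N : Subgroup G) (Q : Type) (_ : Group Q) (π : N →* Q), PA Q ∧
      (∀ f : G, f • L 0 = L 0 → f • L n = L n → ∃ h : f ∈ N, π ⟨f, h⟩ = 1 → f = 1) ∧
      ∀ (g : G) (t : ℕ), 0 < t → (∀ x, g • L x = L (x + t)) → ∃ k : ℕ, 0 < k ∧ g ^ k ∈ N

section

variable {G V : Type} [Group G] [MulAction G V] {T : TM V}

theorem ray_fix (hT : Act G V T) {L : ℕ → V} (hL : Ray T L) (f : G) (n x : ℕ) (hx : x ≤ n)
    (h0 : f • L 0 = L 0) (h1 : f • L n = L n) : f • L x = L x := by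
  have h2 := hL 0 x
  have h3 := hL x (n - x)
  have h4 := hL 0 n
  rw [Nat.zero_add] at h2 h4
  rw [Nat.add_sub_cancel' hx] at h3
  have h5 := hT.iso f (L 0) (L x)
  rw [h0] at h5
  have h6 := hT.iso f (L x) (L n)
  rw [h1] at h6
  exact btw_unique T (L 0) (L n) (f • L x) (L x) x (by omega) (by omega) (by omega) (by omega)

/-- a power of a translation of the ray is a translation of the ray -/
theorem ray_pow {L : ℕ → V} (g : G) (t : ℕ) (hg : ∀ x, g • L x = L (x + t)) (k x : ℕ) :
    g ^ k • L x = L (x + k * t) := by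
  induction k generalizing x with
  | zero => rw [pow_zero, one_smul, Nat.zero_mul, Nat.add_zero]
  | succ k ih =>
    rw [pow_succ, mul_smul, hg, ih]
    congr 1
    ring

theorem Alt2.pow {a b : G} (e : ℕ) (he : 0 < e) (h : Alt2 (a ^ e) (b ^ e)) : Alt2 a b := by
  obtain ⟨n, hn, h⟩ := h
  refine ⟨e * n, Nat.mul_pos he hn, ?_⟩
  rw [pow_mul, pow_mul]
  exact h

end

end Pool.Agent.Lib.MP_9dbb0e_al
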