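import Pool.Agent.Lib.MP_9dbb0e_al.V6
import Pool.Agent.Lib.MP_9dbb0e_al.XDefs

/-!
# JOB Y1: the condition on rays from the key statement

PROOF. Let `L` be a ray. Call `(y, R, c)` good if `0 < y`, `R : B → Prop` with `∃ i, ¬ R i`, `c : Art M` and for all `f : G` fixing `L 0` and `L y`: `c * Ψ f * c⁻¹ ∈ Par M R`. There is a good triple: `y = 1`, `R = Z`, `c` from `hedge (L 0) (L 1)` (`hL 0 1`). Choose a good triple `(n, R, c)` with `Nat.card {i // R i}` minimal (`Nat.find`). `N₀`, `π₀` from `key M R`.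
`N = N₀.comap ((MulAut.conj c).toMonoidHom.comp Ψ)`, i.e. `g ∈ N` iff `c * Ψ g * c⁻¹ ∈ N₀`; `π : N →* Art (sub M R)`, `π g = π₀ ⟨c * Ψ g * c⁻¹, _⟩` (`MonoidHom.subgroupComap` and composition, or `MonoidHom.mk'`). `PA (Art (sub M R))` by `hPA`. The witness is `n, N, Q = Art (sub M R), π`.
(1) `f` fixes `L 0` and `L n`: `z = c * Ψ f * c⁻¹ ∈ Par M R`, so `z ∈ N₀` and if `π₀ z = 1` then `z = 1`, `Ψ f = 1`, and `f` fixes `L 0`, `L 1` (`ray_fix`, `1 ≤ n`), so `f = 1` by `hE`.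
(2) `g • L x = L (x + t)`, `t > 0`. `g' = c * Ψ g * c⁻¹`. `key` for `g'⁻¹`: either `(g'⁻¹) ^ k ∈ N₀`, `k > 0`: then `g' ^ k ∈ N₀` (`inv_pow`, `inv_mem_iff`) and `g' ^ k = c * Ψ (g ^ k) * c⁻¹` (`conj_pow`, `map_pow`), so `g ^ k ∈ N`. Or there are `R'`, `c'`: `R' → R`, `R i ∧ ¬ R' i` for some `i`, and `c' z c'⁻¹ ∈ Par M R'` for all
`z ∈ Par M R` with `g'⁻¹ z g' ∈ Par M R`. CLAIM: `(n + t, R', c' * c)` is good, and `Nat.card {i // R' i} < Nat.card {i // R i}` (an injective, not surjective map between finite types; `Set.ncard_lt_ncard` or `Finite.card_lt..`), contradiction to the minimality. Let `f` fix `L 0` and `L (n + t)`. `f` fixes `L x` for `x ≤ n + t` (`ray_fix`), so `z = c * Ψ f * c⁻¹ ∈ Par M R`.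
`f' = g⁻¹ * f * g` fixes `L 0` and `L n`: `g • L x = L (x + t)`, `x + t ≤ n + t`. So `c * Ψ f' * c⁻¹ = g'⁻¹ * z * g' ∈ Par M R`. Hence `c' * z * c'⁻¹ = (c' * c) * Ψ f * (c' * c)⁻¹ ∈ Par M R'`.
-/

set_option autoImplicit false

namespace Pool.Agent.Lib.MP_9dbb0e_al

theorem ray_of_key {B : Type} [Finite B] (M : CoxeterMatrix B) {G V : Type} [Group G]
    [MulAction G V] (T : TM V) (hT : Act G V T) (Ψ : G →* Art M) (hE : EdgeFree T Ψ)
    (Z : B → Prop) (hZ : ∃ i, ¬ Z i)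
    (hedge : ∀ x y : V, T.d x y = 1 → ∃ c : Art M, ∀ f : G, f • x = x → f • y = y →
      c * Ψ f * c⁻¹ ∈ Par M Z)
    (hPA : ∀ R : B → Prop, (∃ i, ¬ R i) → PA (Art (sub M R))) : RayCond G T := by
  classical
  intro L hL
  have hex : ∃ (m y : ℕ) (R : B → Prop) (c : Art M), (0 < y ∧ (∃ i, ¬ R i) ∧
      ∀ f : G, f • L 0 = L 0 → f • L y = L y → c * Ψ f * c⁻¹ ∈ Par M R) ∧
      Set.ncard {i | R i} = m := by
    obtain ⟨c, hc⟩ := hedge (L 0) (L 1) (hL 0 1)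
    exact ⟨_, 1, Z, c, ⟨one_pos, hZ, hc⟩, rfl⟩
  obtain ⟨n, R, c, ⟨hn, hRi, hgood⟩, hcard⟩ := Nat.find_spec hex
  have hmin : ∀ (y : ℕ) (R' : B → Prop) (c' : Art M), 0 < y → (∃ i, ¬ R' i) →
      (∀ f : G, f • L 0 = L 0 → f • L y = L y → c' * Ψ f * c'⁻¹ ∈ Par M R') →
      Set.ncard {i | R i} ≤ Set.ncard {i | R' i} := by
    intro y R' c' h1 h2 h3
    rw [hcard]
    exact Nat.find_min' hex ⟨y, R', c', ⟨h1, h2, h3⟩, rfl⟩
  obtain ⟨N₀, π₀, hk1, hk2⟩ := key M R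
  obtain ⟨φ, hφ⟩ : ∃ φ : G →* Art M, ∀ g, φ g = c * Ψ g * c⁻¹ :=
    ⟨(MulAut.conj c).toMonoidHom.comp Ψ, fun _ => rfl⟩
  refine ⟨n, N₀.comap φ, Art (sub M R), inferInstance, π₀.comp (φ.subgroupComap N₀),
    hPA R hRi, ?_, ?_⟩
  · intro f h0 h1
    have h2 : φ f ∈ Par M R := by
      rw [hφ]
      exact hgood f h0 h1
    obtain ⟨h3, h4⟩ := hk1 (φ f) h2
    refine ⟨h3, fun h5 => ?_⟩
    have h6 := h4 h5
    rw [hφ, conj_eq_one_iff] at h6
    exact hE f (L 0) (L 1) (hL 0 1) h0 (ray_fix hT hL f n 1 hn h0 h1) h6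
  · intro g t ht hg
    rcases hk2 (φ g)⁻¹ with ⟨k, hk, h1⟩ | ⟨R', hR', ⟨i, hi, hi'⟩, c', hc'⟩
    · refine ⟨k, hk, ?_⟩
      rw [inv_pow, inv_mem_iff, ← map_pow] at h1
      exact h1
    · exfalso
      have hlt : Set.ncard {i | R' i} < Set.ncard {i | R i} :=
        Set.ncard_lt_ncard ⟨fun j hj => hR' j hj, fun h => hi' (h hi)⟩ (Set.toFinite _)
      refine absurd (hmin (n + t) R' (c' * c) (by omega) ⟨i, hi'⟩ ?_) (Nat.not_le.2 hlt)
      intro f h0 h1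
      have h2 : φ f ∈ Par M R := by
        rw [hφ]
        exact hgood f h0 (ray_fix hT hL f (n + t) n (by omega) h0 h1)
      have hfix : ∀ x, x ≤ n → (g⁻¹ * f * g) • L x = L x := by
        intro x hx
        rw [mul_smul, mul_smul, hg x, ray_fix hT hL f (n + t) (x + t) (by omega) h0 h1, ← hg x,
          inv_smul_smul]
      have h3 : φ (g⁻¹ * f * g) ∈ Par M R := by
        rw [hφ]
        exact hgood _ (hfix 0 (Nat.zero_le n)) (hfix n le_rfl)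
      have h4 := hc' (φ f) h2 (by
        rw [inv_inv]
        rw [map_mul, map_mul, map_inv] at h3
        exact h3)
      rw [hφ] at h4
      have h5 : c' * c * Ψ f * (c' * c)⁻¹ = c' * (c * Ψ f * c⁻¹) * c'⁻¹ := by
        rw [mul_inv_rev]
        simp only [mul_assoc]
      rw [h5]
      exact h4

end Pool.Agent.Lib.MP_9dbb0e_al
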