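import Pool.Agent.Lib.MP_9dbb0e_al.G3
import Pool.Agent.Lib.MP_9dbb0e_al.X3

/-!
# JOB Y2: amalgams: stabilizers of edges and the combination theorem

PROOF. COPY the private lemmas `g3b_conj`, `g3b_vC`, `g3b_vG` of G3.lean (complete) under new names. `edge_stab`: `T.d x y = 1` means `(BG φ).Adj x y` (`SimpleGraph.dist_eq_one_iff_adj`); one of `x, y` is `vC φ h` (see the proof of `pushout_PA` in G3.lean); `u = h`: `f • vC φ h = vC φ h` gives `f ∈ (base φ).range.map (MulAut.conj h)`, i.e. `f = h * base φ c * h⁻¹`.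
`pushout_PA2`: as the proof of `pushout_PA` in G3.lean, with `tree_PA2` and `hR` instead of `tree_PA`.
-/

set_option autoImplicit false

namespace Pool.Agent.Lib.MP_9dbb0e_al

open Monoid Monoid.PushoutI

private theorem y2_conj {G : Type*} [Group G] (K : Subgroup G) (g h : G) :
    (QuotientGroup.mk (g * h) : G ⧸ K) = QuotientGroup.mk h ↔
      g ∈ K.map (MulAut.conj h).toMonoidHom := by
  rw [QuotientGroup.eq, Subgroup.mem_map]
  constructor
  · intro hh
    refine ⟨h⁻¹ * g * h, ?_, ?_⟩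
    · have h1 := K.inv_mem hh
      have e : ((g * h)⁻¹ * h)⁻¹ = h⁻¹ * g * h := by group
      rwa [e] at h1
    · show h * (h⁻¹ * g * h) * h⁻¹ = g
      group
  · rintro ⟨y, hy, rfl⟩
    have e : ((MulAut.conj h).toMonoidHom y * h)⁻¹ * h = y⁻¹ := by
      show (h * y * h⁻¹ * h)⁻¹ * h = y⁻¹
      group
    rw [e]
    exact K.inv_mem hy

section

variable {ι : Type} {G : ι → Type} [∀ i, Group (G i)] {H : Type} [Group H] (φ : ∀ i, H →* G i)

private theorem y2_vC (g h : PushoutI φ) :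
    g • vC φ h = vC φ h ↔ g ∈ (base φ).range.map (MulAut.conj h).toMonoidHom := by
  rw [← y2_conj, smul_vC]
  exact Sum.inl_injective.eq_iff

private theorem y2_vG (i : ι) (g h : PushoutI φ) :
    g • vG φ i h = vG φ i h ↔ g ∈ (of (φ := φ) i).range.map (MulAut.conj h).toMonoidHom := by
  rw [← y2_conj, smul_vG]
  constructor
  · intro hh
    have h1 := Sum.inr_injective hh
    exact eq_of_heq (Sigma.mk.inj h1).2
  · intro hh
    unfold vG
    rw [hh]

private theorem y2_edge (f h : PushoutI φ) (hx : f • vC φ h = vC φ h) :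
    ∃ c : H, f = h * base φ c * h⁻¹ := by
  rw [y2_vC, Subgroup.mem_map] at hx
  obtain ⟨y, ⟨c, rfl⟩, rfl⟩ := hx
  exact ⟨c, rfl⟩

end

theorem edge_stab {ι : Type} {G : ι → Type} [∀ i, Group (G i)] {H : Type} [Group H]
    (φ : ∀ i, H →* G i) (T : TM (BV φ)) (hT : ∀ x y, T.d x y = (BG φ).dist x y) (x y : BV φ)
    (h : T.d x y = 1) : ∃ u : PushoutI φ, ∀ f : PushoutI φ, f • x = x → f • y = y →
      ∃ c : H, f = u * base φ c * u⁻¹ := by
  rw [hT, SimpleGraph.dist_eq_one_iff_adj] at h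
  obtain ⟨k, i, ⟨e, -⟩ | ⟨e, -⟩⟩ := h
  · refine ⟨k, fun f hx _ => ?_⟩
    rw [e] at hx
    exact y2_edge φ f k hx
  · refine ⟨k, fun f _ hy => ?_⟩
    rw [e] at hy
    exact y2_edge φ f k hy

theorem pushout_PA2 {ι : Type} {G : ι → Type} [∀ i, Group (G i)] {H : Type} [Group H]
    (φ : ∀ i, H →* G i) (hφ : ∀ i, Function.Injective (φ i))
    (hR : ∀ T : TM (BV φ), (∀ x y, T.d x y = (BG φ).dist x y) → RayCond (PushoutI φ) T)
    (hG : ∀ i, PA (G i)) (hH : PA H) : PA (PushoutI φ) := by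
  obtain ⟨lev, par, r, h0, h1, h2⟩ := bs_levels φ hφ
  obtain ⟨T, hT⟩ := TM_of_parent (BG φ) lev par r h0 h1 h2
  have hact := bs_act φ T hT
  have : Nonempty (BV φ) := ⟨vC φ 1⟩
  refine tree_PA2 T hact (hR T hT) ?_
  intro x
  rcases x with q | ⟨i, q⟩
  · obtain ⟨h, rfl⟩ := QuotientGroup.mk_surjective q
    have e : MulAction.stabilizer (PushoutI φ)
        (Sum.inl (QuotientGroup.mk h) : BV φ) =
          (base φ).range.map (MulAut.conj h).toMonoidHom := by
      ext g
      rw [MulAction.mem_stabilizer_iff]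
      exact y2_vC φ g h
    rw [e]
    exact PA_conj _ _ (PA_range _ (base_injective hφ) hH)
  · obtain ⟨h, rfl⟩ := QuotientGroup.mk_surjective q
    have e : MulAction.stabilizer (PushoutI φ)
        (Sum.inr ⟨i, QuotientGroup.mk h⟩ : BV φ) =
          (of (φ := φ) i).range.map (MulAut.conj h).toMonoidHom := by
      ext g
      rw [MulAction.mem_stabilizer_iff]
      exact y2_vG φ i g h
    rw [e]
    exact PA_conj _ _ (PA_range _ (of_injective hφ i) (hG i))

end Pool.Agent.Lib.MP_9dbb0e_al
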