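import Pool.Agent.Lib.MP_9dbb0e_al.Y1
import Pool.Agent.Lib.MP_9dbb0e_al.Y2

/-!
# JOB Y3: an infinite label

PROOF. (Compare E0.lean and A2.lean, complete: COPY and edit.) Index type `Bool`: `q true = fun i => i ≠ s`, `q false = fun i => i ≠ t`, `r = fun i => i ≠ s ∧ i ≠ t`, `G b = Art (sub M (q b))`, `H = Art (sub M r)`, `φ b : H →* G b` from `exists_incl'`, injective by `vdl'`; `ι b : G b →* Art M`: take `incl M (q b)`, `κ = incl M r`; `(ι b).comp (φ b) = κ` (`art_ext`).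
`Ψ = PushoutI.lift ι κ _ : PushoutI φ →* Art M`, `Ψ (base φ c) = κ c = incl M r c`. `pushout_PA2 φ _ _ _ _`: `PA (G b)`, `PA H` from `h` (`¬ q true s`, `¬ q false t`, `¬ r s`). `hR`: `ray_of_key M T (bs_act φ T hT) Ψ hE r ⟨s, _⟩ hedge h`. `hE` (`EdgeFree T Ψ`): for `f` fixing `x, y`, `T.d x y = 1`: `edge_stab`: `f = u * base φ c * u⁻¹`; `Ψ f = 1` gives `Ψ (base φ c) = 1`, so
`incl M r c = 1`, `c = 1` (`incl_inj`), `f = 1`. `hedge`: with `u` from `edge_stab` the element `(Ψ u)⁻¹`: `(Ψ u)⁻¹ * Ψ f * Ψ u = Ψ (base φ c) = incl M r c ∈ Par M r`.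
So `PA (PushoutI φ)`. `E : Art M →* PushoutI φ` (`exists_lift M f`) with `f i = of true (σ ⟨i, _⟩)` if `i ≠ s`, `f s = of false (σ ⟨s, hst⟩)`; for `i ≠ s, t` also `f i = of false (σ ⟨i, _⟩)` (`of_apply_eq_base`); relations as in E1.lean / E0.lean (`{i, j} ≠ {s, t}` because `M s t = 0`). `Ψ.comp E = id` (`art_ext`), `PA_of_injective E`.
-/

set_option autoImplicit false

namespace Pool.Agent.Lib.MP_9dbb0e_al

open Monoid Monoid.PushoutI

private def y3_q {B : Type} (s t : B) : Bool → B → Prop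
  | true => fun i => i ≠ s
  | false => fun i => i ≠ t

private theorem y3_q_of {B : Type} (s t : B) (b : Bool) (i : B) (h : i ≠ s ∧ i ≠ t) :
    y3_q s t b i := by
  cases b
  · exact h.2
  · exact h.1

theorem PA_inf {B : Type} [Finite B] (M : CoxeterMatrix B) (s t : B) (hst : s ≠ t)
    (h0 : M.M s t = 0) (h : ∀ R : B → Prop, (∃ i, ¬ R i) → PA (Art (sub M R))) :
    PA (Art M) := by
  classical
  choose φ hφ using fun b => exists_incl' M (fun i => i ≠ s ∧ i ≠ t) (y3_q s t b)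
    (y3_q_of s t b)
  have hφi : ∀ b, Function.Injective (φ b) := fun b =>
    vdl' M (fun i => i ≠ s ∧ i ≠ t) (y3_q s t b) (y3_q_of s t b) (φ b) (hφ b)
  choose ι hι using fun b => exists_incl M (y3_q s t b)
  have hc : ∀ b, (ι b).comp (φ b) = incl M (fun i => i ≠ s ∧ i ≠ t) := by
    intro b
    apply art_ext
    intro x
    rw [MonoidHom.comp_apply, hφ, hι, incl_σ]
  have hG : ∀ b, PA (Art (sub M (y3_q s t b))) := by
    intro b
    cases b
    · exact h _ ⟨t, fun h1 => h1 rfl⟩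
    · exact h _ ⟨s, fun h1 => h1 rfl⟩
  have hH : PA (Art (sub M (fun i => i ≠ s ∧ i ≠ t))) := h _ ⟨s, fun h1 => h1.1 rfl⟩
  obtain ⟨Ψ, hΨ⟩ : ∃ Ψ : PushoutI φ →* Art M,
      Ψ = PushoutI.lift ι (incl M (fun i => i ≠ s ∧ i ≠ t)) hc := ⟨_, rfl⟩
  have hΨb : ∀ c, Ψ (base φ c) = incl M (fun i => i ≠ s ∧ i ≠ t) c := by
    intro c
    rw [hΨ, PushoutI.lift_base]
  have hΨc : ∀ (u : PushoutI φ) (c : Art (sub M (fun i => i ≠ s ∧ i ≠ t))),
      (Ψ u)⁻¹ * Ψ (u * base φ c * u⁻¹) * (Ψ u)⁻¹⁻¹ =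
        incl M (fun i => i ≠ s ∧ i ≠ t) c := by
    intro u c
    rw [map_mul, map_mul, map_inv, hΨb]
    group
  have hPA : PA (PushoutI φ) := by
    refine pushout_PA2 φ hφi (fun T hT => ?_) hG hH
    refine ray_of_key M T (bs_act φ T hT) Ψ ?_ (fun i => i ≠ s ∧ i ≠ t)
      ⟨s, fun h1 => h1.1 rfl⟩ ?_ h
    · intro f x y hxy hx hy hf
      obtain ⟨u, hu⟩ := edge_stab φ T hT x y hxy
      obtain ⟨c, rfl⟩ := hu f hx hy
      have h1 := hΨc u c
      rw [hf, mul_one, mul_inv_cancel] at h1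
      have h2 : c = 1 := incl_inj M _ (by rw [← h1, map_one])
      rw [h2, map_one, mul_one, mul_inv_cancel]
    · intro x y hxy
      obtain ⟨u, hu⟩ := edge_stab φ T hT x y hxy
      refine ⟨(Ψ u)⁻¹, fun f hx hy => ?_⟩
      obtain ⟨c, rfl⟩ := hu f hx hy
      rw [hΨc u c]
      exact ⟨c, rfl⟩
  -- the embedding
  have hT : ∀ (i : B) (hs : i ≠ s) (ht : i ≠ t),
      (of (φ := φ) true (σ (sub M (y3_q s t true)) ⟨i, hs⟩) : PushoutI φ) =
        of (φ := φ) false (σ (sub M (y3_q s t false)) ⟨i, ht⟩) := by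
    intro i hs ht
    have e1 := of_apply_eq_base φ true (σ (sub M (fun i => i ≠ s ∧ i ≠ t)) ⟨i, hs, ht⟩)
    have e2 := of_apply_eq_base φ false (σ (sub M (fun i => i ≠ s ∧ i ≠ t)) ⟨i, hs, ht⟩)
    rw [hφ] at e1 e2
    rw [e1, e2]
  let f : B → PushoutI φ := fun i =>
    if h : i ≠ s then of (φ := φ) true (σ (sub M (y3_q s t true)) ⟨i, h⟩)
    else of (φ := φ) false (σ (sub M (y3_q s t false)) ⟨s, hst⟩)
  have f1 : ∀ (i : B) (hs : i ≠ s), f i = of (φ := φ) true (σ (sub M (y3_q s t true)) ⟨i, hs⟩) :=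
    fun i hs => dif_pos hs
  have f2 : ∀ (i : B) (ht : i ≠ t),
      f i = of (φ := φ) false (σ (sub M (y3_q s t false)) ⟨i, ht⟩) := by
    intro i ht
    by_cases hs : i = s
    · subst hs
      exact dif_neg (fun h => h rfl)
    · rw [f1 i hs, hT i hs ht]
  obtain ⟨E, hE⟩ := exists_lift M f (by
    intro i j hij hm
    by_cases hs : i ≠ s ∧ j ≠ s
    · rw [f1 i hs.1, f1 j hs.2, ← alt_map, ← alt_map]
      exact congrArg _ (braid (sub M (y3_q s t true)) ⟨i, hs.1⟩ ⟨j, hs.2⟩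
        (fun h => hij (congrArg Subtype.val h)) hm)
    · by_cases ht : i ≠ t ∧ j ≠ t
      · rw [f2 i ht.1, f2 j ht.2, ← alt_map, ← alt_map]
        exact congrArg _ (braid (sub M (y3_q s t false)) ⟨i, ht.1⟩ ⟨j, ht.2⟩
          (fun h => hij (congrArg Subtype.val h)) hm)
      · exfalso
        have h3 : (i = s ∧ j = t) ∨ (i = t ∧ j = s) := by
          by_cases a1 : i = s <;> by_cases a2 : j = s <;> by_cases a3 : i = t <;>
            by_cases a4 : j = t <;> simp_all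
        rcases h3 with ⟨rfl, rfl⟩ | ⟨rfl, rfl⟩
        · exact hm h0
        · rw [M.symmetric] at hm
          exact hm h0)
  apply PA_of_injective E _ hPA
  have hcomp : Ψ.comp E = MonoidHom.id _ := by
    apply art_ext
    intro i
    rw [MonoidHom.comp_apply, hE, MonoidHom.id_apply, hΨ]
    by_cases hs : i = s
    · have ht : i ≠ t := by
        rw [hs]
        exact hst
      rw [f2 i ht, PushoutI.lift_of, hι]
    · rw [f1 i hs, PushoutI.lift_of, hι]
  intro x y hxy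
  have e1 := DFunLike.congr_fun hcomp x
  have e2 := DFunLike.congr_fun hcomp y
  rw [MonoidHom.comp_apply, MonoidHom.id_apply] at e1 e2
  rw [← e1, ← e2, hxy]

end Pool.Agent.Lib.MP_9dbb0e_al
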