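import Pool.Agent.Lib.MP_9dbb0e_al.Y3
import Pool.Agent.Lib.MP_9dbb0e_al.D4

/-!
# JOB Y4: reduction to the irreducible subsets with finite labels

`Cl M p`: all labels in `p` are finite. `Irr M p`: `p` is not the union of two nonempty disjoint commuting subsets.
PROOF of `PA_cliques` (compare E2.lean, complete): CLAIM: for every `q : B → Prop`, `PA (Art (sub M q))`; strong induction on `Nat.card {i // q i}`. CASE 1: there are `s, t` with `q s`, `q t`, `M s t = 0` (so `s ≠ t`, `M.diagonal`). `PA_inf (sub M q) ⟨s, _⟩ ⟨t, _⟩`; its hypothesis: for `R : {i // q i} → Prop` with `¬ R i` for some `i`: `PA_sub_sub M q R r` with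
`r i = ∃ h : q i, R ⟨i, h⟩`, and the induction hypothesis for `r` (`Nat.card {i // r i} < Nat.card {i // q i}`: see E2.lean). CASE 2: `Cl M q`, and `q` is not irreducible: there is `u : B → Prop`, elements `i, j` with `q i, u i`, `q j, ¬ u j` and `M x y = 2` for `q x, u x, q y, ¬ u y`: `PA_split (sub M q) (fun x => u x.1)`, `PA_sub_sub` and the induction hypothesis for `q ∧ u`, `q ∧ ¬ u` (both smaller).
CASE 3: `Cl M q` and `Irr M q`: hypothesis `h q`. At the end `PA_top M (fun _ => True)`.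
`PA_D`: `PA_cliques`: let `p` be `Cl` and `Irr`. `PA_matching_fin (sub M p)`: its hypothesis: `3 ≤ M i j`, `3 ≤ M i k`, `j ≠ k` gives `M j k = 0` (`htri`), contradiction to `Cl`.
-/

set_option autoImplicit false

namespace Pool.Agent.Lib.MP_9dbb0e_al

/-- all labels in `p` are finite -/
def Cl {B : Type} (M : CoxeterMatrix B) (p : B → Prop) : Prop := ∀ i j, p i → p j → M.M i j ≠ 0

/-- `p` is irreducible -/
def Irr {B : Type} (M : CoxeterMatrix B) (p : B → Prop) : Prop :=
  ∀ u : B → Prop, (∃ i, p i ∧ u i) → (∃ i, p i ∧ ¬ u i) →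
    ∃ i j, p i ∧ u i ∧ p j ∧ ¬ u j ∧ M.M i j ≠ 2

private theorem y4_main {B : Type} [Finite B] (M : CoxeterMatrix B)
    (h : ∀ p : B → Prop, Cl M p → Irr M p → PA (Art (sub M p))) :
    ∀ (n : ℕ) (q : B → Prop), Nat.card {i // q i} = n → PA (Art (sub M q)) := by
  intro n
  induction n using Nat.strong_induction_on with
  | _ n ih =>
    intro q hn
    -- smaller subsets
    have hrem : ∀ r : B → Prop, (∀ i, r i → q i) → (∃ i, q i ∧ ¬ r i) →
        PA (Art (sub M r)) := by
      rintro r hr ⟨u, hu, hu'⟩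
      apply ih (Nat.card {i // r i}) _ _ rfl
      rw [← hn]
      have h3 : {i | r i} ⊂ {i | q i} := by
        refine ⟨fun i hi => hr i hi, fun h4 => ?_⟩
        exact hu' (h4 hu)
      exact Set.ncard_lt_ncard h3 (Set.toFinite _)
    by_cases hq : Cl M q
    · by_cases hi : Irr M q
      · exact h q hq hi
      · unfold Irr at hi
        push Not at hi
        obtain ⟨u, ⟨i, hi1, hi2⟩, ⟨j, hj1, hj2⟩, hu⟩ := hi
        refine PA_split (sub M q) (fun x => u x.1) (fun x y hx hy => hu x.1 y.1 x.2 hx y.2 hy)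
          ?_ ?_
        · exact PA_sub_sub M q _ (fun x => q x ∧ u x) (fun x hx h3 => ⟨hx, h3⟩)
            (hrem _ (fun x hx => hx.1) ⟨j, hj1, fun h3 => hj2 h3.2⟩) (fun x hx => ⟨hx.1, hx.2⟩)
        · exact PA_sub_sub M q _ (fun x => q x ∧ ¬ u x) (fun x hx h3 => ⟨hx, h3⟩)
            (hrem _ (fun x hx => hx.1) ⟨i, hi1, fun h3 => h3.2 hi2⟩) (fun x hx => ⟨hx.1, hx.2⟩)
    · unfold Cl at hq
      push Not at hq
      obtain ⟨s, t, hs, ht, hst0⟩ := hq
      have hst : s ≠ t := by
        rintro rfl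
        rw [M.diagonal] at hst0
        exact one_ne_zero hst0
      refine PA_inf (sub M q) ⟨s, hs⟩ ⟨t, ht⟩ (fun h3 => hst (congrArg Subtype.val h3)) hst0 ?_
      rintro R ⟨i, hR⟩
      exact PA_sub_sub M q R (fun x => ∃ hx : q x, R ⟨x, hx⟩) (fun x hx h3 => ⟨hx, h3⟩)
        (hrem _ (fun x hx => hx.1) ⟨i.1, i.2, fun h3 => hR h3.2⟩) (fun x hx => hx)

theorem PA_cliques {B : Type} [Finite B] (M : CoxeterMatrix B)
    (h : ∀ p : B → Prop, Cl M p → Irr M p → PA (Art (sub M p))) : PA (Art M) :=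
  PA_top M (fun _ => True) (fun _ => trivial) (y4_main M h _ _ rfl)

theorem PA_D {B : Type} [Finite B] (M : CoxeterMatrix B)
    (htri : ∀ i j k, j ≠ k → 3 ≤ M.M i j → 3 ≤ M.M i k → M.M j k = 0) : PA (Art M) := by
  refine PA_cliques M fun p hCl _ => ?_
  refine PA_matching_fin (sub M p) (fun i j => hCl i.1 j.1 i.2 j.2) fun i j k h1 h2 => ?_
  by_contra hne
  exact hCl j.1 k.1 j.2 k.2 (htri i.1 j.1 k.1 (fun e => hne (Subtype.ext e)) h1 h2)

end Pool.Agent.Lib.MP_9dbb0e_al
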