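import Pool.Agent.Lib.MP_9dbb0e_al.Y4

/-!
# Reduction to irreducible subsets with at least three elements
-/

set_option autoImplicit false

namespace Pool.Agent.Lib.MP_9dbb0e_al

theorem PA_small {B : Type} [Finite B] (M : CoxeterMatrix B) (h0 : ∀ i j, M.M i j ≠ 0)
    (hc : Nat.card B ≤ 2) : PA (Art M) := by
  refine PA_matching_fin M h0 fun i j k h1 h2 => ?_
  by_contra hjk
  have hij : i ≠ j := by
    rintro rfl
    rw [M.diagonal] at h1
    omega
  have hik : i ≠ k := by
    rintro rfl
    rw [M.diagonal] at h2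
    omega
  have hinj : Function.Injective ![i, j, k] := by
    intro x y hxy
    fin_cases x <;> fin_cases y <;>
      simp_all [Matrix.cons_val_zero, Matrix.cons_val_one, Ne.symm hij, Ne.symm hik, Ne.symm hjk]
  have h3 := Nat.card_le_card_of_injective _ hinj
  rw [Nat.card_eq_fintype_card, Fintype.card_fin] at h3
  omega

theorem PA_cliques3 {B : Type} [Finite B] (M : CoxeterMatrix B)
    (h : ∀ p : B → Prop, Cl M p → Irr M p → 3 ≤ Nat.card {i // p i} → PA (Art (sub M p))) :
    PA (Art M) := by
  refine PA_cliques M fun p hp hi => ?_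
  by_cases hc : 3 ≤ Nat.card {i // p i}
  · exact h p hp hi hc
  · exact PA_small (sub M p) (fun i j => hp i.1 j.1 i.2 j.2) (by omega)

end Pool.Agent.Lib.MP_9dbb0e_al
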